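import Pool.Agent.Run7.h927.WG.C

set_option autoImplicit false

/-! Exponential sums depending on a random real parameter. -/

namespace Pool.Agent.Run7.h927.WS
open MeasureTheory Finset Complex
open Pool.Agent.Run7.h927.WG (e norm_e e_add e_zero e_conj cont_e cauchy w w_le w_le' w_nonneg cont_w int_gauss val_gauss int_w box box_eq gauss_id int_ge e_sum)

noncomputable section

/-- the sum of `e(θ φ_x(t))` over `x` in `X` -/
def S (X : Finset ℕ) (φ : ℕ → C(ℝ, ℝ)) (θ t : ℝ) : ℂ := ∑ x ∈ X, e (θ * φ x t)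

lemma norm_S (X : Finset ℕ) (φ : ℕ → C(ℝ, ℝ)) (θ t : ℝ) : ‖S X φ θ t‖ ≤ X.card := by
  unfold S
  refine (norm_sum_le _ _).trans ?_
  simp [norm_e]

lemma cont_S (X : Finset ℕ) (φ : ℕ → C(ℝ, ℝ)) : Continuous (fun z : ℝ × ℝ => S X φ z.1 z.2) := by
  unfold S
  refine continuous_finsetSum _ fun x _ => cont_e.comp ?_
  fun_prop

lemma sq_S (X : Finset ℕ) (φ : ℕ → C(ℝ, ℝ)) (θ t : ℝ) :
    ((‖S X φ θ t‖ ^ 2 : ℝ) : ℂ) = ∑ x ∈ X, ∑ y ∈ X, e (θ * (φ x t - φ y t)) := by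
  have h := Complex.mul_conj (S X φ θ t)
  rw [Complex.normSq_eq_norm_sq] at h
  rw [← h]
  unfold S
  rw [map_sum, sum_mul_sum]
  refine sum_congr rfl fun x _ => sum_congr rfl fun y _ => ?_
  rw [e_conj, ← e_add]
  congr 1
  ring

/-- the hypothesis on the mean square -/
def MS (X : Finset ℕ) (φ : ℕ → C(ℝ, ℝ)) (a b κ K : ℝ) : Prop :=
  ∀ θ : ℝ, θ ≠ 0 → ∫ t in a..b, ‖S X φ θ t‖ ^ 2 ≤ X.card * (K * (1 + 1 / (|θ| * κ)))

/-- the mean of the absolute value of the exponential sum -/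
def U (X : Finset ℕ) (φ : ℕ → C(ℝ, ℝ)) (a b θ : ℝ) : ℝ := ∫ t in a..b, ‖S X φ θ t‖

lemma cont_S_right (X : Finset ℕ) (φ : ℕ → C(ℝ, ℝ)) (θ : ℝ) : Continuous (fun t => S X φ θ t) :=
  (cont_S X φ).comp (continuous_const.prodMk continuous_id)

lemma U_nonneg (X : Finset ℕ) (φ : ℕ → C(ℝ, ℝ)) {a b : ℝ} (hab : a < b) (θ : ℝ) : 0 ≤ U X φ a b θ :=
  intervalIntegral.integral_nonneg hab.le fun t _ => norm_nonneg _

lemma U_triv (X : Finset ℕ) (φ : ℕ → C(ℝ, ℝ)) {a b : ℝ} (hab : a < b) (θ : ℝ) : U X φ a b θ ≤ (b - a) * X.card := by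
  unfold U
  calc ∫ t in a..b, ‖S X φ θ t‖ ≤ ∫ _t in a..b, (X.card : ℝ) := by
        apply intervalIntegral.integral_mono_on hab.le
        · exact (cont_S_right X φ θ).norm.intervalIntegrable _ _
        · exact intervalIntegrable_const
        · exact fun t _ => norm_S X φ θ t
    _ = _ := by rw [intervalIntegral.integral_const, smul_eq_mul]

lemma U_sq (X : Finset ℕ) (φ : ℕ → C(ℝ, ℝ)) {κ K a b : ℝ} (h : MS X φ a b κ K) (θ : ℝ) (hθ : θ ≠ 0) (hab : a < b) :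
    U X φ a b θ ^ 2 ≤ (b - a) * (X.card * (K * (1 + 1 / (|θ| * κ)))) := by
  unfold U
  refine (cauchy _ (cont_S_right X φ θ).norm a b hab).trans ?_
  exact mul_le_mul_of_nonneg_left (h θ hθ) (by linarith)

lemma U_big (X : Finset ℕ) (φ : ℕ → C(ℝ, ℝ)) {κ K a b : ℝ} (hK : 0 ≤ K) (h : MS X φ a b κ K) (θ : ℝ)
    (hθ : 1 ≤ |θ| * κ) (hab : a < b) :
    U X φ a b θ ≤ √(2 * (b - a) * K * X.card) := by
  have hθ0 : θ ≠ 0 := by
    rintro rfl
    rw [abs_zero, zero_mul] at hθ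
    linarith
  have hr : 0 < b - a := by linarith
  have hT : (0 : ℝ) ≤ X.card := Nat.cast_nonneg _
  apply Real.le_sqrt_of_sq_le
  refine (U_sq X φ h θ hθ0 hab).trans ?_
  have h1 : 1 / (|θ| * κ) ≤ 1 := (div_le_one (by linarith)).2 hθ
  calc (b - a) * (X.card * (K * (1 + 1 / (|θ| * κ)))) ≤ (b - a) * (X.card * (K * (1 + 1))) := by gcongr
    _ = _ := by ring

lemma U_small (X : Finset ℕ) (φ : ℕ → C(ℝ, ℝ)) {κ K a b : ℝ} (hκ : 0 < κ) (hK : 0 ≤ K) (h : MS X φ a b κ K) (θ : ℝ)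
    (hθ0 : θ ≠ 0) (hθ : |θ| * κ < 1) (hab : a < b) :
    U X φ a b θ ≤ √(2 * (b - a) * K / (|θ| * κ)) * √X.card := by
  have hθp : 0 < |θ| := abs_pos.2 hθ0
  have hr : 0 < b - a := by linarith
  have hT : (0 : ℝ) ≤ X.card := Nat.cast_nonneg _
  have hc : 0 < |θ| * κ := by positivity
  rw [← Real.sqrt_mul (by positivity)]
  apply Real.le_sqrt_of_sq_le
  refine (U_sq X φ h θ hθ0 hab).trans ?_
  have h1 : 1 ≤ 1 / (|θ| * κ) := (one_le_div hc).2 hθ.le
  calc (b - a) * (X.card * (K * (1 + 1 / (|θ| * κ))))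
      ≤ (b - a) * (X.card * (K * (1 / (|θ| * κ) + 1 / (|θ| * κ)))) := by gcongr
    _ = _ := by ring

variable {s : ℕ}

/-- the integral over the frequencies -/
def Q (X : Fin s → Finset ℕ) (φ : Fin s → ℕ → C(ℝ, ℝ)) (η Y : ℝ) (α : Fin s → ℝ) : ℝ :=
  ∫ θ, w η Y θ * ∏ i, ‖S (X i) (φ i) θ (α i)‖

/-- the uniform measure on the box -/
def box (s : ℕ) (a b : ℝ) : Measure (Fin s → ℝ) := Measure.pi (fun _ => volume.restrict (Set.Icc a b))

instance (s : ℕ) (a b : ℝ) : IsFiniteMeasure (box s a b) := by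
  unfold box
  infer_instance

lemma box_eq (s : ℕ) (a b : ℝ) : box s a b = volume.restrict (Set.pi Set.univ fun _ => Set.Icc a b) := by
  unfold box
  rw [volume_pi, Measure.restrict_pi_pi]

lemma int_F (X : Fin s → Finset ℕ) (φ : Fin s → ℕ → C(ℝ, ℝ)) {η Y : ℝ} (hη : 0 < η) (hY : η ≤ Y) (a b : ℝ) :
    Integrable (fun z : (Fin s → ℝ) × ℝ => w η Y z.2 * ∏ i, ‖S (X i) (φ i) z.2 (z.1 i)‖) ((box s a b).prod volume) := by
  have h1 : Integrable (fun z : (Fin s → ℝ) × ℝ => (∏ i, ((X i).card : ℝ)) * w η Y z.2) ((box s a b).prod volume) :=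
    Integrable.mul_prod (f := fun _ : Fin s → ℝ => ∏ i, ((X i).card : ℝ)) (integrable_const _) (int_w hη hY)
  refine h1.mono' ?_ ?_
  · apply Continuous.aestronglyMeasurable
    refine ((cont_w η Y).comp continuous_snd).mul (continuous_finsetProd _ fun i _ => ?_)
    exact ((cont_S (X i) (φ i)).comp (continuous_snd.prodMk ((continuous_apply i).comp continuous_fst))).norm
  · refine Filter.Eventually.of_forall fun z => ?_
    have h2 := w_nonneg hη hY z.2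
    rw [norm_mul, Real.norm_eq_abs, abs_of_nonneg h2, Real.norm_eq_abs,
      abs_of_nonneg (prod_nonneg fun i _ => norm_nonneg _), mul_comm]
    exact mul_le_mul_of_nonneg_right (prod_le_prod (fun i _ => norm_nonneg _) fun i _ => norm_S _ _ _ _) h2

lemma int_Q (X : Fin s → Finset ℕ) (φ : Fin s → ℕ → C(ℝ, ℝ)) {η Y : ℝ} (hη : 0 < η) (hY : η ≤ Y) (a b : ℝ) :
    Integrable (Q X φ η Y) (box s a b) :=
  (int_F X φ hη hY a b).integral_prod_left

lemma Q_nonneg (X : Fin s → Finset ℕ) (φ : Fin s → ℕ → C(ℝ, ℝ)) {η Y : ℝ} (hη : 0 < η) (hY : η ≤ Y) (α : Fin s → ℝ) :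
    0 ≤ Q X φ η Y α :=
  integral_nonneg fun θ => mul_nonneg (w_nonneg hη hY θ) (prod_nonneg fun i _ => norm_nonneg _)

lemma mean_Q (X : Fin s → Finset ℕ) (φ : Fin s → ℕ → C(ℝ, ℝ)) {η Y : ℝ} (hη : 0 < η) (hY : η ≤ Y) {a b : ℝ} (hab : a < b) :
    ∫ α, Q X φ η Y α ∂(box s a b) = ∫ θ, w η Y θ * ∏ i, U (X i) (φ i) a b θ ∧
      Integrable (fun θ => w η Y θ * ∏ i, U (X i) (φ i) a b θ) := by
  have h1 : ∀ θ : ℝ, ∫ α, w η Y θ * ∏ i, ‖S (X i) (φ i) θ (α i)‖ ∂(box s a b) =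
      w η Y θ * ∏ i, U (X i) (φ i) a b θ := by
    intro θ
    rw [integral_const_mul]
    congr 1
    unfold box
    rw [integral_fintype_prod_eq_prod (𝕜 := ℝ) (fun i t => ‖S (X i) (φ i) θ t‖)]
    refine prod_congr rfl fun i _ => ?_
    unfold U
    rw [intervalIntegral.integral_of_le hab.le, integral_Icc_eq_integral_Ioc]
  constructor
  · unfold Q
    rw [integral_integral_swap (int_F X φ hη hY a b)]
    exact integral_congr_ae (Filter.Eventually.of_forall h1)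
  · exact (int_F X φ hη hY a b).integral_prod_right.congr (Filter.Eventually.of_forall h1)

end

end Pool.Agent.Run7.h927.WS
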