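import Pool.Agent.Run7.h927.WG.H
import Pool.Agent.Run7.h927.WS.A

set_option autoImplicit false

/-! Families of phases depending on random parameters: means, the weighted number of the solutions, its lower bound. -/

namespace Pool.Agent.Run7.h927.WS
open MeasureTheory Finset Filter
open Pool.Agent.Run7.h927.WG (e norm_e e_add e_zero e_conj cont_e cauchy w w_le w_le' w_nonneg cont_w int_gauss val_gauss int_w box box_eq gauss_id int_ge e_sum gauss_shift bc)

noncomputable section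

/-- the bound for the mean -/
theorem mean_bound (m : ℕ) (X : Fin (4 + m) → Finset ℕ) (φ : Fin (4 + m) → ℕ → C(ℝ, ℝ)) {κ K a b : ℝ}
    (hκ : 0 < κ) (hK : 0 < K) (hMS : ∀ i, MS (X i) (φ i) a b κ K)
    {η Y : ℝ} (hη : 0 < η) (hY : η ≤ Y) (hab : a < b) (c₀ : ℝ) (hc₀ : c₀ = 2 * (b - a) * K) :
    ∫ α, Q X φ η Y α ∂(box (4 + m) a b) ≤ 1 / η * ∏ i, √(c₀ * (X i).card) +
      2 / κ * (Real.pi * Y ^ 2 * c₀ ^ 2 / κ ^ 2 * ((∏ i : Fin 4, √((X (Fin.castAdd m i)).card : ℝ)) *
        ∏ j : Fin m, ((b - a) * (X (Fin.natAdd 4 j)).card))) := by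
  have hr : 0 < b - a := by linarith
  have hc0 : 0 < c₀ := by rw [hc₀]; positivity
  have hpi := Real.pi_pos
  obtain ⟨A, hA⟩ : ∃ A, A = ∏ i, √(c₀ * (X i).card) := ⟨_, rfl⟩
  obtain ⟨P₄, hP₄⟩ : ∃ P₄, P₄ = (∏ i : Fin 4, √((X (Fin.castAdd m i)).card : ℝ)) *
        ∏ j : Fin m, ((b - a) * (X (Fin.natAdd 4 j)).card) := ⟨_, rfl⟩
  have hA0 : 0 ≤ A := by rw [hA]; positivity
  have hP0 : 0 ≤ P₄ := by
    rw [hP₄]
    exact mul_nonneg (by positivity) (prod_nonneg fun j _ => mul_nonneg hr.le (Nat.cast_nonneg _))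
  rw [← hA, ← hP₄]
  obtain ⟨B, hB⟩ : ∃ B, B = Real.pi * Y ^ 2 * c₀ ^ 2 / κ ^ 2 * P₄ := ⟨_, rfl⟩
  have hB0 : 0 ≤ B := by rw [hB]; positivity
  rw [← hB]
  obtain ⟨h1, h2⟩ := mean_Q X φ hη hY hab
  rw [h1]
  obtain ⟨I, hI⟩ : ∃ I : Set ℝ, I = Set.Icc (-(1 / κ)) (1 / κ) := ⟨_, rfl⟩
  have hIm : MeasurableSet I := by rw [hI]; exact measurableSet_Icc
  have hIv : volume I = ENNReal.ofReal (2 / κ) := by
    rw [hI, Real.volume_Icc]
    congr 1
    ring
  have h3 : ∀ θ : ℝ, θ ≠ 0 → w η Y θ * ∏ i, U (X i) (φ i) a b θ ≤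
      Real.exp (-(Real.pi * η ^ 2) * θ ^ 2) * A + I.indicator (fun _ => B) θ := by
    intro θ hθ
    have hθp : 0 < |θ| := abs_pos.2 hθ
    have hw := w_nonneg hη hY θ
    have hU0 : 0 ≤ ∏ i, U (X i) (φ i) a b θ := prod_nonneg fun i _ => U_nonneg _ _ hab _
    have hind : 0 ≤ I.indicator (fun _ => B) θ := Set.indicator_nonneg (fun _ _ => hB0) _
    by_cases hbig : 1 ≤ |θ| * κ
    · have h4 : ∏ i, U (X i) (φ i) a b θ ≤ A := by
        rw [hA]
        refine prod_le_prod (fun i _ => U_nonneg _ _ hab _) fun i _ => ?_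
        rw [hc₀]
        exact U_big (X i) (φ i) hK.le (hMS i) θ hbig hab
      have h5 := w_le η Y θ
      calc w η Y θ * ∏ i, U (X i) (φ i) a b θ ≤ Real.exp (-(Real.pi * η ^ 2) * θ ^ 2) * A :=
            mul_le_mul h5 h4 hU0 (Real.exp_pos _).le
        _ ≤ _ := by linarith
    · have hlt : |θ| * κ < 1 := not_le.1 hbig
      have hθI : θ ∈ I := by
        rw [hI, Set.mem_Icc, ← abs_le, le_div_iff₀ hκ]
        exact hlt.le
      rw [Set.indicator_of_mem hθI]
      have hck : 0 < |θ| * κ := by positivity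
      have h4 : ∏ i, U (X i) (φ i) a b θ ≤ (c₀ / (|θ| * κ)) ^ 2 * P₄ := by
        rw [Fin.prod_univ_add, hP₄, ← mul_assoc]
        refine mul_le_mul ?_ ?_ (prod_nonneg fun i _ => U_nonneg _ _ hab _) (by positivity)
        · calc ∏ i : Fin 4, U (X (Fin.castAdd m i)) (φ (Fin.castAdd m i)) a b θ
              ≤ ∏ i : Fin 4, (√(c₀ / (|θ| * κ)) * √((X (Fin.castAdd m i)).card : ℝ)) := by
                refine prod_le_prod (fun i _ => U_nonneg _ _ hab _) fun i _ => ?_
                rw [hc₀]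
                exact U_small _ _ hκ hK.le (hMS _) θ hθ hlt hab
            _ = (c₀ / (|θ| * κ)) ^ 2 * ∏ i : Fin 4, √((X (Fin.castAdd m i)).card : ℝ) := by
                rw [prod_mul_distrib, prod_const, card_univ, Fintype.card_fin]
                congr 1
                have h6 : √(c₀ / (|θ| * κ)) ^ 2 = c₀ / (|θ| * κ) := Real.sq_sqrt (by positivity)
                calc √(c₀ / (|θ| * κ)) ^ 4 = (√(c₀ / (|θ| * κ)) ^ 2) ^ 2 := by ring
                  _ = _ := by rw [h6]
        · exact prod_le_prod (fun i _ => U_nonneg _ _ hab _) fun i _ => U_triv _ _ hab _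
      have h5 := w_le' hη hY θ
      have h6 : w η Y θ * ∏ i, U (X i) (φ i) a b θ ≤ B := by
        calc w η Y θ * ∏ i, U (X i) (φ i) a b θ ≤ (Real.pi * Y ^ 2 * θ ^ 2) * ((c₀ / (|θ| * κ)) ^ 2 * P₄) :=
              mul_le_mul h5 h4 hU0 (by positivity)
          _ = B := by
              rw [hB]
              have : θ ^ 2 = |θ| ^ 2 := (sq_abs θ).symm
              rw [this]
              field_simp
      have h7 : 0 ≤ Real.exp (-(Real.pi * η ^ 2) * θ ^ 2) * A := mul_nonneg (Real.exp_pos _).le hA0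
      linarith
  have hi1 : Integrable (fun θ : ℝ => Real.exp (-(Real.pi * η ^ 2) * θ ^ 2) * A) := (int_gauss hη).mul_const A
  have hi2 : Integrable (I.indicator (fun _ : ℝ => B)) := by
    rw [integrable_indicator_iff hIm]
    exact integrableOn_const (by rw [hIv]; exact ENNReal.ofReal_ne_top)
  have h8 : ∀ᵐ θ : ℝ, w η Y θ * ∏ i, U (X i) (φ i) a b θ ≤
      Real.exp (-(Real.pi * η ^ 2) * θ ^ 2) * A + I.indicator (fun _ => B) θ := by
    have : ∀ᵐ θ : ℝ, θ ≠ 0 := by
      rw [ae_iff]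
      simp
    filter_upwards [this] with θ hθ
    exact h3 θ hθ
  refine (integral_mono_ae h2 (hi1.add hi2) h8).trans (le_of_eq ?_)
  have h9 : ∫ θ : ℝ, (Real.exp (-(Real.pi * η ^ 2) * θ ^ 2) * A + I.indicator (fun _ => B) θ) =
      1 / η * A + 2 / κ * B := by
    rw [integral_add hi1 hi2, integral_mul_const, val_gauss hη, integral_indicator_const _ hIm, smul_eq_mul]
    congr 2
    rw [measureReal_def, hIv, ENNReal.toReal_ofReal (by positivity)]
  exact h9

variable {s : ℕ}

/-- the value of the form -/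
def L (φ : Fin s → ℕ → C(ℝ, ℝ)) (α : Fin s → ℝ) (x : Fin s → ℕ) : ℝ := ∑ i, φ i (x i) (α i)

/-- the number of the solutions, with Gaussian weights -/
def N (X : Fin s → Finset ℕ) (φ : Fin s → ℕ → C(ℝ, ℝ)) (η : ℝ) (α : Fin s → ℝ) (ν : ℝ) : ℝ :=
  ∑ x ∈ Fintype.piFinset X, Real.exp (-Real.pi * ((L φ α x - ν) / η) ^ 2)

lemma prod_S (X : Fin s → Finset ℕ) (φ : Fin s → ℕ → C(ℝ, ℝ)) (θ : ℝ) (α : Fin s → ℝ) :
    ∏ i, S (X i) (φ i) θ (α i) = ∑ x ∈ Fintype.piFinset X, e (θ * L φ α x) := by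
  unfold S
  rw [prod_univ_sum]
  refine sum_congr rfl fun x _ => ?_
  rw [e_sum]
  congr 1
  unfold L
  rw [mul_sum]

lemma N_int (X : Fin s → Finset ℕ) (φ : Fin s → ℕ → C(ℝ, ℝ)) {η : ℝ} (hη : 0 < η) (α : Fin s → ℝ) (ν : ℝ) :
    ((N X φ η α ν : ℝ) : ℂ) = η * ∫ θ : ℝ, ((Real.exp (-(Real.pi * η ^ 2) * θ ^ 2) : ℝ) : ℂ) *
      (e (-(θ * ν)) * ∏ i, S (X i) (φ i) θ (α i)) := by
  unfold N
  rw [Complex.ofReal_sum]
  have h1 : ∀ θ : ℝ, ((Real.exp (-(Real.pi * η ^ 2) * θ ^ 2) : ℝ) : ℂ) *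
      (e (-(θ * ν)) * ∏ i, S (X i) (φ i) θ (α i)) =
      ∑ x ∈ Fintype.piFinset X, ((Real.exp (-(Real.pi * η ^ 2) * θ ^ 2) : ℝ) : ℂ) * e (θ * (L φ α x - ν)) := by
    intro θ
    rw [prod_S, mul_sum, mul_sum]
    refine sum_congr rfl fun x _ => ?_
    rw [← e_add]
    congr 2
    ring
  simp only [h1]
  rw [integral_finsetSum _ fun x _ => int_ge hη _, mul_sum]
  exact sum_congr rfl fun x _ => gauss_id hη _

/-- comparison of two scales -/
theorem compare (X : Fin s → Finset ℕ) (φ : Fin s → ℕ → C(ℝ, ℝ)) {η Y : ℝ} (hη : 0 < η) (hY : η ≤ Y) (α : Fin s → ℝ) (ν : ℝ) :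
    |N X φ η α ν - η / Y * N X φ Y α ν| ≤ η * Q X φ η Y α := by
  have hY0 : 0 < Y := hη.trans_le hY
  have hcont : Continuous (fun θ : ℝ => e (-(θ * ν)) * ∏ i, S (X i) (φ i) θ (α i)) := by
    refine Continuous.mul (cont_e.comp (by fun_prop)) (continuous_finsetProd _ fun i _ => ?_)
    exact (cont_S (X i) (φ i)).comp (continuous_id.prodMk continuous_const)
  have hnorm : ∀ θ : ℝ, ‖e (-(θ * ν)) * ∏ i, S (X i) (φ i) θ (α i)‖ = ∏ i, ‖S (X i) (φ i) θ (α i)‖ := by
    intro θ
    rw [norm_mul, norm_e, one_mul, norm_prod]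
  have hbd : ∀ θ : ℝ, ‖e (-(θ * ν)) * ∏ i, S (X i) (φ i) θ (α i)‖ ≤ ∏ i, ((X i).card : ℝ) := by
    intro θ
    rw [hnorm]
    exact prod_le_prod (fun i _ => norm_nonneg _) fun i _ => norm_S _ _ _ _
  have hint : ∀ t : ℝ, 0 < t → Integrable (fun θ : ℝ => ((Real.exp (-(Real.pi * t ^ 2) * θ ^ 2) : ℝ) : ℂ) *
      (e (-(θ * ν)) * ∏ i, S (X i) (φ i) θ (α i))) := by
    intro t ht
    refine ((int_gauss ht).mul_const (∏ i, ((X i).card : ℝ))).mono' ?_ ?_
    · apply Continuous.aestronglyMeasurable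
      exact Continuous.mul (Complex.continuous_ofReal.comp (by fun_prop)) hcont
    · refine Filter.Eventually.of_forall fun θ => ?_
      rw [norm_mul, Complex.norm_real, Real.norm_eq_abs, abs_of_pos (Real.exp_pos _)]
      exact mul_le_mul_of_nonneg_left (hbd θ) (Real.exp_pos _).le
  have h1 : (((N X φ η α ν - η / Y * N X φ Y α ν : ℝ)) : ℂ) =
      η * ∫ θ : ℝ, ((w η Y θ : ℝ) : ℂ) * (e (-(θ * ν)) * ∏ i, S (X i) (φ i) θ (α i)) := by
    rw [Complex.ofReal_sub, Complex.ofReal_mul, N_int X φ hη α ν, N_int X φ hY0 α ν]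
    have h2 : ((η / Y : ℝ) : ℂ) * (Y * ∫ θ : ℝ, ((Real.exp (-(Real.pi * Y ^ 2) * θ ^ 2) : ℝ) : ℂ) *
        (e (-(θ * ν)) * ∏ i, S (X i) (φ i) θ (α i))) =
        η * ∫ θ : ℝ, ((Real.exp (-(Real.pi * Y ^ 2) * θ ^ 2) : ℝ) : ℂ) *
        (e (-(θ * ν)) * ∏ i, S (X i) (φ i) θ (α i)) := by
      rw [← mul_assoc]
      congr 1
      have : (Y : ℂ) ≠ 0 := by exact_mod_cast hY0.ne'
      push_cast
      field_simp
    rw [h2, ← mul_sub, ← integral_sub (hint η hη) (hint Y hY0)]
    congr 1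
    refine integral_congr_ae (Filter.Eventually.of_forall fun θ => ?_)
    simp only
    unfold w
    push_cast
    ring
  have h3 : |N X φ η α ν - η / Y * N X φ Y α ν| = ‖(((N X φ η α ν - η / Y * N X φ Y α ν : ℝ)) : ℂ)‖ := by
    rw [Complex.norm_real, Real.norm_eq_abs]
  rw [h3, h1, norm_mul, Complex.norm_real, Real.norm_eq_abs, abs_of_pos hη]
  refine mul_le_mul_of_nonneg_left ?_ hη.le
  refine (norm_integral_le_integral_norm _).trans (le_of_eq ?_)
  unfold Q
  refine integral_congr_ae (Filter.Eventually.of_forall fun θ => ?_)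
  simp only
  rw [norm_mul, hnorm, Complex.norm_real, Real.norm_eq_abs, abs_of_nonneg (w_nonneg hη hY θ)]

/-- the number of the solutions at the wide scale -/
lemma N_lower (X : Fin s → Finset ℕ) (φ : Fin s → ℕ → C(ℝ, ℝ)) {Y : ℝ} (hY : 0 < Y) (α : Fin s → ℝ) (ν : ℝ)
    (i₀ : Fin s) (x₀ : ℕ) (hx₀ : x₀ ∈ X i₀)
    (hg : ∀ y ∈ Fintype.piFinset X, ∃ x ∈ X i₀, |L φ α (Function.update y i₀ x) - ν| ≤ Y) :
    Real.exp (-Real.pi) * ∏ i ∈ univ.erase i₀, ((X i).card : ℝ) ≤ N X φ Y α ν := by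
  classical
  choose! g hg1 hg2 using hg
  obtain ⟨D, hD⟩ : ∃ D, D = Fintype.piFinset (Function.update X i₀ {x₀}) := ⟨_, rfl⟩
  have hDX : D ⊆ Fintype.piFinset X := by
    rw [hD]
    refine Fintype.piFinset_subset _ _ fun i => ?_
    by_cases h : i = i₀
    · subst h
      simpa using hx₀
    · simp [Function.update_of_ne h]
  have hval : ∀ y ∈ D, y i₀ = x₀ := by
    intro y hy
    rw [hD, Fintype.mem_piFinset] at hy
    have := hy i₀
    simpa using this
  have hinj : Set.InjOn (fun y => Function.update y i₀ (g y)) (D : Set (Fin s → ℕ)) := by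
    intro y hy z hz h
    simp only at h
    funext i
    by_cases hi : i = i₀
    · rw [hi, hval y hy, hval z hz]
    · have := congrFun h i
      rwa [Function.update_of_ne hi, Function.update_of_ne hi] at this
  have hcard : (D.card : ℝ) = ∏ i ∈ univ.erase i₀, ((X i).card : ℝ) := by
    rw [hD, Fintype.card_piFinset]
    push_cast
    rw [← mul_prod_erase univ (fun i => ((Function.update X i₀ {x₀} i).card : ℝ)) (mem_univ i₀)]
    simp only [Function.update_self, card_singleton, Nat.cast_one, one_mul]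
    refine prod_congr rfl fun i hi => ?_
    rw [mem_erase] at hi
    rw [Function.update_of_ne hi.1]
  rw [← hcard]
  unfold N
  calc Real.exp (-Real.pi) * D.card = ∑ _y ∈ D, Real.exp (-Real.pi) := by
        rw [sum_const, nsmul_eq_mul, mul_comm]
    _ ≤ ∑ y ∈ D, Real.exp (-Real.pi * ((L φ α (Function.update y i₀ (g y)) - ν) / Y) ^ 2) := by
        refine sum_le_sum fun y hy => ?_
        rw [Real.exp_le_exp]
        have h1 := hg2 y (hDX hy)
        have h2 : |(L φ α (Function.update y i₀ (g y)) - ν) / Y| ≤ 1 := by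
          rw [abs_div, abs_of_pos hY, div_le_one hY]
          exact h1
        have h3 : ((L φ α (Function.update y i₀ (g y)) - ν) / Y) ^ 2 ≤ 1 := by
          rw [← sq_abs]
          exact pow_le_one₀ (abs_nonneg _) h2
        have := Real.pi_pos
        nlinarith
    _ = ∑ x ∈ D.image (fun y => Function.update y i₀ (g y)), Real.exp (-Real.pi * ((L φ α x - ν) / Y) ^ 2) := by
        rw [sum_image hinj]
    _ ≤ ∑ x ∈ Fintype.piFinset X, Real.exp (-Real.pi * ((L φ α x - ν) / Y) ^ 2) := by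
        refine sum_le_sum_of_subset_of_nonneg ?_ fun x _ _ => (Real.exp_pos _).le
        intro x hx
        rw [mem_image] at hx
        obtain ⟨y, hy, rfl⟩ := hx
        rw [Fintype.mem_piFinset]
        intro i
        by_cases hi : i = i₀
        · rw [hi, Function.update_self]
          exact hg1 y (hDX hy)
        · rw [Function.update_of_ne hi]
          exact Fintype.mem_piFinset.1 (hDX hy) i

/-- from the weighted number to the number -/
lemma count_lower (X : Fin s → Finset ℕ) (φ : Fin s → ℕ → C(ℝ, ℝ)) {η V ε : ℝ} (hη : 0 < η) (hε : 0 < ε)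
    (α : Fin s → ℝ) (ν : ℝ) (h : ∀ t ∈ Set.Icc (ν - ε / 2) (ν + ε / 2), η * V ≤ N X φ η α t) :
    ε * V ≤ (((Fintype.piFinset X).filter (fun x => |L φ α x - ν| ≤ ε)).card : ℝ) +
      ε * (((Fintype.piFinset X).card : ℝ) / η * Real.exp (-(Real.pi / 4) * (ε / η) ^ 2)) := by
  have hpi := Real.pi_pos
  have hlt : ν - ε / 2 ≤ ν + ε / 2 := by linarith
  have hcont : ∀ x : Fin s → ℕ, Continuous (fun t : ℝ => Real.exp (-Real.pi * ((L φ α x - t) / η) ^ 2)) := by
    intro x
    fun_prop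
  have h1 : ε * (η * V) ≤ ∫ t in (ν - ε / 2)..(ν + ε / 2), N X φ η α t := by
    calc ε * (η * V) = ∫ _t in (ν - ε / 2)..(ν + ε / 2), η * V := by
          rw [intervalIntegral.integral_const, smul_eq_mul]
          ring
      _ ≤ _ := by
          apply intervalIntegral.integral_mono_on hlt
          · exact intervalIntegrable_const
          · unfold N
            exact (continuous_finsetSum _ fun x _ => hcont x).intervalIntegrable _ _
          · exact h
  have h2 : ∫ t in (ν - ε / 2)..(ν + ε / 2), N X φ η α t =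
      ∑ x ∈ Fintype.piFinset X, ∫ t in (ν - ε / 2)..(ν + ε / 2), Real.exp (-Real.pi * ((L φ α x - t) / η) ^ 2) := by
    unfold N
    exact intervalIntegral.integral_finsetSum fun x _ => (hcont x).intervalIntegrable _ _
  have h3 : ∀ x ∈ Fintype.piFinset X,
      ∫ t in (ν - ε / 2)..(ν + ε / 2), Real.exp (-Real.pi * ((L φ α x - t) / η) ^ 2) ≤
        (if |L φ α x - ν| ≤ ε then η else 0) + ε * Real.exp (-(Real.pi / 4) * (ε / η) ^ 2) := by
    intro x _
    obtain ⟨g1, g2⟩ := gauss_shift hη (L φ α x)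
    split_ifs with hx
    · have h4 : ∫ t in (ν - ε / 2)..(ν + ε / 2), Real.exp (-Real.pi * ((L φ α x - t) / η) ^ 2) ≤ η := by
        rw [intervalIntegral.integral_of_le hlt]
        refine le_trans ?_ (le_of_eq g2)
        exact setIntegral_le_integral g1 (Eventually.of_forall fun t => (Real.exp_pos _).le)
      have h5 : 0 ≤ ε * Real.exp (-(Real.pi / 4) * (ε / η) ^ 2) := by positivity
      linarith
    · rw [zero_add]
      calc ∫ t in (ν - ε / 2)..(ν + ε / 2), Real.exp (-Real.pi * ((L φ α x - t) / η) ^ 2)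
          ≤ ∫ _t in (ν - ε / 2)..(ν + ε / 2), Real.exp (-(Real.pi / 4) * (ε / η) ^ 2) := by
            apply intervalIntegral.integral_mono_on hlt
            · exact (hcont x).intervalIntegrable _ _
            · exact intervalIntegrable_const
            · intro t ht
              rw [Real.exp_le_exp]
              have h6 : ε < |L φ α x - ν| := not_le.1 hx
              have h7 : ε / 2 ≤ |L φ α x - t| := by
                have h8 : |L φ α x - ν| ≤ |L φ α x - t| + |t - ν| := by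
                  have : L φ α x - ν = (L φ α x - t) + (t - ν) := by ring
                  rw [this]
                  exact abs_add_le _ _
                have h9 : |t - ν| ≤ ε / 2 := by
                  rw [abs_le]
                  constructor
                  · linarith [ht.1]
                  · linarith [ht.2]
                linarith
              have h10 : (ε / 2 / η) ^ 2 ≤ ((L φ α x - t) / η) ^ 2 := by
                rw [← sq_abs ((L φ α x - t) / η), abs_div, abs_of_pos hη]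
                apply pow_le_pow_left₀ (by positivity)
                gcongr
              have h11 : (ε / 2 / η) ^ 2 = (ε / η) ^ 2 / 4 := by ring
              rw [h11] at h10
              nlinarith
        _ = _ := by
            rw [intervalIntegral.integral_const, smul_eq_mul]
            ring
  have h4 : ε * (η * V) ≤ η * (((Fintype.piFinset X).filter (fun x => |L φ α x - ν| ≤ ε)).card : ℝ) +
      ((Fintype.piFinset X).card : ℝ) * (ε * Real.exp (-(Real.pi / 4) * (ε / η) ^ 2)) := by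
    rw [h2] at h1
    refine (h1.trans (sum_le_sum h3)).trans (le_of_eq ?_)
    rw [sum_add_distrib, sum_const, nsmul_eq_mul, ← sum_filter, sum_const, nsmul_eq_mul]
    ring
  refine le_of_mul_le_mul_left ?_ hη
  calc η * (ε * V) = ε * (η * V) := by ring
    _ ≤ _ := h4
    _ = _ := by field_simp

end

end Pool.Agent.Run7.h927.WS
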