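import Pool.Agent.Run7.h927.WS.B

set_option autoImplicit false

/-! Shifted powers: the mean square over the shift. -/

namespace Pool.Agent.Run7.h927.WS
open MeasureTheory Finset Filter
open Pool.Agent.Run7.h927.WG (e norm_e e_add e_zero e_conj cont_e pow_diff_ge)

noncomputable section

/-- the first derivative test -/
lemma osc (ψ ψ₁ ψ₂ : ℝ → ℝ) (A B m : ℝ) (hAB : A ≤ B) (hm : 0 < m) (h1 : ∀ v, HasDerivAt ψ (ψ₁ v) v)
    (h2 : ∀ v, HasDerivAt ψ₁ (ψ₂ v) v) (hc : Continuous ψ₂) (hm1 : ∀ v ∈ Set.Icc A B, m ≤ ψ₁ v)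
    (hpos : ∀ v ∈ Set.Icc A B, 0 ≤ ψ₂ v) : ‖∫ v in A..B, e (ψ v)‖ ≤ 1 / m := by
  have hpi := Real.pi_pos
  have hpi3 := Real.pi_gt_three
  have hc1 : Continuous ψ₁ := continuous_iff_continuousAt.2 fun v => (h2 v).continuousAt
  have hc0 : Continuous ψ := continuous_iff_continuousAt.2 fun v => (h1 v).continuousAt
  have hI : Set.uIcc A B = Set.Icc A B := Set.uIcc_of_le hAB
  have hne : ∀ v ∈ Set.uIcc A B, ψ₁ v ≠ 0 := by
    intro v hv
    rw [hI] at hv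
    have := hm1 v hv
    exact (by linarith : 0 < ψ₁ v).ne'
  have hA : A ∈ Set.Icc A B := Set.left_mem_Icc.2 hAB
  have hB : B ∈ Set.Icc A B := Set.right_mem_Icc.2 hAB
  obtain ⟨κ, hκ⟩ : ∃ κ : ℂ, κ = (2 * Real.pi * Complex.I)⁻¹ := ⟨_, rfl⟩
  have hκn : ‖κ‖ = 1 / (2 * Real.pi) := by
    rw [hκ, norm_inv, norm_mul, norm_mul, Complex.norm_I, Complex.norm_real, Real.norm_eq_abs, abs_of_pos hpi]
    simp
  have hκ2 : κ * (2 * Real.pi * Complex.I) = 1 := by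
    rw [hκ]
    apply inv_mul_cancel₀
    have : (Real.pi : ℂ) ≠ 0 := by exact_mod_cast Real.pi_ne_zero
    simp [this]
  -- the primitive
  have hd : ∀ v ∈ Set.uIcc A B, HasDerivAt (fun v => κ * (((ψ₁ v)⁻¹ : ℝ) : ℂ) * e (ψ v))
      (κ * (((-ψ₂ v / ψ₁ v ^ 2 : ℝ)) : ℂ) * e (ψ v) + e (ψ v)) v := by
    intro v hv
    have d1 : HasDerivAt (fun v => (((ψ₁ v)⁻¹ : ℝ) : ℂ)) (((-ψ₂ v / ψ₁ v ^ 2 : ℝ)) : ℂ) v :=
      ((h2 v).inv (hne v hv)).ofReal_comp
    have d2 : HasDerivAt (fun v => e (ψ v)) (e (ψ v) * (2 * Real.pi * Complex.I * (ψ₁ v : ℂ))) v := by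
      unfold e
      have d3 : HasDerivAt (fun v => 2 * (Real.pi : ℂ) * (ψ v : ℂ) * Complex.I) (2 * Real.pi * Complex.I * (ψ₁ v : ℂ)) v := by
        exact ((((h1 v).ofReal_comp).const_mul (2 * (Real.pi : ℂ))).mul_const Complex.I).congr_deriv (by ring)
      exact d3.cexp
    have d4 := (d1.const_mul κ).mul d2
    have hz : ((ψ₁ v : ℝ) : ℂ) ≠ 0 := by exact_mod_cast hne v hv
    have : κ * (((ψ₁ v)⁻¹ : ℝ) : ℂ) * (e (ψ v) * (2 * Real.pi * Complex.I * (ψ₁ v : ℂ))) = e (ψ v) := by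
      rw [Complex.ofReal_inv]
      calc κ * ((ψ₁ v : ℂ))⁻¹ * (e (ψ v) * (2 * Real.pi * Complex.I * (ψ₁ v : ℂ)))
          = (κ * (2 * Real.pi * Complex.I)) * (((ψ₁ v : ℂ))⁻¹ * (ψ₁ v : ℂ)) * e (ψ v) := by ring
        _ = e (ψ v) := by rw [hκ2, inv_mul_cancel₀ hz, one_mul, one_mul]
    exact d4.congr_deriv (by rw [this])
  have hce : Continuous (fun v => e (ψ v)) := cont_e.comp hc0
  have hcq : ContinuousOn (fun v => -ψ₂ v / ψ₁ v ^ 2) (Set.uIcc A B) :=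
    ContinuousOn.div hc.neg.continuousOn (hc1.pow 2).continuousOn fun v hv => pow_ne_zero 2 (hne v hv)
  have hcu : ContinuousOn (fun v => κ * (((-ψ₂ v / ψ₁ v ^ 2 : ℝ)) : ℂ) * e (ψ v)) (Set.uIcc A B) := by
    refine ContinuousOn.mul (ContinuousOn.mul continuousOn_const ?_) hce.continuousOn
    exact Complex.continuous_ofReal.comp_continuousOn hcq
  have hi1 : IntervalIntegrable (fun v => κ * (((-ψ₂ v / ψ₁ v ^ 2 : ℝ)) : ℂ) * e (ψ v)) volume A B :=
    hcu.intervalIntegrable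
  have hi2 : IntervalIntegrable (fun v => e (ψ v)) volume A B := hce.intervalIntegrable _ _
  have h3 := intervalIntegral.integral_eq_sub_of_hasDerivAt hd (hi1.add hi2)
  rw [intervalIntegral.integral_add hi1 hi2] at h3
  have h4 : ∫ v in A..B, e (ψ v) = κ * (((ψ₁ B)⁻¹ : ℝ) : ℂ) * e (ψ B) - κ * (((ψ₁ A)⁻¹ : ℝ) : ℂ) * e (ψ A) -
      ∫ v in A..B, κ * (((-ψ₂ v / ψ₁ v ^ 2 : ℝ)) : ℂ) * e (ψ v) := by
    rw [← h3]
    ring
  have hinv : ∀ v ∈ Set.Icc A B, 0 < (ψ₁ v)⁻¹ ∧ (ψ₁ v)⁻¹ ≤ 1 / m := by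
    intro v hv
    have := hm1 v hv
    have h5 : 0 < ψ₁ v := by linarith
    refine ⟨by positivity, ?_⟩
    rw [← one_div]
    exact one_div_le_one_div_of_le hm this
  have hterm : ∀ v ∈ Set.Icc A B, ‖κ * (((ψ₁ v)⁻¹ : ℝ) : ℂ) * e (ψ v)‖ ≤ 1 / (2 * Real.pi) * (1 / m) := by
    intro v hv
    obtain ⟨g1, g2⟩ := hinv v hv
    rw [norm_mul, norm_mul, norm_e, mul_one, hκn, Complex.norm_real, Real.norm_eq_abs, abs_of_pos g1]
    exact mul_le_mul_of_nonneg_left g2 (by positivity)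
  have hfin : ‖∫ v in A..B, κ * (((-ψ₂ v / ψ₁ v ^ 2 : ℝ)) : ℂ) * e (ψ v)‖ ≤ 1 / (2 * Real.pi) * (1 / m) := by
    calc ‖∫ v in A..B, κ * (((-ψ₂ v / ψ₁ v ^ 2 : ℝ)) : ℂ) * e (ψ v)‖
        ≤ ∫ v in A..B, ‖κ * (((-ψ₂ v / ψ₁ v ^ 2 : ℝ)) : ℂ) * e (ψ v)‖ :=
          intervalIntegral.norm_integral_le_integral_norm hAB
      _ = ∫ v in A..B, 1 / (2 * Real.pi) * (ψ₂ v / ψ₁ v ^ 2) := by
          refine intervalIntegral.integral_congr fun v hv => ?_
          have hv' := hv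
          rw [hI] at hv'
          change ‖κ * (((-ψ₂ v / ψ₁ v ^ 2 : ℝ)) : ℂ) * e (ψ v)‖ = 1 / (2 * Real.pi) * (ψ₂ v / ψ₁ v ^ 2)
          rw [norm_mul, norm_mul, norm_e, mul_one, hκn, Complex.norm_real, Real.norm_eq_abs, neg_div, abs_neg,
            abs_of_nonneg]
          exact div_nonneg (hpos v hv') (sq_nonneg _)
      _ = 1 / (2 * Real.pi) * ∫ v in A..B, ψ₂ v / ψ₁ v ^ 2 := intervalIntegral.integral_const_mul _ _
      _ = 1 / (2 * Real.pi) * (-(ψ₁ B)⁻¹ - -(ψ₁ A)⁻¹) := by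
          congr 1
          refine intervalIntegral.integral_eq_sub_of_hasDerivAt (f := fun v => -(ψ₁ v)⁻¹) (fun v hv => ?_) ?_
          · exact (((h2 v).inv (hne v hv)).neg).congr_deriv (by ring)
          · apply ContinuousOn.intervalIntegrable
            exact ContinuousOn.div hc.continuousOn (hc1.pow 2).continuousOn fun v hv => pow_ne_zero 2 (hne v hv)
      _ ≤ 1 / (2 * Real.pi) * (1 / m) := by
          refine mul_le_mul_of_nonneg_left ?_ (by positivity)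
          have := hinv A hA
          have := hinv B hB
          linarith
  rw [h4]
  refine (norm_sub_le _ _).trans ?_
  have h6 := norm_sub_le (κ * (((ψ₁ B)⁻¹ : ℝ) : ℂ) * e (ψ B)) (κ * (((ψ₁ A)⁻¹ : ℝ) : ℂ) * e (ψ A))
  have h7 := hterm A hA
  have h8 := hterm B hB
  have h9 : 1 / (2 * Real.pi) * (1 / m) ≤ 1 / 6 * (1 / m) := by
    refine mul_le_mul_of_nonneg_right ?_ (by positivity)
    apply one_div_le_one_div_of_le (by norm_num)
    linarith
  have h10 : 0 < 1 / m := by positivity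
  linarith

/-- the first derivative test for the differences of the powers -/
lemma osc_diff (l : ℕ) (θ h P N : ℝ) (hθ : 0 < θ) (hh : 0 < h) (hP : 0 < P) (hN : P ≤ N) :
    ‖∫ v in P..N, e (θ * ((v + h) ^ (l + 2) - v ^ (l + 2)))‖ ≤ 1 / (θ * h * P ^ l) := by
  have hpow : ∀ (n : ℕ) (v : ℝ), HasDerivAt (fun v : ℝ => (v + h) ^ (n + 1) - v ^ (n + 1))
      ((n + 1) * ((v + h) ^ n - v ^ n)) v := by
    intro n v
    have d1 : HasDerivAt (fun v : ℝ => (v + h) ^ (n + 1)) (((n + 1 : ℕ) : ℝ) * (v + h) ^ n * 1) v := by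
      have d0 : HasDerivAt (fun v : ℝ => v + h) 1 v := (hasDerivAt_id v).add_const h
      exact d0.fun_pow (n + 1)
    have d2 : HasDerivAt (fun v : ℝ => v ^ (n + 1)) (((n + 1 : ℕ) : ℝ) * v ^ n) v := by
      simpa using hasDerivAt_pow (n + 1) v
    refine (d1.sub d2).congr_deriv ?_
    push_cast
    ring
  refine osc (fun v => θ * ((v + h) ^ (l + 2) - v ^ (l + 2)))
    (fun v => θ * ((((l + 1 : ℕ) : ℝ) + 1) * ((v + h) ^ (l + 1) - v ^ (l + 1))))
    (fun v => θ * ((((l + 1 : ℕ) : ℝ) + 1) * (((l : ℝ) + 1) * ((v + h) ^ l - v ^ l)))) P N (θ * h * P ^ l) hN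
    (by positivity) ?_ ?_ ?_ ?_ ?_
  · intro v
    exact (hpow (l + 1) v).const_mul θ
  · intro v
    exact ((hpow l v).const_mul _).const_mul θ
  · fun_prop
  · intro v hv
    have hv0 : 0 < v := hP.trans_le hv.1
    have h1 := pow_diff_ge l (v + h) v hv0.le (by linarith)
    have h2 : P ^ l ≤ (v + h) ^ l := pow_le_pow_left₀ hP.le (by linarith [hv.1]) l
    have h3 : P ^ l * h ≤ (v + h) ^ (l + 1) - v ^ (l + 1) := by
      refine le_trans ?_ h1
      have : v + h - v = h := by ring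
      rw [this]
      exact mul_le_mul_of_nonneg_right h2 hh.le
    have h4 : 0 ≤ (v + h) ^ (l + 1) - v ^ (l + 1) := le_trans (by positivity) h3
    have h5 : (1 : ℝ) ≤ ((l + 1 : ℕ) : ℝ) + 1 := by
      have : (0 : ℝ) ≤ ((l + 1 : ℕ) : ℝ) := Nat.cast_nonneg _
      linarith
    calc θ * h * P ^ l = θ * (1 * (P ^ l * h)) := by ring
      _ ≤ θ * ((((l + 1 : ℕ) : ℝ) + 1) * ((v + h) ^ (l + 1) - v ^ (l + 1))) := by
          refine mul_le_mul_of_nonneg_left ?_ hθ.le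
          exact mul_le_mul h5 h3 (by positivity) (by linarith)
  · intro v hv
    have hv0 : 0 < v := hP.trans_le hv.1
    have h1 : v ^ l ≤ (v + h) ^ l := pow_le_pow_left₀ hv0.le (by linarith) l
    have h2 : 0 ≤ (v + h) ^ l - v ^ l := by linarith
    positivity

/-- the shifted power, as a function of the shift -/
def sh (k x : ℕ) : C(ℝ, ℝ) := ⟨fun t => ((x : ℝ) - t) ^ k, by fun_prop⟩

lemma sh_apply (k x : ℕ) (t : ℝ) : sh k x t = ((x : ℝ) - t) ^ k := rfl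

/-- the correlation -/
def F (k : ℕ) (θ : ℝ) (x y : ℕ) : ℂ := ∫ t in (0 : ℝ)..1, e (θ * (sh k x t - sh k y t))

lemma F_conj (k : ℕ) (θ : ℝ) (x y : ℕ) : F k θ x y = (starRingEnd ℂ) (F k θ y x) := by
  unfold F
  rw [intervalIntegral.integral_of_le zero_le_one, intervalIntegral.integral_of_le zero_le_one, ← integral_conj]
  refine integral_congr_ae (Eventually.of_forall fun t => ?_)
  simp only
  rw [e_conj]
  congr 1
  ring

lemma F_diag (k : ℕ) (θ : ℝ) (x : ℕ) : F k θ x x = 1 := by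
  unfold F
  simp [e_zero]

lemma F_shift (k : ℕ) (θ : ℝ) (y h : ℕ) :
    F k θ (y + h) y = ∫ v in ((y : ℝ) - 1)..y, e (θ * ((v + h) ^ k - v ^ k)) := by
  have h1 := intervalIntegral.integral_comp_sub_left (a := (0 : ℝ)) (b := 1)
    (fun v : ℝ => e (θ * ((v + h) ^ k - v ^ k))) (y : ℝ)
  rw [sub_zero] at h1
  rw [← h1]
  unfold F
  refine intervalIntegral.integral_congr fun t _ => ?_
  simp only [sh_apply]
  push_cast
  congr 2
  ring

lemma sum_shift (k : ℕ) (θ : ℝ) (h P N : ℕ) (hN : P ≤ N) :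
    ∑ y ∈ Ioc P N, F k θ (y + h) y = ∫ v in (P : ℝ)..N, e (θ * ((v + h) ^ k - v ^ k)) := by
  have hc : Continuous (fun v : ℝ => e (θ * ((v + h) ^ k - v ^ k))) := cont_e.comp (by fun_prop)
  induction N, hN using Nat.le_induction with
  | base => simp
  | succ n hn ih =>
    rw [Finset.sum_Ioc_succ_top hn, ih, F_shift]
    have h1 : (((n + 1 : ℕ) : ℝ) - 1) = n := by push_cast; ring
    rw [h1]
    exact intervalIntegral.integral_add_adjacent_intervals (hc.intervalIntegrable _ _) (hc.intervalIntegrable _ _)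

end

end Pool.Agent.Run7.h927.WS
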