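import Pool.Agent.Run7.h927.WS.C

set_option autoImplicit false

/-! Shifted powers: the mean square over the shift, the greedy choice. -/

namespace Pool.Agent.Run7.h927.WS
open MeasureTheory Finset Filter
open Pool.Agent.Run7.h927.WG (e norm_e e_add e_zero e_conj cont_e pow_diff_ge pow_diff_le)

noncomputable section

lemma mean_eq (k : ℕ) (X : Finset ℕ) (θ : ℝ) :
    ((∫ t in (0 : ℝ)..1, ‖S X (sh k) θ t‖ ^ 2 : ℝ) : ℂ) = ∑ x ∈ X, ∑ y ∈ X, F k θ x y := by
  rw [← intervalIntegral.integral_ofReal]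
  have hc : ∀ x y : ℕ, Continuous (fun t => e (θ * (sh k x t - sh k y t))) := fun x y =>
    cont_e.comp (by fun_prop)
  calc ∫ t in (0 : ℝ)..1, ((‖S X (sh k) θ t‖ ^ 2 : ℝ) : ℂ)
      = ∫ t in (0 : ℝ)..1, ∑ x ∈ X, ∑ y ∈ X, e (θ * (sh k x t - sh k y t)) :=
        intervalIntegral.integral_congr fun t _ => sq_S X (sh k) θ t
    _ = ∑ x ∈ X, ∫ t in (0 : ℝ)..1, ∑ y ∈ X, e (θ * (sh k x t - sh k y t)) := by
        refine intervalIntegral.integral_finsetSum fun x _ => ?_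
        exact (continuous_finsetSum _ fun y _ => hc x y).intervalIntegrable _ _
    _ = _ := sum_congr rfl fun x _ => intervalIntegral.integral_finsetSum fun y _ => (hc x y).intervalIntegrable _ _

lemma off_diag (k : ℕ) (P M : ℕ) (θ : ℝ) :
    ∑ x ∈ Ioc P M, ∑ y ∈ (Ioc P M).filter (fun y => y < x), F k θ x y =
      ∑ h ∈ Icc 1 M, ∑ y ∈ Ioc P (M - h), F k θ (y + h) y := by
  rw [sum_sigma', sum_sigma']
  refine sum_nbij' (fun z => (⟨z.1 - z.2, z.2⟩ : (_ : ℕ) × ℕ)) (fun z => (⟨z.2 + z.1, z.2⟩ : (_ : ℕ) × ℕ)) ?_ ?_ ?_ ?_ ?_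
  · rintro ⟨x, y⟩ h
    simp only [mem_sigma, mem_filter, mem_Ioc, mem_Icc] at h ⊢
    omega
  · rintro ⟨h, y⟩ hz
    simp only [mem_sigma, mem_filter, mem_Ioc, mem_Icc] at hz ⊢
    omega
  · rintro ⟨x, y⟩ h
    simp only [mem_sigma, mem_filter, mem_Ioc, mem_Icc] at h ⊢
    have : y + (x - y) = x := by omega
    rw [this]
  · rintro ⟨h, y⟩ hz
    simp only [mem_sigma, mem_filter, mem_Ioc, mem_Icc] at hz ⊢
    have : y + h - y = h := by omega
    rw [this]
  · rintro ⟨x, y⟩ h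
    simp only [mem_sigma, mem_filter, mem_Ioc, mem_Icc] at h ⊢
    have : y + (x - y) = x := by omega
    rw [this]

lemma off_bound (l : ℕ) (P M : ℕ) (hP : 1 ≤ P) (θ : ℝ) (hθ : 0 < θ) :
    ‖∑ x ∈ Ioc P M, ∑ y ∈ (Ioc P M).filter (fun y => y < x), F (l + 2) θ x y‖ ≤
      (1 + Real.log M) / (θ * (P : ℝ) ^ l) := by
  have hP0 : (0 : ℝ) < P := by exact_mod_cast hP
  rw [off_diag]
  refine (norm_sum_le _ _).trans ?_
  calc ∑ h ∈ Icc 1 M, ‖∑ y ∈ Ioc P (M - h), F (l + 2) θ (y + h) y‖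
      ≤ ∑ h ∈ Icc 1 M, (1 / (h : ℝ)) * (1 / (θ * (P : ℝ) ^ l)) := by
        refine sum_le_sum fun h hh => ?_
        rw [mem_Icc] at hh
        have hh0 : (0 : ℝ) < h := by exact_mod_cast (by omega : 0 < h)
        by_cases hN : P ≤ M - h
        · rw [sum_shift (l + 2) θ h P (M - h) hN]
          refine (osc_diff l θ h P ((M - h : ℕ) : ℝ) hθ hh0 hP0 (by exact_mod_cast hN)).trans (le_of_eq ?_)
          rw [one_div_mul_one_div]
          congr 1
          ring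
        · rw [Ioc_eq_empty (by omega), sum_empty, norm_zero]
          positivity
    _ = (∑ h ∈ Icc 1 M, 1 / (h : ℝ)) * (1 / (θ * (P : ℝ) ^ l)) := by rw [sum_mul]
    _ ≤ (1 + Real.log M) * (1 / (θ * (P : ℝ) ^ l)) := by
        refine mul_le_mul_of_nonneg_right ?_ (by positivity)
        have h := harmonic_le_one_add_log M
        rw [harmonic_eq_sum_Icc, Rat.cast_sum] at h
        refine le_trans (le_of_eq (sum_congr rfl fun d _ => ?_)) h
        push_cast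
        rw [one_div]
    _ = _ := by rw [mul_one_div]

lemma split_sum (X : Finset ℕ) (G : ℕ → ℕ → ℂ) : ∑ x ∈ X, ∑ y ∈ X, G x y = ∑ x ∈ X, G x x +
    ∑ x ∈ X, ∑ y ∈ X.filter (fun y => y < x), G x y + ∑ x ∈ X, ∑ y ∈ X.filter (fun y => y < x), G y x := by
  have h1 : ∑ x ∈ X, ∑ y ∈ X.filter (fun y => y < x), G y x = ∑ x ∈ X, ∑ y ∈ X.filter (fun y => x < y), G x y := by
    refine sum_comm' ?_
    intro x y
    simp only [mem_filter]
    tauto
  rw [h1, ← sum_add_distrib, ← sum_add_distrib]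
  refine sum_congr rfl fun x hx => ?_
  rw [← sum_filter_add_sum_filter_not X (fun y => y < x)]
  have h2 : ∑ y ∈ X.filter (fun y => ¬ y < x), G x y = G x x + ∑ y ∈ X.filter (fun y => x < y), G x y := by
    have h3 : X.filter (fun y => ¬ y < x) = insert x (X.filter (fun y => x < y)) := by
      ext y
      simp only [mem_filter, mem_insert]
      constructor
      · rintro ⟨h, h'⟩
        rcases Nat.eq_or_lt_of_le (not_lt.1 h') with h'' | h''
        · exact Or.inl h''.symm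
        · exact Or.inr ⟨h, h''⟩
      · rintro (rfl | ⟨h, h'⟩)
        · exact ⟨hx, lt_irrefl _⟩
        · exact ⟨h, by omega⟩
    rw [h3, sum_insert (by simp)]
  rw [h2]
  ring

lemma norm_S_neg (X : Finset ℕ) (φ : ℕ → C(ℝ, ℝ)) (θ t : ℝ) : ‖S X φ (-θ) t‖ = ‖S X φ θ t‖ := by
  have : S X φ (-θ) t = (starRingEnd ℂ) (S X φ θ t) := by
    unfold S
    rw [map_sum]
    refine sum_congr rfl fun x _ => ?_
    rw [e_conj]
    congr 1
    ring
  rw [this, RCLike.norm_conj]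

/-- the mean square over the shift -/
theorem ms_shift (k P M : ℕ) (hk : 2 ≤ k) (hP : 1 ≤ P) (hM : 2 * P ≤ M) :
    MS (Ioc P M) (sh k) 0 1 ((P : ℝ) ^ (k - 1)) (3 + 2 * Real.log M) := by
  obtain ⟨l, rfl⟩ : ∃ l, k = l + 2 := ⟨k - 2, by omega⟩
  have hP0 : (0 : ℝ) < P := by exact_mod_cast hP
  have hL : 0 ≤ Real.log M := Real.log_natCast_nonneg M
  have main : ∀ θ : ℝ, 0 < θ → ∫ t in (0 : ℝ)..1, ‖S (Ioc P M) (sh (l + 2)) θ t‖ ^ 2 ≤
      (Ioc P M).card * ((3 + 2 * Real.log M) * (1 + 1 / (|θ| * (P : ℝ) ^ (l + 2 - 1)))) := by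
    intro θ hθ
    have h0 : 0 ≤ ∫ t in (0 : ℝ)..1, ‖S (Ioc P M) (sh (l + 2)) θ t‖ ^ 2 :=
      intervalIntegral.integral_nonneg zero_le_one fun t _ => by positivity
    have h1 : ∫ t in (0 : ℝ)..1, ‖S (Ioc P M) (sh (l + 2)) θ t‖ ^ 2 =
        ‖∑ x ∈ Ioc P M, ∑ y ∈ Ioc P M, F (l + 2) θ x y‖ := by
      rw [← mean_eq, Complex.norm_real, Real.norm_eq_abs, abs_of_nonneg h0]
    rw [h1, split_sum]
    obtain ⟨R, hR⟩ : ∃ R, R = ∑ x ∈ Ioc P M, ∑ y ∈ (Ioc P M).filter (fun y => y < x), F (l + 2) θ x y := ⟨_, rfl⟩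
    have hR' : ∑ x ∈ Ioc P M, ∑ y ∈ (Ioc P M).filter (fun y => y < x), F (l + 2) θ y x = (starRingEnd ℂ) R := by
      rw [hR, map_sum]
      refine sum_congr rfl fun x _ => ?_
      rw [map_sum]
      exact sum_congr rfl fun y _ => F_conj _ _ _ _
    have hRb := off_bound l P M hP θ hθ
    rw [← hR] at hRb
    rw [← hR, hR']
    have hD : ∑ x ∈ Ioc P M, F (l + 2) θ x x = ((Ioc P M).card : ℂ) := by
      rw [sum_congr rfl fun x _ => F_diag (l + 2) θ x, sum_const, nsmul_eq_mul, mul_one]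
    rw [hD]
    have hn1 : ‖((Ioc P M).card : ℂ) + R + (starRingEnd ℂ) R‖ ≤ (Ioc P M).card + 2 * ‖R‖ := by
      refine (norm_add_le _ _).trans ?_
      have h2 := norm_add_le ((Ioc P M).card : ℂ) R
      rw [RCLike.norm_conj]
      have h3 : ‖((Ioc P M).card : ℂ)‖ = (Ioc P M).card := Complex.norm_natCast _
      rw [h3] at h2
      linarith
    refine hn1.trans ?_
    have hT : (P : ℝ) ≤ (Ioc P M).card := by
      rw [Nat.card_Ioc]
      exact_mod_cast (by omega : P ≤ M - P)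
    obtain ⟨T, hTe⟩ : ∃ T : ℝ, T = (Ioc P M).card := ⟨_, rfl⟩
    rw [← hTe] at hT ⊢
    have hl : l + 2 - 1 = l + 1 := by omega
    rw [hl, abs_of_pos hθ]
    have h4 : (1 + Real.log M) / (θ * (P : ℝ) ^ l) ≤ T * ((1 + Real.log M) * (1 / (θ * (P : ℝ) ^ (l + 1)))) := by
      have h5 : (1 + Real.log M) / (θ * (P : ℝ) ^ l) = P * ((1 + Real.log M) * (1 / (θ * (P : ℝ) ^ (l + 1)))) := by
        rw [pow_succ]
        field_simp
      rw [h5]
      exact mul_le_mul_of_nonneg_right hT (by positivity)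
    have h6 : 0 ≤ 1 / (θ * (P : ℝ) ^ (l + 1)) := by positivity
    have hT0 : 0 < T := by linarith
    have h7 : 0 ≤ T * Real.log M := by positivity
    have h8 : 0 ≤ T * (1 / (θ * (P : ℝ) ^ (l + 1))) := by positivity
    have h9 : T * ((3 + 2 * Real.log M) * (1 + 1 / (θ * (P : ℝ) ^ (l + 1)))) =
        T + 2 * (T * ((1 + Real.log M) * (1 / (θ * (P : ℝ) ^ (l + 1))))) + 2 * T + 2 * (T * Real.log M) +
          T * (1 / (θ * (P : ℝ) ^ (l + 1))) := by ring
    rw [h9]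
    linarith
  intro θ hθ
  rcases lt_or_gt_of_ne hθ with h | h
  · have h1 := main (-θ) (by linarith)
    simp only [norm_S_neg, abs_neg] at h1
    exact h1
  · exact main θ h

end

end Pool.Agent.Run7.h927.WS
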