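import Pool.Agent.Run7.h927.WS.D

set_option autoImplicit false

/-! Almost all shifts: the number of the solutions. -/

namespace Pool.Agent.Run7.h927.WS
open MeasureTheory Finset Filter
open Pool.Agent.Run7.h927.WG (e norm_e e_add e_zero e_conj cont_e pow_diff_ge pow_diff_le bc numer log_small exp_small find_scale box box_eq prod_erase_eq card_erase)

noncomputable section

/-- the greedy choice -/
lemma greedy (k : ℕ) (P C : ℕ) (t v : ℝ) (ht : t ∈ Set.Icc (0 : ℝ) 1)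
    (h1 : ((P + 1 : ℕ) : ℝ) ^ k ≤ v) (h2 : v < (((C * P : ℕ) : ℝ) - 1) ^ k) (hCP : 1 ≤ C * P) :
    ∃ x ∈ Ioc P (C * P), |((x : ℝ) - t) ^ k - v| ≤ k * ((C * P : ℕ) : ℝ) ^ (k - 1) := by
  classical
  obtain ⟨ht0, ht1⟩ := ht
  have hCP' : (1 : ℝ) ≤ ((C * P : ℕ) : ℝ) := by exact_mod_cast hCP
  have h1' : (((P + 1 : ℕ) : ℝ) - t) ^ k ≤ v := by
    refine le_trans ?_ h1
    apply pow_le_pow_left₀
    · push_cast
      have : (0 : ℝ) ≤ P := Nat.cast_nonneg P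
      linarith
    · linarith
  have hlt : P + 1 ≤ C * P := by
    by_contra h
    have h3 : (((C * P : ℕ) : ℝ) - 1) ^ k ≤ ((P + 1 : ℕ) : ℝ) ^ k := by
      apply pow_le_pow_left₀ (by linarith)
      have : ((C * P : ℕ) : ℝ) ≤ ((P + 1 : ℕ) : ℝ) := by exact_mod_cast (by omega : C * P ≤ P + 1)
      linarith
    linarith
  obtain ⟨x, hx⟩ : ∃ x, x = Nat.findGreatest (fun x : ℕ => ((x : ℝ) - t) ^ k ≤ v) (C * P) := ⟨_, rfl⟩
  have hx1 : ((x : ℝ) - t) ^ k ≤ v := by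
    have := Nat.findGreatest_spec (P := fun x : ℕ => ((x : ℝ) - t) ^ k ≤ v) hlt h1'
    rw [← hx] at this
    exact this
  have hx2 : P + 1 ≤ x := by
    rw [hx]
    exact Nat.le_findGreatest hlt h1'
  have hx3 : x ≤ C * P := by
    rw [hx]
    exact Nat.findGreatest_le _
  have hx4 : x ≠ C * P := by
    intro h
    rw [h] at hx1
    have h3 : (((C * P : ℕ) : ℝ) - 1) ^ k ≤ (((C * P : ℕ) : ℝ) - t) ^ k := by
      apply pow_le_pow_left₀ (by linarith)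
      linarith
    linarith
  have hx5 : v < (((x + 1 : ℕ) : ℝ) - t) ^ k := by
    have := Nat.findGreatest_is_greatest (P := fun x : ℕ => ((x : ℝ) - t) ^ k ≤ v) (n := C * P) (k := x + 1)
      (by rw [← hx]; omega) (by omega)
    exact not_le.1 this
  have hxt : 0 ≤ (x : ℝ) - t := by
    have : ((P + 1 : ℕ) : ℝ) ≤ x := by exact_mod_cast hx2
    push_cast at this
    have : (0 : ℝ) ≤ P := Nat.cast_nonneg P
    linarith
  refine ⟨x, mem_Ioc.2 ⟨by omega, hx3⟩, ?_⟩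
  rw [abs_sub_comm, abs_of_nonneg (by linarith)]
  have h3 := pow_diff_le k ((x : ℝ) - t) hxt
  have h4 : ((x : ℝ) - t + 1) ^ (k - 1) ≤ ((C * P : ℕ) : ℝ) ^ (k - 1) := by
    apply pow_le_pow_left₀ (by positivity)
    have : (x : ℝ) + 1 ≤ ((C * P : ℕ) : ℝ) := by exact_mod_cast (by omega : x + 1 ≤ C * P)
    linarith
  have h6 : (((x + 1 : ℕ) : ℝ) - t) = (x : ℝ) - t + 1 := by
    push_cast
    ring
  rw [h6] at hx5
  calc v - ((x : ℝ) - t) ^ k ≤ ((x : ℝ) - t + 1) ^ k - ((x : ℝ) - t) ^ k := by linarith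
    _ ≤ k * ((x : ℝ) - t + 1) ^ (k - 1) := h3
    _ ≤ _ := mul_le_mul_of_nonneg_left h4 (Nat.cast_nonneg k)

/-- the ranges of the variables -/
def Xf (m C P : ℕ) (i : Fin (4 + m)) : Finset ℕ := if i = Fin.castAdd m 0 then Ioc P (C * P) else Ioc P (2 * P)

lemma xf_mem (m C P : ℕ) (hC : 2 ≤ C) (i : Fin (4 + m)) (x : ℕ) (hx : x ∈ Xf m C P i) : P < x ∧ x ≤ C * P := by
  unfold Xf at hx
  split_ifs at hx with h
  · rwa [mem_Ioc] at hx
  · rw [mem_Ioc] at hx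
    exact ⟨hx.1, hx.2.trans (Nat.mul_le_mul_right _ hC)⟩

lemma L_update {s : ℕ} (φ : Fin s → ℕ → C(ℝ, ℝ)) (α : Fin s → ℝ) (y : Fin s → ℕ) (i₀ : Fin s) (x : ℕ) :
    L φ α (Function.update y i₀ x) = φ i₀ x (α i₀) + ∑ i ∈ univ.erase i₀, φ i (y i) (α i) := by
  unfold L
  rw [← add_sum_erase univ _ (mem_univ i₀)]
  congr 1
  · rw [Function.update_self]
  · refine sum_congr rfl fun i hi => ?_
    rw [mem_erase] at hi
    rw [Function.update_of_ne hi.1]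

lemma card_Xf (m C P : ℕ) : ∏ i ∈ univ.erase (Fin.castAdd m 0), ((Xf m C P i).card : ℝ) = (P : ℝ) ^ (3 + m) := by
  have h : ∀ i ∈ univ.erase (Fin.castAdd m (0 : Fin 4)), ((Xf m C P i).card : ℝ) = P := by
    intro i hi
    rw [mem_erase] at hi
    unfold Xf
    rw [if_neg hi.1, Nat.card_Ioc]
    congr 1
    omega
  rw [prod_congr rfl h, prod_const, card_erase]

/-- the number of the solutions at the wide scale, for shifted powers -/
lemma N_wide (m k : ℕ) (E : ℝ) (C P : ℕ) (hC : 2 ≤ C) (hP : 1 ≤ P) (hCE : E < ((C : ℝ) - 1) ^ k)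
    (α : Fin (4 + m) → ℝ) (hα : ∀ i, α i ∈ Set.Icc (0 : ℝ) 1)
    (ν : ℝ) (h1 : (5 + m) * 2 ^ k * (P : ℝ) ^ k ≤ ν) (h2 : ν ≤ E * (P : ℝ) ^ k) :
    Real.exp (-Real.pi) * (P : ℝ) ^ (3 + m) ≤
      N (Xf m C P) (fun _ => sh k) ((k * (C : ℝ) ^ (k - 1) + 1) * (P : ℝ) ^ (k - 1)) α ν := by
  have hP0 : (0 : ℝ) < P := by exact_mod_cast hP
  have hP1 : (1 : ℝ) ≤ P := by exact_mod_cast hP
  have hC0 : (0 : ℝ) < C := by exact_mod_cast (by omega : 0 < C)
  have hC2 : (2 : ℝ) ≤ C := by exact_mod_cast hC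
  have hPk : (0 : ℝ) < (P : ℝ) ^ k := by positivity
  rw [← card_Xf m C P]
  have hi0 : Xf m C P (Fin.castAdd m 0) = Ioc P (C * P) := by
    unfold Xf
    rw [if_pos rfl]
  refine N_lower _ _ (by positivity) α ν (Fin.castAdd m 0) (P + 1) ?_ ?_
  · rw [hi0, mem_Ioc]
    constructor
    · omega
    · nlinarith
  · intro y hy
    rw [Fintype.mem_piFinset] at hy
    rw [hi0]
    obtain ⟨R, hR⟩ : ∃ R, R = ∑ i ∈ univ.erase (Fin.castAdd m 0), ((y i : ℝ) - α i) ^ k := ⟨_, rfl⟩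
    have hbd : ∀ i, 0 ≤ (y i : ℝ) - α i := by
      intro i
      have h3 := (xf_mem m C P hC i _ (hy i)).1
      have h4 : ((P + 1 : ℕ) : ℝ) ≤ y i := by exact_mod_cast h3
      push_cast at h4
      have := (hα i).2
      linarith
    have hR0 : 0 ≤ R := by
      rw [hR]
      exact sum_nonneg fun i _ => pow_nonneg (hbd i) k
    have hR1 : R ≤ (4 + m) * (2 ^ k * (P : ℝ) ^ k) := by
      rw [hR]
      calc ∑ i ∈ univ.erase (Fin.castAdd m 0), ((y i : ℝ) - α i) ^ k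
          ≤ ∑ _i ∈ univ.erase (Fin.castAdd m (0 : Fin 4)), (2 ^ k * (P : ℝ) ^ k) := by
            refine sum_le_sum fun i hi => ?_
            rw [mem_erase] at hi
            have hyi := hy i
            unfold Xf at hyi
            rw [if_neg hi.1, mem_Ioc] at hyi
            have h3 : (y i : ℝ) ≤ 2 * P := by exact_mod_cast hyi.2
            rw [← mul_pow]
            have := (hα i).1
            exact pow_le_pow_left₀ (hbd i) (by linarith) k
        _ ≤ (4 + m) * (2 ^ k * (P : ℝ) ^ k) := by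
            rw [sum_const, nsmul_eq_mul]
            refine mul_le_mul_of_nonneg_right ?_ (by positivity)
            rw [card_erase]
            push_cast
            linarith
    have g1 : ((P + 1 : ℕ) : ℝ) ^ k ≤ ν - R := by
      have h5 : ((P + 1 : ℕ) : ℝ) ≤ 2 * P := by
        push_cast
        linarith
      have h6 : ((P + 1 : ℕ) : ℝ) ^ k ≤ 2 ^ k * (P : ℝ) ^ k := by
        rw [← mul_pow]
        exact pow_le_pow_left₀ (Nat.cast_nonneg _) h5 k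
      have h8 : (5 + m) * 2 ^ k * (P : ℝ) ^ k = (4 + m) * (2 ^ k * (P : ℝ) ^ k) + 2 ^ k * (P : ℝ) ^ k := by
        ring
      linarith
    have g2 : ν - R < (((C * P : ℕ) : ℝ) - 1) ^ k := by
      have h9 : (((C : ℝ) - 1) * P) ^ k ≤ (((C * P : ℕ) : ℝ) - 1) ^ k := by
        apply pow_le_pow_left₀
        · exact mul_nonneg (by linarith) hP0.le
        · push_cast
          linarith
      rw [mul_pow] at h9
      have h10 := mul_lt_mul_of_pos_right hCE hPk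
      linarith
    obtain ⟨x, hx, hx'⟩ := greedy k P C (α (Fin.castAdd m 0)) (ν - R) (hα _) g1 g2 (by nlinarith)
    refine ⟨x, hx, ?_⟩
    rw [L_update]
    have h11 : (sh k x) (α (Fin.castAdd m 0)) + ∑ i ∈ univ.erase (Fin.castAdd m 0), (sh k (y i)) (α i) - ν =
        ((x : ℝ) - α (Fin.castAdd m 0)) ^ k - (ν - R) := by
      rw [hR]
      simp only [sh_apply]
      ring
    rw [h11]
    refine hx'.trans ?_
    push_cast
    rw [mul_pow]
    have h12 : (0 : ℝ) ≤ (P : ℝ) ^ (k - 1) := by positivity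
    nlinarith

/-- the mean of `Q` for shifted powers -/
lemma mean_shift (m k : ℕ) (hk : 2 ≤ k) (C P : ℕ) (hC : 2 ≤ C) (hP : 1 ≤ P) (δ B : ℝ) (hδ : 0 < δ) (hB : 1 ≤ B)
    (h1 : 6 * (1 + Real.log (C * P)) ≤ (P : ℝ) ^ (δ / (4 + m)))
    (H1 : (P : ℝ) ^ (1 + 8 * δ) * ((P : ℝ) ^ (k - 1)) ^ 2 ≤ (P : ℝ) ^ (3 + m)) (H2 : (P : ℝ) ^ (1 + 8 * δ) ≤ (P : ℝ) ^ 3) :
    ∫ α, Q (Xf m C P) (fun _ => sh k) ((P : ℝ) ^ (-δ)) (B * (P : ℝ) ^ (k - 1)) α ∂(box (4 + m) 0 1) ≤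
      (√C + 2 * Real.pi * B ^ 2 * √C) * (P : ℝ) ^ (-δ) * ((P : ℝ) ^ (3 + m) / (P : ℝ) ^ (k - 1)) := by
  have hP0 : (0 : ℝ) < P := by exact_mod_cast hP
  have hP1 : (1 : ℝ) ≤ P := by exact_mod_cast hP
  have hC0 : (0 : ℝ) < C := by exact_mod_cast (by omega : 0 < C)
  have hg : (0 : ℝ) < (P : ℝ) ^ (k - 1) := by positivity
  have hg1 : (1 : ℝ) ≤ (P : ℝ) ^ (k - 1) := one_le_pow₀ hP1
  have hη : (0 : ℝ) < (P : ℝ) ^ (-δ) := by positivity
  have hη1 : (P : ℝ) ^ (-δ) ≤ 1 := Real.rpow_le_one_of_one_le_of_nonpos hP1 (by linarith)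
  have hY : (P : ℝ) ^ (-δ) ≤ B * (P : ℝ) ^ (k - 1) := by nlinarith
  have hL : 0 ≤ Real.log ((C * P : ℕ) : ℝ) := Real.log_natCast_nonneg _
  obtain ⟨K, hK⟩ : ∃ K, K = 3 + 2 * Real.log ((C * P : ℕ) : ℝ) := ⟨_, rfl⟩
  have hK0 : 0 < K := by rw [hK]; positivity
  obtain ⟨c₀, hc₀⟩ : ∃ c₀ : ℝ, c₀ = 2 * (1 - 0) * K := ⟨_, rfl⟩
  have hc0 : 0 < c₀ := by rw [hc₀]; positivity
  have hc1 : c₀ ≤ (P : ℝ) ^ (δ / (4 + m)) := by
    refine le_trans ?_ h1
    rw [hc₀, hK]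
    push_cast at hL ⊢
    linarith
  have hc4 : c₀ ^ (4 + m) ≤ (P : ℝ) ^ δ := by
    calc c₀ ^ (4 + m) ≤ ((P : ℝ) ^ (δ / (4 + m))) ^ (4 + m) := pow_le_pow_left₀ hc0.le hc1 _
      _ = (P : ℝ) ^ δ := by
          rw [← Real.rpow_natCast, ← Real.rpow_mul hP0.le]
          congr 1
          push_cast
          have : (4 + m : ℝ) ≠ 0 := by positivity
          field_simp
  have hc2 : c₀ ^ 2 ≤ (P : ℝ) ^ δ := by
    calc c₀ ^ 2 ≤ ((P : ℝ) ^ (δ / (4 + m))) ^ 2 := pow_le_pow_left₀ hc0.le hc1 _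
      _ = (P : ℝ) ^ (δ / (4 + m) * 2) := by
          rw [← Real.rpow_natCast, ← Real.rpow_mul hP0.le]
          norm_num
      _ ≤ (P : ℝ) ^ δ := by
          apply Real.rpow_le_rpow_of_exponent_le hP1
          rw [div_mul_eq_mul_div, div_le_iff₀ (by positivity)]
          have : (0 : ℝ) ≤ m := Nat.cast_nonneg m
          nlinarith
  have hMS : ∀ i, MS (Xf m C P i) (sh k) 0 1 ((P : ℝ) ^ (k - 1)) K := by
    intro i
    unfold Xf
    split_ifs
    · rw [hK]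
      exact ms_shift k P (C * P) hk hP (by nlinarith)
    · have h3 := ms_shift k P (2 * P) hk hP le_rfl
      intro θ hθ
      refine (h3 θ hθ).trans ?_
      refine mul_le_mul_of_nonneg_left ?_ (Nat.cast_nonneg _)
      refine mul_le_mul_of_nonneg_right ?_ (by positivity)
      rw [hK]
      have h4 : Real.log ((2 * P : ℕ) : ℝ) ≤ Real.log ((C * P : ℕ) : ℝ) := by
        apply Real.log_le_log
        · exact_mod_cast (by omega : 0 < 2 * P)
        · exact_mod_cast Nat.mul_le_mul_right P hC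
      linarith
  have hmean := mean_bound m (Xf m C P) (fun _ => sh k) hg hK0 hMS hη hY one_pos c₀ (by rw [hc₀])
  refine hmean.trans ?_
  have hT0 : ((Xf m C P (Fin.castAdd m 0)).card : ℝ) ≤ C * P := by
    unfold Xf
    rw [if_pos rfl, Nat.card_Ioc]
    exact_mod_cast Nat.sub_le _ _
  have hTi : ∀ i, i ≠ Fin.castAdd m 0 → ((Xf m C P i).card : ℝ) = P := by
    intro i hi
    unfold Xf
    rw [if_neg hi, Nat.card_Ioc]
    congr 1
    omega
  obtain ⟨T₀, hT₀⟩ : ∃ T₀ : ℝ, T₀ = (Xf m C P (Fin.castAdd m 0)).card := ⟨_, rfl⟩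
  have hT00 : 0 ≤ T₀ := by rw [hT₀]; positivity
  rw [← hT₀] at hT0
  have hne : ∀ i : Fin 4, i ≠ 0 → Fin.castAdd m i ≠ Fin.castAdd m 0 := fun i hi => (Fin.castAdd_injective 4 m).ne hi
  have e1 : ∏ i, √(c₀ * ((Xf m C P i).card : ℝ)) = √(c₀ ^ (4 + m) * T₀ * ((P : ℝ) ^ 3 * (P : ℝ) ^ m)) := by
    rw [← Real.sqrt_prod _ fun i _ => by positivity, prod_mul_distrib, prod_const, card_univ, Fintype.card_fin]
    have : ∏ i, ((Xf m C P i).card : ℝ) = T₀ * ((P : ℝ) ^ 3 * (P : ℝ) ^ m) := by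
      rw [← mul_prod_erase univ _ (mem_univ (Fin.castAdd m 0)), card_Xf, ← hT₀, pow_add]
    rw [this, mul_assoc]
  have e2 : (∏ i : Fin 4, √((Xf m C P (Fin.castAdd m i)).card : ℝ)) *
      ∏ j : Fin m, (((1 : ℝ) - 0) * ((Xf m C P (Fin.natAdd 4 j)).card : ℝ)) = √(T₀ * (P : ℝ) ^ 3) * (1 ^ m * (P : ℝ) ^ m) := by
    congr 1
    · rw [← Real.sqrt_prod _ fun i _ => by positivity, Fin.prod_univ_four, hTi _ (hne 1 (by decide)),
        hTi _ (hne 2 (by decide)), hTi _ (hne 3 (by decide)), ← hT₀]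
      congr 1
      ring
    · have h5 : ∀ j : Fin m, ((1 : ℝ) - 0) * ((Xf m C P (Fin.natAdd 4 j)).card : ℝ) = P := by
        intro j
        rw [hTi, sub_zero, one_mul]
        intro h
        rw [Fin.ext_iff] at h
        simp at h
      rw [prod_congr rfl fun j _ => h5 j, prod_const, card_univ, Fintype.card_fin, one_pow, one_mul]
  rw [e1, e2]
  have e3 : (P : ℝ) ^ (3 + m) = (P : ℝ) ^ 3 * (P : ℝ) ^ m := pow_add _ _ _
  have hn := numer (r := 1) (m := m) hP1 hδ hc0 hC0.le one_pos hg hc4 hc2 hT00 hT0 (by rw [← e3]; exact H1) H2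
    (by positivity : (0 : ℝ) ≤ (P : ℝ) ^ m) (B := B)
  rw [e3]
  refine hn.trans (le_of_eq ?_)
  rw [one_pow, mul_one]

end

end Pool.Agent.Run7.h927.WS
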