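import Pool.Agent.Run7.h927.WS.E

set_option autoImplicit false

/-! Almost all shifts: all large numbers are sums of shifted powers. -/

namespace Pool.Agent.Run7.h927.WS
open MeasureTheory Finset Filter
open Pool.Agent.Run7.h927.WG (e norm_e bc log_small exp_small find_scale box box_eq)

noncomputable section

lemma tendsto_two : Tendsto (fun j : ℕ => ((2 ^ j : ℕ) : ℝ)) atTop atTop := by
  have : (fun j : ℕ => ((2 ^ j : ℕ) : ℝ)) = fun j : ℕ => (2 : ℝ) ^ j := by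
    funext j
    push_cast
    rfl
  rw [this]
  exact tendsto_pow_atTop_atTop_of_one_lt one_lt_two

/-- almost all shifts: a lower bound at the narrow scale -/
theorem ae_N (m k : ℕ) (hk : 2 ≤ k) (E : ℝ) (C : ℕ) (hC : 2 ≤ C) (hCE : E < ((C : ℝ) - 1) ^ k) (δ : ℝ) (hδ : 0 < δ)
    (H1 : ∀ P : ℝ, 1 ≤ P → P ^ (1 + 8 * δ) * (P ^ (k - 1)) ^ 2 ≤ P ^ (3 + m))
    (H2 : ∀ P : ℝ, 1 ≤ P → P ^ (1 + 8 * δ) ≤ P ^ 3) :
    ∃ c : ℝ, 0 < c ∧ ∀ᵐ α ∂(box (4 + m) 0 1), ∀ᶠ j : ℕ in atTop, ∀ ν : ℝ,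
      (5 + m) * 2 ^ k * ((2 ^ j : ℕ) : ℝ) ^ k ≤ ν → ν ≤ E * ((2 ^ j : ℕ) : ℝ) ^ k →
      c * ((2 ^ j : ℕ) : ℝ) ^ (-δ) * (((2 ^ j : ℕ) : ℝ) ^ (3 + m) / ((2 ^ j : ℕ) : ℝ) ^ (k - 1)) ≤
        N (Xf m C (2 ^ j)) (fun _ => sh k) (((2 ^ j : ℕ) : ℝ) ^ (-δ)) α ν := by
  have hC0 : (0 : ℝ) < C := by exact_mod_cast (by omega : 0 < C)
  obtain ⟨B, hB⟩ : ∃ B, B = k * (C : ℝ) ^ (k - 1) + 1 := ⟨_, rfl⟩
  have hB1 : 1 ≤ B := by
    rw [hB]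
    have : 0 ≤ k * (C : ℝ) ^ (k - 1) := by positivity
    linarith
  have hB0 : 0 < B := by linarith
  obtain ⟨c, hc⟩ : ∃ c, c = Real.exp (-Real.pi) / (2 * B) := ⟨_, rfl⟩
  have hc0 : 0 < c := by rw [hc]; positivity
  refine ⟨c, hc0, ?_⟩
  obtain ⟨K, hK⟩ : ∃ K, K = √(C : ℝ) + 2 * Real.pi * B ^ 2 * √(C : ℝ) := ⟨_, rfl⟩
  have hp0 : ∀ j : ℕ, (0 : ℝ) < ((2 ^ j : ℕ) : ℝ) := fun j => by positivity
  have hp1 : ∀ j : ℕ, (1 : ℝ) ≤ ((2 ^ j : ℕ) : ℝ) := fun j => by exact_mod_cast Nat.one_le_two_pow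
  have hlog := tendsto_two.eventually (log_small 6 C (δ / (4 + m)) hC0 (by positivity))
  have hq : ∀ j : ℕ, ((2 ^ j : ℕ) : ℝ) ^ (-δ) = ((2 : ℝ) ^ (-δ)) ^ j := by
    intro j
    push_cast
    rw [← Real.rpow_natCast, ← Real.rpow_mul (by norm_num), ← Real.rpow_natCast, ← Real.rpow_mul (by norm_num)]
    congr 1
    ring
  have hbc := bc (box (4 + m) 0 1)
    (fun j => Q (Xf m C (2 ^ j)) (fun _ => sh k) (((2 ^ j : ℕ) : ℝ) ^ (-δ)) (B * ((2 ^ j : ℕ) : ℝ) ^ (k - 1)))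
    (fun j => c * (((2 ^ j : ℕ) : ℝ) ^ (3 + m) / ((2 ^ j : ℕ) : ℝ) ^ (k - 1))) (K / c) ((2 : ℝ) ^ (-δ)) (by positivity)
    (Real.rpow_lt_one_of_one_lt_of_neg one_lt_two (by linarith)) ?_ ?_
  · have hmem : ∀ᵐ α ∂(box (4 + m) 0 1), α ∈ Set.pi Set.univ fun _ : Fin (4 + m) => Set.Icc (0 : ℝ) 1 := by
      rw [box_eq]
      exact ae_restrict_mem (MeasurableSet.univ_pi fun _ => measurableSet_Icc)
    filter_upwards [hbc, hmem] with α hα hα'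
    filter_upwards [hα] with j hj ν h1 h2
    have hY0 : 0 < B * ((2 ^ j : ℕ) : ℝ) ^ (k - 1) := by
      have := hp0 j
      positivity
    have hη : (0 : ℝ) < ((2 ^ j : ℕ) : ℝ) ^ (-δ) := Real.rpow_pos_of_pos (hp0 j) _
    have hη1 : ((2 ^ j : ℕ) : ℝ) ^ (-δ) ≤ 1 := Real.rpow_le_one_of_one_le_of_nonpos (hp1 j) (by linarith)
    have hY : ((2 ^ j : ℕ) : ℝ) ^ (-δ) ≤ B * ((2 ^ j : ℕ) : ℝ) ^ (k - 1) := by
      have : (1 : ℝ) ≤ ((2 ^ j : ℕ) : ℝ) ^ (k - 1) := one_le_pow₀ (hp1 j)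
      nlinarith
    have h3 := N_wide m k E C (2 ^ j) hC Nat.one_le_two_pow hCE α (fun i => hα' i (Set.mem_univ i)) ν h1 h2
    rw [← hB] at h3
    have h4 := compare (Xf m C (2 ^ j)) (fun _ => sh k) hη hY α ν
    have h5 := (abs_le.1 h4).1
    have h6 : ((2 ^ j : ℕ) : ℝ) ^ (-δ) / (B * ((2 ^ j : ℕ) : ℝ) ^ (k - 1)) *
        (Real.exp (-Real.pi) * ((2 ^ j : ℕ) : ℝ) ^ (3 + m)) ≤
        ((2 ^ j : ℕ) : ℝ) ^ (-δ) / (B * ((2 ^ j : ℕ) : ℝ) ^ (k - 1)) *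
        N (Xf m C (2 ^ j)) (fun _ => sh k) (B * ((2 ^ j : ℕ) : ℝ) ^ (k - 1)) α ν :=
      mul_le_mul_of_nonneg_left h3 (by positivity)
    have h7 : ((2 ^ j : ℕ) : ℝ) ^ (-δ) / (B * ((2 ^ j : ℕ) : ℝ) ^ (k - 1)) *
        (Real.exp (-Real.pi) * ((2 ^ j : ℕ) : ℝ) ^ (3 + m)) =
        2 * (((2 ^ j : ℕ) : ℝ) ^ (-δ) * (c * (((2 ^ j : ℕ) : ℝ) ^ (3 + m) / ((2 ^ j : ℕ) : ℝ) ^ (k - 1)))) := by
      rw [hc]
      have := hp0 j
      field_simp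
    have h8 := mul_le_mul_of_nonneg_left hj.le hη.le
    calc c * ((2 ^ j : ℕ) : ℝ) ^ (-δ) * (((2 ^ j : ℕ) : ℝ) ^ (3 + m) / ((2 ^ j : ℕ) : ℝ) ^ (k - 1))
        = ((2 ^ j : ℕ) : ℝ) ^ (-δ) * (c * (((2 ^ j : ℕ) : ℝ) ^ (3 + m) / ((2 ^ j : ℕ) : ℝ) ^ (k - 1))) := by ring
      _ ≤ _ := by linarith
  · intro j α
    have hη : (0 : ℝ) < ((2 ^ j : ℕ) : ℝ) ^ (-δ) := Real.rpow_pos_of_pos (hp0 j) _
    have hη1 : ((2 ^ j : ℕ) : ℝ) ^ (-δ) ≤ 1 := Real.rpow_le_one_of_one_le_of_nonpos (hp1 j) (by linarith)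
    have hY : ((2 ^ j : ℕ) : ℝ) ^ (-δ) ≤ B * ((2 ^ j : ℕ) : ℝ) ^ (k - 1) := by
      have : (1 : ℝ) ≤ ((2 ^ j : ℕ) : ℝ) ^ (k - 1) := one_le_pow₀ (hp1 j)
      nlinarith
    exact Q_nonneg _ _ hη hY α
  · filter_upwards [hlog] with j hj3
    have hη : (0 : ℝ) < ((2 ^ j : ℕ) : ℝ) ^ (-δ) := Real.rpow_pos_of_pos (hp0 j) _
    have hη1 : ((2 ^ j : ℕ) : ℝ) ^ (-δ) ≤ 1 := Real.rpow_le_one_of_one_le_of_nonpos (hp1 j) (by linarith)
    have hY : ((2 ^ j : ℕ) : ℝ) ^ (-δ) ≤ B * ((2 ^ j : ℕ) : ℝ) ^ (k - 1) := by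
      have : (1 : ℝ) ≤ ((2 ^ j : ℕ) : ℝ) ^ (k - 1) := one_le_pow₀ (hp1 j)
      nlinarith
    refine ⟨by have := hp0 j; positivity, int_Q _ _ hη hY 0 1, ?_⟩
    have h9 := mean_shift m k hk C (2 ^ j) hC Nat.one_le_two_pow δ B hδ hB1 hj3 (H1 _ (hp1 j)) (H2 _ (hp1 j))
    refine h9.trans (le_of_eq ?_)
    rw [← hK, hq]
    field_simp

/-- almost all shifts: the number of the solutions of the inequality -/
theorem ae_count (m k : ℕ) (hk : 2 ≤ k) (E : ℝ) (C : ℕ) (hC : 2 ≤ C) (hCE : E < ((C : ℝ) - 1) ^ k) (δ : ℝ) (hδ : 0 < δ)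
    (H1 : ∀ P : ℝ, 1 ≤ P → P ^ (1 + 8 * δ) * (P ^ (k - 1)) ^ 2 ≤ P ^ (3 + m))
    (H2 : ∀ P : ℝ, 1 ≤ P → P ^ (1 + 8 * δ) ≤ P ^ 3) :
    ∃ c : ℝ, 0 < c ∧ ∀ᵐ α ∂(box (4 + m) 0 1), ∀ᶠ j : ℕ in atTop, ∀ ν : ℝ,
      (5 + m) * 2 ^ k * ((2 ^ j : ℕ) : ℝ) ^ k + 1 ≤ ν → ν ≤ E * ((2 ^ j : ℕ) : ℝ) ^ k - 1 →
      ∀ ε : ℝ, ((2 ^ j : ℕ) : ℝ) ^ (-(δ / 2)) ≤ ε → ε ≤ 1 →
      c * ε * (((2 ^ j : ℕ) : ℝ) ^ (3 + m) / ((2 ^ j : ℕ) : ℝ) ^ (k - 1)) ≤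
        (((Fintype.piFinset (Xf m C (2 ^ j))).filter
          (fun x => |∑ i, ((x i : ℝ) - α i) ^ k - ν| ≤ ε)).card : ℝ) := by
  obtain ⟨c, hc, hae⟩ := ae_N m k hk E C hC hCE δ hδ H1 H2
  refine ⟨c / 2, by positivity, ?_⟩
  have hp0 : ∀ j : ℕ, (0 : ℝ) < ((2 ^ j : ℕ) : ℝ) := fun j => by positivity
  have hp1 : ∀ j : ℕ, (1 : ℝ) ≤ ((2 ^ j : ℕ) : ℝ) := fun j => by exact_mod_cast Nat.one_le_two_pow
  have hexp := tendsto_two.eventually (exp_small C (4 + m) δ (c / 2) hδ (by positivity))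
  filter_upwards [hae] with α hα
  filter_upwards [hα, hexp] with j hj hj2 ν h1 h2 ε hε hε1
  have hp := hp0 j
  obtain ⟨p, hpe⟩ : ∃ p : ℝ, p = ((2 ^ j : ℕ) : ℝ) := ⟨_, rfl⟩
  have hP1 : (1 : ℝ) ≤ p := hpe ▸ hp1 j
  have hj1 := H1 p hP1
  rw [← hpe] at hj hj2 h1 h2 hε hp ⊢
  obtain ⟨V, hV⟩ : ∃ V, V = p ^ (3 + m) / p ^ (k - 1) := ⟨_, rfl⟩
  have hg1 : (1 : ℝ) ≤ p ^ (k - 1) := one_le_pow₀ hP1
  have hV1 : 1 ≤ V := by
    rw [hV, one_le_div (by positivity)]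
    refine le_trans ?_ hj1
    have h3 : 1 ≤ p ^ (1 + 8 * δ) := Real.one_le_rpow hP1 (by positivity)
    have h4 : p ^ (k - 1) ≤ (p ^ (k - 1)) ^ 2 := by nlinarith
    nlinarith [sq_nonneg (p ^ (k - 1))]
  rw [← hV] at hj ⊢
  have hε0 : 0 < ε := lt_of_lt_of_le (Real.rpow_pos_of_pos hp _) hε
  have hη : 0 < p ^ (-δ) := Real.rpow_pos_of_pos hp _
  have h5 := count_lower (Xf m C (2 ^ j)) (fun _ => sh k) (V := c * V) hη hε0 α ν ?_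
  · have h6 : ((Fintype.piFinset (Xf m C (2 ^ j))).card : ℝ) ≤ (C * p) ^ (4 + m) := by
      rw [Fintype.card_piFinset]
      push_cast
      calc ∏ i, ((Xf m C (2 ^ j) i).card : ℝ) ≤ ∏ _i : Fin (4 + m), (C * p) := by
            refine prod_le_prod (fun i _ => Nat.cast_nonneg _) fun i _ => ?_
            unfold Xf
            rw [hpe]
            split_ifs
            · rw [Nat.card_Ioc]
              exact_mod_cast Nat.sub_le _ _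
            · rw [Nat.card_Ioc]
              have h7 : 2 * 2 ^ j - 2 ^ j ≤ C * 2 ^ j := by
                have : 1 * 2 ^ j ≤ C * 2 ^ j := Nat.mul_le_mul_right _ (by omega)
                omega
              exact_mod_cast h7
        _ = _ := by rw [prod_const, card_univ, Fintype.card_fin]
    have h8 : p ^ δ ≤ (ε / p ^ (-δ)) ^ 2 := by
      have h9 : p ^ (δ / 2) ≤ ε / p ^ (-δ) := by
        rw [le_div_iff₀ hη, ← Real.rpow_add hp]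
        have : δ / 2 + -δ = -(δ / 2) := by ring
        rwa [this]
      calc p ^ δ = (p ^ (δ / 2)) ^ 2 := by
            rw [← Real.rpow_natCast, ← Real.rpow_mul hp.le]
            congr 1
            push_cast
            ring
        _ ≤ _ := pow_le_pow_left₀ (Real.rpow_pos_of_pos hp _).le h9 2
    have h10 : ((Fintype.piFinset (Xf m C (2 ^ j))).card : ℝ) / p ^ (-δ) *
        Real.exp (-(Real.pi / 4) * (ε / p ^ (-δ)) ^ 2) ≤ c / 2 := by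
      refine le_trans ?_ hj2
      refine mul_le_mul ?_ ?_ (Real.exp_pos _).le (by positivity)
      · gcongr
      · rw [Real.exp_le_exp]
        have := Real.pi_pos
        nlinarith
    have h11 : ε * (((Fintype.piFinset (Xf m C (2 ^ j))).card : ℝ) / p ^ (-δ) *
        Real.exp (-(Real.pi / 4) * (ε / p ^ (-δ)) ^ 2)) ≤ ε * (c / 2 * V) := by
      refine mul_le_mul_of_nonneg_left (h10.trans ?_) hε0.le
      have : 0 < c / 2 := by positivity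
      nlinarith
    have h12 : c / 2 * ε * V = ε * (c * V) - ε * (c / 2 * V) := by ring
    rw [h12]
    unfold L at h5
    simp only [sh_apply] at h5
    linarith
  · intro t ht
    have := hj t (by linarith [ht.1]) (by linarith [ht.2])
    calc p ^ (-δ) * (c * V) = c * p ^ (-δ) * V := by ring
      _ ≤ _ := this

/-- almost all shifts, all large numbers -/
theorem main_shift (m k : ℕ) (hk : 2 ≤ k) (hm : 2 * k + 1 ≤ 4 + m) :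
    ∃ c : ℝ, 0 < c ∧ ∀ᵐ α ∂(box (4 + m) 0 1), ∀ᶠ ν : ℝ in atTop,
      ∀ ε : ℝ, ν ^ (-(1 / (20 * k)) : ℝ) ≤ ε → ε ≤ 1 → ∃ F : Finset (Fin (4 + m) → ℕ),
        c * ε * ν ^ (((4 + m : ℕ) : ℝ) / k - 1) ≤ (F.card : ℝ) ∧
        ∀ x ∈ F, (∀ i, 0 < x i) ∧ |∑ i, ((x i : ℝ) - α i) ^ k - ν| ≤ ε := by
  have hk0 : (0 : ℝ) < k := by exact_mod_cast (by omega : 0 < k)
  have hp1 : ∀ j : ℕ, (1 : ℝ) ≤ ((2 ^ j : ℕ) : ℝ) := fun j => by exact_mod_cast Nat.one_le_two_pow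
  have hmk : (2 * (k : ℝ) + 1) ≤ 4 + m := by exact_mod_cast hm
  obtain ⟨A₀, hA₀⟩ : ∃ A₀ : ℝ, A₀ = (5 + m) * 2 ^ k := ⟨_, rfl⟩
  have hA0 : 0 < A₀ := by rw [hA₀]; positivity
  obtain ⟨E, hE⟩ : ∃ E, E = 2 ^ k * A₀ + 2 := ⟨_, rfl⟩
  have hE0 : 0 < E := by rw [hE]; positivity
  have hE1 : 1 ≤ E := by
    rw [hE]
    have : 0 < 2 ^ k * A₀ := by positivity
    linarith
  obtain ⟨C', hC'⟩ := exists_nat_gt E
  obtain ⟨C, hC⟩ : ∃ C, C = C' + 2 := ⟨_, rfl⟩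
  have hC2 : 2 ≤ C := by omega
  have hCE : E < ((C : ℝ) - 1) ^ k := by
    have h1 : (C : ℝ) - 1 = C' + 1 := by
      rw [hC]
      push_cast
      ring
    have h2 : (C' : ℝ) + 1 ≤ ((C' : ℝ) + 1) ^ k := by
      refine le_self_pow₀ ?_ (by omega)
      have : (0 : ℝ) ≤ C' := Nat.cast_nonneg _
      linarith
    rw [h1]
    linarith
  have e1 : (1 : ℝ) + 8 * (1 / 8) = ((2 : ℕ) : ℝ) := by norm_num
  obtain ⟨c, hc, hae⟩ := ae_count m k hk E C hC2 hCE (1 / 8) (by norm_num)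
    (fun P hP => by
      rw [e1, Real.rpow_natCast, ← pow_mul, ← pow_add]
      exact pow_le_pow_right₀ hP (by omega))
    (fun P hP => by
      rw [e1, Real.rpow_natCast]
      exact pow_le_pow_right₀ hP (by omega))
  obtain ⟨σ, hσ⟩ : ∃ σ : ℝ, σ = ((4 + m : ℕ) : ℝ) / k - 1 := ⟨_, rfl⟩
  have hσ0 : 0 < σ := by
    rw [hσ, sub_pos, one_lt_div hk0]
    push_cast
    linarith
  -- the scale is large enough
  have hEρ : ∃ j₀ : ℕ, ∀ j ≥ j₀, E ^ (1 / (20 * k) : ℝ) ≤ ((2 ^ j : ℕ) : ℝ) ^ (1 / 80 : ℝ) := by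
    have := ((tendsto_rpow_atTop (by norm_num : (0 : ℝ) < 1 / 80)).comp tendsto_two).eventually
      (eventually_ge_atTop (E ^ (1 / (20 * k) : ℝ)))
    exact eventually_atTop.1 this
  obtain ⟨j₀, hj₀⟩ := hEρ
  refine ⟨c / E ^ σ, by positivity, ?_⟩
  filter_upwards [hae] with α hα
  obtain ⟨j₁, hj₁⟩ := eventually_atTop.1 hα
  filter_upwards [eventually_ge_atTop (A₀ * ((2 ^ (max j₀ j₁) : ℕ) : ℝ) ^ k + 1), eventually_gt_atTop 0] with ν hν hν0 ε hε1 hε2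
  obtain ⟨j, hj, hj2, hj3⟩ := find_scale k (by omega) A₀ hA0 (max j₀ j₁) ν hν
  have hp := hp1 j
  have hp0 : (0 : ℝ) < ((2 ^ j : ℕ) : ℝ) := by linarith
  have hF := hj₁ j (le_trans (le_max_right _ _) hj) ν (by rw [← hA₀]; exact hj2) (by rw [hE]; exact hj3) ε
  have hjK := hj₀ j (le_trans (le_max_left _ _) hj)
  obtain ⟨p, hpe⟩ : ∃ p : ℝ, p = ((2 ^ j : ℕ) : ℝ) := ⟨_, rfl⟩
  rw [← hpe] at hj2 hj3 hF hp hp0 hjK
  have hν1 : ν ≤ E * p ^ k := by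
    rw [← hE] at hj3
    linarith
  have hεp : p ^ (-((1 / 8 : ℝ) / 2)) ≤ ε := by
    refine le_trans ?_ hε1
    have h1 : (E * p ^ k) ^ (-(1 / (20 * k)) : ℝ) ≤ ν ^ (-(1 / (20 * k)) : ℝ) := by
      apply Real.rpow_le_rpow_of_nonpos hν0 hν1
      rw [neg_nonpos]
      positivity
    refine le_trans ?_ h1
    rw [Real.mul_rpow (by linarith) (by positivity), Real.rpow_neg (by linarith : (0 : ℝ) ≤ E) (1 / (20 * k))]
    have h2 : (p ^ k) ^ (-(1 / (20 * k)) : ℝ) = p ^ (-(1 / 20) : ℝ) := by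
      rw [← Real.rpow_natCast, ← Real.rpow_mul hp0.le]
      congr 1
      field_simp
    rw [h2, inv_mul_eq_div, le_div_iff₀ (by positivity)]
    calc p ^ (-((1 / 8 : ℝ) / 2)) * E ^ (1 / (20 * k) : ℝ) ≤ p ^ (-((1 / 8 : ℝ) / 2)) * p ^ (1 / 80 : ℝ) :=
          mul_le_mul_of_nonneg_left hjK (by positivity)
      _ = p ^ (-(1 / 20) : ℝ) := by
          rw [← Real.rpow_add hp0]
          norm_num
  have hF1 := hF hεp hε2
  refine ⟨_, le_trans ?_ hF1, fun x hx => ?_⟩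
  · have hε0 : 0 < ε := lt_of_lt_of_le (by positivity) hεp
    have h3 : ν ^ σ ≤ E ^ σ * (p ^ (3 + m) / p ^ (k - 1)) := by
      calc ν ^ σ ≤ (E * p ^ k) ^ σ := Real.rpow_le_rpow hν0.le hν1 hσ0.le
        _ = E ^ σ * (p ^ k) ^ σ := Real.mul_rpow (by linarith) (by positivity)
        _ = E ^ σ * (p ^ (3 + m) / p ^ (k - 1)) := by
            congr 1
            rw [div_eq_mul_inv, ← pow_sub₀ p hp0.ne' (by omega), ← Real.rpow_natCast, ← Real.rpow_mul hp0.le,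
              ← Real.rpow_natCast]
            congr 1
            rw [hσ, Nat.cast_sub (by omega), Nat.cast_sub (by omega)]
            push_cast
            field_simp
            ring
    rw [← hσ]
    calc c / E ^ σ * ε * ν ^ σ ≤ c / E ^ σ * ε * (E ^ σ * (p ^ (3 + m) / p ^ (k - 1))) :=
          mul_le_mul_of_nonneg_left h3 (by positivity)
      _ = _ := by
          have : 0 < E ^ σ := by positivity
          field_simp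
  · rw [mem_filter, Fintype.mem_piFinset] at hx
    exact ⟨fun i => lt_of_le_of_lt (Nat.zero_le _) (xf_mem m C _ hC2 i _ (hx.1 i)).1, hx.2⟩

end

end Pool.Agent.Run7.h927.WS
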