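import Pool.Agent.Run7.h927.WS.F

set_option autoImplicit false

/-! The large frequencies in the square mean. -/

namespace Pool.Agent.Run7.h927.WS
open MeasureTheory Finset Filter
open Pool.Agent.Run7.h927.WG (e norm_e e_add e_zero e_conj cont_e w w_le w_le' w_nonneg cont_w int_gauss val_gauss int_w box box_eq gauss_id int_ge gauss_shift bc)

noncomputable section

/-- the Fourier transform of the Gaussian -/
lemma gauss_ft {R : ℝ} (hR : 0 < R) (v : ℝ) :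
    ∫ ν : ℝ, ((Real.exp (-(Real.pi * (1 / R) ^ 2) * ν ^ 2) : ℝ) : ℂ) * e (ν * v) =
      ((R * Real.exp (-Real.pi * (v * R) ^ 2) : ℝ) : ℂ) := by
  have h := gauss_id (η := 1 / R) (by positivity) v
  have h1 : v / (1 / R) = v * R := by field_simp
  rw [h1] at h
  rw [Complex.ofReal_mul, h, ← mul_assoc]
  have h2 : (R : ℂ) * ((1 / R : ℝ) : ℂ) = 1 := by
    rw [← Complex.ofReal_mul, mul_one_div_cancel hR.ne']
    simp
  rw [h2, one_mul]

lemma ker_int {R : ℝ} (hR : 0 < R) : Integrable (fun u : ℝ => R * Real.exp (-Real.pi * (u * R) ^ 2)) ∧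
    ∫ u : ℝ, R * Real.exp (-Real.pi * (u * R) ^ 2) = 1 := by
  have hpi := Real.pi_pos
  have h1 : ∀ u : ℝ, R * Real.exp (-Real.pi * (u * R) ^ 2) = R * Real.exp (-(Real.pi * R ^ 2) * u ^ 2) := by
    intro u
    congr 2
    ring
  simp only [h1]
  constructor
  · exact (int_gauss hR).const_mul R
  · rw [integral_const_mul, val_gauss hR]
    exact mul_one_div_cancel hR.ne'

/-- a large sieve inequality with a Gaussian weight -/
theorem l2_bound (G : ℝ → ℂ) (hm : StronglyMeasurable G) (h1 : Integrable G) (h2 : Integrable (fun θ => ‖G θ‖ ^ 2))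
    {R : ℝ} (hR : 0 < R) :
    Integrable (fun ν : ℝ => Real.exp (-(Real.pi * (1 / R) ^ 2) * ν ^ 2) * ‖∫ θ, G θ * e (-(θ * ν))‖ ^ 2) ∧
    ∫ ν : ℝ, Real.exp (-(Real.pi * (1 / R) ^ 2) * ν ^ 2) * ‖∫ θ, G θ * e (-(θ * ν))‖ ^ 2 ≤ ∫ θ, ‖G θ‖ ^ 2 := by
  have hR1 : 0 < 1 / R := by positivity
  obtain ⟨γ, hγ⟩ : ∃ γ : ℝ → ℝ, γ = fun ν => Real.exp (-(Real.pi * (1 / R) ^ 2) * ν ^ 2) := ⟨_, rfl⟩
  have hγi : Integrable γ := by
    rw [hγ]
    exact int_gauss hR1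
  have hγ0 : ∀ ν, 0 < γ ν := by
    intro ν
    rw [hγ]
    exact Real.exp_pos _
  have hγc : Continuous γ := by
    rw [hγ]
    fun_prop
  -- the square as a double integral
  have hH : Integrable (fun z : ℝ × ℝ => G z.1 * (starRingEnd ℂ) (G z.2)) (volume.prod volume) :=
    h1.mul_prod (RCLike.conjCLE.toContinuousLinearMap.integrable_comp h1)
  have hE : ∀ ν : ℝ, Continuous (fun θ : ℝ => e (-(θ * ν))) := fun ν => cont_e.comp (by fun_prop)
  have hsq : ∀ ν : ℝ, ((‖∫ θ, G θ * e (-(θ * ν))‖ ^ 2 : ℝ) : ℂ) =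
      ∫ z : ℝ × ℝ, (G z.1 * (starRingEnd ℂ) (G z.2)) * e (ν * (z.2 - z.1)) := by
    intro ν
    have h3 := Complex.mul_conj (∫ θ, G θ * e (-(θ * ν)))
    rw [Complex.normSq_eq_norm_sq] at h3
    rw [← h3, ← integral_conj, ← integral_prod_mul]
    refine integral_congr_ae (Eventually.of_forall fun z => ?_)
    simp only
    rw [map_mul, e_conj]
    have : e (ν * (z.2 - z.1)) = e (-(z.1 * ν)) * e (- -(z.2 * ν)) := by
      rw [← e_add]
      congr 1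
      ring
    rw [this]
    ring
  -- the triple integral
  have hT : Integrable (fun y : ℝ × (ℝ × ℝ) => ((γ y.1 : ℝ) : ℂ) * ((G y.2.1 * (starRingEnd ℂ) (G y.2.2)) *
      e (y.1 * (y.2.2 - y.2.1)))) (volume.prod (volume.prod volume)) := by
    have h4 : Integrable (fun y : ℝ × (ℝ × ℝ) => ((γ y.1 : ℝ) : ℂ) * (G y.2.1 * (starRingEnd ℂ) (G y.2.2)))
        (volume.prod (volume.prod volume)) :=
      Integrable.mul_prod (f := fun ν : ℝ => ((γ ν : ℝ) : ℂ)) hγi.ofReal hH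
    have h5 : Continuous (fun y : ℝ × (ℝ × ℝ) => e (y.1 * (y.2.2 - y.2.1))) := cont_e.comp (by fun_prop)
    have h6 := h4.mul_bdd (c := 1) (g := fun y : ℝ × (ℝ × ℝ) => e (y.1 * (y.2.2 - y.2.1))) h5.aestronglyMeasurable
      (Eventually.of_forall fun y => by rw [norm_e])
    refine h6.congr (Eventually.of_forall fun y => ?_)
    simp only
    ring
  have hI : Integrable (fun ν : ℝ => γ ν * ‖∫ θ, G θ * e (-(θ * ν))‖ ^ 2) := by
    have h7 := hT.integral_prod_left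
    have h8 : ∀ ν : ℝ, ∫ z : ℝ × ℝ, ((γ ν : ℝ) : ℂ) * ((G z.1 * (starRingEnd ℂ) (G z.2)) * e (ν * (z.2 - z.1))) =
        ((γ ν * ‖∫ θ, G θ * e (-(θ * ν))‖ ^ 2 : ℝ) : ℂ) := by
      intro ν
      rw [integral_const_mul, ← hsq, Complex.ofReal_mul]
    have h9 := h7.congr (Eventually.of_forall h8)
    have h10 := h9.re
    exact h10
  rw [hγ] at hI
  refine ⟨hI, ?_⟩
  have hval : ((∫ ν : ℝ, Real.exp (-(Real.pi * (1 / R) ^ 2) * ν ^ 2) * ‖∫ θ, G θ * e (-(θ * ν))‖ ^ 2 : ℝ) : ℂ) =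
      ∫ z : ℝ × ℝ, (G z.1 * (starRingEnd ℂ) (G z.2)) * ((R * Real.exp (-Real.pi * ((z.2 - z.1) * R) ^ 2) : ℝ) : ℂ) := by
    rw [← integral_complex_ofReal]
    have h11 : ∀ ν : ℝ, ((Real.exp (-(Real.pi * (1 / R) ^ 2) * ν ^ 2) * ‖∫ θ, G θ * e (-(θ * ν))‖ ^ 2 : ℝ) : ℂ) =
        ∫ z : ℝ × ℝ, ((γ ν : ℝ) : ℂ) * ((G z.1 * (starRingEnd ℂ) (G z.2)) * e (ν * (z.2 - z.1))) := by
      intro ν
      rw [integral_const_mul, ← hsq, Complex.ofReal_mul, hγ]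
    rw [integral_congr_ae (Eventually.of_forall h11), integral_integral_swap hT]
    refine integral_congr_ae (Eventually.of_forall fun z => ?_)
    simp only
    have h12 : ∀ ν : ℝ, ((γ ν : ℝ) : ℂ) * ((G z.1 * (starRingEnd ℂ) (G z.2)) * e (ν * (z.2 - z.1))) =
        (G z.1 * (starRingEnd ℂ) (G z.2)) * (((γ ν : ℝ) : ℂ) * e (ν * (z.2 - z.1))) := fun ν => by ring
    simp only [h12]
    rw [integral_const_mul, hγ, gauss_ft hR]
  have h0 : 0 ≤ ∫ ν : ℝ, Real.exp (-(Real.pi * (1 / R) ^ 2) * ν ^ 2) * ‖∫ θ, G θ * e (-(θ * ν))‖ ^ 2 :=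
    integral_nonneg fun ν => by positivity
  have hn : ∫ ν : ℝ, Real.exp (-(Real.pi * (1 / R) ^ 2) * ν ^ 2) * ‖∫ θ, G θ * e (-(θ * ν))‖ ^ 2 =
      ‖∫ z : ℝ × ℝ, (G z.1 * (starRingEnd ℂ) (G z.2)) * ((R * Real.exp (-Real.pi * ((z.2 - z.1) * R) ^ 2) : ℝ) : ℂ)‖ := by
    rw [← hval, Complex.norm_real, Real.norm_eq_abs, abs_of_nonneg h0]
  rw [hn]
  -- the kernel
  obtain ⟨hk1, hk2⟩ := ker_int hR
  obtain ⟨κ, hκ⟩ : ∃ κ : ℝ → ℝ, κ = fun u => R * Real.exp (-Real.pi * (u * R) ^ 2) := ⟨_, rfl⟩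
  rw [← hκ] at hk1
  have hk2' : ∫ u, κ u = 1 := by rw [hκ]; exact hk2
  have hκ0 : ∀ u, 0 ≤ κ u := by
    intro u
    rw [hκ]
    positivity
  have hκc : Continuous κ := by
    rw [hκ]
    fun_prop
  have hsym : ∀ u, κ (-u) = κ u := by
    intro u
    rw [hκ]
    simp only
    congr 2
    ring
  have hA : Integrable (fun z : ℝ × ℝ => ‖G z.1‖ ^ 2 * κ (z.2 - z.1)) (volume.prod volume) ∧
      ∫ z : ℝ × ℝ, ‖G z.1‖ ^ 2 * κ (z.2 - z.1) = ∫ θ, ‖G θ‖ ^ 2 := by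
    have hmeas : AEStronglyMeasurable (fun z : ℝ × ℝ => ‖G z.1‖ ^ 2 * κ (z.2 - z.1)) (volume.prod volume) := by
      refine AEStronglyMeasurable.mul ?_ (hκc.comp (by fun_prop)).aestronglyMeasurable
      exact ((hm.norm.pow 2).comp_measurable measurable_fst).aestronglyMeasurable
    have hin : Integrable (fun z : ℝ × ℝ => ‖G z.1‖ ^ 2 * κ (z.2 - z.1)) (volume.prod volume) := by
      rw [integrable_prod_iff hmeas]
      constructor
      · exact Eventually.of_forall fun θ => (hk1.comp_sub_right θ).const_mul (‖G θ‖ ^ 2)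
      · refine h2.congr (Eventually.of_forall fun θ => ?_)
        have h13 : ∀ y : ℝ, ‖‖G θ‖ ^ 2 * κ (y - θ)‖ = ‖G θ‖ ^ 2 * κ (y - θ) := by
          intro y
          rw [Real.norm_eq_abs, abs_of_nonneg (mul_nonneg (sq_nonneg _) (hκ0 _))]
        simp only [h13]
        rw [integral_const_mul, integral_sub_right_eq_self, hk2', mul_one]
    refine ⟨hin, ?_⟩
    have h14 : ∫ z : ℝ × ℝ, ‖G z.1‖ ^ 2 * κ (z.2 - z.1) = ∫ θ, ∫ y, ‖G θ‖ ^ 2 * κ (y - θ) :=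
      integral_prod (fun z : ℝ × ℝ => ‖G z.1‖ ^ 2 * κ (z.2 - z.1)) hin
    rw [h14]
    refine integral_congr_ae (Eventually.of_forall fun θ => ?_)
    simp only
    rw [integral_const_mul, integral_sub_right_eq_self, hk2', mul_one]
  have hB : Integrable (fun z : ℝ × ℝ => ‖G z.2‖ ^ 2 * κ (z.2 - z.1)) (volume.prod volume) ∧
      ∫ z : ℝ × ℝ, ‖G z.2‖ ^ 2 * κ (z.2 - z.1) = ∫ θ, ‖G θ‖ ^ 2 := by
    have hsw := hA.1.swap
    have h15 : ∀ z : ℝ × ℝ, ((fun z : ℝ × ℝ => ‖G z.1‖ ^ 2 * κ (z.2 - z.1)) ∘ Prod.swap) z =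
        ‖G z.2‖ ^ 2 * κ (z.2 - z.1) := by
      intro z
      simp only [Function.comp_apply, Prod.fst_swap, Prod.snd_swap]
      rw [← hsym, neg_sub]
    refine ⟨hsw.congr (Eventually.of_forall h15), ?_⟩
    rw [← hA.2]
    exact (integral_congr_ae (Eventually.of_forall fun z => (h15 z).symm)).trans
      (integral_prod_swap (μ := volume) (ν := volume) (fun z : ℝ × ℝ => ‖G z.1‖ ^ 2 * κ (z.2 - z.1)))
  calc ‖∫ z : ℝ × ℝ, (G z.1 * (starRingEnd ℂ) (G z.2)) * ((R * Real.exp (-Real.pi * ((z.2 - z.1) * R) ^ 2) : ℝ) : ℂ)‖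
      ≤ ∫ z : ℝ × ℝ, ‖(G z.1 * (starRingEnd ℂ) (G z.2)) *
          ((R * Real.exp (-Real.pi * ((z.2 - z.1) * R) ^ 2) : ℝ) : ℂ)‖ := norm_integral_le_integral_norm _
    _ ≤ ∫ z : ℝ × ℝ, (1 / 2 * (‖G z.1‖ ^ 2 * κ (z.2 - z.1)) + 1 / 2 * (‖G z.2‖ ^ 2 * κ (z.2 - z.1))) := by
        refine integral_mono_of_nonneg (Eventually.of_forall fun z => norm_nonneg _)
          ((hA.1.const_mul (1 / 2)).add (hB.1.const_mul (1 / 2))) (Eventually.of_forall fun z => ?_)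
        simp only
        rw [norm_mul, norm_mul, RCLike.norm_conj, Complex.norm_real, Real.norm_eq_abs]
        have h16 : |R * Real.exp (-Real.pi * ((z.2 - z.1) * R) ^ 2)| = κ (z.2 - z.1) := by
          rw [hκ]
          exact abs_of_nonneg (by positivity)
        rw [h16]
        have h17 := hκ0 (z.2 - z.1)
        have h18 : ‖G z.1‖ * ‖G z.2‖ ≤ 1 / 2 * ‖G z.1‖ ^ 2 + 1 / 2 * ‖G z.2‖ ^ 2 := by
          nlinarith [sq_nonneg (‖G z.1‖ - ‖G z.2‖)]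
        calc ‖G z.1‖ * ‖G z.2‖ * κ (z.2 - z.1) ≤ (1 / 2 * ‖G z.1‖ ^ 2 + 1 / 2 * ‖G z.2‖ ^ 2) * κ (z.2 - z.1) :=
              mul_le_mul_of_nonneg_right h18 h17
          _ = _ := by ring
    _ = _ := by
        have hA' : Integrable (fun z : ℝ × ℝ => ‖G z.1‖ ^ 2 * κ (z.2 - z.1)) volume := hA.1
        have hB' : Integrable (fun z : ℝ × ℝ => ‖G z.2‖ ^ 2 * κ (z.2 - z.1)) volume := hB.1
        refine (integral_add (hA'.const_mul (1 / 2)) (hB'.const_mul (1 / 2))).trans ?_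
        rw [integral_const_mul, integral_const_mul, hA.2, hB.2]
        ring

end

end Pool.Agent.Run7.h927.WS
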