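import Pool.Agent.Run7.h927.WS.G

set_option autoImplicit false

/-! The small and the large frequencies: means over the parameters, the number of the exceptional integers. -/

namespace Pool.Agent.Run7.h927.WS
open MeasureTheory Finset Filter
open Pool.Agent.Run7.h927.WG (e norm_e e_add e_zero e_conj cont_e w w_le w_le' w_nonneg cont_w int_gauss val_gauss int_w box box_eq gauss_id int_ge gauss_shift bc)

noncomputable section

/-- the large frequencies -/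
def J (κ : ℝ) : Set ℝ := {θ | 1 ≤ |θ| * κ}

lemma measJ (κ : ℝ) : MeasurableSet (J κ) := by
  unfold J
  exact (isClosed_le continuous_const (continuous_abs.mul continuous_const)).measurableSet

variable {s : ℕ}

/-- the integrand -/
def H0 (X : Fin s → Finset ℕ) (φ : Fin s → ℕ → C(ℝ, ℝ)) (η Y : ℝ) (α : Fin s → ℝ) (θ : ℝ) : ℂ :=
  ((w η Y θ : ℝ) : ℂ) * ∏ i, S (X i) (φ i) θ (α i)

lemma cont_H0 (X : Fin s → Finset ℕ) (φ : Fin s → ℕ → C(ℝ, ℝ)) (η Y : ℝ) (α : Fin s → ℝ) :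
    Continuous (H0 X φ η Y α) := by
  unfold H0
  refine Continuous.mul (Complex.continuous_ofReal.comp (cont_w η Y)) (continuous_finsetProd _ fun i _ => ?_)
  exact (cont_S (X i) (φ i)).comp (continuous_id.prodMk continuous_const)

lemma norm_H0 (X : Fin s → Finset ℕ) (φ : Fin s → ℕ → C(ℝ, ℝ)) {η Y : ℝ} (hη : 0 < η) (hY : η ≤ Y) (α : Fin s → ℝ)
    (θ : ℝ) : ‖H0 X φ η Y α θ‖ = w η Y θ * ∏ i, ‖S (X i) (φ i) θ (α i)‖ := by
  unfold H0
  rw [norm_mul, norm_prod, Complex.norm_real, Real.norm_eq_abs, abs_of_nonneg (w_nonneg hη hY θ)]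

lemma bd_H0 (X : Fin s → Finset ℕ) (φ : Fin s → ℕ → C(ℝ, ℝ)) {η Y : ℝ} (hη : 0 < η) (hY : η ≤ Y) (α : Fin s → ℝ)
    (θ : ℝ) : ‖H0 X φ η Y α θ‖ ≤ Real.exp (-(Real.pi * η ^ 2) * θ ^ 2) * ∏ i, ((X i).card : ℝ) := by
  rw [norm_H0 X φ hη hY]
  exact mul_le_mul (w_le η Y θ) (prod_le_prod (fun i _ => norm_nonneg _) fun i _ => norm_S _ _ _ _)
    (prod_nonneg fun i _ => norm_nonneg _) (Real.exp_pos _).le

lemma int_H0 (X : Fin s → Finset ℕ) (φ : Fin s → ℕ → C(ℝ, ℝ)) {η Y : ℝ} (hη : 0 < η) (hY : η ≤ Y) (α : Fin s → ℝ) :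
    Integrable (H0 X φ η Y α) :=
  ((int_gauss hη).mul_const _).mono' (cont_H0 X φ η Y α).aestronglyMeasurable
    (Eventually.of_forall fun θ => bd_H0 X φ hη hY α θ)

lemma gauss_sq_le {η : ℝ} (θ : ℝ) : Real.exp (-(Real.pi * η ^ 2) * θ ^ 2) ^ 2 ≤ Real.exp (-(Real.pi * η ^ 2) * θ ^ 2) := by
  have h1 : Real.exp (-(Real.pi * η ^ 2) * θ ^ 2) ≤ 1 := by
    rw [← Real.exp_zero, Real.exp_le_exp]
    have := Real.pi_pos
    nlinarith [mul_nonneg (mul_nonneg this.le (sq_nonneg η)) (sq_nonneg θ)]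
  have h2 := Real.exp_pos (-(Real.pi * η ^ 2) * θ ^ 2)
  nlinarith

lemma int_H0_sq (X : Fin s → Finset ℕ) (φ : Fin s → ℕ → C(ℝ, ℝ)) {η Y : ℝ} (hη : 0 < η) (hY : η ≤ Y) (α : Fin s → ℝ) :
    Integrable (fun θ => ‖H0 X φ η Y α θ‖ ^ 2) := by
  refine ((int_gauss hη).mul_const ((∏ i, ((X i).card : ℝ)) ^ 2)).mono'
    ((cont_H0 X φ η Y α).norm.pow 2).aestronglyMeasurable (Eventually.of_forall fun θ => ?_)
  rw [Real.norm_eq_abs, abs_of_nonneg (sq_nonneg _)]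
  have h1 := bd_H0 X φ hη hY α θ
  calc ‖H0 X φ η Y α θ‖ ^ 2 ≤ (Real.exp (-(Real.pi * η ^ 2) * θ ^ 2) * ∏ i, ((X i).card : ℝ)) ^ 2 :=
        pow_le_pow_left₀ (norm_nonneg _) h1 2
    _ = Real.exp (-(Real.pi * η ^ 2) * θ ^ 2) ^ 2 * (∏ i, ((X i).card : ℝ)) ^ 2 := mul_pow _ _ _
    _ ≤ _ := mul_le_mul_of_nonneg_right (gauss_sq_le θ) (sq_nonneg _)

/-- the mean of the small frequencies -/
def Qs (X : Fin s → Finset ℕ) (φ : Fin s → ℕ → C(ℝ, ℝ)) (η Y κ : ℝ) (α : Fin s → ℝ) : ℝ :=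
  ∫ θ in (J κ)ᶜ, ‖H0 X φ η Y α θ‖

/-- the square mean of the large frequencies -/
def D2 (X : Fin s → Finset ℕ) (φ : Fin s → ℕ → C(ℝ, ℝ)) (η Y κ : ℝ) (α : Fin s → ℝ) : ℝ :=
  ∫ θ in J κ, ‖H0 X φ η Y α θ‖ ^ 2

/-- the difference of the two scales -/
lemma diff_eq (X : Fin s → Finset ℕ) (φ : Fin s → ℕ → C(ℝ, ℝ)) {η Y : ℝ} (hη : 0 < η) (hY : η ≤ Y) (α : Fin s → ℝ)
    (ν : ℝ) : (((N X φ η α ν - η / Y * N X φ Y α ν : ℝ)) : ℂ) = η * ∫ θ, H0 X φ η Y α θ * e (-(θ * ν)) := by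
  have hY0 : 0 < Y := hη.trans_le hY
  have hcont : Continuous (fun θ : ℝ => e (-(θ * ν)) * ∏ i, S (X i) (φ i) θ (α i)) := by
    refine Continuous.mul (cont_e.comp (by fun_prop)) (continuous_finsetProd _ fun i _ => ?_)
    exact (cont_S (X i) (φ i)).comp (continuous_id.prodMk continuous_const)
  have hnorm : ∀ θ : ℝ, ‖e (-(θ * ν)) * ∏ i, S (X i) (φ i) θ (α i)‖ = ∏ i, ‖S (X i) (φ i) θ (α i)‖ := by
    intro θ
    rw [norm_mul, norm_e, one_mul, norm_prod]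
  have hbd : ∀ θ : ℝ, ‖e (-(θ * ν)) * ∏ i, S (X i) (φ i) θ (α i)‖ ≤ ∏ i, ((X i).card : ℝ) := by
    intro θ
    rw [hnorm]
    exact prod_le_prod (fun i _ => norm_nonneg _) fun i _ => norm_S _ _ _ _
  have hint : ∀ t : ℝ, 0 < t → Integrable (fun θ : ℝ => ((Real.exp (-(Real.pi * t ^ 2) * θ ^ 2) : ℝ) : ℂ) *
      (e (-(θ * ν)) * ∏ i, S (X i) (φ i) θ (α i))) := by
    intro t ht
    refine ((int_gauss ht).mul_const (∏ i, ((X i).card : ℝ))).mono' ?_ ?_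
    · apply Continuous.aestronglyMeasurable
      exact Continuous.mul (Complex.continuous_ofReal.comp (by fun_prop)) hcont
    · refine Eventually.of_forall fun θ => ?_
      rw [norm_mul, Complex.norm_real, Real.norm_eq_abs, abs_of_pos (Real.exp_pos _)]
      exact mul_le_mul_of_nonneg_left (hbd θ) (Real.exp_pos _).le
  rw [Complex.ofReal_sub, Complex.ofReal_mul, N_int X φ hη α ν, N_int X φ hY0 α ν]
  have h2 : ((η / Y : ℝ) : ℂ) * (Y * ∫ θ : ℝ, ((Real.exp (-(Real.pi * Y ^ 2) * θ ^ 2) : ℝ) : ℂ) *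
      (e (-(θ * ν)) * ∏ i, S (X i) (φ i) θ (α i))) =
      η * ∫ θ : ℝ, ((Real.exp (-(Real.pi * Y ^ 2) * θ ^ 2) : ℝ) : ℂ) *
      (e (-(θ * ν)) * ∏ i, S (X i) (φ i) θ (α i)) := by
    rw [← mul_assoc]
    congr 1
    have : (Y : ℂ) ≠ 0 := by exact_mod_cast hY0.ne'
    push_cast
    field_simp
  rw [h2, ← mul_sub, ← integral_sub (hint η hη) (hint Y hY0)]
  congr 1
  refine integral_congr_ae (Eventually.of_forall fun θ => ?_)
  simp only
  unfold H0 w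
  push_cast
  ring

/-- the exceptional integers are few -/
theorem exc_count (X : Fin s → Finset ℕ) (φ : Fin s → ℕ → C(ℝ, ℝ)) {η Y κ V R : ℝ} (hη : 0 < η) (hY : η ≤ Y)
    (hV : 0 < V) (hR : 0 < R) (α : Fin s → ℝ) (Z : Finset ℕ) (hZR : ∀ n ∈ Z, (n : ℝ) + 1 ≤ R)
    (hN : ∀ n ∈ Z, ∀ ν ∈ Set.Icc ((n : ℝ) + 1 / 4) (n + 3 / 4),
      2 * (η * V) ≤ η / Y * N X φ Y α ν ∧ N X φ η α ν ≤ η * V / 4)
    (hQ : Qs X φ η Y κ α ≤ V / 2) :
    (Z.card : ℝ) * (V ^ 2 * Real.exp (-Real.pi) / 2) ≤ D2 X φ η Y κ α := by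
  classical
  have hpi := Real.pi_pos
  obtain ⟨G, hG⟩ : ∃ G : ℝ → ℂ, G = (J κ).indicator (H0 X φ η Y α) := ⟨_, rfl⟩
  have hGm : StronglyMeasurable G := by
    rw [hG]
    exact (cont_H0 X φ η Y α).stronglyMeasurable.indicator (measJ κ)
  have hG1 : Integrable G := by
    rw [hG]
    exact (int_H0 X φ hη hY α).indicator (measJ κ)
  have hGn : ∀ θ, ‖G θ‖ ^ 2 = (J κ).indicator (fun θ => ‖H0 X φ η Y α θ‖ ^ 2) θ := by
    intro θ
    rw [hG]
    by_cases h : θ ∈ J κ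
    · rw [Set.indicator_of_mem h, Set.indicator_of_mem h]
    · rw [Set.indicator_of_notMem h, Set.indicator_of_notMem h, norm_zero]
      norm_num
  have hG2 : Integrable (fun θ => ‖G θ‖ ^ 2) := by
    simp only [hGn]
    exact (int_H0_sq X φ hη hY α).indicator (measJ κ)
  obtain ⟨hI, hle⟩ := l2_bound G hGm hG1 hG2 hR
  have hD : ∫ θ, ‖G θ‖ ^ 2 = D2 X φ η Y κ α := by
    simp only [hGn]
    rw [integral_indicator (measJ κ)]
    rfl
  rw [hD] at hle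
  refine le_trans ?_ hle
  obtain ⟨f, hf⟩ : ∃ f : ℝ → ℝ, f = fun ν => Real.exp (-(Real.pi * (1 / R) ^ 2) * ν ^ 2) *
    ‖∫ θ, G θ * e (-(θ * ν))‖ ^ 2 := ⟨_, rfl⟩
  rw [← hf] at hI
  have hf' : ∀ ν, f ν = Real.exp (-(Real.pi * (1 / R) ^ 2) * ν ^ 2) * ‖∫ θ, G θ * e (-(θ * ν))‖ ^ 2 := by
    intro ν
    rw [hf]
  have hf0 : ∀ ν, 0 ≤ f ν := by
    intro ν
    rw [hf']
    positivity
  -- lower bound for the transform
  have hlow : ∀ n ∈ Z, ∀ ν ∈ Set.Icc ((n : ℝ) + 1 / 4) (n + 3 / 4), Real.exp (-Real.pi) * V ^ 2 ≤ f ν := by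
    intro n hn ν hν
    obtain ⟨g1, g2⟩ := hN n hn ν hν
    have h3 := diff_eq X φ hη hY α ν
    have hce : Continuous (fun θ : ℝ => e (-(θ * ν))) := cont_e.comp (by fun_prop)
    have hie : Integrable (fun θ => H0 X φ η Y α θ * e (-(θ * ν))) :=
      (int_H0 X φ hη hY α).mul_bdd (c := 1) hce.aestronglyMeasurable (Eventually.of_forall fun θ => by rw [norm_e])
    have h4 : ∫ θ, H0 X φ η Y α θ * e (-(θ * ν)) =
        (∫ θ, G θ * e (-(θ * ν))) + ∫ θ in (J κ)ᶜ, H0 X φ η Y α θ * e (-(θ * ν)) := by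
      rw [← integral_add_compl (measJ κ) hie]
      congr 1
      rw [← integral_indicator (measJ κ)]
      refine integral_congr_ae (Eventually.of_forall fun θ => ?_)
      simp only
      rw [hG]
      by_cases h : θ ∈ J κ
      · rw [Set.indicator_of_mem h, Set.indicator_of_mem h]
      · rw [Set.indicator_of_notMem h, Set.indicator_of_notMem h, zero_mul]
    have h5 : ‖∫ θ in (J κ)ᶜ, H0 X φ η Y α θ * e (-(θ * ν))‖ ≤ V / 2 := by
      refine (norm_integral_le_integral_norm _).trans (le_trans (le_of_eq ?_) hQ)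
      unfold Qs
      refine integral_congr_ae (Eventually.of_forall fun θ => ?_)
      simp only
      rw [norm_mul, norm_e, mul_one]
    have h6 : ‖(((N X φ η α ν - η / Y * N X φ Y α ν : ℝ)) : ℂ)‖ = |N X φ η α ν - η / Y * N X φ Y α ν| := by
      rw [Complex.norm_real, Real.norm_eq_abs]
    have h7 : 7 / 4 * (η * V) ≤ |N X φ η α ν - η / Y * N X φ Y α ν| := by
      rw [abs_sub_comm]
      refine le_trans ?_ (le_abs_self _)
      linarith
    rw [← h6, h3, norm_mul, Complex.norm_real, Real.norm_eq_abs, abs_of_pos hη] at h7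
    have h8 : 7 / 4 * V ≤ ‖∫ θ, H0 X φ η Y α θ * e (-(θ * ν))‖ := by
      refine le_of_mul_le_mul_left ?_ hη
      linarith
    rw [h4] at h8
    have h9 := norm_add_le (∫ θ, G θ * e (-(θ * ν))) (∫ θ in (J κ)ᶜ, H0 X φ η Y α θ * e (-(θ * ν)))
    have h10 : V ≤ ‖∫ θ, G θ * e (-(θ * ν))‖ := by linarith
    rw [hf']
    have h11 : V ^ 2 ≤ ‖∫ θ, G θ * e (-(θ * ν))‖ ^ 2 := pow_le_pow_left₀ hV.le h10 2
    have h12 : Real.exp (-Real.pi) ≤ Real.exp (-(Real.pi * (1 / R) ^ 2) * ν ^ 2) := by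
      rw [Real.exp_le_exp]
      have h13 : (1 / R) ^ 2 * ν ^ 2 ≤ 1 := by
        rw [← mul_pow]
        have hn0 : (0 : ℝ) ≤ n := Nat.cast_nonneg n
        have h14 : 0 ≤ 1 / R * ν := mul_nonneg (by positivity) (by linarith [hν.1])
        have h15 : 1 / R * ν ≤ 1 := by
          rw [one_div, inv_mul_le_iff₀ hR]
          linarith [hν.2, hZR n hn]
        exact pow_le_one₀ h14 h15
      nlinarith
    exact mul_le_mul h12 h11 (sq_nonneg _) (Real.exp_pos _).le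
  -- the disjoint intervals
  have hdis : Set.PairwiseDisjoint (Z : Set ℕ) (fun n : ℕ => Set.Icc ((n : ℝ) + 1 / 4) (n + 3 / 4)) := by
    intro a _ b _ hab
    rw [Function.onFun, Set.disjoint_left]
    intro ν h1 h2
    rcases Nat.lt_or_gt_of_ne hab with h | h
    · have : (a : ℝ) + 1 ≤ b := by exact_mod_cast h
      linarith [h1.2, h2.1]
    · have : (b : ℝ) + 1 ≤ a := by exact_mod_cast h
      linarith [h2.2, h1.1]
  have hsum : ∑ n ∈ Z, ∫ ν in Set.Icc ((n : ℝ) + 1 / 4) (n + 3 / 4), f ν ≤ ∫ ν, f ν := by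
    rw [← integral_biUnion_finset Z (fun n _ => measurableSet_Icc) hdis fun n _ => hI.integrableOn]
    exact setIntegral_le_integral hI (Eventually.of_forall hf0)
  have hper : ∀ n ∈ Z, V ^ 2 * Real.exp (-Real.pi) / 2 ≤ ∫ ν in Set.Icc ((n : ℝ) + 1 / 4) (n + 3 / 4), f ν := by
    intro n hn
    have h16 : ∫ _ν in Set.Icc ((n : ℝ) + 1 / 4) (n + 3 / 4), Real.exp (-Real.pi) * V ^ 2 =
        V ^ 2 * Real.exp (-Real.pi) / 2 := by
      rw [setIntegral_const, measureReal_def, Real.volume_Icc, ENNReal.toReal_ofReal (by linarith), smul_eq_mul]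
      ring
    rw [← h16]
    refine setIntegral_mono_on ?_ hI.integrableOn measurableSet_Icc fun ν hν => hlow n hn ν hν
    exact integrableOn_const (by rw [Real.volume_Icc]; exact ENNReal.ofReal_ne_top)
  calc (Z.card : ℝ) * (V ^ 2 * Real.exp (-Real.pi) / 2) = ∑ _n ∈ Z, V ^ 2 * Real.exp (-Real.pi) / 2 := by
        rw [sum_const, nsmul_eq_mul]
    _ ≤ ∑ n ∈ Z, ∫ ν in Set.Icc ((n : ℝ) + 1 / 4) (n + 3 / 4), f ν := sum_le_sum hper
    _ ≤ _ := by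
        refine hsum.trans (le_of_eq ?_)
        rw [hf]

end

end Pool.Agent.Run7.h927.WS
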