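import Pool.Agent.Run7.h927.WS.H

set_option autoImplicit false

/-! Means of the small and of the large frequencies. -/

namespace Pool.Agent.Run7.h927.WS
open MeasureTheory Finset Filter
open Pool.Agent.Run7.h927.WG (e norm_e w w_le w_le' w_nonneg cont_w int_gauss val_gauss int_w box box_eq)

noncomputable section

lemma vol_Jc {κ : ℝ} (hκ : 0 < κ) : volume (J κ)ᶜ ≤ ENNReal.ofReal (2 / κ) := by
  have h1 : (J κ)ᶜ ⊆ Set.Icc (-(1 / κ)) (1 / κ) := by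
    intro θ hθ
    unfold J at hθ
    rw [Set.mem_compl_iff, Set.mem_ofPred_eq, not_le] at hθ
    rw [Set.mem_Icc, ← abs_le, le_div_iff₀ hκ]
    exact hθ.le
  refine (measure_mono h1).trans ?_
  rw [Real.volume_Icc]
  apply ENNReal.ofReal_le_ofReal
  apply le_of_eq
  ring

variable {s : ℕ}

lemma int_restr (X : Fin s → Finset ℕ) (φ : Fin s → ℕ → C(ℝ, ℝ)) {η Y : ℝ} (hη : 0 < η) (hY : η ≤ Y) (a b : ℝ) (I : Set ℝ) :
    Integrable (fun z : (Fin s → ℝ) × ℝ => w η Y z.2 * ∏ i, ‖S (X i) (φ i) z.2 (z.1 i)‖)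
      ((box s a b).prod (volume.restrict I)) := by
  have h := (int_F X φ hη hY a b).restrict (s := Set.univ ×ˢ I)
  rwa [← Measure.prod_restrict, Measure.restrict_univ] at h

lemma Qs_eq (X : Fin s → Finset ℕ) (φ : Fin s → ℕ → C(ℝ, ℝ)) {η Y : ℝ} (hη : 0 < η) (hY : η ≤ Y) (κ : ℝ) (α : Fin s → ℝ) :
    Qs X φ η Y κ α = ∫ θ in (J κ)ᶜ, w η Y θ * ∏ i, ‖S (X i) (φ i) θ (α i)‖ := by
  unfold Qs
  exact integral_congr_ae (Eventually.of_forall fun θ => norm_H0 X φ hη hY α θ)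

lemma int_Qs (X : Fin s → Finset ℕ) (φ : Fin s → ℕ → C(ℝ, ℝ)) {η Y : ℝ} (hη : 0 < η) (hY : η ≤ Y) (κ a b : ℝ) :
    Integrable (Qs X φ η Y κ) (box s a b) :=
  (int_restr X φ hη hY a b (J κ)ᶜ).integral_prod_left.congr
    (Eventually.of_forall fun α => (Qs_eq X φ hη hY κ α).symm)

lemma Qs_nonneg (X : Fin s → Finset ℕ) (φ : Fin s → ℕ → C(ℝ, ℝ)) (η Y κ : ℝ) (α : Fin s → ℝ) : 0 ≤ Qs X φ η Y κ α :=
  integral_nonneg fun _ => norm_nonneg _

lemma D2_nonneg (X : Fin s → Finset ℕ) (φ : Fin s → ℕ → C(ℝ, ℝ)) (η Y κ : ℝ) (α : Fin s → ℝ) : 0 ≤ D2 X φ η Y κ α :=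
  integral_nonneg fun _ => sq_nonneg _

/-- the mean of the small frequencies -/
theorem mean_Qs (m : ℕ) (X : Fin (4 + m) → Finset ℕ) (φ : Fin (4 + m) → ℕ → C(ℝ, ℝ)) {κ K a b : ℝ}
    (hκ : 0 < κ) (hK : 0 < K) (hMS : ∀ i, MS (X i) (φ i) a b κ K)
    {η Y : ℝ} (hη : 0 < η) (hY : η ≤ Y) (hab : a < b) (c₀ : ℝ) (hc₀ : c₀ = 2 * (b - a) * K) :
    ∫ α, Qs X φ η Y κ α ∂(box (4 + m) a b) ≤
      2 / κ * (Real.pi * Y ^ 2 * c₀ ^ 2 / κ ^ 2 * ((∏ i : Fin 4, √((X (Fin.castAdd m i)).card : ℝ)) *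
        ∏ j : Fin m, ((b - a) * (X (Fin.natAdd 4 j)).card))) := by
  have hr : 0 < b - a := by linarith
  have hc0 : 0 < c₀ := by rw [hc₀]; positivity
  have hpi := Real.pi_pos
  obtain ⟨P₄, hP₄⟩ : ∃ P₄, P₄ = (∏ i : Fin 4, √((X (Fin.castAdd m i)).card : ℝ)) *
        ∏ j : Fin m, ((b - a) * (X (Fin.natAdd 4 j)).card) := ⟨_, rfl⟩
  have hP0 : 0 ≤ P₄ := by
    rw [hP₄]
    exact mul_nonneg (by positivity) (prod_nonneg fun j _ => mul_nonneg hr.le (Nat.cast_nonneg _))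
  rw [← hP₄]
  obtain ⟨B, hB⟩ : ∃ B, B = Real.pi * Y ^ 2 * c₀ ^ 2 / κ ^ 2 * P₄ := ⟨_, rfl⟩
  have hB0 : 0 ≤ B := by rw [hB]; positivity
  rw [← hB]
  have h1 : ∫ α, Qs X φ η Y κ α ∂(box (4 + m) a b) = ∫ θ in (J κ)ᶜ, w η Y θ * ∏ i, U (X i) (φ i) a b θ := by
    have e0 : ∫ α, Qs X φ η Y κ α ∂(box (4 + m) a b) =
        ∫ α, (∫ θ in (J κ)ᶜ, w η Y θ * ∏ i, ‖S (X i) (φ i) θ (α i)‖) ∂(box (4 + m) a b) :=
      integral_congr_ae (Eventually.of_forall fun α => Qs_eq X φ hη hY κ α)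
    rw [e0, integral_integral_swap (int_restr X φ hη hY a b (J κ)ᶜ)]
    refine integral_congr_ae (Eventually.of_forall fun θ => ?_)
    simp only
    rw [integral_const_mul]
    congr 1
    unfold box
    rw [integral_fintype_prod_eq_prod (𝕜 := ℝ) (fun i t => ‖S (X i) (φ i) θ t‖)]
    refine prod_congr rfl fun i _ => ?_
    unfold U
    rw [intervalIntegral.integral_of_le hab.le, integral_Icc_eq_integral_Ioc]
  have h2 : Integrable (fun θ => w η Y θ * ∏ i, U (X i) (φ i) a b θ) (volume.restrict (J κ)ᶜ) :=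
    (mean_Q X φ hη hY hab).2.restrict
  have hfin : volume (J κ)ᶜ ≠ ⊤ := ne_top_of_le_ne_top ENNReal.ofReal_ne_top (vol_Jc hκ)
  have h3 : ∀ θ : ℝ, θ ≠ 0 → θ ∈ (J κ)ᶜ → w η Y θ * ∏ i, U (X i) (φ i) a b θ ≤ B := by
    intro θ hθ hJ
    have hθp : 0 < |θ| := abs_pos.2 hθ
    have hlt : |θ| * κ < 1 := by
      unfold J at hJ
      rw [Set.mem_compl_iff, Set.mem_ofPred_eq, not_le] at hJ
      exact hJ
    have hw := w_nonneg hη hY θ
    have hU0 : 0 ≤ ∏ i, U (X i) (φ i) a b θ := prod_nonneg fun i _ => U_nonneg _ _ hab _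
    have hck : 0 < |θ| * κ := by positivity
    have h4 : ∏ i, U (X i) (φ i) a b θ ≤ (c₀ / (|θ| * κ)) ^ 2 * P₄ := by
      rw [Fin.prod_univ_add, hP₄, ← mul_assoc]
      refine mul_le_mul ?_ ?_ (prod_nonneg fun i _ => U_nonneg _ _ hab _) (by positivity)
      · calc ∏ i : Fin 4, U (X (Fin.castAdd m i)) (φ (Fin.castAdd m i)) a b θ
            ≤ ∏ i : Fin 4, (√(c₀ / (|θ| * κ)) * √((X (Fin.castAdd m i)).card : ℝ)) := by
              refine prod_le_prod (fun i _ => U_nonneg _ _ hab _) fun i _ => ?_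
              rw [hc₀]
              exact U_small _ _ hκ hK.le (hMS _) θ hθ hlt hab
          _ = (c₀ / (|θ| * κ)) ^ 2 * ∏ i : Fin 4, √((X (Fin.castAdd m i)).card : ℝ) := by
              rw [prod_mul_distrib, prod_const, card_univ, Fintype.card_fin]
              congr 1
              have h6 : √(c₀ / (|θ| * κ)) ^ 2 = c₀ / (|θ| * κ) := Real.sq_sqrt (by positivity)
              calc √(c₀ / (|θ| * κ)) ^ 4 = (√(c₀ / (|θ| * κ)) ^ 2) ^ 2 := by ring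
                _ = _ := by rw [h6]
      · exact prod_le_prod (fun i _ => U_nonneg _ _ hab _) fun i _ => U_triv _ _ hab _
    have h5 := w_le' hη hY θ
    calc w η Y θ * ∏ i, U (X i) (φ i) a b θ ≤ (Real.pi * Y ^ 2 * θ ^ 2) * ((c₀ / (|θ| * κ)) ^ 2 * P₄) :=
          mul_le_mul h5 h4 hU0 (by positivity)
      _ = B := by
          rw [hB]
          have : θ ^ 2 = |θ| ^ 2 := (sq_abs θ).symm
          rw [this]
          field_simp
  rw [h1]
  calc ∫ θ in (J κ)ᶜ, w η Y θ * ∏ i, U (X i) (φ i) a b θ ≤ ∫ _θ in (J κ)ᶜ, B := by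
        refine integral_mono_ae h2 (integrable_const_iff.2 (Or.inr ?_)) ?_
        · exact ⟨by rw [Measure.restrict_apply_univ]; exact lt_top_iff_ne_top.2 hfin⟩
        · have h7 : ∀ᵐ θ : ℝ ∂(volume.restrict (J κ)ᶜ), θ ∈ (J κ)ᶜ := ae_restrict_mem (measJ κ).compl
          have h8 : ∀ᵐ θ : ℝ ∂(volume.restrict (J κ)ᶜ), θ ≠ 0 := by
            apply ae_restrict_of_ae
            rw [ae_iff]
            simp
          filter_upwards [h7, h8] with θ h9 h10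
          exact h3 θ h10 h9
    _ = (volume (J κ)ᶜ).toReal * B := by
        rw [setIntegral_const, measureReal_def, smul_eq_mul]
    _ ≤ 2 / κ * B := by
        refine mul_le_mul_of_nonneg_right ?_ hB0
        have := ENNReal.toReal_mono ENNReal.ofReal_ne_top (vol_Jc hκ)
        rwa [ENNReal.toReal_ofReal (by positivity)] at this

lemma int_F2 (X : Fin s → Finset ℕ) (φ : Fin s → ℕ → C(ℝ, ℝ)) {η Y : ℝ} (hη : 0 < η) (hY : η ≤ Y) (a b : ℝ) (I : Set ℝ) :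
    Integrable (fun z : (Fin s → ℝ) × ℝ => w η Y z.2 ^ 2 * ∏ i, ‖S (X i) (φ i) z.2 (z.1 i)‖ ^ 2)
      ((box s a b).prod (volume.restrict I)) := by
  have h1 : Integrable (fun z : (Fin s → ℝ) × ℝ => (∏ i, ((X i).card : ℝ) ^ 2) *
      Real.exp (-(Real.pi * η ^ 2) * z.2 ^ 2)) ((box s a b).prod (volume.restrict I)) :=
    Integrable.mul_prod (f := fun _ : Fin s → ℝ => ∏ i, ((X i).card : ℝ) ^ 2) (integrable_const _) (int_gauss hη).restrict
  refine h1.mono' ?_ ?_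
  · apply Continuous.aestronglyMeasurable
    refine (((cont_w η Y).comp continuous_snd).pow 2).mul (continuous_finsetProd _ fun i _ => ?_)
    exact ((cont_S (X i) (φ i)).comp (continuous_snd.prodMk ((continuous_apply i).comp continuous_fst))).norm.pow 2
  · refine Eventually.of_forall fun z => ?_
    have h2 := w_nonneg hη hY z.2
    have h3 := w_le η Y z.2
    have h4 : w η Y z.2 ^ 2 ≤ Real.exp (-(Real.pi * η ^ 2) * z.2 ^ 2) :=
      (pow_le_pow_left₀ h2 h3 2).trans (gauss_sq_le z.2)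
    have h5 : ∏ i, ‖S (X i) (φ i) z.2 (z.1 i)‖ ^ 2 ≤ ∏ i, ((X i).card : ℝ) ^ 2 :=
      prod_le_prod (fun i _ => sq_nonneg _) fun i _ => pow_le_pow_left₀ (norm_nonneg _) (norm_S _ _ _ _) 2
    have h6 : 0 ≤ ∏ i, ‖S (X i) (φ i) z.2 (z.1 i)‖ ^ 2 := prod_nonneg fun i _ => sq_nonneg _
    rw [Real.norm_eq_abs, abs_of_nonneg (mul_nonneg (sq_nonneg _) h6), mul_comm]
    exact mul_le_mul h5 h4 (sq_nonneg _) (prod_nonneg fun i _ => sq_nonneg _)

lemma D2_eq (X : Fin s → Finset ℕ) (φ : Fin s → ℕ → C(ℝ, ℝ)) {η Y : ℝ} (hη : 0 < η) (hY : η ≤ Y) (κ : ℝ) (α : Fin s → ℝ) :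
    D2 X φ η Y κ α = ∫ θ in J κ, w η Y θ ^ 2 * ∏ i, ‖S (X i) (φ i) θ (α i)‖ ^ 2 := by
  unfold D2
  refine integral_congr_ae (Eventually.of_forall fun θ => ?_)
  simp only
  rw [norm_H0 X φ hη hY, mul_pow, prod_pow]

lemma int_D2 (X : Fin s → Finset ℕ) (φ : Fin s → ℕ → C(ℝ, ℝ)) {η Y : ℝ} (hη : 0 < η) (hY : η ≤ Y) (κ a b : ℝ) :
    Integrable (D2 X φ η Y κ) (box s a b) :=
  (int_F2 X φ hη hY a b (J κ)).integral_prod_left.congr (Eventually.of_forall fun α => (D2_eq X φ hη hY κ α).symm)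

/-- the mean of the large frequencies -/
theorem mean_D2 (X : Fin s → Finset ℕ) (φ : Fin s → ℕ → C(ℝ, ℝ)) {κ K a b : ℝ} (hK : 0 < K)
    (hMS : ∀ i, MS (X i) (φ i) a b κ K) {η Y : ℝ} (hη : 0 < η) (hY : η ≤ Y) (hab : a < b) :
    ∫ α, D2 X φ η Y κ α ∂(box s a b) ≤ 1 / η * ∏ i, (2 * K * (X i).card) := by
  have h1 : ∀ θ : ℝ, ∫ α, w η Y θ ^ 2 * ∏ i, ‖S (X i) (φ i) θ (α i)‖ ^ 2 ∂(box s a b) =
      w η Y θ ^ 2 * ∏ i, ∫ t in a..b, ‖S (X i) (φ i) θ t‖ ^ 2 := by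
    intro θ
    rw [integral_const_mul]
    congr 1
    unfold box
    rw [integral_fintype_prod_eq_prod (𝕜 := ℝ) (fun i t => ‖S (X i) (φ i) θ t‖ ^ 2)]
    refine prod_congr rfl fun i _ => ?_
    rw [intervalIntegral.integral_of_le hab.le, integral_Icc_eq_integral_Ioc]
  have e0 : ∫ α, D2 X φ η Y κ α ∂(box s a b) =
      ∫ θ in J κ, w η Y θ ^ 2 * ∏ i, ∫ t in a..b, ‖S (X i) (φ i) θ t‖ ^ 2 := by
    have e1 : ∫ α, D2 X φ η Y κ α ∂(box s a b) =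
        ∫ α, (∫ θ in J κ, w η Y θ ^ 2 * ∏ i, ‖S (X i) (φ i) θ (α i)‖ ^ 2) ∂(box s a b) :=
      integral_congr_ae (Eventually.of_forall fun α => D2_eq X φ hη hY κ α)
    rw [e1, integral_integral_swap (int_F2 X φ hη hY a b (J κ))]
    exact integral_congr_ae (Eventually.of_forall h1)
  have hint : Integrable (fun θ => w η Y θ ^ 2 * ∏ i, ∫ t in a..b, ‖S (X i) (φ i) θ t‖ ^ 2) (volume.restrict (J κ)) :=
    (int_F2 X φ hη hY a b (J κ)).integral_prod_right.congr (Eventually.of_forall h1)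
  obtain ⟨A, hA⟩ : ∃ A, A = ∏ i, (2 * K * ((X i).card : ℝ)) := ⟨_, rfl⟩
  have hA0 : 0 ≤ A := by rw [hA]; positivity
  rw [e0, ← hA]
  have h2 : ∀ᵐ θ : ℝ ∂(volume.restrict (J κ)), w η Y θ ^ 2 * ∏ i, ∫ t in a..b, ‖S (X i) (φ i) θ t‖ ^ 2 ≤
      Real.exp (-(Real.pi * η ^ 2) * θ ^ 2) * A := by
    filter_upwards [ae_restrict_mem (measJ κ)] with θ hθ
    unfold J at hθ
    rw [Set.mem_ofPred_eq] at hθ
    have hθ0 : θ ≠ 0 := by
      rintro rfl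
      rw [abs_zero, zero_mul] at hθ
      linarith
    have h3 := w_nonneg hη hY θ
    have h4 : w η Y θ ^ 2 ≤ Real.exp (-(Real.pi * η ^ 2) * θ ^ 2) :=
      (pow_le_pow_left₀ h3 (w_le η Y θ) 2).trans (gauss_sq_le θ)
    have h5 : ∏ i, ∫ t in a..b, ‖S (X i) (φ i) θ t‖ ^ 2 ≤ A := by
      rw [hA]
      refine prod_le_prod (fun i _ => intervalIntegral.integral_nonneg hab.le fun t _ => sq_nonneg _) fun i _ => ?_
      refine (hMS i θ hθ0).trans ?_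
      have h6 : 1 / (|θ| * κ) ≤ 1 := (div_le_one (by linarith)).2 hθ
      calc ((X i).card : ℝ) * (K * (1 + 1 / (|θ| * κ))) ≤ (X i).card * (K * (1 + 1)) := by gcongr
        _ = _ := by ring
    exact mul_le_mul h4 h5 (prod_nonneg fun i _ => intervalIntegral.integral_nonneg hab.le fun t _ => sq_nonneg _)
      (Real.exp_pos _).le
  have hg : Integrable (fun θ : ℝ => Real.exp (-(Real.pi * η ^ 2) * θ ^ 2) * A) := (int_gauss hη).mul_const A
  calc ∫ θ in J κ, w η Y θ ^ 2 * ∏ i, ∫ t in a..b, ‖S (X i) (φ i) θ t‖ ^ 2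
      ≤ ∫ θ in J κ, Real.exp (-(Real.pi * η ^ 2) * θ ^ 2) * A := integral_mono_ae hint hg.restrict h2
    _ ≤ ∫ θ, Real.exp (-(Real.pi * η ^ 2) * θ ^ 2) * A :=
        setIntegral_le_integral hg (Eventually.of_forall fun θ => mul_nonneg (Real.exp_pos _).le hA0)
    _ = _ := by rw [integral_mul_const, val_gauss hη]

end

end Pool.Agent.Run7.h927.WS
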