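import Pool.Agent.Run7.h927.WS.I

set_option autoImplicit false

/-! Almost all shifts: the number of the exceptional integers. -/

namespace Pool.Agent.Run7.h927.WS
open MeasureTheory Finset Filter
open Pool.Agent.Run7.h927.WG (e norm_e bc log_small exp_small find_scale box box_eq sqrt_help prod_erase_eq)

noncomputable section

lemma numer2 {p δ c₀ B C W₃ Wm T₀ g : ℝ} (hp : 1 ≤ p) (hδ : 0 < δ) (hC : 0 ≤ C)
    (hg : 0 < g) (h2 : c₀ ^ 2 ≤ p ^ δ) (hT : T₀ ≤ C * p)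
    (h4 : p ^ (1 + 8 * δ) ≤ W₃) (hWm : 0 ≤ Wm) :
    2 / g * (Real.pi * (B * g) ^ 2 * c₀ ^ 2 / g ^ 2 * (√(T₀ * W₃) * Wm)) ≤
      2 * Real.pi * B ^ 2 * √C * p ^ (-δ) * (W₃ * Wm / g) := by
  have hp0 : 0 < p := by linarith
  have hW3 : 0 < W₃ := lt_of_lt_of_le (by positivity) h4
  have hpd : 1 ≤ p ^ δ := Real.one_le_rpow hp hδ.le
  have e2 : p ^ δ * p ^ (-(2 * δ)) = p ^ (-δ) := by
    rw [← Real.rpow_add hp0]
    congr 1
    ring
  have hpi := Real.pi_pos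
  have t2 : √(T₀ * W₃) ≤ √C * p ^ (-(2 * δ)) * (W₃ / 1) := by
    refine sqrt_help hp hδ hC one_pos (by simpa using h4) ?_
    refine mul_le_mul_of_nonneg_right ?_ hW3.le
    calc T₀ ≤ C * p := hT
      _ ≤ p ^ δ * (C * p) := by
          have : 0 ≤ C * p := by positivity
          nlinarith
  rw [div_one] at t2
  calc 2 / g * (Real.pi * (B * g) ^ 2 * c₀ ^ 2 / g ^ 2 * (√(T₀ * W₃) * Wm))
      = 2 * Real.pi * B ^ 2 * Wm / g * (c₀ ^ 2 * √(T₀ * W₃)) := by field_simp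
    _ ≤ 2 * Real.pi * B ^ 2 * Wm / g * (p ^ δ * (√C * p ^ (-(2 * δ)) * W₃)) := by
        refine mul_le_mul_of_nonneg_left ?_ (by positivity)
        exact mul_le_mul h2 t2 (Real.sqrt_nonneg _) (by positivity)
    _ = 2 * Real.pi * B ^ 2 * √C * (p ^ δ * p ^ (-(2 * δ))) * (W₃ * Wm / g) := by ring
    _ = _ := by rw [e2]

/-- the means for shifted powers -/
lemma mean_shift2 (m k : ℕ) (hk : 2 ≤ k) (C P : ℕ) (hC : 2 ≤ C) (hP : 1 ≤ P) (δ B : ℝ) (hδ : 0 < δ) (hB : 1 ≤ B)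
    (h1 : 6 * (1 + Real.log (C * P)) ≤ (P : ℝ) ^ (δ / (4 + m))) (H2 : (P : ℝ) ^ (1 + 8 * δ) ≤ (P : ℝ) ^ 3) :
    ∫ α, Qs (Xf m C P) (fun _ => sh k) ((P : ℝ) ^ (-δ)) (B * (P : ℝ) ^ (k - 1)) ((P : ℝ) ^ (k - 1)) α ∂(box (4 + m) 0 1) ≤
      (2 * Real.pi * B ^ 2 * √C) * (P : ℝ) ^ (-δ) * ((P : ℝ) ^ (3 + m) / (P : ℝ) ^ (k - 1)) ∧
    ∫ α, D2 (Xf m C P) (fun _ => sh k) ((P : ℝ) ^ (-δ)) (B * (P : ℝ) ^ (k - 1)) ((P : ℝ) ^ (k - 1)) α ∂(box (4 + m) 0 1) ≤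
      C * (P : ℝ) ^ (-δ) * ((P : ℝ) ^ (3 * δ) * (P : ℝ) ^ (4 + m)) := by
  have hP0 : (0 : ℝ) < P := by exact_mod_cast hP
  have hP1 : (1 : ℝ) ≤ P := by exact_mod_cast hP
  have hC0 : (0 : ℝ) < C := by exact_mod_cast (by omega : 0 < C)
  have hg : (0 : ℝ) < (P : ℝ) ^ (k - 1) := by positivity
  have hg1 : (1 : ℝ) ≤ (P : ℝ) ^ (k - 1) := one_le_pow₀ hP1
  have hη : (0 : ℝ) < (P : ℝ) ^ (-δ) := by positivity
  have hη1 : (P : ℝ) ^ (-δ) ≤ 1 := Real.rpow_le_one_of_one_le_of_nonpos hP1 (by linarith)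
  have hY : (P : ℝ) ^ (-δ) ≤ B * (P : ℝ) ^ (k - 1) := by nlinarith
  have hL : 0 ≤ Real.log ((C * P : ℕ) : ℝ) := Real.log_natCast_nonneg _
  obtain ⟨K, hK⟩ : ∃ K, K = 3 + 2 * Real.log ((C * P : ℕ) : ℝ) := ⟨_, rfl⟩
  have hK0 : 0 < K := by rw [hK]; positivity
  obtain ⟨c₀, hc₀⟩ : ∃ c₀ : ℝ, c₀ = 2 * (1 - 0) * K := ⟨_, rfl⟩
  have hc0 : 0 < c₀ := by rw [hc₀]; positivity
  have hc1 : c₀ ≤ (P : ℝ) ^ (δ / (4 + m)) := by
    refine le_trans ?_ h1
    rw [hc₀, hK]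
    push_cast at hL ⊢
    linarith
  have hc4 : c₀ ^ (4 + m) ≤ (P : ℝ) ^ δ := by
    calc c₀ ^ (4 + m) ≤ ((P : ℝ) ^ (δ / (4 + m))) ^ (4 + m) := pow_le_pow_left₀ hc0.le hc1 _
      _ = (P : ℝ) ^ δ := by
          rw [← Real.rpow_natCast, ← Real.rpow_mul hP0.le]
          congr 1
          push_cast
          have : (4 + m : ℝ) ≠ 0 := by positivity
          field_simp
  have hc2 : c₀ ^ 2 ≤ (P : ℝ) ^ δ := by
    calc c₀ ^ 2 ≤ ((P : ℝ) ^ (δ / (4 + m))) ^ 2 := pow_le_pow_left₀ hc0.le hc1 _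
      _ = (P : ℝ) ^ (δ / (4 + m) * 2) := by
          rw [← Real.rpow_natCast, ← Real.rpow_mul hP0.le]
          norm_num
      _ ≤ (P : ℝ) ^ δ := by
          apply Real.rpow_le_rpow_of_exponent_le hP1
          rw [div_mul_eq_mul_div, div_le_iff₀ (by positivity)]
          have : (0 : ℝ) ≤ m := Nat.cast_nonneg m
          nlinarith
  have hMS : ∀ i, MS (Xf m C P i) (sh k) 0 1 ((P : ℝ) ^ (k - 1)) K := by
    intro i
    unfold Xf
    split_ifs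
    · rw [hK]
      exact ms_shift k P (C * P) hk hP (by nlinarith)
    · have h3 := ms_shift k P (2 * P) hk hP le_rfl
      intro θ hθ
      refine (h3 θ hθ).trans ?_
      refine mul_le_mul_of_nonneg_left ?_ (Nat.cast_nonneg _)
      refine mul_le_mul_of_nonneg_right ?_ (by positivity)
      rw [hK]
      have h4 : Real.log ((2 * P : ℕ) : ℝ) ≤ Real.log ((C * P : ℕ) : ℝ) := by
        apply Real.log_le_log
        · exact_mod_cast (by omega : 0 < 2 * P)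
        · exact_mod_cast Nat.mul_le_mul_right P hC
      linarith
  have hT0 : ((Xf m C P (Fin.castAdd m 0)).card : ℝ) ≤ C * P := by
    unfold Xf
    rw [if_pos rfl, Nat.card_Ioc]
    exact_mod_cast Nat.sub_le _ _
  have hTi : ∀ i, i ≠ Fin.castAdd m 0 → ((Xf m C P i).card : ℝ) = P := by
    intro i hi
    unfold Xf
    rw [if_neg hi, Nat.card_Ioc]
    congr 1
    omega
  obtain ⟨T₀, hT₀⟩ : ∃ T₀ : ℝ, T₀ = (Xf m C P (Fin.castAdd m 0)).card := ⟨_, rfl⟩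
  have hT00 : 0 ≤ T₀ := by rw [hT₀]; positivity
  rw [← hT₀] at hT0
  have hne : ∀ i : Fin 4, i ≠ 0 → Fin.castAdd m i ≠ Fin.castAdd m 0 := fun i hi => (Fin.castAdd_injective 4 m).ne hi
  constructor
  · have hmean := mean_Qs m (Xf m C P) (fun _ => sh k) hg hK0 hMS hη hY one_pos c₀ (by rw [hc₀])
    refine hmean.trans ?_
    have e2 : (∏ i : Fin 4, √((Xf m C P (Fin.castAdd m i)).card : ℝ)) *
        ∏ j : Fin m, (((1 : ℝ) - 0) * ((Xf m C P (Fin.natAdd 4 j)).card : ℝ)) = √(T₀ * (P : ℝ) ^ 3) * (P : ℝ) ^ m := by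
      congr 1
      · rw [← Real.sqrt_prod _ fun i _ => by positivity, Fin.prod_univ_four, hTi _ (hne 1 (by decide)),
          hTi _ (hne 2 (by decide)), hTi _ (hne 3 (by decide)), ← hT₀]
        congr 1
        ring
      · have h5 : ∀ j : Fin m, ((1 : ℝ) - 0) * ((Xf m C P (Fin.natAdd 4 j)).card : ℝ) = P := by
          intro j
          rw [hTi, sub_zero, one_mul]
          intro h
          rw [Fin.ext_iff] at h
          simp at h
        rw [prod_congr rfl fun j _ => h5 j, prod_const, card_univ, Fintype.card_fin]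
    rw [e2]
    have e3 : (P : ℝ) ^ (3 + m) = (P : ℝ) ^ 3 * (P : ℝ) ^ m := pow_add _ _ _
    rw [e3]
    exact numer2 hP1 hδ hC0.le hg hc2 hT0 H2 (by positivity)
  · have hmean := mean_D2 (Xf m C P) (fun _ => sh k) hK0 hMS hη hY one_pos
    refine hmean.trans ?_
    have e1 : ∏ i, (2 * K * ((Xf m C P i).card : ℝ)) = c₀ ^ (4 + m) * (T₀ * (P : ℝ) ^ (3 + m)) := by
      rw [prod_mul_distrib, prod_const, card_univ, Fintype.card_fin]
      congr 1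
      · rw [hc₀]
        ring
      · rw [← mul_prod_erase univ _ (mem_univ (Fin.castAdd m 0)), card_Xf, ← hT₀]
    rw [e1]
    have e4 : 1 / (P : ℝ) ^ (-δ) = (P : ℝ) ^ δ := by rw [Real.rpow_neg hP0.le, one_div, inv_inv]
    rw [e4]
    calc (P : ℝ) ^ δ * (c₀ ^ (4 + m) * (T₀ * (P : ℝ) ^ (3 + m)))
        ≤ (P : ℝ) ^ δ * ((P : ℝ) ^ δ * ((C * P) * (P : ℝ) ^ (3 + m))) := by gcongr
      _ = C * ((P : ℝ) ^ δ * (P : ℝ) ^ δ) * (P : ℝ) ^ (4 + m) := by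
          have : (P : ℝ) ^ (4 + m) = P * (P : ℝ) ^ (3 + m) := by
            rw [← pow_succ']
            congr 1
            omega
          rw [this]
          ring
      _ = C * ((P : ℝ) ^ (-δ) * (P : ℝ) ^ (3 * δ)) * (P : ℝ) ^ (4 + m) := by
          congr 2
          rw [← Real.rpow_add hP0, ← Real.rpow_add hP0]
          congr 1
          ring
      _ = _ := by ring

/-- the exceptional integers of a shift -/
def Exc (s k : ℕ) (θ : Fin s → ℝ) (n : ℕ) : Prop :=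
  ∀ x : Fin s → ℕ, (∀ i, 0 < x i) → ⌊∑ i, ((x i : ℝ) - θ i) ^ k⌋₊ ≠ n

/-- almost all shifts: the exceptional integers in a dyadic range -/
theorem ae_exc (m k : ℕ) (hk : 2 ≤ k) (hks : k ≤ 4 + m) (E : ℝ) (hE : 0 < E) (C : ℕ) (hC : 2 ≤ C) (hCE : E < ((C : ℝ) - 1) ^ k)
    (δ : ℝ) (hδ : 0 < δ) (hδ1 : δ ≤ 1 / 4) :
    ∃ K : ℝ, 0 < K ∧ ∀ᵐ α ∂(box (4 + m) 0 1), ∀ᶠ j : ℕ in atTop, ∀ Z : Finset ℕ,
      (∀ n ∈ Z, (5 + m) * 2 ^ k * ((2 ^ j : ℕ) : ℝ) ^ k ≤ n ∧ (n : ℝ) + 1 ≤ E * ((2 ^ j : ℕ) : ℝ) ^ k ∧ Exc (4 + m) k α n) →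
      (Z.card : ℝ) ≤ K * ((2 ^ j : ℕ) : ℝ) ^ (2 * (k : ℝ) - (4 + m) + 3 * δ) := by
  have hC0 : (0 : ℝ) < C := by exact_mod_cast (by omega : 0 < C)
  obtain ⟨B, hB⟩ : ∃ B, B = k * (C : ℝ) ^ (k - 1) + 1 := ⟨_, rfl⟩
  have hB1 : 1 ≤ B := by
    rw [hB]
    have : 0 ≤ k * (C : ℝ) ^ (k - 1) := by positivity
    linarith
  have hB0 : 0 < B := by linarith
  obtain ⟨c, hc⟩ : ∃ c, c = Real.exp (-Real.pi) / (2 * B) := ⟨_, rfl⟩
  have hc0 : 0 < c := by rw [hc]; positivity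
  refine ⟨2 * Real.exp Real.pi / c ^ 2, by positivity, ?_⟩
  have hp0 : ∀ j : ℕ, (0 : ℝ) < ((2 ^ j : ℕ) : ℝ) := fun j => by positivity
  have hp1 : ∀ j : ℕ, (1 : ℝ) ≤ ((2 ^ j : ℕ) : ℝ) := fun j => by exact_mod_cast Nat.one_le_two_pow
  have hlog := tendsto_two.eventually (log_small 6 C (δ / (4 + m)) hC0 (by positivity))
  have hexp := tendsto_two.eventually (exp_small C (4 + m) δ (c / 4) hδ (by positivity))
  have hbig : ∀ᶠ j : ℕ in atTop, (4 : ℝ) ≤ ((2 ^ j : ℕ) : ℝ) ^ δ :=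
    ((tendsto_rpow_atTop hδ).comp tendsto_two).eventually (eventually_ge_atTop 4)
  have hq : ∀ j : ℕ, ((2 ^ j : ℕ) : ℝ) ^ (-δ) = ((2 : ℝ) ^ (-δ)) ^ j := by
    intro j
    push_cast
    rw [← Real.rpow_natCast, ← Real.rpow_mul (by norm_num), ← Real.rpow_natCast, ← Real.rpow_mul (by norm_num)]
    congr 1
    ring
  have hηY : ∀ j : ℕ, ((2 ^ j : ℕ) : ℝ) ^ (-δ) ≤ B * ((2 ^ j : ℕ) : ℝ) ^ (k - 1) := by
    intro j
    have hη1 : ((2 ^ j : ℕ) : ℝ) ^ (-δ) ≤ 1 := Real.rpow_le_one_of_one_le_of_nonpos (hp1 j) (by linarith)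
    have : (1 : ℝ) ≤ ((2 ^ j : ℕ) : ℝ) ^ (k - 1) := one_le_pow₀ (hp1 j)
    nlinarith
  have hη0 : ∀ j : ℕ, (0 : ℝ) < ((2 ^ j : ℕ) : ℝ) ^ (-δ) := fun j => Real.rpow_pos_of_pos (hp0 j) _
  have H2 : ∀ j : ℕ, ((2 ^ j : ℕ) : ℝ) ^ (1 + 8 * δ) ≤ ((2 ^ j : ℕ) : ℝ) ^ 3 := by
    intro j
    have h : ((2 ^ j : ℕ) : ℝ) ^ (1 + 8 * δ) ≤ ((2 ^ j : ℕ) : ℝ) ^ (((3 : ℕ) : ℝ)) := by
      apply Real.rpow_le_rpow_of_exponent_le (hp1 j)
      push_cast
      linarith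
    rwa [Real.rpow_natCast] at h
  have hQ := bc (box (4 + m) 0 1)
    (fun j => Qs (Xf m C (2 ^ j)) (fun _ => sh k) (((2 ^ j : ℕ) : ℝ) ^ (-δ)) (B * ((2 ^ j : ℕ) : ℝ) ^ (k - 1))
      (((2 ^ j : ℕ) : ℝ) ^ (k - 1)))
    (fun j => c * (((2 ^ j : ℕ) : ℝ) ^ (3 + m) / ((2 ^ j : ℕ) : ℝ) ^ (k - 1)) / 2)
    (2 * Real.pi * B ^ 2 * √(C : ℝ) / (c / 2)) ((2 : ℝ) ^ (-δ)) (by positivity)
    (Real.rpow_lt_one_of_one_lt_of_neg one_lt_two (by linarith)) (fun j α => Qs_nonneg _ _ _ _ _ _) (by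
      filter_upwards [hlog] with j hj3
      refine ⟨by have := hp0 j; positivity, int_Qs _ _ (hη0 j) (hηY j) _ 0 1, ?_⟩
      refine (mean_shift2 m k hk C (2 ^ j) hC Nat.one_le_two_pow δ B hδ hB1 hj3 (H2 j)).1.trans (le_of_eq ?_)
      rw [← hq]
      field_simp)
  have hD := bc (box (4 + m) 0 1)
    (fun j => D2 (Xf m C (2 ^ j)) (fun _ => sh k) (((2 ^ j : ℕ) : ℝ) ^ (-δ)) (B * ((2 ^ j : ℕ) : ℝ) ^ (k - 1))
      (((2 ^ j : ℕ) : ℝ) ^ (k - 1)))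
    (fun j => ((2 ^ j : ℕ) : ℝ) ^ (3 * δ) * ((2 ^ j : ℕ) : ℝ) ^ (4 + m)) C ((2 : ℝ) ^ (-δ)) (by positivity)
    (Real.rpow_lt_one_of_one_lt_of_neg one_lt_two (by linarith)) (fun j α => D2_nonneg _ _ _ _ _ _) (by
      filter_upwards [hlog] with j hj3
      refine ⟨by have := hp0 j; positivity, int_D2 _ _ (hη0 j) (hηY j) _ 0 1, ?_⟩
      refine (mean_shift2 m k hk C (2 ^ j) hC Nat.one_le_two_pow δ B hδ hB1 hj3 (H2 j)).2.trans (le_of_eq ?_)
      rw [← hq])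
  have hmem : ∀ᵐ α ∂(box (4 + m) 0 1), α ∈ Set.pi Set.univ fun _ : Fin (4 + m) => Set.Icc (0 : ℝ) 1 := by
    rw [box_eq]
    exact ae_restrict_mem (MeasurableSet.univ_pi fun _ => measurableSet_Icc)
  filter_upwards [hQ, hD, hmem] with α hαQ hαD hα'
  filter_upwards [hαQ, hαD, hexp, hbig] with j hjQ hjD hj2 hj4 Z hZ
  obtain ⟨p, hpe⟩ : ∃ p : ℝ, p = ((2 ^ j : ℕ) : ℝ) := ⟨_, rfl⟩
  have hP1 : (1 : ℝ) ≤ p := hpe ▸ hp1 j
  have hp : 0 < p := by linarith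
  have hη := hη0 j
  have hY := hηY j
  rw [← hpe] at hjQ hjD hj2 hj4 hη hY ⊢
  obtain ⟨V, hV⟩ : ∃ V, V = c * (p ^ (3 + m) / p ^ (k - 1)) := ⟨_, rfl⟩
  have hVc : c ≤ V := by
    rw [hV]
    have h3 : 1 ≤ p ^ (3 + m) / p ^ (k - 1) := by
      rw [one_le_div (by positivity)]
      exact pow_le_pow_right₀ hP1 (by omega)
    nlinarith
  have hV0 : 0 < V := by linarith
  rw [← hV] at hjQ
  have hcard : ((Fintype.piFinset (Xf m C (2 ^ j))).card : ℝ) ≤ (C * p) ^ (4 + m) := by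
    rw [Fintype.card_piFinset]
    push_cast
    calc ∏ i, ((Xf m C (2 ^ j) i).card : ℝ) ≤ ∏ _i : Fin (4 + m), (C * p) := by
          refine prod_le_prod (fun i _ => Nat.cast_nonneg _) fun i _ => ?_
          unfold Xf
          rw [hpe]
          split_ifs
          · rw [Nat.card_Ioc]
            exact_mod_cast Nat.sub_le _ _
          · rw [Nat.card_Ioc]
            have h7 : 2 * 2 ^ j - 2 ^ j ≤ C * 2 ^ j := by
              have : 1 * 2 ^ j ≤ C * 2 ^ j := Nat.mul_le_mul_right _ (by omega)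
              omega
            exact_mod_cast h7
      _ = _ := by rw [prod_const, card_univ, Fintype.card_fin]
  have hmain := exc_count (Xf m C (2 ^ j)) (fun _ => sh k) (κ := p ^ (k - 1)) (R := E * p ^ k) hη hY hV0 (by positivity) α Z
    (fun n hn => by rw [hpe]; exact (hZ n hn).2.1) ?_ hjQ.le
  · have h5 : (Z.card : ℝ) * (V ^ 2 * Real.exp (-Real.pi) / 2) ≤ p ^ (3 * δ) * p ^ (4 + m) := hmain.trans hjD.le
    have h6 : (Z.card : ℝ) ≤ (p ^ (3 * δ) * p ^ (4 + m)) / (V ^ 2 * Real.exp (-Real.pi) / 2) := by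
      rw [le_div_iff₀ (by positivity)]
      exact h5
    refine h6.trans (le_of_eq ?_)
    have h7 : p ^ (2 * (k : ℝ) - (4 + m) + 3 * δ) = p ^ (3 * δ) * (p ^ (4 + m) * (p ^ (k - 1)) ^ 2 / (p ^ (3 + m)) ^ 2) := by
      have e1 : p ^ (4 + m) * (p ^ (k - 1)) ^ 2 / (p ^ (3 + m)) ^ 2 = p ^ (2 * (k : ℝ) - (4 + m)) := by
        rw [← pow_mul, ← pow_mul, ← pow_add, ← Real.rpow_natCast, ← Real.rpow_natCast, ← Real.rpow_sub hp]
        congr 1
        push_cast [Nat.cast_sub (by omega : 1 ≤ k)]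
        ring
      rw [e1, ← Real.rpow_add hp]
      congr 1
      ring
    rw [h7, hV, Real.exp_neg]
    field_simp
  · intro n hn ν hν
    obtain ⟨g1, g2, g3⟩ := hZ n hn
    constructor
    · have h3 := N_wide m k E C (2 ^ j) hC Nat.one_le_two_pow hCE α (fun i => hα' i (Set.mem_univ i)) ν
        (by linarith [hν.1]) (by linarith [hν.2])
      rw [← hB, ← hpe] at h3
      have h6 : p ^ (-δ) / (B * p ^ (k - 1)) * (Real.exp (-Real.pi) * p ^ (3 + m)) ≤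
          p ^ (-δ) / (B * p ^ (k - 1)) * N (Xf m C (2 ^ j)) (fun _ => sh k) (B * p ^ (k - 1)) α ν :=
        mul_le_mul_of_nonneg_left h3 (by positivity)
      refine le_trans (le_of_eq ?_) h6
      rw [hV, hc]
      field_simp
    · -- the narrow scale
      have h8 : ∀ x ∈ Fintype.piFinset (Xf m C (2 ^ j)),
          Real.exp (-Real.pi * ((L (fun _ => sh k) α x - ν) / p ^ (-δ)) ^ 2) ≤ Real.exp (-(Real.pi / 4) * p ^ δ) := by
        intro x hx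
        rw [Fintype.mem_piFinset] at hx
        have hxp : ∀ i, 0 < x i := fun i => lt_of_le_of_lt (Nat.zero_le _) (xf_mem m C _ hC i _ (hx i)).1
        have h9 := g3 x hxp
        have hL : L (fun _ => sh k) α x = ∑ i, ((x i : ℝ) - α i) ^ k := by
          unfold L
          rfl
        have hL0 : 0 ≤ ∑ i, ((x i : ℝ) - α i) ^ k := by
          refine sum_nonneg fun i _ => pow_nonneg ?_ k
          have h10 : (1 : ℝ) ≤ x i := by exact_mod_cast hxp i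
          have := (hα' i (Set.mem_univ i)).2
          linarith
        have h11 : 1 / 4 ≤ |L (fun _ => sh k) α x - ν| := by
          rw [hL]
          by_contra hcon
          rw [not_le, abs_lt] at hcon
          apply h9
          rw [Nat.floor_eq_iff hL0]
          constructor
          · linarith [hν.1]
          · linarith [hν.2]
        rw [Real.exp_le_exp]
        have h12 : (1 / 4 * p ^ δ) ^ 2 ≤ ((L (fun _ => sh k) α x - ν) / p ^ (-δ)) ^ 2 := by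
          have hdiv : |L (fun _ => sh k) α x - ν| / p ^ (-δ) = |L (fun _ => sh k) α x - ν| * p ^ δ := by
            rw [Real.rpow_neg hp.le, div_inv_eq_mul]
          rw [← sq_abs ((L (fun _ => sh k) α x - ν) / p ^ (-δ)), abs_div, abs_of_pos hη, hdiv]
          apply pow_le_pow_left₀ (by positivity)
          exact mul_le_mul_of_nonneg_right h11 (by positivity)
        have h13 : 1 / 4 * p ^ δ ≤ (1 / 4 * p ^ δ) ^ 2 := by nlinarith
        have := Real.pi_pos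
        nlinarith
      have h14 : N (Xf m C (2 ^ j)) (fun _ => sh k) (p ^ (-δ)) α ν ≤ (C * p) ^ (4 + m) * Real.exp (-(Real.pi / 4) * p ^ δ) := by
        unfold N
        refine (sum_le_sum h8).trans ?_
        rw [sum_const, nsmul_eq_mul]
        exact mul_le_mul_of_nonneg_right hcard (Real.exp_pos _).le
      have h15 : (C * p) ^ (4 + m) * Real.exp (-(Real.pi / 4) * p ^ δ) ≤ p ^ (-δ) * (c / 4) := by
        have h16 : (C * p) ^ (4 + m) * Real.exp (-(Real.pi / 4) * p ^ δ) =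
            p ^ (-δ) * ((C * p) ^ (4 + m) / p ^ (-δ) * Real.exp (-(Real.pi / 4) * p ^ δ)) := by
          field_simp
        rw [h16]
        exact mul_le_mul_of_nonneg_left hj2 hη.le
      refine (h14.trans h15).trans ?_
      have h17 : p ^ (-δ) * c ≤ p ^ (-δ) * V := mul_le_mul_of_nonneg_left hVc hη.le
      linarith

end

end Pool.Agent.Run7.h927.WS
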