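import Pool.Agent.Run7.h927.WS.Z
set_option autoImplicit false

/-! The wide scale for more than `k` variables. -/

namespace Pool.Agent.Run7.h927.WS

open MeasureTheory Finset Filter

noncomputable section

/-- the Lipschitz constant of the power at a point which is at least `d` -/
def lip (b T d : ℝ) : ℝ := (b + 1) * (T ^ (b - 1) + d ^ (b - 1))

lemma lip_nonneg {b T d : ℝ} (hb : 0 ≤ b) (hT : 0 < T) (hd : 0 < d) : 0 ≤ lip b T d := by
  unfold lip
  positivity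

lemma lip_bound {b T d x y : ℝ} (hb : 0 < b) (hd : 0 < d) (hx : 0 ≤ x) (hxT : x ≤ T) (hy : d ≤ y) (hyT : y ≤ T) :
    |x ^ b - y ^ b| ≤ lip b T d * |x - y| := by
  have hy0 : 0 < y := by linarith
  have hT0 : 0 < T := by linarith
  unfold lip
  rcases le_or_gt 1 b with h | h
  · refine (rpow_lip h hx hxT hy0.le hyT).trans ?_
    apply mul_le_mul_of_nonneg_right _ (abs_nonneg _)
    have h1 : 0 < T ^ (b - 1) := by positivity
    have h2 : 0 < d ^ (b - 1) := by positivity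
    nlinarith [mul_pos hb h2]
  · have h3 : |x ^ b - y ^ b| ≤ y ^ (b - 1) * |x - y| := by
      obtain ⟨z, hz⟩ : ∃ z : ℝ, z = x / y := ⟨_, rfl⟩
      have hz0 : 0 ≤ z := by rw [hz]; positivity
      have hxz : x = z * y := by rw [hz]; field_simp
      have h4 : |z ^ b - 1| ≤ |z - 1| := by
        rcases le_total z 1 with h5 | h5
        · have h6 : z ^ b ≤ 1 := Real.rpow_le_one hz0 h5 hb.le
          rw [abs_of_nonpos (by linarith), abs_of_nonpos (by linarith)]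
          rcases eq_or_lt_of_le hz0 with h7 | h7
          · rw [← h7, Real.zero_rpow hb.ne']
          · have h8 : z ^ (1 : ℝ) ≤ z ^ b := Real.rpow_le_rpow_of_exponent_ge h7 h5 h.le
            rw [Real.rpow_one] at h8
            linarith
        · have h6 : 1 ≤ z ^ b := Real.one_le_rpow h5 hb.le
          rw [abs_of_nonneg (by linarith), abs_of_nonneg (by linarith)]
          have h8 : z ^ b ≤ z ^ (1 : ℝ) := Real.rpow_le_rpow_of_exponent_le h5 h.le
          rw [Real.rpow_one] at h8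
          linarith
      have h9 : x ^ b - y ^ b = y ^ b * (z ^ b - 1) := by
        rw [hxz, Real.mul_rpow hz0 hy0.le]
        ring
      have h10 : y ^ b = y ^ (b - 1) * y := by
        rw [← Real.rpow_add_one hy0.ne']
        congr 1
        ring
      have h11 : |x - y| = y * |z - 1| := by
        rw [hxz, show z * y - y = y * (z - 1) by ring, abs_mul, abs_of_pos hy0]
      rw [h9, abs_mul, abs_of_pos (by positivity), h11, ← mul_assoc, ← h10]
      exact mul_le_mul_of_nonneg_left h4 (by positivity)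
    refine h3.trans ?_
    apply mul_le_mul_of_nonneg_right _ (abs_nonneg _)
    have h1 : 0 < T ^ (b - 1) := by positivity
    have h2 : 0 < d ^ (b - 1) := by positivity
    have h12 : y ^ (b - 1) ≤ d ^ (b - 1) := Real.rpow_le_rpow_of_nonpos hd hy (by linarith)
    nlinarith [mul_pos hb h2, mul_pos hb h1]

variable {s : ℕ}

/-- the integral of the weight over the cone -/
lemma main_volume2 (k : ℕ) (hk : k ≠ 0) (hs : k < s) (E : Set (Fin s → ℝ)) (hEm : MeasurableSet E)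
    (hE : ∀ r : ℝ, 0 < r → ∀ v, v ∈ E ↔ r • v ∈ E) {T ν d Y : ℝ} (hd : 0 < d) (hd1 : d ≤ ν) (hd2 : d ≤ T - ν)
    (hY : 0 < Y) :
    |(∫ v in E ∩ {v : Fin s → ℝ | Ph k v < T}, gau ((Ph k v - ν) / Y)) -
      c1 k E * ((s : ℝ) / k) * ν ^ ((s : ℝ) / k - 1) * Y| ≤
      c1 k E * ((s : ℝ) / k) * (Real.pi * (lip ((s : ℝ) / k - 1) T d + T ^ ((s : ℝ) / k - 1) / d) * Y ^ 2) := by
  have hk0 : (0 : ℝ) < k := by exact_mod_cast Nat.pos_of_ne_zero hk
  have hs' : s ≠ 0 := by omega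
  have hs0 : (0 : ℝ) < s := by exact_mod_cast Nat.pos_of_ne_zero hs'
  have hc := c1_nonneg k E
  rw [radial k hk hs' E hEm hE (fun t => gau ((t - ν) / Y)) (cont_gau.comp (by fun_prop)) T]
  obtain ⟨b, hb⟩ : ∃ b : ℝ, b = (s : ℝ) / k - 1 := ⟨_, rfl⟩
  have hb1 : 0 < b := by
    rw [hb, sub_pos, lt_div_iff₀ hk0, one_mul]
    exact_mod_cast hs
  rw [← hb]
  have hT0 : 0 < T := by linarith
  have hν0 : 0 < ν := by linarith
  obtain ⟨H, hH⟩ : ∃ H : ℝ → ℝ, H = (Set.Ioo (0 : ℝ) T).indicator (fun t => t ^ b) := ⟨_, rfl⟩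
  have hHm : Measurable H := by
    rw [hH]
    exact (Measurable.pow_const measurable_id b).indicator measurableSet_Ioo
  have h1 := approx hY ν H hHm (ν ^ b) (lip b T d + T ^ b / d) (by
    intro t
    have g1 : 0 ≤ lip b T d := lip_nonneg hb1.le hT0 hd
    have g2 : 0 ≤ T ^ b / d := by positivity
    rw [hH]
    by_cases ht : t ∈ Set.Ioo (0 : ℝ) T
    · rw [Set.indicator_of_mem ht]
      have := lip_bound hb1 hd ht.1.le ht.2.le hd1 (by linarith : ν ≤ T)
      have g3 := mul_nonneg g2 (abs_nonneg (t - ν))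
      linarith
    · rw [Set.indicator_of_notMem ht, zero_sub, abs_neg, abs_of_nonneg (by positivity)]
      have g4 : d ≤ |t - ν| := by
        rw [Set.mem_Ioo, not_and_or, not_lt, not_lt] at ht
        rcases ht with h | h
        · rw [abs_of_nonpos (by linarith)]
          linarith
        · rw [abs_of_nonneg (by linarith)]
          linarith
      have g5 : ν ^ b ≤ T ^ b := Real.rpow_le_rpow hν0.le (by linarith) (by linarith)
      calc ν ^ b ≤ T ^ b := g5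
        _ = T ^ b / d * d := by field_simp
        _ ≤ T ^ b / d * |t - ν| := by gcongr
        _ ≤ _ := by nlinarith [mul_nonneg g1 (abs_nonneg (t - ν))])
  have h2 : ∫ t in Set.Ioo (0 : ℝ) T, c1 k E * ((s : ℝ) / k * t ^ b) * gau ((t - ν) / Y) =
      c1 k E * ((s : ℝ) / k) * ∫ t : ℝ, H t * gau ((t - ν) / Y) := by
    rw [← integral_indicator measurableSet_Ioo, ← integral_const_mul]
    refine integral_congr_ae (Filter.Eventually.of_forall fun t => ?_)
    simp only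
    rw [hH]
    by_cases ht : t ∈ Set.Ioo (0 : ℝ) T
    · rw [Set.indicator_of_mem ht, Set.indicator_of_mem ht]
      ring
    · rw [Set.indicator_of_notMem ht, Set.indicator_of_notMem ht]
      ring
  rw [h2]
  have h3 : c1 k E * ((s : ℝ) / k) * (∫ t : ℝ, H t * gau ((t - ν) / Y)) - c1 k E * ((s : ℝ) / k) * ν ^ b * Y =
      c1 k E * ((s : ℝ) / k) * ((∫ t : ℝ, H t * gau ((t - ν) / Y)) - ν ^ b * Y) := by ring
  rw [h3, abs_mul, abs_of_nonneg (by positivity)]
  exact mul_le_mul_of_nonneg_left h1 (by positivity)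

/-- the number at the wide scale -/
theorem wide2 (k : ℕ) (hk : k ≠ 0) (hs : k < s) (c n : ℕ) (hcn : c ≤ n) (E : Set (Fin s → ℝ)) (hEm : MeasurableSet E)
    (hE : ∀ r : ℝ, 0 < r → ∀ v, v ∈ E ↔ r • v ∈ E) {T ν d Y : ℝ} (hd : 0 < d) (hd1 : d ≤ ν) (hd2 : d ≤ T - ν)
    (hY : 0 < Y) (hE1 : E ∩ {v : Fin s → ℝ | Ph k v < T} ⊆ dom c n) (hE2 : (dom c n : Set (Fin s → ℝ)) ⊆ E)
    (α : Fin s → ℝ) (hα : ∀ i, α i ∈ Set.Icc (0 : ℝ) 1) :
    |N (fun _ => Ioc 0 n) (fun _ => ph k c) Y α ν - c1 k E * ((s : ℝ) / k) * ν ^ ((s : ℝ) / k - 1) * Y| ≤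
      c1 k E * ((s : ℝ) / k) * (Real.pi * (lip ((s : ℝ) / k - 1) T d + T ^ ((s : ℝ) / k - 1) / d) * Y ^ 2) +
      (n : ℝ) ^ s * (Y / d) ^ 2 + (n : ℝ) ^ s * (7 * (s * (k * (n + 1 : ℝ) ^ (k - 1)) / Y)) := by
  have hmv := main_volume2 k hk hs E hEm hE hd hd1 hd2 hY
  obtain ⟨F, hF⟩ : ∃ F : (Fin s → ℝ) → ℝ, F = fun v => gau ((Ph k v - ν) / Y) := ⟨_, rfl⟩
  have hFc : Continuous F := by
    rw [hF]
    exact cont_gau.comp (((cont_Ph k).sub continuous_const).div_const Y)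
  have hF0 : ∀ v, 0 ≤ F v := fun v => by rw [hF]; exact (gau_pos _).le
  have hF1 : ∀ v, |F v| ≤ 1 := by
    intro v
    rw [abs_of_nonneg (hF0 v), hF]
    exact gau_le_one _
  -- the part outside the ball
  have h1 : |(∫ v in dom c n, F v) - ∫ v in E ∩ {v : Fin s → ℝ | Ph k v < T}, F v| ≤ (n : ℝ) ^ s * (Y / d) ^ 2 := by
    have hBm : MeasurableSet (E ∩ {v : Fin s → ℝ | Ph k v < T}) := hEm.inter ((cont_Ph k).measurable measurableSet_Iio)
    have hi := int_dom c n F hFc hF1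
    have h2 : (∫ v in dom c n, F v) - ∫ v in E ∩ {v : Fin s → ℝ | Ph k v < T}, F v =
        ∫ v in dom c n \ (E ∩ {v : Fin s → ℝ | Ph k v < T}), F v := by
      rw [setIntegral_sdiff hBm hi hE1]
    rw [h2, ← Real.norm_eq_abs]
    have hvol : volume (dom c n \ (E ∩ {v : Fin s → ℝ | Ph k v < T})) ≤ ENNReal.ofReal ((n : ℝ) ^ s) := by
      rw [← vol_dom c n]
      exact measure_mono Set.sdiff_subset
    have h3 := norm_setIntegral_le_of_norm_le_const (μ := volume) (s := dom c n \ (E ∩ {v : Fin s → ℝ | Ph k v < T}))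
      (f := F) (C := (Y / d) ^ 2) (hvol.trans_lt ENNReal.ofReal_lt_top) (by
        rintro v ⟨hv1, hv2⟩
        have h4 : T ≤ Ph k v := by
          by_contra h
          push Not at h
          exact hv2 ⟨hE2 hv1, h⟩
        rw [Real.norm_eq_abs, abs_of_nonneg (hF0 v), hF]
        simp only
        have h5 : (d / Y) ^ 2 ≤ ((Ph k v - ν) / Y) ^ 2 := by
          apply pow_le_pow_left₀ (by positivity)
          gcongr
          linarith
        have h6 := gau_sq ((Ph k v - ν) / Y)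
        have h7 : gau ((Ph k v - ν) / Y) * (d / Y) ^ 2 ≤ 1 :=
          (mul_le_mul_of_nonneg_left h5 (gau_pos _).le).trans h6
        have h8 : (Y / d) ^ 2 = 1 / (d / Y) ^ 2 := by field_simp
        rw [h8, le_div_iff₀ (by positivity)]
        exact h7)
    refine h3.trans ?_
    rw [mul_comm]
    refine mul_le_mul_of_nonneg_right ?_ (by positivity)
    rw [measureReal_def]
    have h9 := ENNReal.toReal_mono ENNReal.ofReal_ne_top hvol
    rwa [ENNReal.toReal_ofReal (by positivity)] at h9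
  -- from the sum to the integral
  have h2 := sum_int c n F hFc hF1 (fun x => gau ((L (fun _ => ph k c) α x - ν) / Y))
    (7 * (s * (k * (n + 1 : ℝ) ^ (k - 1)) / Y)) (by
      intro x hx v hv
      rw [hF]
      refine (gau_lip _ _).trans ?_
      have h3 : (Ph k v - ν) / Y - (L (fun _ => ph k c) α x - ν) / Y = (Ph k v - L (fun _ => ph k c) α x) / Y := by ring
      rw [h3, abs_div, abs_of_pos hY]
      gcongr
      unfold Ph L
      rw [← sum_sub_distrib]
      refine (abs_sum_le_sum_abs _ _).trans ?_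
      calc ∑ i, |(|v i| ^ k - ph k c (x i) (α i))| ≤ ∑ _i : Fin s, (k * (n + 1 : ℝ) ^ (k - 1)) := by
            refine sum_le_sum fun i _ => ?_
            rw [ph_apply]
            have g1 := hv i (Set.mem_univ i)
            have g2 := hα i
            have g3 := mem_Ioc.1 (Fintype.mem_piFinset.1 hx i)
            have g4 : (1 : ℝ) ≤ x i := by exact_mod_cast g3.1
            have g5 : (x i : ℝ) ≤ n := by exact_mod_cast g3.2
            have g6 : (c : ℝ) ≤ n := by exact_mod_cast hcn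
            have g7 : (0 : ℝ) ≤ c := Nat.cast_nonneg c
            refine (abs_pow_sub_pow_le (α := ℝ) _ _ _).trans ?_
            have g8 : |(|v i| - |(x i : ℝ) - c - α i|)| ≤ 1 := by
              refine (abs_abs_sub_abs_le _ _).trans ?_
              rw [abs_le]
              exact ⟨by linarith [g1.1, g2.1, g2.2], by linarith [g1.2, g2.1, g2.2]⟩
            have g9 : max |(|v i|)| |(|(x i : ℝ) - c - α i|)| ≤ n + 1 := by
              rw [abs_abs, abs_abs]
              refine max_le ?_ ?_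
              · rw [abs_le]
                exact ⟨by linarith [g1.1], by linarith [g1.2]⟩
              · rw [abs_le]
                exact ⟨by linarith [g2.2], by linarith [g2.1]⟩
            calc |(|v i| - |(x i : ℝ) - c - α i|)| * (k : ℝ) * max |(|v i|)| |(|(x i : ℝ) - c - α i|)| ^ (k - 1)
                ≤ 1 * (k : ℝ) * (n + 1 : ℝ) ^ (k - 1) := by gcongr
              _ = _ := by ring
        _ = _ := by
            rw [sum_const, card_univ, Fintype.card_fin, nsmul_eq_mul])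
  have h3 : N (fun _ => Ioc 0 n) (fun _ => ph k c) Y α ν =
      ∑ x ∈ Fintype.piFinset (fun _ : Fin s => Ioc 0 n), gau ((L (fun _ => ph k c) α x - ν) / Y) := rfl
  rw [h3]
  rw [← hF] at hmv
  have h4 := abs_sub_le ((∑ x ∈ Fintype.piFinset (fun _ : Fin s => Ioc 0 n), gau ((L (fun _ => ph k c) α x - ν) / Y)))
    (∫ v in dom c n, F v) (c1 k E * ((s : ℝ) / k) * ν ^ ((s : ℝ) / k - 1) * Y)
  have h5 := abs_sub_le (∫ v in dom c n, F v) (∫ v in E ∩ {v : Fin s → ℝ | Ph k v < T}, F v)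
    (c1 k E * ((s : ℝ) / k) * ν ^ ((s : ℝ) / k - 1) * Y)
  linarith

/-- the wide scale, eventually -/
lemma wide_ev2 (k : ℕ) (hk : 2 ≤ k) (hs : k < s) (c n : ℕ → ℕ) (hcn : ∀ J, c J ≤ n J) (hn : ∀ J, n J ≤ 2 * 2 ^ J)
    (E : Set (Fin s → ℝ)) (hEm : MeasurableSet E)
    (hE : ∀ r : ℝ, 0 < r → ∀ v, v ∈ E ↔ r • v ∈ E)
    (hE1 : ∀ J, E ∩ {v : Fin s → ℝ | Ph k v < (2 ^ J) ^ k} ⊆ dom (c J) (n J)) (hE2 : ∀ J, (dom (c J) (n J) : Set (Fin s → ℝ)) ⊆ E) :
    ∀ᶠ J in atTop, ∀ α : Fin s → ℝ, (∀ i, α i ∈ Set.Icc (0 : ℝ) 1) → ∀ t : ℝ, (2 ^ J) ^ k / 2 ^ (k + 2) ≤ t →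
      t ≤ (2 ^ J) ^ k - (2 ^ J) ^ k / 2 ^ (k + 2) →
      |N (fun _ => Ioc 0 (n J)) (fun _ => ph k (c J)) (wid k J) α t - c1 k E * ((s : ℝ) / k) * t ^ ((s : ℝ) / k - 1) * wid k J| ≤
        wid k J * pw J ((s : ℝ) - k - 1 / 8) := by
  have hpi := Real.pi_pos
  have hk0 : (0 : ℝ) < k := by exact_mod_cast (by omega : 0 < k)
  have hsr : (k : ℝ) < s := by exact_mod_cast hs
  have hs0 : (0 : ℝ) < s := by linarith
  obtain ⟨C0, hC0⟩ : ∃ C0 : ℝ, C0 = c1 k E * ((s : ℝ) / k) := ⟨_, rfl⟩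
  have hC00 : 0 ≤ C0 := by
    rw [hC0]
    have := c1_nonneg k E
    positivity
  obtain ⟨b, hb⟩ : ∃ b : ℝ, b = (s : ℝ) / k - 1 := ⟨_, rfl⟩
  have hb1 : 0 < b := by
    rw [hb, sub_pos, lt_div_iff₀ hk0, one_mul]
    exact hsr
  obtain ⟨κ, hκ⟩ : ∃ κ : ℝ, κ = (1 / 2 ^ (k + 2) : ℝ) ^ (b - 1) := ⟨_, rfl⟩
  have hκ0 : 0 < κ := by rw [hκ]; positivity
  have hkb : (k : ℝ) * b = s - k := by rw [hb]; field_simp
  obtain ⟨C, hC⟩ : ∃ C : ℝ, C = C0 * (Real.pi * ((b + 1) * (1 + κ) + 2 ^ (k + 2))) + 2 ^ s * (2 ^ (k + 2)) ^ 2 + 2 ^ s * (7 * (s * (k * 3 ^ (k - 1)))) := ⟨_, rfl⟩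
  filter_upwards [pw_absorb C (show (s : ℝ) - k - 1 / 4 < (s : ℝ) - k - 1 / 8 by linarith)] with J hJ
  intro α hα t ht1 ht2
  obtain ⟨M, hM⟩ : ∃ M : ℝ, M = 2 ^ J := ⟨_, rfl⟩
  have hM1 : 1 ≤ M := by rw [hM]; exact one_le_pow₀ (by norm_num)
  have hM0 : 0 < M := by linarith
  have hd0 : 0 < M ^ k / 2 ^ (k + 2) := by positivity
  rw [← hM] at ht1 ht2
  have hw := wide2 k (by omega) hs (c J) (n J) (hcn J) E hEm hE (T := M ^ k) (ν := t) (d := M ^ k / 2 ^ (k + 2))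
    (Y := wid k J) hd0 ht1 (by linarith) (pw_pos _ _) (by rw [hM]; exact hE1 J) (hE2 J) α hα
  rw [← hC0, ← hb] at hw
  rw [← hC0, ← hb]
  refine hw.trans ?_
  have hY : wid k J = pw J (k - 1 / 4) := rfl
  have hY0 : 0 < wid k J := pw_pos _ _
  have hMk : M ^ k = pw J k := by rw [pw_nat, hM]
  have e1 : (M ^ k) ^ (b - 1) = pw J ((s : ℝ) - 2 * k) := by
    rw [hMk, pw_rpow]
    congr 1
    linarith
  have e2 : (M ^ k) ^ b = pw J ((s : ℝ) - k) := by
    rw [hMk, pw_rpow, hkb]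
  have e3 : (M ^ k) ^ b / (M ^ k / 2 ^ (k + 2)) = 2 ^ (k + 2) * pw J ((s : ℝ) - 2 * k) := by
    rw [e2, hMk, show (s : ℝ) - 2 * k = ((s : ℝ) - k) - k by ring, pw_sub J ((s : ℝ) - k)]
    have := pw_pos J k
    field_simp
  have hnr : (n J : ℝ) ≤ 2 * M := by
    rw [hM]
    exact_mod_cast hn J
  have hn0 : (0 : ℝ) ≤ n J := Nat.cast_nonneg _
  have e4 : (n J : ℝ) ^ s ≤ 2 ^ s * pw J s := by
    rw [pw_nat, ← hM, ← mul_pow]
    exact pow_le_pow_left₀ hn0 hnr s
  have e5 : ((n J : ℝ) + 1) ^ (k - 1) ≤ 3 ^ (k - 1) * pw J ((k : ℝ) - 1) := by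
    have : (k : ℝ) - 1 = ((k - 1 : ℕ) : ℝ) := by
      rw [Nat.cast_sub (by omega)]
      simp
    rw [this, pw_nat, ← hM, ← mul_pow]
    exact pow_le_pow_left₀ (by linarith) (by linarith) _
  have t1 : C0 * (Real.pi * (lip b (M ^ k) (M ^ k / 2 ^ (k + 2)) + (M ^ k) ^ b / (M ^ k / 2 ^ (k + 2))) * wid k J ^ 2) =
      C0 * (Real.pi * ((b + 1) * (1 + κ) + 2 ^ (k + 2))) * (wid k J * pw J ((s : ℝ) - k - 1 / 4)) := by
    have e6 : lip b (M ^ k) (M ^ k / 2 ^ (k + 2)) = (b + 1) * (1 + κ) * pw J ((s : ℝ) - 2 * k) := by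
      unfold lip
      have e7 : (M ^ k / 2 ^ (k + 2)) ^ (b - 1) = κ * (M ^ k) ^ (b - 1) := by
        rw [hκ, ← Real.mul_rpow (by positivity) (by positivity)]
        congr 1
        ring
      rw [e7, e1]
      ring
    rw [e6, e3]
    have : wid k J ^ 2 * pw J ((s : ℝ) - 2 * k) = wid k J * pw J ((s : ℝ) - k - 1 / 4) := by
      rw [sq, mul_assoc]
      congr 1
      rw [hY, ← pw_add]
      congr 1
      ring
    rw [← this]
    ring
  have t2 : (n J : ℝ) ^ s * (wid k J / (M ^ k / 2 ^ (k + 2))) ^ 2 ≤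
      2 ^ s * (2 ^ (k + 2)) ^ 2 * (wid k J * pw J ((s : ℝ) - k - 1 / 4)) := by
    have h1 : (wid k J / (M ^ k / 2 ^ (k + 2))) ^ 2 = (2 ^ (k + 2)) ^ 2 * pw J (-(1 / 4)) ^ 2 := by
      have : pw J (-(1 / 4)) = wid k J / M ^ k := by
        rw [hY, hMk, ← pw_sub]
        congr 1
        ring
      rw [this]
      field_simp
    rw [h1]
    calc (n J : ℝ) ^ s * ((2 ^ (k + 2)) ^ 2 * pw J (-(1 / 4)) ^ 2) ≤
          (2 ^ s * pw J s) * ((2 ^ (k + 2)) ^ 2 * pw J (-(1 / 4)) ^ 2) :=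
          mul_le_mul_of_nonneg_right e4 (by positivity)
      _ = 2 ^ s * (2 ^ (k + 2)) ^ 2 * (wid k J * pw J ((s : ℝ) - k - 1 / 4)) := by
          have : pw J s * pw J (-(1 / 4)) ^ 2 = wid k J * pw J ((s : ℝ) - k - 1 / 4) := by
            rw [pw_pow, hY, ← pw_add, ← pw_add]
            congr 1
            push_cast
            ring
          rw [← this]
          ring
  have t3 : (n J : ℝ) ^ s * (7 * (s * (k * ((n J : ℝ) + 1) ^ (k - 1)) / wid k J)) ≤
      2 ^ s * (7 * (s * (k * 3 ^ (k - 1)))) * (wid k J * pw J ((s : ℝ) - k - 1 / 4)) := by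
    calc (n J : ℝ) ^ s * (7 * (s * (k * ((n J : ℝ) + 1) ^ (k - 1)) / wid k J)) ≤
          (2 ^ s * pw J s) * (7 * (s * (k * (3 ^ (k - 1) * pw J ((k : ℝ) - 1))) / wid k J)) := by
          have := (pw_pos J s).le
          gcongr
      _ = 2 ^ s * (7 * (s * (k * 3 ^ (k - 1)))) * (pw J s * pw J ((k : ℝ) - 1) / wid k J) := by ring
      _ ≤ _ := by
          apply mul_le_mul_of_nonneg_left _ (by positivity)
          rw [hY, ← pw_add, ← pw_sub, ← pw_add]
          apply pw_mono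
          linarith
  calc _ ≤ C0 * (Real.pi * ((b + 1) * (1 + κ) + 2 ^ (k + 2))) * (wid k J * pw J ((s : ℝ) - k - 1 / 4)) +
        2 ^ s * (2 ^ (k + 2)) ^ 2 * (wid k J * pw J ((s : ℝ) - k - 1 / 4)) +
        2 ^ s * (7 * (s * (k * 3 ^ (k - 1)))) * (wid k J * pw J ((s : ℝ) - k - 1 / 4)) :=
        add_le_add (add_le_add t1.le t2) t3
    _ = wid k J * (C * pw J ((s : ℝ) - k - 1 / 4)) := by rw [hC]; ring
    _ ≤ _ := mul_le_mul_of_nonneg_left hJ hY0.le

end

end Pool.Agent.Run7.h927.WS
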