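import Pool.Agent.Run7.h927.WS.Z
set_option autoImplicit false

/-! The asymptotic formula: means for the two versions, the constants. -/

namespace Pool.Agent.Run7.h927.WS

open MeasureTheory Finset Filter
open Pool.Agent.Run7.h927.WG (e)

noncomputable section

lemma U_sh (k : ℕ) (hk : 2 ≤ k) (J : ℕ) (θ R : ℝ) (hR : 0 < R) (hθ : |θ| = 1 / R ^ k) :
    U (Ioc 0 (2 ^ J)) (sh k) 0 1 θ ≤ fac J * (√(2 ^ J) + min (2 ^ J) R) := by
  have hf := fac_pos J
  rcases le_or_gt ((2 : ℝ) ^ J) R with h | h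
  · rw [min_eq_left h]
    have h1 := U_triv (Ioc 0 (2 ^ J)) (sh k) (zero_lt_one (α := ℝ)) θ
    rw [sub_zero, one_mul, Nat.card_Ioc, Nat.sub_zero] at h1
    push_cast at h1
    have h2 := Real.sqrt_nonneg ((2 : ℝ) ^ J)
    have h3 : (0 : ℝ) < 2 ^ J := by positivity
    nlinarith
  · rw [min_eq_right h.le]
    exact U_full k hk θ R hR hθ J

/-- positive variables -/
theorem U_pos (k : ℕ) (hk : 2 ≤ k) (J : ℕ) (θ R : ℝ) (hR : 0 < R) (hθ : |θ| = 1 / R ^ k) :
    U (Ioc 0 (2 ^ J)) (ph k 0) 0 1 θ ≤ 2 * fac J * (√(2 ^ J) + min (2 ^ J) R) := by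
  have h1 : U (Ioc 0 (2 ^ J)) (ph k 0) 0 1 θ = U (Ioc 0 (2 ^ J)) (sh k) 0 1 θ := by
    unfold U
    refine intervalIntegral.integral_congr fun t ht => ?_
    rw [Set.uIcc_of_le zero_le_one] at ht
    congr 1
    unfold S
    refine sum_congr rfl fun x hx => ?_
    rw [ph_apply, sh_apply]
    have h2 : (1 : ℝ) ≤ x := by exact_mod_cast (mem_Ioc.1 hx).1
    rw [Nat.cast_zero, sub_zero, abs_of_nonneg (by linarith [ht.2])]
  rw [h1]
  have h2 := U_sh k hk J θ R hR hθ
  have h3 := fac_pos J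
  have h4 := Real.sqrt_nonneg ((2 : ℝ) ^ J)
  have h5 : 0 < min ((2 : ℝ) ^ J) R := lt_min (by positivity) hR
  have h6 : 0 ≤ fac J * (√(2 ^ J) + min (2 ^ J) R) := by positivity
  linarith

/-- integer variables -/
theorem U_int (k : ℕ) (hk : 2 ≤ k) (J : ℕ) (θ R : ℝ) (hR : 0 < R) (hθ : |θ| = 1 / R ^ k) :
    U (Ioc 0 (2 * 2 ^ J)) (ph k (2 ^ J)) 0 1 θ ≤ 2 * fac J * (√(2 ^ J) + min (2 ^ J) R) := by
  obtain ⟨M, hM⟩ : ∃ M : ℕ, M = 2 ^ J := ⟨_, rfl⟩
  have key : ∀ t ∈ Set.Icc (0 : ℝ) 1, S (Ioc 0 (2 * M)) (ph k M) θ t = S (Ioc 0 M) (sh k) θ t + S (Ioc 0 M) (sh k) θ (1 - t) := by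
    intro t ht
    unfold S
    have h1 : Ioc 0 (2 * M) = Ioc 0 M ∪ Ioc M (2 * M) := (Ioc_union_Ioc_eq_Ioc (Nat.zero_le _) (by omega)).symm
    rw [h1, sum_union (Ioc_disjoint_Ioc_of_le le_rfl), add_comm]
    congr 1
    · refine sum_nbij' (fun x => x - M) (fun x => x + M) ?_ ?_ ?_ ?_ ?_
      · intro x hx
        rw [mem_Ioc] at hx ⊢
        omega
      · intro x hx
        rw [mem_Ioc] at hx ⊢
        omega
      · intro x hx
        rw [mem_Ioc] at hx
        omega
      · intro x hx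
        omega
      · intro x hx
        rw [mem_Ioc] at hx
        rw [ph_apply, sh_apply]
        have h2 : (M : ℝ) + 1 ≤ x := by exact_mod_cast hx.1
        rw [Nat.cast_sub hx.1.le, abs_of_nonneg (by linarith [ht.2])]
    · refine sum_nbij' (fun x => M + 1 - x) (fun x => M + 1 - x) ?_ ?_ ?_ ?_ ?_
      · intro x hx
        rw [mem_Ioc] at hx ⊢
        omega
      · intro x hx
        rw [mem_Ioc] at hx ⊢
        omega
      · intro x hx
        rw [mem_Ioc] at hx
        omega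
      · intro x hx
        rw [mem_Ioc] at hx
        omega
      · intro x hx
        rw [mem_Ioc] at hx
        rw [ph_apply, sh_apply]
        have h2 : (x : ℝ) ≤ M := by exact_mod_cast hx.2
        have h3 : ((M + 1 - x : ℕ) : ℝ) = (M : ℝ) + 1 - x := by
          rw [Nat.cast_sub (by omega)]
          push_cast
          ring
        rw [h3, abs_of_nonpos (by linarith [ht.1])]
        congr 3
        ring
  have h4 : U (Ioc 0 (2 * M)) (ph k M) 0 1 θ ≤ 2 * U (Ioc 0 M) (sh k) 0 1 θ := by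
    have h5 : ∫ t in (0 : ℝ)..1, ‖S (Ioc 0 M) (sh k) θ (1 - t)‖ = U (Ioc 0 M) (sh k) 0 1 θ := by
      have := intervalIntegral.integral_comp_sub_left (fun t => ‖S (Ioc 0 M) (sh k) θ t‖) (a := 0) (b := 1) 1
      rw [this]
      norm_num
      rfl
    have hc := (cont_S_right (Ioc 0 M) (sh k) θ).norm
    have hc' : Continuous (fun t => ‖S (Ioc 0 M) (sh k) θ (1 - t)‖) := hc.comp (by fun_prop)
    calc U (Ioc 0 (2 * M)) (ph k M) 0 1 θ ≤ ∫ t in (0 : ℝ)..1, (‖S (Ioc 0 M) (sh k) θ t‖ + ‖S (Ioc 0 M) (sh k) θ (1 - t)‖) := by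
          unfold U
          apply intervalIntegral.integral_mono_on zero_le_one
          · exact (cont_S_right _ _ θ).norm.intervalIntegrable _ _
          · exact (hc.add hc').intervalIntegrable _ _
          · intro t ht
            rw [key t ht]
            exact norm_add_le _ _
      _ = _ := by
          rw [intervalIntegral.integral_add (hc.intervalIntegrable _ _) (hc'.intervalIntegrable _ _), h5]
          unfold U
          ring
  rw [hM] at h4
  refine h4.trans ?_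
  have h5 := U_sh k hk J θ R hR hθ
  calc _ ≤ 2 * (fac J * (√(2 ^ J) + min (2 ^ J) R)) := by linarith
    _ = _ := by ring

variable {s : ℕ}

/-- the integral of `exp (-Φ)` -/
lemma c1_gamma (k : ℕ) (hk : k ≠ 0) (hs : s ≠ 0) (E : Set (Fin s → ℝ)) (hEm : MeasurableSet E)
    (hE : ∀ r : ℝ, 0 < r → ∀ v, v ∈ E ↔ r • v ∈ E) :
    ∫ v in E, Real.exp (-Ph k v) = c1 k E * ((s : ℝ) / k) * Real.Gamma ((s : ℝ) / k) := by
  have hk0 : (0 : ℝ) < k := by exact_mod_cast Nat.pos_of_ne_zero hk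
  have hs0 : (0 : ℝ) < s := by exact_mod_cast Nat.pos_of_ne_zero hs
  have hPm : Measurable (Ph k : (Fin s → ℝ) → ℝ) := (cont_Ph k).measurable
  have hc := c1_nonneg k E
  have hexp : Continuous (fun t : ℝ => Real.exp (-t)) := by fun_prop
  have h1 : ∫ v in E, Real.exp (-Ph k v) = ∫ t, Real.exp (-t) ∂(Measure.map (Ph k) ((volume : Measure (Fin s → ℝ)).restrict E)) :=
    (integral_map hPm.aemeasurable hexp.aestronglyMeasurable).symm
  rw [h1, map_eq k hk hs E hEm hE, integral_withDensity_eq_integral_toReal_smul]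
  · rw [Real.Gamma_eq_integral (by positivity), ← integral_const_mul]
    refine setIntegral_congr_fun measurableSet_Ioi fun t ht => ?_
    have ht0 : 0 < t := ht
    rw [ENNReal.toReal_ofReal (by positivity), smul_eq_mul]
    ring
  · fun_prop
  · exact Filter.Eventually.of_forall fun t => ENNReal.ofReal_lt_top

/-- the positive cone -/
def cone (s : ℕ) : Set (Fin s → ℝ) := Set.pi Set.univ (fun _ => Set.Ioi 0)

lemma meas_cone : MeasurableSet (cone s) := MeasurableSet.univ_pi fun _ => measurableSet_Ioi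

lemma smul_cone : ∀ r : ℝ, 0 < r → ∀ v, v ∈ cone s ↔ r • v ∈ cone s := by
  intro r hr v
  unfold cone
  simp only [Set.mem_pi, Set.mem_univ, Set.mem_Ioi, forall_const, Pi.smul_apply, smul_eq_mul]
  exact forall_congr' fun i => (mul_pos_iff_of_pos_left hr).symm

lemma exp_one (k : ℕ) (hk : k ≠ 0) : ∫ t in Set.Ioi (0 : ℝ), Real.exp (-|t| ^ k) = Real.Gamma (1 / k + 1) := by
  have hk0 : (0 : ℝ) < k := by exact_mod_cast Nat.pos_of_ne_zero hk
  rw [← integral_exp_neg_rpow hk0]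
  refine setIntegral_congr_fun measurableSet_Ioi fun t ht => ?_
  have ht0 : 0 < t := ht
  rw [Real.rpow_natCast, abs_of_pos ht0]

lemma const_cone (k : ℕ) (hk : k ≠ 0) (hs : s ≠ 0) :
    c1 k (cone s) * ((s : ℝ) / k) = Real.Gamma (1 / k + 1) ^ s / Real.Gamma ((s : ℝ) / k) := by
  have hk0 : (0 : ℝ) < k := by exact_mod_cast Nat.pos_of_ne_zero hk
  have hs0 : (0 : ℝ) < s := by exact_mod_cast Nat.pos_of_ne_zero hs
  rw [eq_div_iff (Real.Gamma_pos_of_pos (by positivity)).ne', ← c1_gamma k hk hs (cone s) meas_cone smul_cone]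
  unfold cone
  rw [volume_pi, Measure.restrict_pi_pi]
  have h1 : ∀ v : Fin s → ℝ, Real.exp (-Ph k v) = ∏ i, Real.exp (-|v i| ^ k) := by
    intro v
    rw [← Real.exp_sum]
    congr 1
    unfold Ph
    rw [sum_neg_distrib]
  simp only [h1]
  rw [integral_fintype_prod_eq_prod (𝕜 := ℝ) (fun _ t => Real.exp (-|t| ^ k))]
  rw [prod_const, card_univ, Fintype.card_fin, exp_one k hk]

lemma const_univ (k : ℕ) (hk : k ≠ 0) (hs : s ≠ 0) :
    c1 k (Set.univ : Set (Fin s → ℝ)) * ((s : ℝ) / k) = (2 * Real.Gamma (1 / k + 1)) ^ s / Real.Gamma ((s : ℝ) / k) := by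
  have hk0 : (0 : ℝ) < k := by exact_mod_cast Nat.pos_of_ne_zero hk
  have hs0 : (0 : ℝ) < s := by exact_mod_cast Nat.pos_of_ne_zero hs
  rw [eq_div_iff (Real.Gamma_pos_of_pos (by positivity)).ne', ← c1_gamma k hk hs Set.univ MeasurableSet.univ (by simp),
    setIntegral_univ, volume_pi]
  have h1 : ∀ v : Fin s → ℝ, Real.exp (-Ph k v) = ∏ i, Real.exp (-|v i| ^ k) := by
    intro v
    rw [← Real.exp_sum]
    congr 1
    unfold Ph
    rw [sum_neg_distrib]
  simp only [h1]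
  rw [integral_fintype_prod_eq_prod (𝕜 := ℝ) (fun _ t => Real.exp (-|t| ^ k))]
  rw [prod_const, card_univ, Fintype.card_fin]
  congr 1
  have h2 := integral_comp_abs (f := fun t : ℝ => Real.exp (-|t| ^ k))
  simp only [abs_abs] at h2
  rw [h2, exp_one k hk]

end

end Pool.Agent.Run7.h927.WS
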