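import Pool.Agent.Run7.h927.WS.I
import Pool.Agent.Run7.h927.WS.ZA
set_option autoImplicit false

/-! The square means. -/

namespace Pool.Agent.Run7.h927.WS

open MeasureTheory Finset Filter
open Pool.Agent.Run7.h927.WG (e norm_e e_add cont_e w w_le w_le' w_nonneg cont_w int_gauss val_gauss int_w bc)

noncomputable section

/-- the square mean -/
def U2 (X : Finset ℕ) (φ : ℕ → C(ℝ, ℝ)) (a b θ : ℝ) : ℝ := ∫ t in a..b, ‖S X φ θ t‖ ^ 2

lemma U2_nonneg (X : Finset ℕ) (φ : ℕ → C(ℝ, ℝ)) {a b : ℝ} (hab : a < b) (θ : ℝ) : 0 ≤ U2 X φ a b θ :=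
  intervalIntegral.integral_nonneg hab.le fun t _ => by positivity

lemma cont_S_sq (X : Finset ℕ) (φ : ℕ → C(ℝ, ℝ)) (θ : ℝ) : Continuous (fun t => ‖S X φ θ t‖ ^ 2) :=
  (cont_S_right X φ θ).norm.pow 2

lemma U2_triv (X : Finset ℕ) (φ : ℕ → C(ℝ, ℝ)) (θ : ℝ) : U2 X φ 0 1 θ ≤ (X.card : ℝ) ^ 2 := by
  unfold U2
  calc ∫ t in (0 : ℝ)..1, ‖S X φ θ t‖ ^ 2 ≤ ∫ _t in (0 : ℝ)..1, (X.card : ℝ) ^ 2 := by
        apply intervalIntegral.integral_mono_on zero_le_one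
        · exact (cont_S_sq X φ θ).intervalIntegrable _ _
        · exact intervalIntegrable_const
        · intro t _
          exact pow_le_pow_left₀ (norm_nonneg _) (norm_S X φ θ t) 2
    _ = _ := by simp

lemma sq_add_le (a b l : ℝ) (hl : 0 < l) : (a + b) ^ 2 ≤ (1 + 1 / l) * a ^ 2 + (1 + l) * b ^ 2 := by
  have h : 0 ≤ (a - l * b) ^ 2 / l := by positivity
  have h2 : (a - l * b) ^ 2 / l = 1 / l * a ^ 2 - 2 * a * b + l * b ^ 2 := by
    field_simp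
    ring
  nlinarith

lemma U2_union (X X' : Finset ℕ) (hd : Disjoint X X') (φ : ℕ → C(ℝ, ℝ)) (θ l : ℝ) (hl : 0 < l) :
    U2 (X ∪ X') φ 0 1 θ ≤ (1 + 1 / l) * U2 X φ 0 1 θ + (1 + l) * U2 X' φ 0 1 θ := by
  unfold U2
  rw [← intervalIntegral.integral_const_mul, ← intervalIntegral.integral_const_mul, ← intervalIntegral.integral_add]
  · apply intervalIntegral.integral_mono_on zero_le_one
    · exact (cont_S_sq _ φ θ).intervalIntegrable _ _
    · exact (((cont_S_sq _ φ θ).const_smul (1 + 1 / l)).add ((cont_S_sq _ φ θ).const_smul (1 + l))).intervalIntegrable _ _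
    · intro t _
      have h1 : S (X ∪ X') φ θ t = S X φ θ t + S X' φ θ t := by
        unfold S
        rw [sum_union hd]
      rw [h1]
      refine le_trans (pow_le_pow_left₀ (norm_nonneg _) (norm_add_le _ _) 2) ?_
      exact sq_add_le _ _ l hl
  · exact ((cont_S_sq _ φ θ).const_smul (1 + 1 / l)).intervalIntegrable _ _
  · exact ((cont_S_sq _ φ θ).const_smul (1 + l)).intervalIntegrable _ _

lemma U2_piece (k P : ℕ) (hk : 2 ≤ k) (hP : 1 ≤ P) (θ R : ℝ) (hR : 0 < R) (hθ : |θ| = 1 / R ^ k) :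
    U2 (Ioc P (2 * P)) (sh k) 0 1 θ ≤ (3 + 2 * Real.log (2 * P : ℕ)) * (√P + R) ^ 2 := by
  have hP0 : (0 : ℝ) < P := by exact_mod_cast hP
  have hL : 0 ≤ Real.log (2 * P : ℕ) := Real.log_natCast_nonneg _
  obtain ⟨K, hK⟩ : ∃ K, K = 3 + 2 * Real.log (2 * P : ℕ) := ⟨_, rfl⟩
  have hK1 : 1 ≤ K := by rw [hK]; linarith
  have hcard : (Ioc P (2 * P)).card = P := by
    rw [Nat.card_Ioc]
    omega
  rw [← hK]
  have hsP := Real.sqrt_nonneg (P : ℝ)
  have h6 : (P : ℝ) + R ^ 2 ≤ (√P + R) ^ 2 := by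
    rw [add_sq, Real.sq_sqrt hP0.le]
    have : 0 ≤ 2 * √(P : ℝ) * R := by positivity
    linarith
  rcases le_or_gt (P : ℝ) R with h | h
  · have h1 := U2_triv (Ioc P (2 * P)) (sh k) θ
    rw [hcard] at h1
    refine h1.trans ?_
    have h2 : (P : ℝ) ^ 2 ≤ R ^ 2 := pow_le_pow_left₀ hP0.le h 2
    have h3 : R ^ 2 ≤ (√P + R) ^ 2 := by linarith
    have h4 : 0 ≤ (√P + R) ^ 2 := by positivity
    nlinarith
  · have hθ0 : θ ≠ 0 := by
      intro h0
      rw [h0, abs_zero] at hθ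
      have : 0 < 1 / R ^ k := by positivity
      linarith
    have h1 := ms_shift k P (2 * P) hk hP le_rfl θ hθ0
    rw [hcard, ← hK, hθ] at h1
    unfold U2
    refine h1.trans ?_
    have h2 : (P : ℝ) * (1 / (1 / R ^ k * (P : ℝ) ^ (k - 1))) ≤ R ^ 2 := by
      obtain ⟨l, rfl⟩ : ∃ l, k = l + 2 := ⟨k - 2, by omega⟩
      have h3 : (P : ℝ) * (1 / (1 / R ^ (l + 2) * (P : ℝ) ^ (l + 2 - 1))) = R ^ 2 * (R ^ l / (P : ℝ) ^ l) := by
        have : l + 2 - 1 = l + 1 := by omega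
        rw [this]
        field_simp
        ring
      rw [h3]
      have h4 : R ^ l / (P : ℝ) ^ l ≤ 1 := by
        rw [div_le_one (by positivity)]
        exact pow_le_pow_left₀ hR.le h.le l
      nlinarith [sq_nonneg R]
    have h5 : (P : ℝ) * (K * (1 + 1 / (1 / R ^ k * (P : ℝ) ^ (k - 1)))) ≤ K * (P + R ^ 2) := by
      have : (P : ℝ) * (K * (1 + 1 / (1 / R ^ k * (P : ℝ) ^ (k - 1)))) =
          K * (P + P * (1 / (1 / R ^ k * (P : ℝ) ^ (k - 1)))) := by ring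
      rw [this]
      gcongr
    exact h5.trans (mul_le_mul_of_nonneg_left h6 (by linarith))

/-- the full range -/
theorem U2_full (k : ℕ) (hk : 2 ≤ k) (θ R : ℝ) (hR : 0 < R) (hθ : |θ| = 1 / R ^ k) (J : ℕ) :
    U2 (Ioc 0 (2 ^ J)) (sh k) 0 1 θ ≤ (fac J * (√(2 ^ J) + R)) ^ 2 := by
  induction J with
  | zero =>
    have h1 := U2_triv (Ioc 0 (2 ^ 0)) (sh k) θ
    have h2 := fac_pos 0
    simp only [pow_zero, Nat.card_Ioc, Real.sqrt_one] at h1 ⊢
    norm_num at h1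
    have h3 : (1 : ℝ) ≤ fac 0 * (1 + R) := by nlinarith
    nlinarith
  | succ J ih =>
    have h1 : Ioc 0 (2 ^ (J + 1)) = Ioc 0 (2 ^ J) ∪ Ioc (2 ^ J) (2 * 2 ^ J) := by
      rw [Ioc_union_Ioc_eq_Ioc (Nat.zero_le _) (by omega), pow_succ, mul_comm]
    have hd : Disjoint (Ioc 0 (2 ^ J)) (Ioc (2 ^ J) (2 * 2 ^ J)) := Ioc_disjoint_Ioc_of_le le_rfl
    have hJ0 : (0 : ℝ) ≤ J := Nat.cast_nonneg J
    rw [h1]
    refine (U2_union _ _ hd _ _ ((J : ℝ) + 1) (by linarith)).trans ?_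
    have h2 := U2_piece k (2 ^ J) hk Nat.one_le_two_pow θ R hR hθ
    have hlog : Real.log (2 ^ J : ℕ) ≤ Real.log (2 ^ (J + 1) : ℕ) := by
      apply Real.log_le_log
      · positivity
      · exact_mod_cast Nat.pow_le_pow_right (by norm_num) (by omega)
    have hL : 0 ≤ Real.log (2 ^ J : ℕ) := Real.log_natCast_nonneg _
    have h4 : √((2 : ℝ) ^ J) ≤ √((2 : ℝ) ^ (J + 1)) :=
      Real.sqrt_le_sqrt (pow_le_pow_right₀ (by norm_num) (by omega))
    have h5 : (2 * 2 ^ J : ℕ) = 2 ^ (J + 1) := by rw [pow_succ, mul_comm]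
    have h6 : ((2 ^ J : ℕ) : ℝ) = (2 : ℝ) ^ J := by push_cast; rfl
    rw [h5, h6] at h2
    rw [h5]
    obtain ⟨a, ha⟩ : ∃ a, a = 3 + 2 * Real.log (2 ^ J : ℕ) := ⟨_, rfl⟩
    obtain ⟨a', ha'⟩ : ∃ a', a' = 3 + 2 * Real.log (2 ^ (J + 1) : ℕ) := ⟨_, rfl⟩
    have ha0 : 0 ≤ a := by rw [ha]; linarith
    have haa : a ≤ a' := by rw [ha, ha']; linarith
    unfold fac at ih ⊢
    rw [← ha, mul_pow, mul_pow, Real.sq_sqrt ha0] at ih
    rw [← ha'] at h2 ⊢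
    rw [mul_pow, mul_pow, Real.sq_sqrt (ha0.trans haa)]
    have hs0 := Real.sqrt_nonneg ((2 : ℝ) ^ J)
    have ha0' : 0 ≤ a' := ha0.trans haa
    calc _ ≤ (1 + 1 / ((J : ℝ) + 1)) * (((J : ℝ) + 1) ^ 2 * a * (√(2 ^ J) + R) ^ 2) +
          (1 + ((J : ℝ) + 1)) * (a' * (√(2 ^ J) + R) ^ 2) := by gcongr
      _ ≤ (1 + 1 / ((J : ℝ) + 1)) * (((J : ℝ) + 1) ^ 2 * a' * (√(2 ^ (J + 1)) + R) ^ 2) +
          (1 + ((J : ℝ) + 1)) * (a' * (√(2 ^ (J + 1)) + R) ^ 2) := by gcongr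
      _ = _ := by
          push_cast
          field_simp
          ring

lemma U2_sh (k : ℕ) (hk : 2 ≤ k) (J : ℕ) (θ R : ℝ) (hR : 0 < R) (hθ : |θ| = 1 / R ^ k) :
    U2 (Ioc 0 (2 ^ J)) (sh k) 0 1 θ ≤ (fac J * (√(2 ^ J) + min (2 ^ J) R)) ^ 2 := by
  have hf := fac_pos J
  rcases le_or_gt ((2 : ℝ) ^ J) R with h | h
  · rw [min_eq_left h]
    have h1 := U2_triv (Ioc 0 (2 ^ J)) (sh k) θ
    rw [Nat.card_Ioc, Nat.sub_zero] at h1
    push_cast at h1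
    refine h1.trans ?_
    have h2 := Real.sqrt_nonneg ((2 : ℝ) ^ J)
    have h3 : (0 : ℝ) < 2 ^ J := by positivity
    apply pow_le_pow_left₀ h3.le
    nlinarith
  · rw [min_eq_right h.le]
    exact U2_full k hk θ R hR hθ J

/-- positive variables -/
theorem U2_pos (k : ℕ) (hk : 2 ≤ k) (J : ℕ) (θ R : ℝ) (hR : 0 < R) (hθ : |θ| = 1 / R ^ k) :
    U2 (Ioc 0 (2 ^ J)) (ph k 0) 0 1 θ ≤ (2 * fac J * (√(2 ^ J) + min (2 ^ J) R)) ^ 2 := by
  have h1 : U2 (Ioc 0 (2 ^ J)) (ph k 0) 0 1 θ = U2 (Ioc 0 (2 ^ J)) (sh k) 0 1 θ := by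
    unfold U2
    refine intervalIntegral.integral_congr fun t ht => ?_
    rw [Set.uIcc_of_le zero_le_one] at ht
    congr 2
    unfold S
    refine sum_congr rfl fun x hx => ?_
    rw [ph_apply, sh_apply]
    have h2 : (1 : ℝ) ≤ x := by exact_mod_cast (mem_Ioc.1 hx).1
    rw [Nat.cast_zero, sub_zero, abs_of_nonneg (by linarith [ht.2])]
  rw [h1]
  refine (U2_sh k hk J θ R hR hθ).trans ?_
  have h3 := fac_pos J
  have h4 := Real.sqrt_nonneg ((2 : ℝ) ^ J)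
  have h5 : 0 < min ((2 : ℝ) ^ J) R := lt_min (by positivity) hR
  have h6 : 0 ≤ fac J * (√(2 ^ J) + min (2 ^ J) R) := by positivity
  apply pow_le_pow_left₀ h6
  linarith

lemma S_int (k M : ℕ) (θ t : ℝ) (ht : t ∈ Set.Icc (0 : ℝ) 1) :
    S (Ioc 0 (2 * M)) (ph k M) θ t = S (Ioc 0 M) (sh k) θ t + S (Ioc 0 M) (sh k) θ (1 - t) := by
  unfold S
  have h1 : Ioc 0 (2 * M) = Ioc 0 M ∪ Ioc M (2 * M) := (Ioc_union_Ioc_eq_Ioc (Nat.zero_le _) (by omega)).symm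
  rw [h1, sum_union (Ioc_disjoint_Ioc_of_le le_rfl), add_comm]
  congr 1
  · refine sum_nbij' (fun x => x - M) (fun x => x + M) ?_ ?_ ?_ ?_ ?_
    · intro x hx
      rw [mem_Ioc] at hx ⊢
      omega
    · intro x hx
      rw [mem_Ioc] at hx ⊢
      omega
    · intro x hx
      rw [mem_Ioc] at hx
      omega
    · intro x hx
      omega
    · intro x hx
      rw [mem_Ioc] at hx
      rw [ph_apply, sh_apply]
      have h2 : (M : ℝ) + 1 ≤ x := by exact_mod_cast hx.1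
      rw [Nat.cast_sub hx.1.le, abs_of_nonneg (by linarith [ht.2])]
  · refine sum_nbij' (fun x => M + 1 - x) (fun x => M + 1 - x) ?_ ?_ ?_ ?_ ?_
    · intro x hx
      rw [mem_Ioc] at hx ⊢
      omega
    · intro x hx
      rw [mem_Ioc] at hx ⊢
      omega
    · intro x hx
      rw [mem_Ioc] at hx
      omega
    · intro x hx
      rw [mem_Ioc] at hx
      omega
    · intro x hx
      rw [mem_Ioc] at hx
      rw [ph_apply, sh_apply]
      have h2 : (x : ℝ) ≤ M := by exact_mod_cast hx.2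
      have h3 : ((M + 1 - x : ℕ) : ℝ) = (M : ℝ) + 1 - x := by
        rw [Nat.cast_sub (by omega)]
        push_cast
        ring
      rw [h3, abs_of_nonpos (by linarith [ht.1])]
      congr 3
      ring

/-- integer variables -/
theorem U2_int (k : ℕ) (hk : 2 ≤ k) (J : ℕ) (θ R : ℝ) (hR : 0 < R) (hθ : |θ| = 1 / R ^ k) :
    U2 (Ioc 0 (2 * 2 ^ J)) (ph k (2 ^ J)) 0 1 θ ≤ (2 * fac J * (√(2 ^ J) + min (2 ^ J) R)) ^ 2 := by
  obtain ⟨M, hM⟩ : ∃ M : ℕ, M = 2 ^ J := ⟨_, rfl⟩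
  have h4 : U2 (Ioc 0 (2 * M)) (ph k M) 0 1 θ ≤ 4 * U2 (Ioc 0 M) (sh k) 0 1 θ := by
    have h5 : ∫ t in (0 : ℝ)..1, ‖S (Ioc 0 M) (sh k) θ (1 - t)‖ ^ 2 = U2 (Ioc 0 M) (sh k) 0 1 θ := by
      have := intervalIntegral.integral_comp_sub_left (fun t => ‖S (Ioc 0 M) (sh k) θ t‖ ^ 2) (a := 0) (b := 1) 1
      rw [this]
      norm_num
      rfl
    have hc := cont_S_sq (Ioc 0 M) (sh k) θ
    have hc' : Continuous (fun t => ‖S (Ioc 0 M) (sh k) θ (1 - t)‖ ^ 2) := hc.comp (by fun_prop : Continuous fun t : ℝ => 1 - t)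
    have i1 : IntervalIntegrable (fun t => 2 * ‖S (Ioc 0 M) (sh k) θ t‖ ^ 2) volume 0 1 :=
      (continuous_const.mul hc).intervalIntegrable _ _
    have i2 : IntervalIntegrable (fun t => 2 * ‖S (Ioc 0 M) (sh k) θ (1 - t)‖ ^ 2) volume 0 1 :=
      (continuous_const.mul hc').intervalIntegrable _ _
    calc U2 (Ioc 0 (2 * M)) (ph k M) 0 1 θ ≤
          ∫ t in (0 : ℝ)..1, (2 * ‖S (Ioc 0 M) (sh k) θ t‖ ^ 2 + 2 * ‖S (Ioc 0 M) (sh k) θ (1 - t)‖ ^ 2) := by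
          unfold U2
          apply intervalIntegral.integral_mono_on zero_le_one
          · exact (cont_S_sq _ _ θ).intervalIntegrable _ _
          · exact i1.add i2
          · intro t ht
            rw [S_int k M θ t ht]
            refine le_trans (pow_le_pow_left₀ (norm_nonneg _) (norm_add_le _ _) 2) ?_
            nlinarith [sq_nonneg (‖S (Ioc 0 M) (sh k) θ t‖ - ‖S (Ioc 0 M) (sh k) θ (1 - t)‖)]
      _ = _ := by
          rw [intervalIntegral.integral_add i1 i2,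
            intervalIntegral.integral_const_mul, intervalIntegral.integral_const_mul, h5]
          unfold U2
          ring
  rw [hM] at h4
  refine h4.trans ?_
  have h5 := U2_sh k hk J θ R hR hθ
  calc _ ≤ 4 * (fac J * (√(2 ^ J) + min (2 ^ J) R)) ^ 2 := by linarith
    _ = _ := by ring

/-- the integral over the frequencies of a function which is at most the `p`-th power -/
theorem freq (k p : ℕ) (hp : 2 * k ≤ p) (hk : 1 ≤ k) (F : ℝ → ℝ) (M A : ℝ) (hM : 0 < M) (hA : 0 < A)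
    (hF : ∀ θ R : ℝ, 0 < R → |θ| = 1 / R ^ k → F θ ≤ (A * (√M + min M R)) ^ p)
    {η Y : ℝ} (hη : 0 < η) (hY : η ≤ Y) (hint : Integrable (fun θ => w η Y θ * F θ)) :
    ∫ θ, w η Y θ * F θ ≤ (2 * A) ^ p * (√M ^ p / η + 4 * Real.pi ^ 2 * M ^ p * Y / M ^ (2 * k)) := by
  have hpi := Real.pi_pos
  have hY0 : 0 < Y := hη.trans_le hY
  have hi1 : Integrable (fun θ : ℝ => Real.exp (-(Real.pi * η ^ 2) * θ ^ 2) * √M ^ p) := (int_gauss hη).mul_const _
  have hcau : Integrable (fun θ : ℝ => (1 + (Y * θ) ^ 2)⁻¹) := by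
    exact integrable_inv_one_add_sq.comp_mul_left' hY0.ne'
  have hcv : ∫ θ : ℝ, (1 + (Y * θ) ^ 2)⁻¹ = Real.pi / Y := by
    have := Measure.integral_comp_mul_left (fun u : ℝ => (1 + u ^ 2)⁻¹) Y
    rw [this, integral_univ_inv_one_add_sq, smul_eq_mul, abs_of_pos (inv_pos.2 hY0)]
    field_simp
  have hi2 : Integrable (fun θ : ℝ => 4 * Real.pi * (M ^ p * Y ^ 2 / M ^ (2 * k)) * (1 + (Y * θ) ^ 2)⁻¹) :=
    hcau.const_mul _
  have h3 : ∀ θ : ℝ, θ ≠ 0 → w η Y θ * F θ ≤ (2 * A) ^ p *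
      (Real.exp (-(Real.pi * η ^ 2) * θ ^ 2) * √M ^ p + 4 * Real.pi * (M ^ p * Y ^ 2 / M ^ (2 * k)) * (1 + (Y * θ) ^ 2)⁻¹) := by
    intro θ hθ
    have hθp : 0 < |θ| := abs_pos.2 hθ
    have hk0 : (0 : ℝ) < k := by exact_mod_cast hk
    obtain ⟨R, hR⟩ : ∃ R : ℝ, R = (1 / |θ|) ^ ((1 : ℝ) / k) := ⟨_, rfl⟩
    have hR0 : 0 < R := by rw [hR]; positivity
    have hRk : R ^ k = 1 / |θ| := by
      rw [hR, ← Real.rpow_natCast, ← Real.rpow_mul (by positivity), one_div_mul_cancel hk0.ne', Real.rpow_one]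
    have hθR : |θ| = 1 / R ^ k := by rw [hRk]; field_simp
    have hm0 : 0 < min M R := lt_min hM hR0
    have hsM := Real.sqrt_nonneg M
    have hw0 := w_nonneg hη hY θ
    have hprod : F θ ≤ (2 * A) ^ p * (√M ^ p + (min M R) ^ p) := by
      calc F θ ≤ (A * (√M + min M R)) ^ p := hF θ R hR0 hθR
        _ = A ^ p * (√M + min M R) ^ p := by rw [mul_pow]
        _ ≤ A ^ p * (2 ^ (p - 1) * (√M ^ p + (min M R) ^ p)) := by
            gcongr
            exact add_pow_le hsM hm0.le p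
        _ ≤ A ^ p * (2 ^ p * (√M ^ p + (min M R) ^ p)) := by
            have : (2 : ℝ) ^ (p - 1) ≤ 2 ^ p := pow_le_pow_right₀ (by norm_num) (by omega)
            gcongr
        _ = _ := by rw [mul_pow]; ring
    have hmin : (min M R) ^ p ≤ 2 * M ^ p / (1 + (θ * M ^ k) ^ 2) := by
      rw [le_div_iff₀ (by positivity)]
      have habs : (θ * M ^ k) ^ 2 = (|θ| * M ^ k) ^ 2 := by rw [mul_pow, mul_pow, sq_abs]
      rcases le_or_gt M R with h | h
      · rw [min_eq_left h]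
        have : |θ| * M ^ k ≤ 1 := by
          rw [hθR, one_div_mul_eq_div, div_le_one (by positivity)]
          exact pow_le_pow_left₀ hM.le h k
        have h4 : (θ * M ^ k) ^ 2 ≤ 1 := by
          rw [habs]
          exact pow_le_one₀ (by positivity) this
        have : 0 < M ^ p := by positivity
        nlinarith
      · rw [min_eq_right h.le]
        have h5 : 1 ≤ |θ| * M ^ k := by
          rw [hθR, one_div_mul_eq_div, one_le_div (by positivity)]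
          exact pow_le_pow_left₀ hR0.le h.le k
        have h6 : 1 ≤ (θ * M ^ k) ^ 2 := by
          rw [habs]
          exact one_le_pow₀ h5
        have h7 : R ^ p * (|θ| * M ^ k) ^ 2 ≤ M ^ p := by
          obtain ⟨m, rfl⟩ : ∃ m, p = 2 * k + m := ⟨p - 2 * k, by omega⟩
          have h8 : R ^ (2 * k + m) * (|θ| * M ^ k) ^ 2 = R ^ m * (M ^ k) ^ 2 := by
            rw [hθR, pow_add, pow_mul']
            field_simp
          rw [h8, pow_add, pow_mul', mul_comm]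
          gcongr
        rw [← habs] at h7
        have : 0 < R ^ p := by positivity
        nlinarith
    have hw : w η Y θ ≤ 2 * Real.pi * (Y * θ) ^ 2 * (1 + (Y * θ) ^ 2)⁻¹ := by
      rw [← div_eq_mul_inv, le_div_iff₀ (by positivity)]
      rcases le_or_gt ((Y * θ) ^ 2) 1 with h | h
      · have h9 := w_le' hη hY θ
        have h10 : Real.pi * Y ^ 2 * θ ^ 2 = Real.pi * (Y * θ) ^ 2 := by ring
        rw [h10] at h9
        have : 0 ≤ Real.pi * (Y * θ) ^ 2 := by positivity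
        nlinarith
      · have h11 : w η Y θ ≤ 1 := by
          refine (w_le η Y θ).trans ?_
          rw [← Real.exp_zero, Real.exp_le_exp]
          have : 0 ≤ Real.pi * η ^ 2 * θ ^ 2 := by positivity
          linarith
        have h12 : (1 : ℝ) ≤ Real.pi := by linarith [Real.pi_gt_three]
        nlinarith
    have hb : w η Y θ * (min M R) ^ p ≤ 4 * Real.pi * (M ^ p * Y ^ 2 / M ^ (2 * k)) * (1 + (Y * θ) ^ 2)⁻¹ := by
      calc w η Y θ * (min M R) ^ p ≤ (2 * Real.pi * (Y * θ) ^ 2 * (1 + (Y * θ) ^ 2)⁻¹) *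
            (2 * M ^ p / (1 + (θ * M ^ k) ^ 2)) := by gcongr
        _ = (4 * Real.pi * (M ^ p * Y ^ 2 / M ^ (2 * k)) * (1 + (Y * θ) ^ 2)⁻¹) *
            ((θ * M ^ k) ^ 2 / (1 + (θ * M ^ k) ^ 2)) := by
            rw [pow_mul' M 2 k]
            field_simp
            ring
        _ ≤ (4 * Real.pi * (M ^ p * Y ^ 2 / M ^ (2 * k)) * (1 + (Y * θ) ^ 2)⁻¹) * 1 := by
            gcongr
            rw [div_le_one (by positivity)]
            linarith
        _ = _ := by ring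
    calc w η Y θ * F θ ≤ w η Y θ * ((2 * A) ^ p * (√M ^ p + (min M R) ^ p)) := by gcongr
      _ = (2 * A) ^ p * (w η Y θ * √M ^ p + w η Y θ * (min M R) ^ p) := by ring
      _ ≤ _ := by
          gcongr
          exact w_le η Y θ
  have h4 : ∫ θ, w η Y θ * F θ ≤ ∫ θ : ℝ, (2 * A) ^ p *
      (Real.exp (-(Real.pi * η ^ 2) * θ ^ 2) * √M ^ p + 4 * Real.pi * (M ^ p * Y ^ 2 / M ^ (2 * k)) * (1 + (Y * θ) ^ 2)⁻¹) := by
    apply integral_mono_ae hint ((hi1.add hi2).const_mul _)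
    have : ∀ᵐ θ : ℝ, θ ≠ 0 := by
      rw [ae_iff]
      simp
    filter_upwards [this] with θ hθ
    exact h3 θ hθ
  refine h4.trans (le_of_eq ?_)
  rw [integral_const_mul, integral_add hi1 hi2, integral_mul_const, val_gauss hη, integral_const_mul, hcv]
  congr 1
  field_simp

variable {s : ℕ}

/-- the square integral over the frequencies -/
def Q2 (X : Fin s → Finset ℕ) (φ : Fin s → ℕ → C(ℝ, ℝ)) (η Y : ℝ) (α : Fin s → ℝ) : ℝ :=
  ∫ θ, w η Y θ ^ 2 * ∏ i, ‖S (X i) (φ i) θ (α i)‖ ^ 2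

lemma Q2_nonneg (X : Fin s → Finset ℕ) (φ : Fin s → ℕ → C(ℝ, ℝ)) (η Y : ℝ) (α : Fin s → ℝ) : 0 ≤ Q2 X φ η Y α :=
  integral_nonneg fun θ => mul_nonneg (sq_nonneg _) (prod_nonneg fun _ _ => sq_nonneg _)

lemma int_F2' (X : Fin s → Finset ℕ) (φ : Fin s → ℕ → C(ℝ, ℝ)) {η Y : ℝ} (hη : 0 < η) (hY : η ≤ Y) :
    Integrable (fun z : (Fin s → ℝ) × ℝ => w η Y z.2 ^ 2 * ∏ i, ‖S (X i) (φ i) z.2 (z.1 i)‖ ^ 2)
      ((box s 0 1).prod volume) := by
  have h := int_F2 X φ hη hY 0 1 Set.univ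
  rwa [Measure.restrict_univ] at h

lemma int_Q2 (X : Fin s → Finset ℕ) (φ : Fin s → ℕ → C(ℝ, ℝ)) {η Y : ℝ} (hη : 0 < η) (hY : η ≤ Y) :
    Integrable (Q2 X φ η Y) (box s 0 1) := (int_F2' X φ hη hY).integral_prod_left

lemma mean_Q2 (X : Fin s → Finset ℕ) (φ : Fin s → ℕ → C(ℝ, ℝ)) {η Y : ℝ} (hη : 0 < η) (hY : η ≤ Y) :
    ∫ α, Q2 X φ η Y α ∂(box s 0 1) = ∫ θ, w η Y θ ^ 2 * ∏ i, U2 (X i) (φ i) 0 1 θ ∧
      Integrable (fun θ => w η Y θ ^ 2 * ∏ i, U2 (X i) (φ i) 0 1 θ) := by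
  have h1 : ∀ θ : ℝ, ∫ α, w η Y θ ^ 2 * ∏ i, ‖S (X i) (φ i) θ (α i)‖ ^ 2 ∂(box s 0 1) =
      w η Y θ ^ 2 * ∏ i, U2 (X i) (φ i) 0 1 θ := by
    intro θ
    rw [integral_const_mul]
    congr 1
    unfold box
    rw [integral_fintype_prod_eq_prod (𝕜 := ℝ) (fun i t => ‖S (X i) (φ i) θ t‖ ^ 2)]
    refine prod_congr rfl fun i _ => ?_
    unfold U2
    rw [intervalIntegral.integral_of_le zero_le_one, integral_Icc_eq_integral_Ioc]
  constructor
  · unfold Q2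
    rw [integral_integral_swap (int_F2' X φ hη hY)]
    exact integral_congr_ae (Filter.Eventually.of_forall h1)
  · exact (int_F2' X φ hη hY).integral_prod_right.congr (Filter.Eventually.of_forall h1)

lemma w_le_one (η Y θ : ℝ) : w η Y θ ≤ 1 := by
  refine (w_le η Y θ).trans ?_
  rw [← Real.exp_zero, Real.exp_le_exp]
  have hpi := Real.pi_pos
  have : 0 ≤ Real.pi * η ^ 2 * θ ^ 2 := by positivity
  linarith

/-- the mean of the square integral -/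
theorem mean_full2 (k s : ℕ) (hs : k < s) (X : Fin s → Finset ℕ) (φ : Fin s → ℕ → C(ℝ, ℝ)) (M A : ℝ)
    (hM : 0 < M) (hA : 0 < A)
    (hU : ∀ i, ∀ θ R : ℝ, 0 < R → |θ| = 1 / R ^ k → U2 (X i) (φ i) 0 1 θ ≤ (A * (√M + min M R)) ^ 2) (hk : 1 ≤ k)
    {η Y : ℝ} (hη : 0 < η) (hY : η ≤ Y) :
    ∫ α, Q2 X φ η Y α ∂(box s 0 1) ≤
      (2 * A) ^ (2 * s) * (√M ^ (2 * s) / η + 4 * Real.pi ^ 2 * M ^ (2 * s) * Y / M ^ (2 * k)) := by
  obtain ⟨h1, h2⟩ := mean_Q2 X φ hη hY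
  rw [h1]
  have hUc : ∀ i, Continuous (fun θ => U2 (X i) (φ i) 0 1 θ) := by
    intro i
    unfold U2
    apply intervalIntegral.continuous_parametric_intervalIntegral_of_continuous' (f := fun θ t => ‖S (X i) (φ i) θ t‖ ^ 2)
    exact (cont_S (X i) (φ i)).norm.pow 2
  have hint : Integrable (fun θ => w η Y θ * ∏ i, U2 (X i) (φ i) 0 1 θ) := by
    refine ((int_w hη hY).mul_const (∏ i, ((X i).card : ℝ) ^ 2)).mono' ?_ (Eventually.of_forall fun θ => ?_)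
    · exact ((cont_w η Y).mul (continuous_finsetProd _ fun i _ => hUc i)).aestronglyMeasurable
    · rw [Real.norm_eq_abs, abs_mul, abs_of_nonneg (w_nonneg hη hY θ),
        abs_of_nonneg (prod_nonneg fun i _ => U2_nonneg _ _ zero_lt_one _)]
      apply mul_le_mul_of_nonneg_left _ (w_nonneg hη hY θ)
      exact prod_le_prod (fun i _ => U2_nonneg _ _ zero_lt_one _) fun i _ => U2_triv _ _ _
  have h3 : ∫ θ, w η Y θ ^ 2 * ∏ i, U2 (X i) (φ i) 0 1 θ ≤ ∫ θ, w η Y θ * ∏ i, U2 (X i) (φ i) 0 1 θ := by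
    apply integral_mono h2 hint
    intro θ
    apply mul_le_mul_of_nonneg_right _ (prod_nonneg fun i _ => U2_nonneg _ _ zero_lt_one _)
    have := w_nonneg hη hY θ
    have := w_le_one η Y θ
    nlinarith
  refine h3.trans ?_
  refine freq k (2 * s) (by omega) hk _ M A hM hA ?_ hη hY hint
  intro θ R hR hθ
  calc ∏ i, U2 (X i) (φ i) 0 1 θ ≤ ∏ _i : Fin s, (A * (√M + min M R)) ^ 2 :=
        prod_le_prod (fun i _ => U2_nonneg _ _ zero_lt_one _) fun i _ => hU i θ R hR hθ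
    _ = _ := by rw [prod_const, card_univ, Fintype.card_fin, ← pow_mul]

/-- the bound for the frequencies in the square mean -/
theorem ae_Q2 (k : ℕ) (hk : 2 ≤ k) (hs : k < s) (c n : ℕ → ℕ)
    (hU : ∀ J, ∀ θ R : ℝ, 0 < R → |θ| = 1 / R ^ k →
      U2 (Ioc 0 (n J)) (ph k (c J)) 0 1 θ ≤ (2 * fac J * (√(2 ^ J) + min (2 ^ J) R)) ^ 2) :
    ∀ᵐ α ∂(box s 0 1), ∀ᶠ J in atTop,
      Q2 (fun _ => Ioc 0 (n J)) (fun _ => ph k (c J)) (eta J) (wid k J) α < pw J (2 * (s : ℝ) - k - 1 / 8) := by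
  have hpi := Real.pi_pos
  have hq : (2 : ℝ) ^ (-(1 / 16) : ℝ) < 1 := Real.rpow_lt_one_of_one_lt_of_neg (by norm_num) (by norm_num)
  refine bc (box s 0 1) (fun J α => Q2 (fun _ => Ioc 0 (n J)) (fun _ => ph k (c J)) (eta J) (wid k J) α)
    (fun J => pw J (2 * (s : ℝ) - k - 1 / 8))
    (1 + 4 * Real.pi ^ 2) ((2 : ℝ) ^ (-(1 / 16) : ℝ)) (by positivity) hq
    (fun J α => Q2_nonneg _ _ _ _ α) ?_
  filter_upwards [fac_absorb (2 * s) (x := 1 / 16) (by norm_num)] with J hJ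
  refine ⟨pw_pos _ _, int_Q2 _ _ (pw_pos J _) (eta_le k J (by omega)), ?_⟩
  have hfac := fac_pos J
  have h1 := mean_full2 k s hs (fun _ => Ioc 0 (n J)) (fun _ => ph k (c J)) (2 ^ J) (2 * fac J) (by positivity)
    (by linarith) (fun _ => hU J) (by omega) (pw_pos J (-(1 / 8))) (eta_le k J (by omega))
  refine h1.trans ?_
  have hsr : ((k + 1 : ℕ) : ℝ) ≤ s := by exact_mod_cast hs
  push_cast at hsr
  have h2 : √((2 : ℝ) ^ J) ^ (2 * s) / pw J (-(1 / 8)) ≤ pw J (2 * (s : ℝ) - k - 1 / 8 - 1 / 8) := by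
    rw [pw_sqrt, pw_pow, ← pw_sub]
    apply pw_mono
    push_cast
    linarith
  have h3 : ((2 : ℝ) ^ J) ^ (2 * s) * wid k J / ((2 : ℝ) ^ J) ^ (2 * k) = pw J (2 * (s : ℝ) - k - 1 / 8 - 1 / 8) := by
    unfold wid
    rw [← pw_nat, ← pw_nat, ← pw_add, ← pw_sub]
    congr 1
    push_cast
    ring
  have h4 : 4 * Real.pi ^ 2 * ((2 : ℝ) ^ J) ^ (2 * s) * wid k J / ((2 : ℝ) ^ J) ^ (2 * k) =
      4 * Real.pi ^ 2 * pw J (2 * (s : ℝ) - k - 1 / 8 - 1 / 8) := by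
    rw [← h3]
    ring
  rw [h4]
  have h5 : pw J (2 * (s : ℝ) - k - 1 / 8 - 1 / 8) = pw J (-(1 / 16)) * pw J (-(1 / 16)) * pw J (2 * (s : ℝ) - k - 1 / 8) := by
    rw [← pw_add, ← pw_add]
    congr 1
    ring
  have h6 : pw J (1 / 16) * pw J (-(1 / 16)) = 1 := by
    rw [← pw_add, ← pw_zero J]
    congr 1
    ring
  calc (2 * (2 * fac J)) ^ (2 * s) * (√((2 : ℝ) ^ J) ^ (2 * s) / pw J (-(1 / 8)) + 4 * Real.pi ^ 2 * pw J (2 * (s : ℝ) - k - 1 / 8 - 1 / 8))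
      ≤ pw J (1 / 16) * (pw J (2 * (s : ℝ) - k - 1 / 8 - 1 / 8) + 4 * Real.pi ^ 2 * pw J (2 * (s : ℝ) - k - 1 / 8 - 1 / 8)) := by
        have := (pw_pos J (2 * (s : ℝ) - k - 1 / 8 - 1 / 8)).le
        have g1 : 0 ≤ √((2 : ℝ) ^ J) ^ (2 * s) / pw J (-(1 / 8)) := by
          have := pw_pos J (-(1 / 8))
          positivity
        gcongr
        exact (pw_pos J _).le
    _ = (1 + 4 * Real.pi ^ 2) * (pw J (1 / 16) * pw J (-(1 / 16))) * pw J (-(1 / 16)) * pw J (2 * (s : ℝ) - k - 1 / 8) := by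
        rw [h5]
        ring
    _ = _ := by rw [h6, mul_one, pw_geom J (-(1 / 16))]

end

end Pool.Agent.Run7.h927.WS
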