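import Pool.Agent.Run7.h927.WS.L1
import Pool.Agent.Run7.h927.WS.L2
set_option autoImplicit false

/-! The windows around the integers in the square mean. -/

namespace Pool.Agent.Run7.h927.WS

open MeasureTheory Finset Filter
open Pool.Agent.Run7.h927.WG (e norm_e w w_nonneg)

noncomputable section

variable {s : ℕ}

/-- the difference of the two scales -/
def DD (X : Fin s → Finset ℕ) (φ : Fin s → ℕ → C(ℝ, ℝ)) (η Y : ℝ) (α : Fin s → ℝ) (ν : ℝ) : ℝ :=
  N X φ η α ν - η / Y * N X φ Y α ν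

lemma cont_DD (X : Fin s → Finset ℕ) (φ : Fin s → ℕ → C(ℝ, ℝ)) (η Y : ℝ) (α : Fin s → ℝ) : Continuous (DD X φ η Y α) := by
  unfold DD
  exact (cont_N X φ η α).sub (continuous_const.mul (cont_N X φ Y α))

/-- the square mean of the difference over the numbers -/
lemma l2_DD (X : Fin s → Finset ℕ) (φ : Fin s → ℕ → C(ℝ, ℝ)) {η Y T : ℝ} (hη : 0 < η) (hY : η ≤ Y) (hT : 0 < T) (α : Fin s → ℝ) :
    ∫ ν in Set.Ioc 0 T, DD X φ η Y α ν ^ 2 ≤ Real.exp Real.pi * (η ^ 2 * Q2 X φ η Y α) := by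
  have hpi := Real.pi_pos
  have hG := int_H0 X φ hη hY α
  have hG2 := int_H0_sq X φ hη hY α
  obtain ⟨h1, h2⟩ := l2_bound (H0 X φ η Y α) (cont_H0 X φ η Y α).stronglyMeasurable hG hG2 hT
  have hQ : ∫ θ, ‖H0 X φ η Y α θ‖ ^ 2 = Q2 X φ η Y α := by
    unfold Q2
    refine integral_congr_ae (Eventually.of_forall fun θ => ?_)
    simp only
    rw [norm_H0 X φ hη hY, mul_pow, prod_pow]
  rw [hQ] at h2
  have hD : ∀ ν : ℝ, DD X φ η Y α ν ^ 2 = η ^ 2 * ‖∫ θ, H0 X φ η Y α θ * e (-(θ * ν))‖ ^ 2 := by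
    intro ν
    have h3 := diff_eq X φ hη hY α ν
    have h4 : |DD X φ η Y α ν| = η * ‖∫ θ, H0 X φ η Y α θ * e (-(θ * ν))‖ := by
      have h5 : |DD X φ η Y α ν| = ‖((DD X φ η Y α ν : ℝ) : ℂ)‖ := by rw [Complex.norm_real, Real.norm_eq_abs]
      rw [h5]
      unfold DD
      rw [h3, norm_mul, Complex.norm_real, Real.norm_eq_abs, abs_of_pos hη]
    rw [← sq_abs, h4, mul_pow]
  have h6 : ∀ ν ∈ Set.Ioc 0 T, DD X φ η Y α ν ^ 2 ≤ Real.exp Real.pi * (η ^ 2 *
      (Real.exp (-(Real.pi * (1 / T) ^ 2) * ν ^ 2) * ‖∫ θ, H0 X φ η Y α θ * e (-(θ * ν))‖ ^ 2)) := by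
    intro ν hν
    rw [hD]
    have h7 : 1 ≤ Real.exp Real.pi * Real.exp (-(Real.pi * (1 / T) ^ 2) * ν ^ 2) := by
      rw [← Real.exp_add]
      apply Real.one_le_exp
      have h8 : (1 / T) ^ 2 * ν ^ 2 ≤ 1 := by
        rw [← mul_pow]
        apply pow_le_one₀
        · have := hν.1
          positivity
        · rw [one_div_mul_eq_div, div_le_one hT]
          exact hν.2
      nlinarith
    have h9 : 0 ≤ η ^ 2 * ‖∫ θ, H0 X φ η Y α θ * e (-(θ * ν))‖ ^ 2 := by positivity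
    calc η ^ 2 * ‖∫ θ, H0 X φ η Y α θ * e (-(θ * ν))‖ ^ 2
        ≤ (Real.exp Real.pi * Real.exp (-(Real.pi * (1 / T) ^ 2) * ν ^ 2)) * (η ^ 2 * ‖∫ θ, H0 X φ η Y α θ * e (-(θ * ν))‖ ^ 2) := by
          nlinarith
      _ = _ := by ring
  have hint : Integrable (fun ν : ℝ => Real.exp Real.pi * (η ^ 2 *
      (Real.exp (-(Real.pi * (1 / T) ^ 2) * ν ^ 2) * ‖∫ θ, H0 X φ η Y α θ * e (-(θ * ν))‖ ^ 2))) := (h1.const_mul _).const_mul _
  calc ∫ ν in Set.Ioc 0 T, DD X φ η Y α ν ^ 2 ≤ ∫ ν in Set.Ioc 0 T, Real.exp Real.pi * (η ^ 2 *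
      (Real.exp (-(Real.pi * (1 / T) ^ 2) * ν ^ 2) * ‖∫ θ, H0 X φ η Y α θ * e (-(θ * ν))‖ ^ 2)) := by
        apply setIntegral_mono_on _ hint.integrableOn measurableSet_Ioc h6
        exact (((cont_DD X φ η Y α).pow 2).integrableOn_Icc (a := 0) (b := T)).mono_set Set.Ioc_subset_Icc_self
    _ ≤ ∫ ν : ℝ, Real.exp Real.pi * (η ^ 2 *
      (Real.exp (-(Real.pi * (1 / T) ^ 2) * ν ^ 2) * ‖∫ θ, H0 X φ η Y α θ * e (-(θ * ν))‖ ^ 2)) := by
        apply setIntegral_le_integral hint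
        refine Eventually.of_forall fun ν => ?_
        simp only [Pi.zero_apply]
        positivity
    _ = Real.exp Real.pi * (η ^ 2 * ∫ ν : ℝ,
      (Real.exp (-(Real.pi * (1 / T) ^ 2) * ν ^ 2) * ‖∫ θ, H0 X φ η Y α θ * e (-(θ * ν))‖ ^ 2)) := by
        rw [integral_const_mul, integral_const_mul]
    _ ≤ _ := by gcongr

/-- disjoint windows -/
lemma windows_one (f : ℝ → ℝ) (hf : Continuous f) (hf0 : ∀ t, 0 ≤ f t) (T : ℝ) (Z : Finset ℕ) (i : ℝ)
    (hZ : ∀ n ∈ Z, 0 ≤ (n : ℝ) + i ∧ (n : ℝ) + i + 1 ≤ T) :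
    ∑ n ∈ Z, ∫ t in Set.Ioc ((n : ℝ) + i) (n + i + 1), f t ≤ ∫ t in Set.Ioc 0 T, f t := by
  have hsub : ∀ n ∈ Z, Set.Ioc ((n : ℝ) + i) (n + i + 1) ⊆ Set.Ioc 0 T := by
    intro n hn t ht
    obtain ⟨h1, h2⟩ := hZ n hn
    exact ⟨by linarith [ht.1], by linarith [ht.2]⟩
  have hint : IntegrableOn f (Set.Ioc 0 T) := (hf.integrableOn_Icc (a := 0) (b := T)).mono_set Set.Ioc_subset_Icc_self
  rw [← integral_biUnion_finset Z (fun n _ => measurableSet_Ioc) ?_ (fun n hn => hint.mono_set (hsub n hn))]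
  · apply setIntegral_mono_set hint
    · exact Eventually.of_forall hf0
    · apply Filter.Eventually.of_forall
      intro t ht
      obtain ⟨n, hn, htn⟩ := Set.mem_iUnion₂.1 ht
      exact hsub n hn htn
  · intro n _ m _ hnm
    rw [Function.onFun, Set.disjoint_left]
    intro t ht1 ht2
    apply hnm
    have h1 : (n : ℝ) < m + 1 := by linarith [ht1.1, ht2.2]
    have h2 : (m : ℝ) < n + 1 := by linarith [ht2.1, ht1.2]
    have h3 : n < m + 1 := by exact_mod_cast h1
    have h4 : m < n + 1 := by exact_mod_cast h2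
    omega

/-- windows of length five -/
lemma windows (f : ℝ → ℝ) (hf : Continuous f) (hf0 : ∀ t, 0 ≤ f t) (T : ℝ) (Z : Finset ℕ)
    (hZ : ∀ n ∈ Z, 0 ≤ (n : ℝ) - 2 ∧ (n : ℝ) + 3 ≤ T) :
    ∑ n ∈ Z, ∫ t in ((n : ℝ) - 2)..(n + 3), f t ≤ 5 * ∫ t in Set.Ioc 0 T, f t := by
  have h1 : ∀ n ∈ Z, ∫ t in ((n : ℝ) - 2)..(n + 3), f t =
      (∫ t in Set.Ioc ((n : ℝ) + (-2)) (n + (-2) + 1), f t) + (∫ t in Set.Ioc ((n : ℝ) + (-1)) (n + (-1) + 1), f t) +
      (∫ t in Set.Ioc ((n : ℝ) + 0) (n + 0 + 1), f t) + (∫ t in Set.Ioc ((n : ℝ) + 1) (n + 1 + 1), f t) +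
      (∫ t in Set.Ioc ((n : ℝ) + 2) (n + 2 + 1), f t) := by
    intro n _
    have hi : ∀ a b : ℝ, IntervalIntegrable f volume a b := fun a b => hf.intervalIntegrable a b
    rw [← intervalIntegral.integral_of_le (by linarith), ← intervalIntegral.integral_of_le (by linarith),
      ← intervalIntegral.integral_of_le (by linarith), ← intervalIntegral.integral_of_le (by linarith),
      ← intervalIntegral.integral_of_le (by linarith)]
    have e1 : (n : ℝ) + (-2) + 1 = n + (-1) := by ring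
    have e2 : (n : ℝ) + (-1) + 1 = n + 0 := by ring
    have e3 : (n : ℝ) + 0 + 1 = n + 1 := by ring
    have e4 : (n : ℝ) + 1 + 1 = n + 2 := by ring
    have e5 : (n : ℝ) + 2 + 1 = n + 3 := by ring
    rw [e1, e2, e3, e4, e5, intervalIntegral.integral_add_adjacent_intervals (hi _ _) (hi _ _),
      intervalIntegral.integral_add_adjacent_intervals (hi _ _) (hi _ _),
      intervalIntegral.integral_add_adjacent_intervals (hi _ _) (hi _ _),
      intervalIntegral.integral_add_adjacent_intervals (hi _ _) (hi _ _)]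
    rfl
  rw [sum_congr rfl h1, sum_add_distrib, sum_add_distrib, sum_add_distrib, sum_add_distrib]
  have w1 := windows_one f hf hf0 T Z (-2) (fun n hn => ⟨by linarith [(hZ n hn).1], by linarith [(hZ n hn).2]⟩)
  have w2 := windows_one f hf hf0 T Z (-1) (fun n hn => ⟨by linarith [(hZ n hn).1], by linarith [(hZ n hn).2]⟩)
  have w3 := windows_one f hf hf0 T Z 0 (fun n hn => ⟨by linarith [(hZ n hn).1], by linarith [(hZ n hn).2]⟩)
  have w4 := windows_one f hf hf0 T Z 1 (fun n hn => ⟨by linarith [(hZ n hn).1], by linarith [(hZ n hn).2]⟩)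
  have w5 := windows_one f hf hf0 T Z 2 (fun n hn => ⟨by linarith [(hZ n hn).1], by linarith [(hZ n hn).2]⟩)
  linarith

/-- few windows carry much of the square mean -/
lemma few_windows (f : ℝ → ℝ) (hf : Continuous f) (hf0 : ∀ t, 0 ≤ f t) (T : ℝ) (Z : Finset ℕ)
    (hZ : ∀ n ∈ Z, 0 ≤ (n : ℝ) - 2 ∧ (n : ℝ) + 3 ≤ T) (B : ℝ) (hB : ∀ n ∈ Z, B ≤ ∫ t in ((n : ℝ) - 2)..(n + 3), f t) :
    (Z.card : ℝ) * B ≤ 5 * ∫ t in Set.Ioc 0 T, f t := by
  refine le_trans ?_ (windows f hf hf0 T Z hZ)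
  rw [← nsmul_eq_mul, ← sum_const]
  exact sum_le_sum hB

/-- Cauchy-Schwarz on a part of a window -/
lemma part_window (f : ℝ → ℝ) (hf : Continuous f) {a b A B β : ℝ} (hab : a < b) (hAa : A ≤ a) (hbB : b ≤ B) (hβ : 0 ≤ β)
    (h : ∫ t in A..B, f t ^ 2 ≤ β ^ 2) : |∫ t in a..b, f t| ≤ √(b - a) * β := by
  have h1 := Pool.Agent.Run7.h927.WG.cauchy f hf a b hab
  have h2 : ∫ t in a..b, f t ^ 2 ≤ ∫ t in A..B, f t ^ 2 := by
    apply intervalIntegral.integral_mono_interval hAa hab.le hbB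
    · exact Eventually.of_forall fun t => sq_nonneg _
    · exact (hf.pow 2).intervalIntegrable _ _
  have h3 : (∫ t in a..b, f t) ^ 2 ≤ (√(b - a) * β) ^ 2 := by
    rw [mul_pow, Real.sq_sqrt (by linarith)]
    exact h1.trans (mul_le_mul_of_nonneg_left (h2.trans h) (by linarith))
  exact abs_le_of_sq_le_sq h3 (by positivity)

/-- both bounds from the integrals over the windows -/
theorem sharp2 (X : Fin s → Finset ℕ) (φ : Fin s → ℕ → C(ℝ, ℝ)) {η ρ ε V D : ℝ} (hη : 0 < η) (hρ : 0 < ρ) (hε : ρ ≤ ε)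
    (hηρ : 2 * Real.pi * (η / ρ) ≤ 1) (hV : 0 ≤ V) (hD : 0 ≤ D)
    (α : Fin s → ℝ) (ν : ℝ)
    (h1 : 2 * (ε - ρ) * (η * V) - 2 * ε * (η * D) ≤ ∫ t in (ν - (ε - ρ))..(ν + (ε - ρ)), N X φ η α t)
    (h2 : ∫ t in (ν - (ε + ρ))..(ν + (ε + ρ)), N X φ η α t ≤ 2 * (ε + ρ) * (η * V) + 2 * ε * (η * D)) :
    |(((Fintype.piFinset X).filter (fun x => |L φ α x - ν| ≤ ε)).card : ℝ) - 2 * ε * V| ≤
      2 * ρ * V + 4 * ε * D + 8 * Real.pi * (η / ρ) * ε * V + ((Fintype.piFinset X).card : ℝ) * (2 * ε / η * gau (ρ / η)) := by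
  have hε0 : 0 < ε := hρ.trans_le hε
  obtain ⟨R, hR⟩ : ∃ R : ℝ, R = (((Fintype.piFinset X).filter (fun x => |L φ α x - ν| ≤ ε)).card : ℝ) := ⟨_, rfl⟩
  obtain ⟨Z, hZ⟩ : ∃ Z : ℝ, Z = ((Fintype.piFinset X).card : ℝ) * (2 * ε / η * gau (ρ / η)) := ⟨_, rfl⟩
  obtain ⟨τ, hτ⟩ : ∃ τ : ℝ, τ = Real.pi * (η / ρ) := ⟨_, rfl⟩
  have hτ0 : 0 < τ := by
    rw [hτ]
    have := Real.pi_pos
    positivity
  have hτ1 : 2 * τ ≤ 1 := by rw [hτ]; linarith
  have hR0 : 0 ≤ R := by rw [hR]; positivity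
  have hZ0 : 0 ≤ Z := by
    rw [hZ]
    have := (gau_pos (ρ / η)).le
    positivity
  -- lower bound
  have low : 2 * (ε - ρ) * V - 2 * ε * D ≤ R + Z := by
    have hlt : ν - (ε - ρ) ≤ ν + (ε - ρ) := by linarith
    rw [int_N] at h1
    have h3 : ∀ x ∈ Fintype.piFinset X, ∫ t in (ν - (ε - ρ))..(ν + (ε - ρ)), gau ((t - L φ α x) / η) ≤
        (if |L φ α x - ν| ≤ ε then η else 0) + 2 * ε * gau (ρ / η) := by
      intro x _
      obtain ⟨g1, g2⟩ := gau_total hη (L φ α x)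
      have hg := (gau_pos (ρ / η)).le
      split_ifs with hx
      · have h4 : ∫ t in (ν - (ε - ρ))..(ν + (ε - ρ)), gau ((t - L φ α x) / η) ≤ η := by
          rw [intervalIntegral.integral_of_le hlt]
          refine le_trans ?_ (le_of_eq g2)
          exact setIntegral_le_integral g1 (Filter.Eventually.of_forall fun t => (gau_pos _).le)
        have h5 : 0 ≤ 2 * ε * gau (ρ / η) := by positivity
        linarith
      · rw [zero_add]
        calc ∫ t in (ν - (ε - ρ))..(ν + (ε - ρ)), gau ((t - L φ α x) / η)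
            ≤ ∫ _t in (ν - (ε - ρ))..(ν + (ε - ρ)), gau (ρ / η) := by
              apply intervalIntegral.integral_mono_on hlt
              · exact (cont_shift η _).intervalIntegrable _ _
              · exact intervalIntegrable_const
              · intro t ht
                apply gau_anti
                rw [abs_div, abs_div, abs_of_pos hη, abs_of_pos hρ]
                gcongr
                have h6 : ε < |L φ α x - ν| := not_le.1 hx
                have h8 : |L φ α x - ν| ≤ |t - L φ α x| + |t - ν| := by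
                  have : L φ α x - ν = -(t - L φ α x) + (t - ν) := by ring
                  rw [this]
                  refine (abs_add_le _ _).trans ?_
                  rw [abs_neg]
                have h9 : |t - ν| ≤ ε - ρ := by
                  rw [abs_le]
                  exact ⟨by linarith [ht.1], by linarith [ht.2]⟩
                linarith
          _ = 2 * (ε - ρ) * gau (ρ / η) := by
              rw [intervalIntegral.integral_const, smul_eq_mul]
              ring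
          _ ≤ 2 * ε * gau (ρ / η) := by
              apply mul_le_mul_of_nonneg_right _ hg
              linarith
    have h4 : 2 * (ε - ρ) * (η * V) - 2 * ε * (η * D) ≤
        η * (((Fintype.piFinset X).filter (fun x => |L φ α x - ν| ≤ ε)).card : ℝ) +
        ((Fintype.piFinset X).card : ℝ) * (2 * ε * gau (ρ / η)) := by
      refine (h1.trans (sum_le_sum h3)).trans (le_of_eq ?_)
      rw [sum_add_distrib, sum_const, nsmul_eq_mul, ← sum_filter, sum_const, nsmul_eq_mul]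
      ring
    refine le_of_mul_le_mul_left ?_ hη
    calc η * (2 * (ε - ρ) * V - 2 * ε * D) = 2 * (ε - ρ) * (η * V) - 2 * ε * (η * D) := by ring
      _ ≤ _ := h4
      _ = _ := by
          rw [hR, hZ]
          field_simp
  -- upper bound
  have up : R * (1 - τ) ≤ 2 * (ε + ρ) * V + 2 * ε * D := by
    have hlt : ν - (ε + ρ) ≤ ν + (ε + ρ) := by linarith
    rw [int_N] at h2
    have h3 : ∀ x ∈ (Fintype.piFinset X).filter (fun x => |L φ α x - ν| ≤ ε),
        η - Real.pi * η ^ 2 / ρ ≤ ∫ t in (ν - (ε + ρ))..(ν + (ε + ρ)), gau ((t - L φ α x) / η) := by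
      intro x hx
      have hx2 := (mem_filter.1 hx).2
      obtain ⟨y, hy⟩ : ∃ y, y = L φ α x := ⟨_, rfl⟩
      rw [← hy] at hx2 ⊢
      obtain ⟨g1, g2⟩ := gau_total hη y
      obtain ⟨m1, m2⟩ := first_moment hη y
      rw [intervalIntegral.integral_of_le hlt]
      obtain ⟨A, hA⟩ : ∃ A, A = Set.Ioc (ν - (ε + ρ)) (ν + (ε + ρ)) := ⟨_, rfl⟩
      rw [← hA]
      have hAm : MeasurableSet A := by rw [hA]; exact measurableSet_Ioc
      have h4 : (∫ t in A, gau ((t - y) / η)) + ∫ t in Aᶜ, gau ((t - y) / η) = η := by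
        rw [integral_add_compl hAm g1, g2]
      have h5 : ∫ t in Aᶜ, gau ((t - y) / η) ≤ Real.pi * η ^ 2 / ρ := by
        calc ∫ t in Aᶜ, gau ((t - y) / η) ≤ ∫ t in Aᶜ, 1 / ρ * (|t - y| * gau ((t - y) / η)) := by
              apply setIntegral_mono_on g1.integrableOn (m1.const_mul _).integrableOn hAm.compl
              intro t ht
              have h6 : ρ ≤ |t - y| := by
                by_contra hcon
                push Not at hcon
                apply ht
                rw [hA]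
                rw [abs_lt] at hcon
                rw [abs_le] at hx2
                exact ⟨by linarith [hx2.1, hcon.1], by linarith [hx2.2, hcon.2]⟩
              have h7 := (gau_pos ((t - y) / η)).le
              rw [← mul_assoc, one_div_mul_eq_div]
              have h8 : 1 ≤ |t - y| / ρ := (one_le_div hρ).2 h6
              nlinarith
          _ ≤ ∫ t : ℝ, 1 / ρ * (|t - y| * gau ((t - y) / η)) := by
              apply setIntegral_le_integral (m1.const_mul _)
              refine Filter.Eventually.of_forall fun t => ?_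
              have h7 := (gau_pos ((t - y) / η)).le
              simp only [Pi.zero_apply]
              positivity
          _ = 1 / ρ * ∫ t : ℝ, |t - y| * gau ((t - y) / η) := integral_const_mul _ _
          _ ≤ 1 / ρ * (Real.pi * η ^ 2) := by gcongr
          _ = _ := by ring
      linarith
    have h4 : (((Fintype.piFinset X).filter (fun x => |L φ α x - ν| ≤ ε)).card : ℝ) * (η - Real.pi * η ^ 2 / ρ) ≤
        ∑ x ∈ Fintype.piFinset X, ∫ t in (ν - (ε + ρ))..(ν + (ε + ρ)), gau ((t - L φ α x) / η) := by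
      rw [← nsmul_eq_mul, ← sum_const]
      refine (sum_le_sum h3).trans ?_
      refine sum_le_sum_of_subset_of_nonneg (filter_subset _ _) fun x _ _ => ?_
      exact intervalIntegral.integral_nonneg hlt fun t _ => (gau_pos _).le
    refine le_of_mul_le_mul_left ?_ hη
    calc η * (R * (1 - τ)) = R * (η - Real.pi * η ^ 2 / ρ) := by rw [hτ]; ring
      _ ≤ _ := by rw [hR]; exact h4
      _ ≤ _ := h2
      _ = _ := by ring
  rw [← hR, ← hZ]
  have hgoal : 2 * ρ * V + 4 * ε * D + 8 * Real.pi * (η / ρ) * ε * V + Z =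
      2 * ρ * V + 4 * ε * D + 8 * τ * ε * V + Z := by rw [hτ]; ring
  rw [hgoal]
  have hRup : R ≤ (2 * (ε + ρ) * V + 2 * ε * D) * (1 + 2 * τ) := by
    have h3 : 0 < 1 - τ := by linarith
    have h4 : 1 ≤ (1 - τ) * (1 + 2 * τ) := by nlinarith
    calc R ≤ R * ((1 - τ) * (1 + 2 * τ)) := by nlinarith
      _ = R * (1 - τ) * (1 + 2 * τ) := by ring
      _ ≤ _ := mul_le_mul_of_nonneg_right up (by linarith)
  have p1 : 0 ≤ ρ * V := by positivity
  have p2 : 0 ≤ ε * D := by positivity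
  have p3 : 0 ≤ τ * ε * V := by positivity
  have p4 : τ * ρ * V ≤ τ * ε * V := by gcongr
  have p6 : τ * (ε * D) ≤ 1 / 2 * (ε * D) := mul_le_mul_of_nonneg_right (by linarith) p2
  rw [abs_le]
  constructor
  · have : 2 * (ε - ρ) * V = 2 * ε * V - 2 * (ρ * V) := by ring
    nlinarith
  · have : (2 * (ε + ρ) * V + 2 * ε * D) * (1 + 2 * τ) = 2 * ε * V + 2 * (ρ * V) + 2 * (ε * D) +
        4 * (τ * ε * V) + 4 * (τ * ρ * V) + 4 * (τ * (ε * D)) := by ring
    nlinarith

end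

end Pool.Agent.Run7.h927.WS
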