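import Pool.Agent.Run7.h927.WS.L3
set_option autoImplicit false

/-! The asymptotic formula for almost all numbers and almost all parameters. -/

namespace Pool.Agent.Run7.h927.WS

open MeasureTheory Finset Filter

noncomputable section

variable {s : ℕ}

lemma part_window' (f : ℝ → ℝ) (hf : Continuous f) {a b A B β : ℝ} (hab : a ≤ b) (hAa : A ≤ a) (hbB : b ≤ B) (hβ : 0 ≤ β)
    (h : ∫ t in A..B, f t ^ 2 ≤ β ^ 2) : |∫ t in a..b, f t| ≤ √(b - a) * β := by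
  rcases eq_or_lt_of_le hab with h1 | h1
  · rw [h1]
    simp
  · exact part_window f hf h1 hAa hbB hβ h

/-- the good windows -/
lemma good_window (k : ℕ) (hk : 2 ≤ k) (hs : k < s) (c n : ℕ → ℕ) (hn : ∀ J, n J ≤ 2 * 2 ^ J)
    (C0 : ℝ) (hC00 : 0 ≤ C0) (J : ℕ) (α : Fin s → ℝ) (m : ℕ)
    (hJw : ∀ t : ℝ, (2 ^ J) ^ k / 2 ^ (k + 2) ≤ t → t ≤ (2 ^ J) ^ k - (2 ^ J) ^ k / 2 ^ (k + 2) →
      |N (fun _ => Ioc 0 (n J)) (fun _ => ph k (c J)) (wid k J) α t - C0 * t ^ ((s : ℝ) / k - 1) * wid k J| ≤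
        wid k J * pw J ((s : ℝ) - k - 1 / 8))
    (hJ1 : 2 * C0 * (((s : ℝ) / k - 1 + 1) * (1 + (1 / 2 ^ (k + 2) : ℝ) ^ ((s : ℝ) / k - 1 - 1))) * pw J ((s : ℝ) - 2 * k) ≤
      pw J ((s : ℝ) - k - 1 / 8))
    (hJ2 : 2 * Real.pi * pw J (-(1 / 24)) ≤ pw J 0)
    (hJ3 : pw J (k + 1 / 8 + 1 / 48) * gau (pw J (1 / 24)) ≤ 1)
    (hm1 : (2 ^ J) ^ k / 2 ^ (k + 2) ≤ (m : ℝ) - 2) (hm2 : (m : ℝ) + 3 ≤ (2 ^ J) ^ k - (2 ^ J) ^ k / 2 ^ (k + 2))
    (hwin : ∫ t in ((m : ℝ) - 2)..(m + 3), DD (fun _ : Fin s => Ioc 0 (n J)) (fun _ => ph k (c J)) (eta J) (wid k J) α t ^ 2 ≤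
      (eta J * pw J ((s : ℝ) - k - 1 / 32)) ^ 2)
    (ν ε : ℝ) (hν : ν ∈ Set.Icc (m : ℝ) (m + 1)) (hε1 : pw J (-(1 / 48)) ≤ ε) (hε2 : ε ≤ 1) :
    |(((Fintype.piFinset (fun _ : Fin s => Ioc 0 (n J))).filter (fun x => |L (fun _ => ph k (c J)) α x - ν| ≤ ε)).card : ℝ) -
        2 * ε * (C0 * ν ^ ((s : ℝ) / k - 1))| ≤
      ε * ((2 * C0 + 20 + 8 * Real.pi * C0 + 2 * 2 ^ s) * pw J ((s : ℝ) - k - 1 / 48)) := by
  have hpi := Real.pi_pos
  have hk0 : (0 : ℝ) < k := by exact_mod_cast (by omega : 0 < k)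
  have hk2 : (2 : ℝ) ≤ k := by exact_mod_cast hk
  have hsr : (k : ℝ) < s := by exact_mod_cast hs
  have hs0 : (0 : ℝ) < s := by linarith
  obtain ⟨b, hb⟩ : ∃ b : ℝ, b = (s : ℝ) / k - 1 := ⟨_, rfl⟩
  have hb1 : 0 < b := by
    rw [hb, sub_pos, lt_div_iff₀ hk0, one_mul]
    exact hsr
  have hkb : (k : ℝ) * b = s - k := by rw [hb]; field_simp
  obtain ⟨M, hM⟩ : ∃ M : ℝ, M = 2 ^ J := ⟨_, rfl⟩
  have hM1 : 1 ≤ M := by rw [hM]; exact one_le_pow₀ (by norm_num)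
  have hM0 : 0 < M := by linarith
  rw [← hb] at hJw hJ1 ⊢
  rw [← hM] at hJw hm1 hm2
  obtain ⟨d, hd⟩ : ∃ d : ℝ, d = M ^ k / 2 ^ (k + 2) := ⟨_, rfl⟩
  rw [← hd] at hJw hm1 hm2
  have hd0 : 0 < d := by rw [hd]; positivity
  have hMk : M ^ k = pw J k := by rw [pw_nat, hM]
  obtain ⟨hν1, hν2⟩ := hν
  have hν0 : 0 < ν := by linarith
  have hνT : ν ≤ M ^ k := by linarith
  have e1 : (M ^ k) ^ (b - 1) = pw J ((s : ℝ) - 2 * k) := by
    rw [hMk, pw_rpow]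
    congr 1
    linarith
  have e2 : (M ^ k) ^ b = pw J ((s : ℝ) - k) := by
    rw [hMk, pw_rpow, hkb]
  have e6 : lip b (M ^ k) d = (b + 1) * (1 + (1 / 2 ^ (k + 2) : ℝ) ^ (b - 1)) * pw J ((s : ℝ) - 2 * k) := by
    unfold lip
    have e7 : d ^ (b - 1) = (1 / 2 ^ (k + 2) : ℝ) ^ (b - 1) * (M ^ k) ^ (b - 1) := by
      rw [← Real.mul_rpow (by positivity) (by positivity), hd]
      congr 1
      ring
    rw [e7, e1]
    ring
  obtain ⟨V, hV⟩ : ∃ V : ℝ, V = C0 * ν ^ b := ⟨_, rfl⟩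
  have hV0 : 0 ≤ V := by rw [hV]; positivity
  have hVle : V ≤ C0 * pw J ((s : ℝ) - k) := by
    rw [hV, ← e2]
    apply mul_le_mul_of_nonneg_left _ hC00
    exact Real.rpow_le_rpow hν0.le hνT hb1.le
  obtain ⟨τ, hτ⟩ : ∃ τ : ℝ, τ = pw J ((s : ℝ) - k - 1 / 8) := ⟨_, rfl⟩
  obtain ⟨Z, hZ⟩ : ∃ Z : ℝ, Z = pw J ((s : ℝ) - k - 1 / 48) := ⟨_, rfl⟩
  have hZ0 : 0 < Z := by rw [hZ]; exact pw_pos _ _
  have hτ0 : 0 < τ := by rw [hτ]; exact pw_pos _ _
  have hτZ : τ ≤ Z := by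
    rw [hτ, hZ]
    apply pw_mono
    linarith
  have hη0 : 0 < eta J := pw_pos _ _
  have hY0 : 0 < wid k J := pw_pos _ _
  obtain ⟨ρ, hρ⟩ : ∃ ρ : ℝ, ρ = pw J (-(1 / 12)) := ⟨_, rfl⟩
  have hρ0 : 0 < ρ := by rw [hρ]; exact pw_pos _ _
  have hε0 : 0 < ε := (pw_pos _ _).trans_le hε1
  have h48 : pw J (-(1 / 48)) ≤ 1 := (pw_mono J (by norm_num : (-(1 / 48) : ℝ) ≤ 0)).trans (pw_zero J).le
  have hρε : ρ ≤ ε * pw J (-(1 / 48)) := by
    calc ρ = pw J (-(1 / 48)) * pw J (-(1 / 16)) := by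
          rw [hρ, ← pw_add]
          congr 1
          norm_num
      _ ≤ ε * pw J (-(1 / 48)) := by
          apply mul_le_mul hε1 (pw_mono J (by norm_num)) (pw_pos _ _).le hε0.le
  have hρle : ρ ≤ ε := hρε.trans (by nlinarith)
  have hηρ : eta J / ρ = pw J (-(1 / 24)) := by
    unfold eta
    rw [hρ, ← pw_sub]
    congr 1
    norm_num
  have hρη : ρ / eta J = pw J (1 / 24) := by
    unfold eta
    rw [hρ, ← pw_sub]
    congr 1
    norm_num
  obtain ⟨Nf, hNf⟩ : ∃ Nf : ℝ → ℝ, Nf = N (fun _ : Fin s => Ioc 0 (n J)) (fun _ => ph k (c J)) (eta J) α := ⟨_, rfl⟩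
  obtain ⟨Df, hDf⟩ : ∃ Df : ℝ → ℝ, Df = DD (fun _ : Fin s => Ioc 0 (n J)) (fun _ => ph k (c J)) (eta J) (wid k J) α := ⟨_, rfl⟩
  have hNc : Continuous Nf := by
    rw [hNf]
    exact cont_N (fun _ : Fin s => Ioc 0 (n J)) (fun _ => ph k (c J)) (eta J) α
  have hDc : Continuous Df := by
    rw [hDf]
    exact cont_DD (fun _ : Fin s => Ioc 0 (n J)) (fun _ => ph k (c J)) (eta J) (wid k J) α
  rw [← hDf] at hwin
  have key : ∀ t ∈ Set.Icc (ν - 2) (ν + 2), |(Nf t - Df t) - eta J * V| ≤ eta J * (2 * τ) := by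
    intro t ht
    have g2 := hJw t (by linarith [ht.1]) (by linarith [ht.2])
    rw [← hτ] at g2
    have g3 : |t ^ b - ν ^ b| ≤ lip b (M ^ k) d * |t - ν| :=
      lip_bound hb1 hd0 (by linarith [ht.1]) (by linarith [ht.2]) (by linarith) hνT
    have g4 : |t - ν| ≤ 2 := by
      rw [abs_le]
      exact ⟨by linarith [ht.1], by linarith [ht.2]⟩
    have g5 : |C0 * t ^ b - V| ≤ τ := by
      rw [hV, ← mul_sub, abs_mul, abs_of_nonneg hC00]
      calc C0 * |t ^ b - ν ^ b| ≤ C0 * (lip b (M ^ k) d * 2) := by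
            apply mul_le_mul_of_nonneg_left _ hC00
            exact g3.trans (mul_le_mul_of_nonneg_left g4 (lip_nonneg hb1.le (by positivity) hd0))
        _ = 2 * C0 * ((b + 1) * (1 + (1 / 2 ^ (k + 2) : ℝ) ^ (b - 1))) * pw J ((s : ℝ) - 2 * k) := by rw [e6]; ring
        _ ≤ τ := by rw [hτ]; exact hJ1
    have g6 : (Nf t - Df t) - eta J * V =
        eta J / wid k J * (N (fun _ => Ioc 0 (n J)) (fun _ => ph k (c J)) (wid k J) α t - C0 * t ^ b * wid k J) +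
        eta J * (C0 * t ^ b - V) := by
      rw [hNf, hDf]
      unfold DD
      field_simp
      ring
    rw [g6]
    refine (abs_add_le _ _).trans ?_
    rw [abs_mul (eta J / wid k J), abs_mul (eta J) (C0 * t ^ b - V), abs_of_pos (div_pos hη0 hY0), abs_of_pos hη0]
    have g7 : eta J / wid k J * |N (fun _ => Ioc 0 (n J)) (fun _ => ph k (c J)) (wid k J) α t - C0 * t ^ b * wid k J| ≤
        eta J * τ := by
      calc _ ≤ eta J / wid k J * (wid k J * τ) := mul_le_mul_of_nonneg_left g2 (by positivity)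
        _ = _ := by field_simp
    have g9 : eta J * |C0 * t ^ b - V| ≤ eta J * τ := mul_le_mul_of_nonneg_left g5 hη0.le
    linarith
  -- the integrals over the windows
  have wint : ∀ l : ℝ, 0 ≤ l → l ≤ 2 → |(∫ t in (ν - l)..(ν + l), Nf t) - 2 * l * (eta J * V)| ≤
      2 * l * (eta J * (2 * τ)) + √(2 * l) * (eta J * pw J ((s : ℝ) - k - 1 / 32)) := by
    intro l hl0 hl2
    have hle : ν - l ≤ ν + l := by linarith
    have i1 : IntervalIntegrable (fun t => (Nf t - Df t) - eta J * V) volume (ν - l) (ν + l) :=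
      ((hNc.sub hDc).sub continuous_const).intervalIntegrable _ _
    have i2 : IntervalIntegrable Df volume (ν - l) (ν + l) := hDc.intervalIntegrable _ _
    have i3 : IntervalIntegrable (fun _ : ℝ => eta J * V) volume (ν - l) (ν + l) := intervalIntegrable_const
    have h1 : (∫ t in (ν - l)..(ν + l), Nf t) - 2 * l * (eta J * V) =
        (∫ t in (ν - l)..(ν + l), ((Nf t - Df t) - eta J * V)) + ∫ t in (ν - l)..(ν + l), Df t := by
      have h2 : ∫ t in (ν - l)..(ν + l), Nf t =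
          (∫ t in (ν - l)..(ν + l), ((Nf t - Df t) - eta J * V)) + (∫ t in (ν - l)..(ν + l), Df t) +
            ∫ _t in (ν - l)..(ν + l), eta J * V := by
        rw [← intervalIntegral.integral_add i1 i2, ← intervalIntegral.integral_add (i1.add i2) i3]
        refine intervalIntegral.integral_congr fun t _ => ?_
        ring
      rw [h2, intervalIntegral.integral_const, smul_eq_mul]
      ring
    rw [h1]
    refine (abs_add_le _ _).trans ?_
    apply add_le_add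
    · have h3 := intervalIntegral.norm_integral_le_of_norm_le_const (a := ν - l) (b := ν + l)
        (f := fun t => (Nf t - Df t) - eta J * V) (C := eta J * (2 * τ)) (by
          intro t ht
          rw [Set.uIoc_of_le hle] at ht
          rw [Real.norm_eq_abs]
          exact key t ⟨by linarith [ht.1], by linarith [ht.2]⟩)
      rw [Real.norm_eq_abs, show ν + l - (ν - l) = 2 * l by ring, abs_of_nonneg (by linarith : 0 ≤ 2 * l)] at h3
      linarith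
    · have h4 := part_window' Df hDc hle (by linarith : (m : ℝ) - 2 ≤ ν - l) (by linarith : ν + l ≤ (m : ℝ) + 3)
        (mul_nonneg hη0.le (pw_pos J ((s : ℝ) - k - 1 / 32)).le) hwin
      rwa [show ν + l - (ν - l) = 2 * l by ring] at h4
  have hsq : ∀ l : ℝ, 0 ≤ l → l ≤ 2 * ε → √(2 * l) * (eta J * pw J ((s : ℝ) - k - 1 / 32)) ≤ 2 * ε * (eta J * Z) := by
    intro l hl0 hl
    have h1 : √(2 * l) ≤ 2 * √ε := by
      rw [show 2 * √ε = √(4 * ε) by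
        rw [Real.sqrt_mul (by norm_num), show (4 : ℝ) = 2 ^ 2 by norm_num, Real.sqrt_sq (by norm_num)]]
      exact Real.sqrt_le_sqrt (by linarith)
    have h2 : pw J (-(1 / 96)) ≤ √ε := by
      rw [Real.le_sqrt' (pw_pos _ _), pw_pow]
      refine le_trans (le_of_eq ?_) hε1
      congr 1
      norm_num
    have h3 : pw J ((s : ℝ) - k - 1 / 32) = pw J (-(1 / 96)) * Z := by
      rw [hZ, ← pw_add]
      congr 1
      ring
    have h4 : √ε * √ε = ε := Real.mul_self_sqrt hε0.le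
    have h5 := Real.sqrt_nonneg ε
    have h6 := (pw_pos J (-(1 / 96))).le
    calc √(2 * l) * (eta J * pw J ((s : ℝ) - k - 1 / 32)) ≤ (2 * √ε) * (eta J * (√ε * Z)) := by
          rw [h3]
          exact mul_le_mul h1 (mul_le_mul_of_nonneg_left (mul_le_mul_of_nonneg_right h2 hZ0.le) hη0.le)
            (by positivity) (by positivity)
      _ = 2 * (√ε * √ε) * (eta J * Z) := by ring
      _ = _ := by rw [h4]
  have hw1 := wint (ε - ρ) (by linarith) (by linarith)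
  have hw2 := wint (ε + ρ) (by linarith) (by linarith)
  have hq1 := hsq (ε - ρ) (by linarith) (by linarith)
  have hq2 := hsq (ε + ρ) (by linarith) (by linarith)
  have hfin := sharp2 (fun _ : Fin s => Ioc 0 (n J)) (fun _ => ph k (c J)) (V := V) (D := 5 * Z) hη0 hρ0 hρle
    (by rw [hηρ]; rw [pw_zero] at hJ2; exact hJ2) hV0 (by positivity) α ν
    (by
      rw [← hNf]
      have g1 := (abs_le.1 hw1).1
      have g2 : 2 * (ε - ρ) * (eta J * (2 * τ)) ≤ 2 * ε * (eta J * (2 * Z)) := by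
        gcongr
        linarith
      nlinarith [mul_pos hε0 (mul_pos hη0 hZ0)])
    (by
      rw [← hNf]
      have g1 := (abs_le.1 hw2).2
      have g2 : 2 * (ε + ρ) * (eta J * (2 * τ)) ≤ 2 * (2 * ε) * (eta J * (2 * Z)) := by
        gcongr
        linarith
      nlinarith [mul_pos hε0 (mul_pos hη0 hZ0)])
  rw [hηρ, hρη] at hfin
  have hgoal : 2 * ε * (C0 * ν ^ b) = 2 * ε * V := by rw [hV]
  rw [hgoal]
  refine hfin.trans ?_
  have h2448 : pw J (-(1 / 24)) ≤ pw J (-(1 / 48)) := pw_mono J (by norm_num)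
  have hVZ : pw J (-(1 / 48)) * V ≤ C0 * Z := by
    calc pw J (-(1 / 48)) * V ≤ pw J (-(1 / 48)) * (C0 * pw J ((s : ℝ) - k)) :=
          mul_le_mul_of_nonneg_left hVle (pw_pos _ _).le
      _ = C0 * (pw J (-(1 / 48)) * pw J ((s : ℝ) - k)) := by ring
      _ = C0 * Z := by
          rw [hZ, ← pw_add]
          congr 2
          ring
  have hcard : ((Fintype.piFinset (fun _ : Fin s => Ioc 0 (n J))).card : ℝ) ≤ 2 ^ s * pw J s := by
    rw [Fintype.card_piFinset]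
    simp only [Nat.card_Ioc, prod_const, card_univ, Fintype.card_fin]
    push_cast
    rw [pw_nat, ← mul_pow]
    apply pow_le_pow_left₀ (Nat.cast_nonneg _)
    rw [Nat.sub_zero]
    exact_mod_cast hn J
  have a1 : 2 * ρ * V ≤ ε * (2 * C0 * Z) := by
    calc 2 * ρ * V ≤ 2 * (ε * pw J (-(1 / 48))) * V := by gcongr
      _ = 2 * ε * (pw J (-(1 / 48)) * V) := by ring
      _ ≤ 2 * ε * (C0 * Z) := by gcongr
      _ = _ := by ring
  have a3 : 8 * Real.pi * pw J (-(1 / 24)) * ε * V ≤ ε * (8 * Real.pi * C0 * Z) := by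
    calc 8 * Real.pi * pw J (-(1 / 24)) * ε * V ≤ 8 * Real.pi * pw J (-(1 / 48)) * ε * V := by gcongr
      _ = 8 * Real.pi * ε * (pw J (-(1 / 48)) * V) := by ring
      _ ≤ 8 * Real.pi * ε * (C0 * Z) := by gcongr
      _ = _ := by ring
  have a4 : ((Fintype.piFinset (fun _ : Fin s => Ioc 0 (n J))).card : ℝ) * (2 * ε / eta J * gau (pw J (1 / 24))) ≤
      ε * (2 * 2 ^ s * Z) := by
    have hg := (gau_pos (pw J (1 / 24))).le
    calc _ ≤ (2 ^ s * pw J s) * (2 * ε / eta J * gau (pw J (1 / 24))) := by gcongr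
      _ = ε * (2 * 2 ^ s * (pw J s / eta J * gau (pw J (1 / 24)))) := by ring
      _ = ε * (2 * 2 ^ s * (Z * (pw J (k + 1 / 8 + 1 / 48) * gau (pw J (1 / 24))))) := by
          have : pw J s / eta J = Z * pw J (k + 1 / 8 + 1 / 48) := by
            unfold eta
            rw [hZ, ← pw_sub, ← pw_add]
            congr 1
            ring
          rw [this]
          ring
      _ ≤ ε * (2 * 2 ^ s * (Z * 1)) := by gcongr
      _ = _ := by ring
  have hfinal : ε * ((2 * C0 + 20 + 8 * Real.pi * C0 + 2 * 2 ^ s) * Z) = ε * (2 * C0 * Z) + 4 * ε * (5 * Z) +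
      ε * (8 * Real.pi * C0 * Z) + ε * (2 * 2 ^ s * Z) := by ring
  rw [← hZ, hfinal]
  linarith

/-- the exceptional windows at the scale `2^J` are few -/
theorem main_J2 (k : ℕ) (hk : 2 ≤ k) (hs : k < s) (c n : ℕ → ℕ) (hcn : ∀ J, c J ≤ n J) (hn : ∀ J, n J ≤ 2 * 2 ^ J)
    (E : Set (Fin s → ℝ)) (hEm : MeasurableSet E)
    (hE : ∀ r : ℝ, 0 < r → ∀ v, v ∈ E ↔ r • v ∈ E)
    (hE1 : ∀ J, E ∩ {v : Fin s → ℝ | Ph k v < (2 ^ J) ^ k} ⊆ dom (c J) (n J)) (hE2 : ∀ J, (dom (c J) (n J) : Set (Fin s → ℝ)) ⊆ E)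
    (hU : ∀ J, ∀ θ R : ℝ, 0 < R → |θ| = 1 / R ^ k →
      U2 (Ioc 0 (n J)) (ph k (c J)) 0 1 θ ≤ (2 * fac J * (√(2 ^ J) + min (2 ^ J) R)) ^ 2) :
    ∃ C : ℝ, 0 < C ∧ ∀ᵐ α ∂(box s 0 1), ∀ᶠ J in atTop, ∀ Z : Finset ℕ,
      (∀ m ∈ Z, (2 ^ J) ^ k / 2 ^ (k + 2) ≤ (m : ℝ) - 2 ∧ (m : ℝ) + 3 ≤ (2 ^ J) ^ k - (2 ^ J) ^ k / 2 ^ (k + 2) ∧
        ∃ ν ∈ Set.Icc (m : ℝ) (m + 1), ∃ ε : ℝ, pw J (-(1 / 48)) ≤ ε ∧ ε ≤ 1 ∧ ε * (C * pw J ((s : ℝ) - k - 1 / 48)) <
          |(((Fintype.piFinset (fun _ : Fin s => Ioc 0 (n J))).filter (fun x => |L (fun _ => ph k (c J)) α x - ν| ≤ ε)).card : ℝ) -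
            2 * ε * (c1 k E * ((s : ℝ) / k) * ν ^ ((s : ℝ) / k - 1))|) →
      (Z.card : ℝ) ≤ C * pw J ((k : ℝ) - 1 / 16) := by
  have hpi := Real.pi_pos
  have hk0 : (0 : ℝ) < k := by exact_mod_cast (by omega : 0 < k)
  have hk2 : (2 : ℝ) ≤ k := by exact_mod_cast hk
  obtain ⟨C0, hC0⟩ : ∃ C0 : ℝ, C0 = c1 k E * ((s : ℝ) / k) := ⟨_, rfl⟩
  have hC00 : 0 ≤ C0 := by
    rw [hC0]
    have := c1_nonneg k E
    positivity
  refine ⟨(2 * C0 + 20 + 8 * Real.pi * C0 + 2 * 2 ^ s) + 5 * Real.exp Real.pi, by positivity, ?_⟩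
  have hbox : ∀ᵐ α ∂(box s 0 1), ∀ i, α i ∈ Set.Icc (0 : ℝ) 1 := by
    rw [box_eq]
    filter_upwards [ae_restrict_mem (MeasurableSet.univ_pi fun _ => measurableSet_Icc)] with α hα i
    exact hα i (Set.mem_univ i)
  filter_upwards [hbox, ae_Q2 k hk hs c n hU] with α hα hQ
  filter_upwards [hQ, wide_ev2 k hk hs c n hcn hn E hEm hE hE1 hE2,
    pw_absorb (2 * C0 * (((s : ℝ) / k - 1 + 1) * (1 + (1 / 2 ^ (k + 2) : ℝ) ^ ((s : ℝ) / k - 1 - 1))))
      (show (s : ℝ) - 2 * k < (s : ℝ) - k - 1 / 8 by linarith),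
    pw_absorb (2 * Real.pi) (show (-(1 / 24) : ℝ) < 0 by norm_num),
    gau_absorb (k + 1 / 8 + 1 / 48) (y := 1 / 24) (by norm_num)] with J hJQ hJw hJ1 hJ2 hJ3
  intro Z hZ
  rw [← hC0] at *
  have hη0 : 0 < eta J := pw_pos _ _
  have hT0 : (0 : ℝ) < (2 ^ J) ^ k := by positivity
  obtain ⟨β, hβ⟩ : ∃ β : ℝ, β = eta J * pw J ((s : ℝ) - k - 1 / 32) := ⟨_, rfl⟩
  have hβ0 : 0 < β := by rw [hβ]; exact mul_pos hη0 (pw_pos _ _)
  have hbig : ∀ m ∈ Z, β ^ 2 ≤ ∫ t in ((m : ℝ) - 2)..(m + 3),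
      DD (fun _ : Fin s => Ioc 0 (n J)) (fun _ => ph k (c J)) (eta J) (wid k J) α t ^ 2 := by
    intro m hm
    by_contra hcon
    push Not at hcon
    obtain ⟨h1, h2, ν, hν, ε, hε1, hε2, h3⟩ := hZ m hm
    have h4 := good_window k hk hs c n hn C0 hC00 J α m (fun t ht1 ht2 => hJw α hα t ht1 ht2) hJ1 hJ2 hJ3 h1 h2
      (by rw [← hβ]; exact hcon.le) ν ε hν hε1 hε2
    have hε0 : 0 < ε := (pw_pos _ _).trans_le hε1
    have h5 : ε * ((2 * C0 + 20 + 8 * Real.pi * C0 + 2 * 2 ^ s) * pw J ((s : ℝ) - k - 1 / 48)) ≤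
        ε * ((2 * C0 + 20 + 8 * Real.pi * C0 + 2 * 2 ^ s + 5 * Real.exp Real.pi) * pw J ((s : ℝ) - k - 1 / 48)) := by
      have := Real.exp_pos Real.pi
      exact mul_le_mul_of_nonneg_left (mul_le_mul_of_nonneg_right (by linarith) (pw_pos J ((s : ℝ) - k - 1 / 48)).le) hε0.le
    linarith
  have h1 := few_windows (fun t => DD (fun _ : Fin s => Ioc 0 (n J)) (fun _ => ph k (c J)) (eta J) (wid k J) α t ^ 2)
    ((cont_DD _ _ _ _ _).pow 2) (fun t => sq_nonneg _) ((2 ^ J) ^ k) Z (by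
      intro m hm
      obtain ⟨g1, g2, _⟩ := hZ m hm
      have : 0 < (2 ^ J : ℝ) ^ k / 2 ^ (k + 2) := by positivity
      exact ⟨by linarith, by linarith⟩) (β ^ 2) hbig
  have h2 := l2_DD (fun _ : Fin s => Ioc 0 (n J)) (fun _ => ph k (c J)) hη0 (eta_le k J (by omega)) hT0 α
  have h3 : (Z.card : ℝ) * β ^ 2 ≤ 5 * (Real.exp Real.pi * (eta J ^ 2 * pw J (2 * (s : ℝ) - k - 1 / 8))) := by
    refine h1.trans ?_
    refine mul_le_mul_of_nonneg_left (h2.trans ?_) (by norm_num)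
    have := (Real.exp_pos Real.pi).le
    gcongr
  have h4 : eta J ^ 2 * pw J (2 * (s : ℝ) - k - 1 / 8) = pw J ((k : ℝ) - 1 / 16) * β ^ 2 := by
    rw [hβ, mul_pow, pw_pow]
    have : pw J (2 * (s : ℝ) - k - 1 / 8) = pw J ((k : ℝ) - 1 / 16) * pw J (((2 : ℕ) : ℝ) * ((s : ℝ) - k - 1 / 32)) := by
      rw [← pw_add]
      congr 1
      push_cast
      ring
    rw [this]
    ring
  rw [h4] at h3
  have h5 : (Z.card : ℝ) ≤ 5 * Real.exp Real.pi * pw J ((k : ℝ) - 1 / 16) := by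
    refine le_of_mul_le_mul_right ?_ (by positivity : 0 < β ^ 2)
    calc (Z.card : ℝ) * β ^ 2 ≤ _ := h3
      _ = _ := by ring
  refine h5.trans ?_
  have : 0 ≤ 2 * C0 + 20 + 8 * Real.pi * C0 + 2 * 2 ^ s := by positivity
  exact mul_le_mul_of_nonneg_right (by linarith) (pw_pos J ((k : ℝ) - 1 / 16)).le

end

end Pool.Agent.Run7.h927.WS
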