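import Pool.Agent.Run7.h927.WS.ZA
set_option autoImplicit false

/-! The asymptotic formula for all large numbers. -/

namespace Pool.Agent.Run7.h927.WS

open MeasureTheory Finset Filter

noncomputable section

variable {s : ℕ}

/-- from the scales to all large numbers -/
lemma to_nu (k : ℕ) (hk : 2 ≤ k) (hs : 2 * k + 1 ≤ s) (C0 C : ℝ) (hC : 0 < C) (R : ℝ → ℝ → ℝ)
    (h : ∀ᶠ J : ℕ in atTop, ∀ ν ε : ℝ, (2 ^ J) ^ k / 2 ^ (k + 2) ≤ ν - 2 →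
      ν + 2 ≤ (2 ^ J) ^ k - (2 ^ J) ^ k / 2 ^ (k + 2) → pw J (-(1 / 24)) ≤ ε → ε ≤ 1 →
      |R ν ε - 2 * ε * (C0 * ν ^ ((s : ℝ) / k - 1))| ≤ ε * (C * pw J ((s : ℝ) - k - 1 / 24))) :
    ∃ ν₀ : ℝ, ∀ ν : ℝ, ν₀ ≤ ν → ∀ ε : ℝ, ν ^ (-(1 / (25 * k)) : ℝ) ≤ ε → ε ≤ 1 →
      |R ν ε - 2 * ε * (C0 * ν ^ ((s : ℝ) / k - 1))| ≤ ε * ν ^ ((s : ℝ) / k - 1 - 1 / (25 * k)) := by
  have hk0 : (0 : ℝ) < k := by exact_mod_cast (by omega : 0 < k)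
  have hk2 : (2 : ℝ) ≤ k := by exact_mod_cast hk
  have hsr : ((2 * k + 1 : ℕ) : ℝ) ≤ s := by exact_mod_cast hs
  push_cast at hsr
  obtain ⟨J₀, hJ₀⟩ := eventually_atTop.1 h
  obtain ⟨b, hb⟩ : ∃ b : ℝ, b = (s : ℝ) / k - 1 := ⟨_, rfl⟩
  have hb1 : 1 ≤ b := by
    rw [hb, le_sub_iff_add_le, le_div_iff₀ hk0]
    linarith
  have hkb : (k : ℝ) * b = s - k := by rw [hb]; field_simp
  obtain ⟨g, hg⟩ : ∃ g : ℝ, g = b - 1 / (24 * k) := ⟨_, rfl⟩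
  have hg0 : 0 ≤ g := by
    rw [hg]
    have : 1 / (24 * (k : ℝ)) ≤ 1 := by
      rw [div_le_one (by positivity)]
      linarith
    linarith
  have hdel : 0 < 1 / (24 * (k : ℝ)) - 1 / (25 * k) := by
    rw [sub_pos]
    apply one_div_lt_one_div_of_lt
    · positivity
    · nlinarith
  have ht := (tendsto_rpow_atTop hdel).eventually (eventually_ge_atTop (C * (2 ^ (k + 1) : ℝ) ^ g))
  obtain ⟨ν₁, hν₁⟩ := eventually_atTop.1 ht
  refine ⟨max (max 4 ν₁) ((2 ^ J₀) ^ k), ?_⟩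
  intro ν hν ε hε1 hε2
  have h4 : 4 ≤ ν := (le_max_left _ _).trans ((le_max_left _ _).trans hν)
  have h5 : ν₁ ≤ ν := (le_max_right _ _).trans ((le_max_left _ _).trans hν)
  have h6 : (2 ^ J₀) ^ k ≤ ν := (le_max_right _ _).trans hν
  have hν0 : 0 < ν := by linarith
  -- the choice of the scale
  have hex : ∃ J : ℕ, 2 * ν ≤ ((2 : ℝ) ^ J) ^ k := by
    obtain ⟨J, hJ⟩ := pow_unbounded_of_one_lt (2 * ν) (by norm_num : (1 : ℝ) < 2)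
    refine ⟨J, hJ.le.trans ?_⟩
    exact le_self_pow₀ (one_le_pow₀ (by norm_num)) (by omega)
  classical
  obtain ⟨J, hJe⟩ : ∃ J, J = Nat.find hex := ⟨_, rfl⟩
  have hJ1 : 2 * ν ≤ ((2 : ℝ) ^ J) ^ k := by rw [hJe]; exact Nat.find_spec hex
  have hJ2 : ∀ j, j < J → ((2 : ℝ) ^ j) ^ k < 2 * ν := by
    intro j hj
    rw [hJe] at hj
    exact not_le.1 (Nat.find_min hex hj)
  have hJJ₀ : J₀ ≤ J := by
    by_contra hcon
    push Not at hcon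
    have : ((2 : ℝ) ^ J) ^ k ≤ (2 ^ J₀) ^ k := by
      apply pow_le_pow_left₀ (by positivity)
      exact pow_le_pow_right₀ (by norm_num) hcon.le
    linarith
  have hJpos : 0 < J := by
    by_contra hcon
    have : J = 0 := by omega
    rw [this] at hJ1
    simp at hJ1
    linarith
  have hJ3 : ((2 : ℝ) ^ J) ^ k < 2 ^ (k + 1) * ν := by
    have h7 := hJ2 (J - 1) (by omega)
    have h8 : ((2 : ℝ) ^ J) ^ k = 2 ^ k * (2 ^ (J - 1)) ^ k := by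
      rw [← mul_pow]
      congr 1
      rw [← pow_succ']
      congr 1
      omega
    rw [h8, pow_succ]
    have : (0 : ℝ) < 2 ^ k := by positivity
    nlinarith
  have hMk : ((2 : ℝ) ^ J) ^ k = pw J k := (pw_nat J k).symm
  have h9 : ((2 : ℝ) ^ J) ^ k / 2 ^ (k + 2) ≤ ν / 2 := by
    rw [div_le_iff₀ (by positivity)]
    calc ((2 : ℝ) ^ J) ^ k ≤ 2 ^ (k + 1) * ν := hJ3.le
      _ = ν / 2 * 2 ^ (k + 2) := by ring
  have hc1 : ((2 : ℝ) ^ J) ^ k / 2 ^ (k + 2) ≤ ν - 2 := by linarith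
  have hc2 : ν + 2 ≤ ((2 : ℝ) ^ J) ^ k - ((2 : ℝ) ^ J) ^ k / 2 ^ (k + 2) := by linarith
  have hk1 : 1 / (25 * (k : ℝ)) ≤ 1 / (24 * k) := by linarith
  have hc3 : pw J (-(1 / 24)) ≤ ε := by
    refine le_trans ?_ hε1
    have e1 : pw J (-(1 / 24)) = (((2 : ℝ) ^ J) ^ k) ^ (-(1 / (24 * k)) : ℝ) := by
      rw [hMk, pw_rpow]
      congr 1
      field_simp
    rw [e1]
    calc (((2 : ℝ) ^ J) ^ k) ^ (-(1 / (24 * k)) : ℝ) ≤ ν ^ (-(1 / (24 * k)) : ℝ) := by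
          apply Real.rpow_le_rpow_of_nonpos hν0 (by linarith)
          rw [neg_nonpos]
          positivity
      _ ≤ ν ^ (-(1 / (25 * k)) : ℝ) := Real.rpow_le_rpow_of_exponent_le (by linarith) (by linarith)
  have hfin := hJ₀ J hJJ₀ ν ε hc1 hc2 hc3 hε2
  rw [← hb] at hfin ⊢
  refine hfin.trans ?_
  have hε0 : 0 < ε := (Real.rpow_pos_of_pos hν0 _).trans_le hε1
  apply mul_le_mul_of_nonneg_left _ hε0.le
  have e2 : pw J ((s : ℝ) - k - 1 / 24) = (((2 : ℝ) ^ J) ^ k) ^ g := by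
    rw [hMk, pw_rpow, hg, mul_sub, hkb]
    congr 1
    field_simp
  rw [e2]
  have h10 := hν₁ ν h5
  calc C * (((2 : ℝ) ^ J) ^ k) ^ g ≤ C * (2 ^ (k + 1) * ν) ^ g := by
        apply mul_le_mul_of_nonneg_left _ hC.le
        exact Real.rpow_le_rpow (by positivity) hJ3.le hg0
    _ = C * (2 ^ (k + 1) : ℝ) ^ g * ν ^ g := by
        rw [Real.mul_rpow (by positivity) hν0.le]
        ring
    _ ≤ ν ^ (1 / (24 * (k : ℝ)) - 1 / (25 * k)) * ν ^ g := by gcongr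
    _ = ν ^ (b - 1 / (25 * k)) := by
        rw [← Real.rpow_add hν0, hg]
        congr 1
        ring

lemma cone_sub (k J : ℕ) : cone s ∩ {v : Fin s → ℝ | Ph k v < (2 ^ J) ^ k} ⊆ dom 0 (2 ^ J) := by
  rintro v ⟨hv1, hv2⟩ i _
  have h1 : 0 < v i := hv1 i (Set.mem_univ i)
  have h2 : |v i| ^ k ≤ Ph k v := Finset.single_le_sum (f := fun i => |v i| ^ k) (fun i _ => by positivity) (mem_univ i)
  have h3 : |v i| ^ k < (2 ^ J) ^ k := lt_of_le_of_lt h2 hv2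
  have h4 : |v i| < 2 ^ J := lt_of_pow_lt_pow_left₀ k (by positivity) h3
  rw [abs_of_pos h1] at h4
  push_cast
  exact ⟨by linarith, by linarith⟩

lemma dom_sub (J : ℕ) : (dom 0 (2 ^ J) : Set (Fin s → ℝ)) ⊆ cone s := by
  intro v hv i hi
  have := (hv i hi).1
  simpa using this

lemma univ_sub (k J : ℕ) :
    Set.univ ∩ {v : Fin s → ℝ | Ph k v < (2 ^ J) ^ k} ⊆ dom (2 ^ J) (2 * 2 ^ J) := by
  rintro v ⟨_, hv2⟩ i _
  have h2 : |v i| ^ k ≤ Ph k v := Finset.single_le_sum (f := fun i => |v i| ^ k) (fun i _ => by positivity) (mem_univ i)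
  have h3 : |v i| ^ k < (2 ^ J) ^ k := lt_of_le_of_lt h2 hv2
  have h4 : |v i| < 2 ^ J := lt_of_pow_lt_pow_left₀ k (by positivity) h3
  rw [abs_lt] at h4
  push_cast
  exact ⟨by linarith, by linarith⟩

/-- the number of the solutions in positive integers -/
def numP (k s : ℕ) (θ : Fin s → ℝ) (ν ε : ℝ) : ℝ :=
  ({x : Fin s → ℕ | (∀ i, 1 ≤ x i) ∧ |∑ i, ((x i : ℝ) - θ i) ^ k - ν| ≤ ε}.ncard : ℝ)

/-- the number of the solutions in integers -/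
def numZ (k s : ℕ) (θ : Fin s → ℝ) (ν ε : ℝ) : ℝ :=
  ({m : Fin s → ℤ | |∑ i, |(m i : ℝ) - θ i| ^ k - ν| ≤ ε}.ncard : ℝ)

lemma setP_eq (k : ℕ) (J : ℕ) (θ : Fin s → ℝ) (hθ : ∀ i, θ i ∈ Set.Icc (0 : ℝ) 1) (ν ε : ℝ)
    (h : ν + ε < (2 ^ J) ^ k) :
    {x : Fin s → ℕ | (∀ i, 1 ≤ x i) ∧ |∑ i, ((x i : ℝ) - θ i) ^ k - ν| ≤ ε} =
      (((Fintype.piFinset (fun _ : Fin s => Ioc 0 (2 ^ J))).filter
      (fun x => |L (fun _ => ph k 0) θ x - ν| ≤ ε) : Finset (Fin s → ℕ)) : Set (Fin s → ℕ)) := by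
  ext x
  simp only [Set.mem_ofPred_eq, coe_filter, Fintype.mem_piFinset, mem_Ioc]
  have hL : (∀ i, 1 ≤ x i) → L (fun _ => ph k 0) θ x = ∑ i, ((x i : ℝ) - θ i) ^ k := by
    intro hx
    unfold L
    refine sum_congr rfl fun i _ => ?_
    rw [ph_apply]
    have h1 : (1 : ℝ) ≤ x i := by exact_mod_cast hx i
    rw [Nat.cast_zero, sub_zero, abs_of_nonneg (by linarith [(hθ i).2])]
  constructor
  · rintro ⟨hx1, hx2⟩
    rw [hL hx1]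
    refine ⟨fun i => ⟨hx1 i, ?_⟩, hx2⟩
    have hnn : ∀ i, 0 ≤ (x i : ℝ) - θ i := fun i => by
      have h1 : (1 : ℝ) ≤ x i := by exact_mod_cast hx1 i
      linarith [(hθ i).2]
    have h2 : ((x i : ℝ) - θ i) ^ k ≤ ∑ i, ((x i : ℝ) - θ i) ^ k :=
      single_le_sum (f := fun i => ((x i : ℝ) - θ i) ^ k) (fun i _ => pow_nonneg (hnn i) k) (mem_univ i)
    have h3 : ((x i : ℝ) - θ i) ^ k < (2 ^ J) ^ k := by
      have := (abs_le.1 hx2).2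
      linarith
    have h4 := lt_of_pow_lt_pow_left₀ k (by positivity) h3
    have h5 : (x i : ℝ) < 2 ^ J + 1 := by linarith [(hθ i).2]
    have h6 : x i < 2 ^ J + 1 := by exact_mod_cast h5
    omega
  · rintro ⟨hx1, hx2⟩
    have hx3 : ∀ i, 1 ≤ x i := fun i => (hx1 i).1
    rw [hL hx3] at hx2
    exact ⟨hx3, hx2⟩

lemma finP (k : ℕ) (hk : k ≠ 0) (θ : Fin s → ℝ) (hθ : ∀ i, θ i ∈ Set.Icc (0 : ℝ) 1) (ν ε : ℝ) :
    {x : Fin s → ℕ | (∀ i, 1 ≤ x i) ∧ |∑ i, ((x i : ℝ) - θ i) ^ k - ν| ≤ ε}.Finite := by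
  obtain ⟨J, hJ⟩ := pow_unbounded_of_one_lt (ν + ε) (by norm_num : (1 : ℝ) < 2)
  rw [setP_eq k J θ hθ ν ε (hJ.trans_le (le_self_pow₀ (one_le_pow₀ (by norm_num)) hk))]
  exact Finset.finite_toSet _

lemma numP_eq (k : ℕ) (J : ℕ) (θ : Fin s → ℝ) (hθ : ∀ i, θ i ∈ Set.Icc (0 : ℝ) 1) (ν ε : ℝ)
    (h : ν + ε < (2 ^ J) ^ k) :
    numP k s θ ν ε = (((Fintype.piFinset (fun _ : Fin s => Ioc 0 (2 ^ J))).filter
      (fun x => |L (fun _ => ph k 0) θ x - ν| ≤ ε)).card : ℝ) := by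
  unfold numP
  rw [setP_eq k J θ hθ ν ε h, Set.ncard_coe_finset]

lemma numZ_eq (k : ℕ) (J : ℕ) (θ : Fin s → ℝ) (hθ : ∀ i, θ i ∈ Set.Icc (0 : ℝ) 1) (ν ε : ℝ)
    (h : ν + ε < (2 ^ J) ^ k) :
    numZ k s θ ν ε = (((Fintype.piFinset (fun _ : Fin s => Ioc 0 (2 * 2 ^ J))).filter
      (fun x => |L (fun _ => ph k (2 ^ J)) θ x - ν| ≤ ε)).card : ℝ) := by
  unfold numZ
  obtain ⟨f, hf⟩ : ∃ f : (Fin s → ℕ) → (Fin s → ℤ), f = fun x i => (x i : ℤ) - 2 ^ J := ⟨_, rfl⟩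
  have hinj : Function.Injective f := by
    intro x y hxy
    funext i
    have h1 := congrFun hxy i
    rw [hf] at h1
    simp only at h1
    omega
  have hL : ∀ x : Fin s → ℕ, L (fun _ => ph k (2 ^ J)) θ x = ∑ i, |((f x i : ℤ) : ℝ) - θ i| ^ k := by
    intro x
    unfold L
    refine sum_congr rfl fun i _ => ?_
    rw [ph_apply, hf]
    push_cast
    rfl
  rw [← Set.ncard_coe_finset, ← Set.ncard_image_of_injective _ hinj]
  congr 2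
  ext m
  simp only [Set.mem_ofPred_eq, coe_filter, Fintype.mem_piFinset, mem_Ioc, Set.mem_image]
  constructor
  · intro hm
    have hmi : ∀ i, -(2 : ℤ) ^ J + 1 ≤ m i ∧ m i ≤ 2 ^ J := by
      intro i
      have h2 : |(m i : ℝ) - θ i| ^ k ≤ ∑ i, |(m i : ℝ) - θ i| ^ k :=
        single_le_sum (f := fun i => |(m i : ℝ) - θ i| ^ k) (fun i _ => by positivity) (mem_univ i)
      have h3 : |(m i : ℝ) - θ i| ^ k < (2 ^ J) ^ k := by
        have := (abs_le.1 hm).2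
        linarith
      have h4 := lt_of_pow_lt_pow_left₀ k (by positivity) h3
      rw [abs_lt] at h4
      have h5 : ((-(2 : ℤ) ^ J : ℤ) : ℝ) < m i := by
        push_cast
        linarith [h4.1, (hθ i).1]
      have h6 : (m i : ℝ) < (((2 : ℤ) ^ J + 1 : ℤ) : ℝ) := by
        push_cast
        linarith [h4.2, (hθ i).2]
      have h7 : -(2 : ℤ) ^ J < m i := by exact_mod_cast h5
      have h8 : m i < (2 : ℤ) ^ J + 1 := by exact_mod_cast h6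
      omega
    have hfm : f (fun i => (m i + 2 ^ J).toNat) = m := by
      rw [hf]
      funext i
      have h9 := hmi i
      simp only
      rw [Int.toNat_of_nonneg (by omega)]
      ring
    refine ⟨fun i => (m i + 2 ^ J).toNat, ⟨fun i => ?_, ?_⟩, hfm⟩
    · have h9 := hmi i
      have h10 : ((2 ^ J : ℕ) : ℤ) = 2 ^ J := by push_cast; rfl
      obtain ⟨M, hM⟩ : ∃ M : ℕ, M = 2 ^ J := ⟨_, rfl⟩
      rw [← h10, ← hM] at h9 ⊢
      simp only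
      omega
    · rw [hL, hfm]
      exact hm
  · rintro ⟨x, ⟨_, hx2⟩, rfl⟩
    rw [hL] at hx2
    exact hx2

/-- positive integers -/
theorem asym_pos (k s : ℕ) (hk : 2 ≤ k) (hs : 2 * k + 1 ≤ s) :
    ∀ᵐ θ ∂(box s 0 1), ∃ ν₀ : ℝ, ∀ ν : ℝ, ν₀ ≤ ν → ∀ ε : ℝ, ν ^ (-(1 / (25 * k)) : ℝ) ≤ ε → ε ≤ 1 →
      |numP k s θ ν ε - 2 * ε * (Real.Gamma (1 / k + 1) ^ s / Real.Gamma ((s : ℝ) / k) * ν ^ ((s : ℝ) / k - 1))| ≤
        ε * ν ^ ((s : ℝ) / k - 1 - 1 / (25 * k)) := by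
  obtain ⟨C, hC, h⟩ := main_J (s := s) k hk hs (fun _ => 0) (fun J => 2 ^ J) (fun J => Nat.zero_le _)
    (fun J => by omega) (cone s) meas_cone smul_cone (fun J => cone_sub k J) dom_sub
    (fun J θ R hR hθ => U_pos k hk J θ R hR hθ)
  have hbox : ∀ᵐ α ∂(box s 0 1), ∀ i, α i ∈ Set.Icc (0 : ℝ) 1 := by
    rw [box_eq]
    filter_upwards [ae_restrict_mem (MeasurableSet.univ_pi fun _ => measurableSet_Icc)] with α hα i
    exact hα i (Set.mem_univ i)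
  filter_upwards [h, hbox] with θ hθ hθ2
  rw [← const_cone k (by omega) (by omega : s ≠ 0)]
  refine to_nu k hk hs _ C hC (numP k s θ) ?_
  filter_upwards [hθ] with J hJ
  intro ν ε h1 h2 h3 h4
  have h5 := hJ ν ε h1 h2 h3 h4
  rwa [numP_eq k J θ hθ2 ν ε]
  have : (0 : ℝ) < (2 ^ J) ^ k / 2 ^ (k + 2) := by positivity
  linarith

/-- integers -/
theorem asym_int (k s : ℕ) (hk : 2 ≤ k) (hs : 2 * k + 1 ≤ s) :
    ∀ᵐ θ ∂(box s 0 1), ∃ ν₀ : ℝ, ∀ ν : ℝ, ν₀ ≤ ν → ∀ ε : ℝ, ν ^ (-(1 / (25 * k)) : ℝ) ≤ ε → ε ≤ 1 →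
      |numZ k s θ ν ε - 2 * ε * ((2 * Real.Gamma (1 / k + 1)) ^ s / Real.Gamma ((s : ℝ) / k) * ν ^ ((s : ℝ) / k - 1))| ≤
        ε * ν ^ ((s : ℝ) / k - 1 - 1 / (25 * k)) := by
  obtain ⟨C, hC, h⟩ := main_J (s := s) k hk hs (fun J => 2 ^ J) (fun J => 2 * 2 ^ J) (fun J => by omega)
    (fun J => le_rfl) Set.univ MeasurableSet.univ (by simp) (fun J => univ_sub k J) (fun J => Set.subset_univ _)
    (fun J θ R hR hθ => U_int k hk J θ R hR hθ)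
  have hbox : ∀ᵐ α ∂(box s 0 1), ∀ i, α i ∈ Set.Icc (0 : ℝ) 1 := by
    rw [box_eq]
    filter_upwards [ae_restrict_mem (MeasurableSet.univ_pi fun _ => measurableSet_Icc)] with α hα i
    exact hα i (Set.mem_univ i)
  filter_upwards [h, hbox] with θ hθ hθ2
  rw [← const_univ k (by omega) (by omega : s ≠ 0)]
  refine to_nu k hk hs _ C hC (numZ k s θ) ?_
  filter_upwards [hθ] with J hJ
  intro ν ε h1 h2 h3 h4
  have h5 := hJ ν ε h1 h2 h3 h4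
  rwa [numZ_eq k J θ hθ2 ν ε]
  have : (0 : ℝ) < (2 ^ J) ^ k / 2 ^ (k + 2) := by positivity
  linarith

/-- the numbers with a given integer part -/
theorem floor_pos (k s : ℕ) (hk : 2 ≤ k) (hs : 2 * k + 1 ≤ s) (θ : Fin s → ℝ) (hθ : ∀ i, θ i ∈ Set.Icc (0 : ℝ) 1)
    (C0 : ℝ) (hC0 : 0 < C0)
    (h : ∃ ν₀ : ℝ, ∀ ν : ℝ, ν₀ ≤ ν → ∀ ε : ℝ, ν ^ (-(1 / (25 * k)) : ℝ) ≤ ε → ε ≤ 1 →
      |numP k s θ ν ε - 2 * ε * (C0 * ν ^ ((s : ℝ) / k - 1))| ≤ ε * ν ^ ((s : ℝ) / k - 1 - 1 / (25 * k))) :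
    ∀ᶠ n : ℕ in atTop, |(({x : Fin s → ℕ | (∀ i, 1 ≤ x i) ∧ ⌊∑ i, ((x i : ℝ) - θ i) ^ k⌋₊ = n}.ncard : ℕ) : ℝ) -
      C0 * (n : ℝ) ^ ((s : ℝ) / k - 1)| ≤ (n : ℝ) ^ ((s : ℝ) / k - 1 - 1 / (30 * k)) := by
  have hk0 : (0 : ℝ) < k := by exact_mod_cast (by omega : 0 < k)
  have hk2 : (2 : ℝ) ≤ k := by exact_mod_cast hk
  have hsr : ((2 * k + 1 : ℕ) : ℝ) ≤ s := by exact_mod_cast hs
  push_cast at hsr
  obtain ⟨b, hb⟩ : ∃ b : ℝ, b = (s : ℝ) / k - 1 := ⟨_, rfl⟩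
  have hb1 : 1 ≤ b := by
    rw [hb, le_sub_iff_add_le, le_div_iff₀ hk0]
    linarith
  rw [← hb] at h ⊢
  obtain ⟨ν₀, hν₀⟩ := h
  obtain ⟨δ, hδ⟩ : ∃ δ : ℝ, δ = 1 / (25 * (k : ℝ)) := ⟨_, rfl⟩
  have hδ0 : 0 < δ := by rw [hδ]; positivity
  have hδ1 : δ ≤ 1 := by
    rw [hδ, div_le_one (by positivity)]
    linarith
  have hdel : 0 < δ - 1 / (30 * k) := by
    rw [hδ, sub_pos]
    apply one_div_lt_one_div_of_lt
    · positivity
    · nlinarith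
  rw [← hδ] at hν₀
  obtain ⟨C, hC⟩ : ∃ C : ℝ, C = C0 * b * 2 ^ (b - 1) + 2 ^ (b - δ) + (2 * C0 + 1) * 2 ^ (b - δ) := ⟨_, rfl⟩
  have ht := ((tendsto_rpow_atTop hdel).comp tendsto_natCast_atTop_atTop).eventually (eventually_ge_atTop C)
  have ht2 : Tendsto (fun ν : ℝ => ν ^ (-δ)) atTop (nhds 0) := tendsto_rpow_neg_atTop hδ0
  have ht3 := (ht2.comp (tendsto_atTop_add_const_right _ (1 / 2 : ℝ) tendsto_natCast_atTop_atTop)).eventually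
    (ge_mem_nhds (by norm_num : (0 : ℝ) < 1 / 2))
  filter_upwards [ht, ht3, eventually_ge_atTop 1, eventually_ge_atTop ⌈ν₀⌉₊] with n h1 h2 h3 h4
  simp only [Function.comp_apply] at h1 h2
  have hn1 : (1 : ℝ) ≤ n := by exact_mod_cast h3
  have hn0 : (0 : ℝ) < n := by linarith
  have hnν : ν₀ ≤ n := (Nat.le_ceil ν₀).trans (by exact_mod_cast h4)
  obtain ⟨A, hA⟩ : ∃ A, A = {x : Fin s → ℕ | (∀ i, 1 ≤ x i) ∧ ⌊∑ i, ((x i : ℝ) - θ i) ^ k⌋₊ = n} := ⟨_, rfl⟩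
  obtain ⟨B, hB⟩ : ∃ B, B = {x : Fin s → ℕ | (∀ i, 1 ≤ x i) ∧ |∑ i, ((x i : ℝ) - θ i) ^ k - ((n : ℝ) + 1 / 2)| ≤ 1 / 2} := ⟨_, rfl⟩
  obtain ⟨e, he⟩ : ∃ e : ℝ, e = ((n : ℝ) + 1) ^ (-δ) := ⟨_, rfl⟩
  obtain ⟨D, hD⟩ : ∃ D, D = {x : Fin s → ℕ | (∀ i, 1 ≤ x i) ∧ |∑ i, ((x i : ℝ) - θ i) ^ k - ((n : ℝ) + 1)| ≤ e} := ⟨_, rfl⟩
  have he0 : 0 < e := by rw [he]; positivity
  have he1 : e ≤ 1 := by
    rw [he]
    exact Real.rpow_le_one_of_one_le_of_nonpos (by linarith) (by linarith)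
  have hBf : B.Finite := by rw [hB]; exact finP k (by omega) θ hθ _ _
  have hDf : D.Finite := by rw [hD]; exact finP k (by omega) θ hθ _ _
  have hAB : A ⊆ B := by
    intro x hx
    rw [hA] at hx
    rw [hB]
    refine ⟨hx.1, ?_⟩
    have hx2 := hx.2
    have hnn : 0 ≤ ∑ i, ((x i : ℝ) - θ i) ^ k := sum_nonneg fun i _ => pow_nonneg (by
      have g1 : (1 : ℝ) ≤ x i := by exact_mod_cast hx.1 i
      linarith [(hθ i).2]) k
    rw [Nat.floor_eq_iff hnn] at hx2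
    rw [abs_le]
    exact ⟨by linarith [hx2.1], by linarith [hx2.2]⟩
  have hBAD : B \ A ⊆ D := by
    rintro x ⟨hx1, hx2⟩
    rw [hB] at hx1
    rw [hA] at hx2
    rw [hD]
    refine ⟨hx1.1, ?_⟩
    have g1 := abs_le.1 hx1.2
    have hnn : 0 ≤ ∑ i, ((x i : ℝ) - θ i) ^ k := by linarith
    have g2 : ¬ (∑ i, ((x i : ℝ) - θ i) ^ k < (n : ℝ) + 1) := by
      intro hlt
      apply hx2
      refine ⟨hx1.1, ?_⟩
      rw [Nat.floor_eq_iff hnn]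
      exact ⟨by linarith, hlt⟩
    have g3 : ∑ i, ((x i : ℝ) - θ i) ^ k - ((n : ℝ) + 1) = 0 := by
      push Not at g2
      linarith
    rw [g3, abs_zero]
    exact he0.le
  have hle1 : (A.ncard : ℝ) ≤ B.ncard := by exact_mod_cast Set.ncard_le_ncard hAB hBf
  have hle2 : (B.ncard : ℝ) ≤ A.ncard + D.ncard := by
    have g1 : B.ncard ≤ (B \ A).ncard + A.ncard := Set.ncard_le_ncard_sdiff_add_ncard B A (hBf.subset hAB)
    have g2 : (B \ A).ncard ≤ D.ncard := Set.ncard_le_ncard hBAD hDf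
    exact_mod_cast (by omega : B.ncard ≤ A.ncard + D.ncard)
  have hBn : (B.ncard : ℝ) = numP k s θ ((n : ℝ) + 1 / 2) (1 / 2) := by rw [hB]; rfl
  have hDn : (D.ncard : ℝ) = numP k s θ ((n : ℝ) + 1) e := by rw [hD]; rfl
  have q1 := hν₀ ((n : ℝ) + 1 / 2) (by linarith) (1 / 2) h2 (by norm_num)
  have q2 := hν₀ ((n : ℝ) + 1) (by linarith) e (by rw [he]) he1
  rw [← hBn] at q1
  rw [← hDn] at q2
  have hbd : 0 ≤ b - δ := by linarith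
  have r1 : ((n : ℝ) + 1 / 2) ^ (b - δ) ≤ 2 ^ (b - δ) * (n : ℝ) ^ (b - δ) := by
    rw [← Real.mul_rpow (by norm_num) hn0.le]
    exact Real.rpow_le_rpow (by linarith) (by linarith) hbd
  have r2 : ((n : ℝ) + 1) ^ (b - δ) ≤ 2 ^ (b - δ) * (n : ℝ) ^ (b - δ) := by
    rw [← Real.mul_rpow (by norm_num) hn0.le]
    exact Real.rpow_le_rpow (by linarith) (by linarith) hbd
  have r3 : |((n : ℝ) + 1 / 2) ^ b - (n : ℝ) ^ b| ≤ b * 2 ^ (b - 1) * (n : ℝ) ^ (b - δ) := by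
    have g1 := rpow_lip (T := 2 * n) hb1 (by linarith : (0 : ℝ) ≤ (n : ℝ) + 1 / 2) (by linarith) hn0.le (by linarith)
    refine g1.trans ?_
    rw [show (n : ℝ) + 1 / 2 - n = 1 / 2 by ring, abs_of_pos (by norm_num : (0 : ℝ) < 1 / 2),
      Real.mul_rpow (by norm_num) hn0.le]
    have g2 : (n : ℝ) ^ (b - 1) ≤ (n : ℝ) ^ (b - δ) := Real.rpow_le_rpow_of_exponent_le hn1 (by linarith)
    have g3 : 0 ≤ b * 2 ^ (b - 1) := by positivity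
    have g4 : 0 < (n : ℝ) ^ (b - 1) := by positivity
    calc b * (2 ^ (b - 1) * (n : ℝ) ^ (b - 1)) * (1 / 2) = (b * 2 ^ (b - 1)) * (1 / 2 * (n : ℝ) ^ (b - 1)) := by ring
      _ ≤ (b * 2 ^ (b - 1)) * (n : ℝ) ^ (b - δ) := by
          apply mul_le_mul_of_nonneg_left _ g3
          linarith
  have r4 : (D.ncard : ℝ) ≤ (2 * C0 + 1) * (2 ^ (b - δ) * (n : ℝ) ^ (b - δ)) := by
    have g1 := (abs_le.1 q2).2
    have g2 : e * ((n : ℝ) + 1) ^ b = ((n : ℝ) + 1) ^ (b - δ) := by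
      rw [he, ← Real.rpow_add (by linarith)]
      congr 1
      ring
    have g3 : e * ((n : ℝ) + 1) ^ (b - δ) ≤ ((n : ℝ) + 1) ^ (b - δ) := by
      have : 0 < ((n : ℝ) + 1) ^ (b - δ) := by positivity
      nlinarith
    calc (D.ncard : ℝ) ≤ 2 * C0 * (e * ((n : ℝ) + 1) ^ b) + e * ((n : ℝ) + 1) ^ (b - δ) := by linarith
      _ ≤ 2 * C0 * ((n : ℝ) + 1) ^ (b - δ) + ((n : ℝ) + 1) ^ (b - δ) := by rw [g2]; linarith
      _ = (2 * C0 + 1) * ((n : ℝ) + 1) ^ (b - δ) := by ring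
      _ ≤ _ := by gcongr
  have r5 : |(B.ncard : ℝ) - C0 * ((n : ℝ) + 1 / 2) ^ b| ≤ 2 ^ (b - δ) * (n : ℝ) ^ (b - δ) := by
    have g1 : 2 * (1 / 2 : ℝ) * (C0 * ((n : ℝ) + 1 / 2) ^ b) = C0 * ((n : ℝ) + 1 / 2) ^ b := by ring
    rw [g1] at q1
    have : 0 < ((n : ℝ) + 1 / 2) ^ (b - δ) := by positivity
    linarith
  have r6 : |C0 * ((n : ℝ) + 1 / 2) ^ b - C0 * (n : ℝ) ^ b| ≤ C0 * (b * 2 ^ (b - 1) * (n : ℝ) ^ (b - δ)) := by
    rw [← mul_sub, abs_mul, abs_of_pos hC0]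
    exact mul_le_mul_of_nonneg_left r3 hC0.le
  have hfin : |(A.ncard : ℝ) - C0 * (n : ℝ) ^ b| ≤ C * (n : ℝ) ^ (b - δ) := by
    have g1 : C * (n : ℝ) ^ (b - δ) = C0 * (b * 2 ^ (b - 1) * (n : ℝ) ^ (b - δ)) + 2 ^ (b - δ) * (n : ℝ) ^ (b - δ) +
        (2 * C0 + 1) * (2 ^ (b - δ) * (n : ℝ) ^ (b - δ)) := by rw [hC]; ring
    rw [g1]
    have g2 := abs_le.1 r5
    have g3 := abs_le.1 r6
    have g4 : 0 ≤ (D.ncard : ℝ) := Nat.cast_nonneg _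
    rw [abs_le]
    constructor
    · linarith [g2.1, g3.1]
    · linarith [g2.2, g3.2]
  rw [← hA]
  refine hfin.trans ?_
  calc C * (n : ℝ) ^ (b - δ) ≤ (n : ℝ) ^ (δ - 1 / (30 * k)) * (n : ℝ) ^ (b - δ) := by gcongr
    _ = _ := by
        rw [← Real.rpow_add hn0]
        congr 1
        ring

/-- translations of the centre -/
lemma numZ_add (k : ℕ) (θ : Fin s → ℝ) (a : Fin s → ℤ) (ν ε : ℝ) :
    numZ k s (fun i => θ i - a i) ν ε = numZ k s θ ν ε := by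
  unfold numZ
  obtain ⟨f, hf⟩ : ∃ f : (Fin s → ℤ) → (Fin s → ℤ), f = fun m i => m i + a i := ⟨_, rfl⟩
  have hinj : Function.Injective f := by
    intro x y hxy
    funext i
    have h1 := congrFun hxy i
    rw [hf] at h1
    simp only at h1
    omega
  rw [← Set.ncard_image_of_injective _ hinj]
  congr 2
  ext m
  simp only [Set.mem_ofPred_eq, Set.mem_image]
  constructor
  · rintro ⟨x, hx, rfl⟩
    rw [hf]
    have : ∑ i, |((x i + a i : ℤ) : ℝ) - θ i| ^ k = ∑ i, |(x i : ℝ) - (θ i - a i)| ^ k := by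
      refine sum_congr rfl fun i _ => ?_
      congr 2
      push_cast
      ring
    rw [this]
    exact hx
  · intro hm
    refine ⟨fun i => m i - a i, ?_, ?_⟩
    · have : ∑ i, |((m i - a i : ℤ) : ℝ) - (θ i - a i)| ^ k = ∑ i, |(m i : ℝ) - θ i| ^ k := by
        refine sum_congr rfl fun i _ => ?_
        congr 2
        push_cast
        ring
      rw [this]
      exact hm
    · rw [hf]
      funext i
      simp

/-- from the unit cube to the space -/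
lemma all_centres (P : (Fin s → ℝ) → Prop) (hP : ∀ θ : Fin s → ℝ, ∀ a : Fin s → ℤ, P (fun i => θ i - a i) → P θ)
    (h : ∀ᵐ θ ∂(box s 0 1), P θ) : ∀ᵐ θ : Fin s → ℝ, P θ := by
  rw [box_eq, ae_restrict_iff' (MeasurableSet.univ_pi fun _ => measurableSet_Icc)] at h
  have h1 : ∀ a : Fin s → ℤ, ∀ᵐ θ : Fin s → ℝ, (fun i => θ i - (a i : ℝ)) ∈ Set.pi Set.univ (fun _ : Fin s => Set.Icc (0 : ℝ) 1) →
      P (fun i => θ i - a i) := by
    intro a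
    exact (measurePreserving_sub_right volume (fun i => (a i : ℝ))).quasiMeasurePreserving.ae h
  filter_upwards [ae_all_iff.2 h1] with θ hθ
  refine hP θ (fun i => ⌊θ i⌋) (hθ (fun i => ⌊θ i⌋) ?_)
  intro i _
  exact ⟨by linarith [Int.floor_le (θ i)], by linarith [Int.lt_floor_add_one (θ i)]⟩

/-- integers, all centres -/
theorem asym_centres (k s : ℕ) (hk : 2 ≤ k) (hs : 2 * k + 1 ≤ s) :
    ∀ᵐ θ : Fin s → ℝ, ∃ ν₀ : ℝ, ∀ ν : ℝ, ν₀ ≤ ν → ∀ ε : ℝ, ν ^ (-(1 / (25 * k)) : ℝ) ≤ ε → ε ≤ 1 →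
      |numZ k s θ ν ε - 2 * ε * ((2 * Real.Gamma (1 / k + 1)) ^ s / Real.Gamma ((s : ℝ) / k) * ν ^ ((s : ℝ) / k - 1))| ≤
        ε * ν ^ ((s : ℝ) / k - 1 - 1 / (25 * k)) := by
  refine all_centres _ ?_ (asym_int k s hk hs)
  intro θ a h
  simp only [numZ_add] at h
  exact h

end

end Pool.Agent.Run7.h927.WS
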