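import Pool.Agent.Run7.h927.WS.L4
import Pool.Agent.Run7.h927.WS.ZB
set_option autoImplicit false

/-! The asymptotic formula for almost all numbers: all scales. -/

namespace Pool.Agent.Run7.h927.WS

open MeasureTheory Finset Filter

noncomputable section

variable {s : ℕ}

/-- the asymptotic formula fails somewhere in `[m, m+1]` -/
def Bad (k s : ℕ) (C0 : ℝ) (R : ℝ → ℝ → ℝ) (m : ℕ) : Prop :=
  ∃ ν ∈ Set.Icc (m : ℝ) (m + 1), ∃ ε : ℝ, ν ^ (-(1 / (50 * k)) : ℝ) ≤ ε ∧ ε ≤ 1 ∧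
    ε * ν ^ ((s : ℝ) / k - 1 - 1 / (50 * k)) < |R ν ε - 2 * ε * (C0 * ν ^ ((s : ℝ) / k - 1))|

lemma J_absorb (C : ℝ) (hC : 0 ≤ C) {x : ℝ} (hx : 0 < x) : ∀ᶠ J : ℕ in atTop, ((J : ℝ) + 1) * C ≤ pw J x := by
  filter_upwards [fac_absorb 1 (x := x / 2) (by linarith), pw_absorb C (show (0 : ℝ) < x / 2 by linarith)] with J h1 h2
  rw [pw_zero, mul_one] at h2
  rw [pow_one] at h1
  have h4 : (0 : ℝ) ≤ J := Nat.cast_nonneg J
  have hf : (J : ℝ) + 1 ≤ fac J := by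
    unfold fac
    have hL : 0 ≤ Real.log (2 ^ J : ℕ) := Real.log_natCast_nonneg _
    have h3 : 1 ≤ √(3 + 2 * Real.log (2 ^ J : ℕ)) := Real.one_le_sqrt.2 (by linarith)
    nlinarith
  have hJ : (J : ℝ) + 1 ≤ pw J (x / 2) := by linarith
  have h5 : pw J x = pw J (x / 2) * pw J (x / 2) := by
    rw [← pw_add]
    congr 1
    ring
  rw [h5]
  exact mul_le_mul hJ h2 hC (pw_pos _ _).le

lemma pw_mono_J {J J' : ℕ} (h : J ≤ J') {x : ℝ} (hx : 0 ≤ x) : pw J x ≤ pw J' x := by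
  unfold pw
  apply Real.rpow_le_rpow_of_exponent_le (by norm_num)
  have : (J : ℝ) ≤ J' := by exact_mod_cast h
  exact mul_le_mul_of_nonneg_right this hx

/-- a scale for every integer -/
lemma scale_ex (k : ℕ) (hk : k ≠ 0) (m : ℕ) : ∃ J : ℕ, 2 * ((m : ℝ) + 1) ≤ ((2 : ℝ) ^ J) ^ k := by
  obtain ⟨J, hJ⟩ := pow_unbounded_of_one_lt (2 * ((m : ℝ) + 1)) (by norm_num : (1 : ℝ) < 2)
  refine ⟨J, hJ.le.trans ?_⟩
  exact le_self_pow₀ (one_le_pow₀ (by norm_num)) hk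

open Classical in
/-- the number of the exceptional integers -/
theorem to_N (k : ℕ) (hk : 2 ≤ k) (hs : k < s) (C0 C : ℝ) (hC : 0 < C) (R : ℝ → ℝ → ℝ)
    (h : ∀ᶠ J : ℕ in atTop, ∀ Z : Finset ℕ,
      (∀ m ∈ Z, (2 ^ J) ^ k / 2 ^ (k + 2) ≤ (m : ℝ) - 2 ∧ (m : ℝ) + 3 ≤ (2 ^ J) ^ k - (2 ^ J) ^ k / 2 ^ (k + 2) ∧
        ∃ ν ∈ Set.Icc (m : ℝ) (m + 1), ∃ ε : ℝ, pw J (-(1 / 48)) ≤ ε ∧ ε ≤ 1 ∧ ε * (C * pw J ((s : ℝ) - k - 1 / 48)) <
          |R ν ε - 2 * ε * (C0 * ν ^ ((s : ℝ) / k - 1))|) →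
      (Z.card : ℝ) ≤ C * pw J ((k : ℝ) - 1 / 16)) :
    ∀ᶠ N : ℕ in atTop, (((range (N + 1)).filter (fun m => Bad k s C0 R m)).card : ℝ) ≤ (N : ℝ) ^ (1 - 1 / (17 * k) : ℝ) := by
  have hk0 : (0 : ℝ) < k := by exact_mod_cast (by omega : 0 < k)
  have hk2 : (2 : ℝ) ≤ k := by exact_mod_cast hk
  have hsr : ((k + 1 : ℕ) : ℝ) ≤ s := by exact_mod_cast hs
  push_cast at hsr
  obtain ⟨J₀, hJ₀⟩ := eventually_atTop.1 h
  obtain ⟨b, hb⟩ : ∃ b : ℝ, b = (s : ℝ) / k - 1 := ⟨_, rfl⟩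
  have hkb : (k : ℝ) * b = s - k := by rw [hb]; field_simp
  have hb1 : 1 / k ≤ b := by
    rw [div_le_iff₀ hk0]
    linarith
  obtain ⟨g, hg⟩ : ∃ g : ℝ, g = b - 1 / (48 * k) := ⟨_, rfl⟩
  have hg0 : 0 ≤ g := by
    rw [hg]
    have : 1 / (48 * (k : ℝ)) ≤ 1 / k := by
      apply one_div_le_one_div_of_le hk0
      linarith
    linarith
  have hdel : 0 < 1 / (48 * (k : ℝ)) - 1 / (50 * k) := by
    rw [sub_pos]
    apply one_div_lt_one_div_of_lt
    · positivity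
    · nlinarith
  have ht := (tendsto_rpow_atTop hdel).eventually (eventually_ge_atTop (C * (2 ^ (k + 2) : ℝ) ^ g))
  obtain ⟨ν₁, hν₁⟩ := eventually_atTop.1 ht
  have hJf : ∀ m : ℕ, ∃ J : ℕ, 2 * ((m : ℝ) + 1) ≤ ((2 : ℝ) ^ J) ^ k ∧ ∀ j, 2 * ((m : ℝ) + 1) ≤ ((2 : ℝ) ^ j) ^ k → J ≤ j := by
    intro m
    exact ⟨Nat.find (scale_ex k (by omega) m), Nat.find_spec (scale_ex k (by omega) m), fun j hj => Nat.find_min' _ hj⟩
  choose Jf hJf1 hJf2 using hJf
  have hup : ∀ m : ℕ, ((2 : ℝ) ^ Jf m) ^ k < 2 ^ (k + 1) * ((m : ℝ) + 1) := by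
    intro m
    have hpos : 0 < Jf m := by
      by_contra hcon
      have h0 : Jf m = 0 := by omega
      have h1 := hJf1 m
      rw [h0] at h1
      have hm0 : (0 : ℝ) ≤ m := Nat.cast_nonneg m
      simp at h1
      linarith
    have h7 : ((2 : ℝ) ^ (Jf m - 1)) ^ k < 2 * ((m : ℝ) + 1) := by
      by_contra hcon
      push Not at hcon
      have := hJf2 m (Jf m - 1) hcon
      omega
    have h8 : ((2 : ℝ) ^ Jf m) ^ k = 2 ^ k * (2 ^ (Jf m - 1)) ^ k := by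
      rw [← mul_pow]
      congr 1
      rw [← pow_succ']
      congr 1
      omega
    rw [h8, pow_succ]
    have : (0 : ℝ) < 2 ^ k := by positivity
    nlinarith
  obtain ⟨m₀, hm₀⟩ : ∃ m₀ : ℕ, m₀ = max 5 (max ⌈ν₁⌉₊ ((2 ^ J₀) ^ k)) := ⟨_, rfl⟩
  have hm5 : 5 ≤ m₀ := by rw [hm₀]; exact le_max_left _ _
  have hmν : ⌈ν₁⌉₊ ≤ m₀ := by rw [hm₀]; exact (le_max_left _ _).trans (le_max_right _ _)
  have hmJ : (2 ^ J₀) ^ k ≤ m₀ := by rw [hm₀]; exact (le_max_right _ _).trans (le_max_right _ _)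
  -- large scales
  have hJlarge : ∀ (j m : ℕ), (2 ^ j) ^ k ≤ m → j ≤ Jf m := by
    intro j m hjm
    by_contra hcon
    push Not at hcon
    have h1 := hJf1 m
    have h2 : ((2 : ℝ) ^ Jf m) ^ k ≤ (2 ^ j) ^ k := by
      apply pow_le_pow_left₀ (by positivity)
      exact pow_le_pow_right₀ (by norm_num) hcon.le
    have h3 : (((2 ^ j) ^ k : ℕ) : ℝ) ≤ m := by exact_mod_cast hjm
    push_cast at h3
    have hm0 : (0 : ℝ) ≤ m := Nat.cast_nonneg m
    linarith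
  -- one scale
  have hone : ∀ (N J : ℕ), (((range (N + 1)).filter (fun m => Bad k s C0 R m ∧ m₀ ≤ m ∧ Jf m = J)).card : ℝ) ≤
      C * pw J ((k : ℝ) - 1 / 16) := by
    intro N J
    rcases lt_or_ge J J₀ with hJ | hJ
    · have hemp : (range (N + 1)).filter (fun m => Bad k s C0 R m ∧ m₀ ≤ m ∧ Jf m = J) = ∅ := by
        rw [filter_eq_empty_iff]
        rintro m _ ⟨_, h2, h3⟩
        have := hJlarge J₀ m (hmJ.trans h2)
        omega
      rw [hemp]
      have := pw_pos J ((k : ℝ) - 1 / 16)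
      simp only [card_empty, Nat.cast_zero]
      positivity
    · apply hJ₀ J hJ
      intro m hm
      rw [mem_filter] at hm
      obtain ⟨_, ⟨ν, hν, ε, hε1, hε2, hbad⟩, hmm, hJm⟩ := hm
      have h1 := hJf1 m
      have h2 := hup m
      rw [hJm] at h1 h2
      obtain ⟨T, hT⟩ : ∃ T : ℝ, T = ((2 : ℝ) ^ J) ^ k := ⟨_, rfl⟩
      rw [← hT] at h1 h2 ⊢
      have hm5r : (5 : ℝ) ≤ m := by exact_mod_cast hm5.trans hmm
      have hTpos : 0 < T := by rw [hT]; positivity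
      have h9 : T / 2 ^ (k + 2) ≤ ((m : ℝ) + 1) / 2 := by
        rw [div_le_iff₀ (by positivity)]
        calc T ≤ 2 ^ (k + 1) * ((m : ℝ) + 1) := h2.le
          _ = ((m : ℝ) + 1) / 2 * 2 ^ (k + 2) := by ring
      have hMk : T = pw J k := by rw [hT]; exact (pw_nat J k).symm
      have hν0 : 0 < ν := by linarith [hν.1]
      have hν1 : 1 ≤ ν := by linarith [hν.1]
      refine ⟨by linarith, by linarith, ν, hν, ε, ?_, hε2, ?_⟩
      · refine le_trans ?_ hε1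
        have e1 : pw J (-(1 / 48)) = T ^ (-(1 / (48 * k)) : ℝ) := by
          rw [hMk, pw_rpow]
          congr 1
          field_simp
        rw [e1]
        calc T ^ (-(1 / (48 * k)) : ℝ) ≤ ν ^ (-(1 / (48 * k)) : ℝ) := by
              apply Real.rpow_le_rpow_of_nonpos hν0 (by linarith [hν.2])
              rw [neg_nonpos]
              positivity
          _ ≤ ν ^ (-(1 / (50 * k)) : ℝ) := Real.rpow_le_rpow_of_exponent_le hν1 (by linarith)
      · refine lt_of_le_of_lt ?_ hbad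
        have hε0 : 0 < ε := (Real.rpow_pos_of_pos hν0 _).trans_le hε1
        apply mul_le_mul_of_nonneg_left _ hε0.le
        have e2 : pw J ((s : ℝ) - k - 1 / 48) = T ^ g := by
          rw [hMk, pw_rpow, hg, mul_sub, hkb]
          congr 1
          field_simp
        rw [e2, ← hb]
        have hνν : ν₁ ≤ ν := (Nat.le_ceil ν₁).trans ((by exact_mod_cast hmν.trans hmm : (⌈ν₁⌉₊ : ℝ) ≤ m).trans hν.1)
        have h10 := hν₁ ν hνν
        have h11 : T ≤ 2 ^ (k + 2) * ν := by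
          calc T ≤ 2 ^ (k + 1) * ((m : ℝ) + 1) := h2.le
            _ ≤ 2 ^ (k + 1) * (2 * ν) := by
                have : (m : ℝ) + 1 ≤ 2 * ν := by linarith [hν.1]
                gcongr
            _ = _ := by ring
        calc C * T ^ g ≤ C * (2 ^ (k + 2) * ν) ^ g := by
              apply mul_le_mul_of_nonneg_left _ hC.le
              exact Real.rpow_le_rpow (by positivity) h11 hg0
          _ = C * (2 ^ (k + 2) : ℝ) ^ g * ν ^ g := by
              rw [Real.mul_rpow (by positivity) hν0.le]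
              ring
          _ ≤ ν ^ (1 / (48 * (k : ℝ)) - 1 / (50 * k)) * ν ^ g := by gcongr
          _ = ν ^ (b - 1 / (50 * k)) := by
              rw [← Real.rpow_add hν0, hg]
              congr 1
              ring
  -- all scales
  obtain ⟨p, hp⟩ : ∃ p : ℝ, p = 1 - 2 / (33 * k) := ⟨_, rfl⟩
  have hp0 : 0 ≤ p := by
    rw [hp, sub_nonneg, div_le_one (by positivity)]
    linarith
  have hpq : 0 < (1 - 1 / (17 * k)) - p := by
    rw [hp]
    have : (1 - 1 / (17 * (k : ℝ))) - (1 - 2 / (33 * k)) = 1 / (561 * k) := by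
      field_simp
      ring
    rw [this]
    positivity
  obtain ⟨J₁, hJ₁⟩ := eventually_atTop.1 (J_absorb C hC.le (show (0 : ℝ) < 1 / 528 by norm_num))
  have ht2 := ((tendsto_rpow_atTop hpq).comp tendsto_natCast_atTop_atTop).eventually
    (eventually_ge_atTop ((m₀ : ℝ) + (2 ^ (k + 2) : ℝ) ^ p))
  filter_upwards [ht2, eventually_ge_atTop 1, eventually_ge_atTop ((2 ^ J₁) ^ k)] with N hN1 hN2 hN3
  simp only [Function.comp_apply] at hN1
  have hNr : (1 : ℝ) ≤ N := by exact_mod_cast hN2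
  have hN0 : (0 : ℝ) < N := by linarith
  have hJN := hJlarge J₁ N hN3
  have hsub : (range (N + 1)).filter (fun m => Bad k s C0 R m) ⊆ range m₀ ∪
      (range (Jf N + 1)).biUnion (fun J => (range (N + 1)).filter (fun m => Bad k s C0 R m ∧ m₀ ≤ m ∧ Jf m = J)) := by
    intro m hm
    rw [mem_filter, mem_range] at hm
    rw [mem_union, mem_range, mem_biUnion]
    rcases lt_or_ge m m₀ with h1 | h1
    · exact Or.inl h1
    · refine Or.inr ⟨Jf m, ?_, ?_⟩
      · rw [mem_range]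
        have h2 : Jf m ≤ Jf N := by
          apply hJf2
          have h3 : (m : ℝ) ≤ N := by exact_mod_cast (by omega : m ≤ N)
          linarith [hJf1 N]
        omega
      · rw [mem_filter, mem_range]
        exact ⟨hm.1, hm.2, h1, rfl⟩
  have hk116 : (0 : ℝ) ≤ (k : ℝ) - 1 / 16 := by linarith
  have hcard : (((range (N + 1)).filter (fun m => Bad k s C0 R m)).card : ℝ) ≤
      m₀ + ((Jf N : ℝ) + 1) * C * pw (Jf N) ((k : ℝ) - 1 / 16) := by
    have h1 := (card_le_card hsub).trans ((card_union_le _ _).trans (Nat.add_le_add_left card_biUnion_le _))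
    rw [card_range] at h1
    have h2 : (((range (N + 1)).filter (fun m => Bad k s C0 R m)).card : ℝ) ≤ m₀ +
        ∑ J ∈ range (Jf N + 1), (((range (N + 1)).filter (fun m => Bad k s C0 R m ∧ m₀ ≤ m ∧ Jf m = J)).card : ℝ) := by
      exact_mod_cast h1
    refine h2.trans ?_
    have h3 : ∑ J ∈ range (Jf N + 1), (((range (N + 1)).filter (fun m => Bad k s C0 R m ∧ m₀ ≤ m ∧ Jf m = J)).card : ℝ) ≤
        ∑ _J ∈ range (Jf N + 1), C * pw (Jf N) ((k : ℝ) - 1 / 16) := by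
      refine sum_le_sum fun J hJ => (hone N J).trans ?_
      rw [mem_range] at hJ
      exact mul_le_mul_of_nonneg_left (pw_mono_J (by omega) hk116) hC.le
    rw [sum_const, card_range, nsmul_eq_mul] at h3
    push_cast at h3
    linarith
  have h4 : ((Jf N : ℝ) + 1) * C * pw (Jf N) ((k : ℝ) - 1 / 16) ≤ (2 ^ (k + 2) : ℝ) ^ p * (N : ℝ) ^ p := by
    calc ((Jf N : ℝ) + 1) * C * pw (Jf N) ((k : ℝ) - 1 / 16) ≤ pw (Jf N) (1 / 528) * pw (Jf N) ((k : ℝ) - 1 / 16) :=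
          mul_le_mul_of_nonneg_right (hJ₁ (Jf N) hJN) (pw_pos _ _).le
      _ = (((2 : ℝ) ^ Jf N) ^ k) ^ p := by
          rw [← pw_add, ← pw_nat, pw_rpow, hp]
          congr 1
          field_simp
          ring
      _ ≤ (2 ^ (k + 2) * (N : ℝ)) ^ p := by
          apply Real.rpow_le_rpow (by positivity) _ hp0
          calc ((2 : ℝ) ^ Jf N) ^ k ≤ 2 ^ (k + 1) * ((N : ℝ) + 1) := (hup N).le
            _ ≤ 2 ^ (k + 1) * (2 * N) := by
                have : (N : ℝ) + 1 ≤ 2 * N := by linarith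
                gcongr
            _ = _ := by ring
      _ = _ := Real.mul_rpow (by positivity) hN0.le
  have h5 : 1 ≤ (N : ℝ) ^ p := Real.one_le_rpow hNr hp0
  calc _ ≤ (m₀ : ℝ) + (2 ^ (k + 2) : ℝ) ^ p * (N : ℝ) ^ p := by linarith
    _ ≤ ((m₀ : ℝ) + (2 ^ (k + 2) : ℝ) ^ p) * (N : ℝ) ^ p := by
        have hm0 : (0 : ℝ) ≤ m₀ := Nat.cast_nonneg _
        nlinarith
    _ ≤ (N : ℝ) ^ ((1 - 1 / (17 * k)) - p) * (N : ℝ) ^ p := by gcongr
    _ = _ := by
        rw [← Real.rpow_add hN0]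
        congr 1
        ring

open Classical in
/-- positive integers, almost all numbers -/
theorem almost_pos (k s : ℕ) (hk : 2 ≤ k) (hs : k < s) :
    ∀ᵐ θ ∂(box s 0 1), ∀ᶠ N : ℕ in atTop,
      (((range (N + 1)).filter (fun m => Bad k s (Real.Gamma (1 / k + 1) ^ s / Real.Gamma ((s : ℝ) / k)) (numP k s θ) m)).card : ℝ) ≤
        (N : ℝ) ^ (1 - 1 / (17 * k) : ℝ) := by
  obtain ⟨C, hC, h⟩ := main_J2 (s := s) k hk hs (fun _ => 0) (fun J => 2 ^ J) (fun J => Nat.zero_le _)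
    (fun J => by omega) (cone s) meas_cone smul_cone (fun J => cone_sub k J) dom_sub
    (fun J θ R hR hθ => U2_pos k hk J θ R hR hθ)
  have hbox : ∀ᵐ α ∂(box s 0 1), ∀ i, α i ∈ Set.Icc (0 : ℝ) 1 := by
    rw [box_eq]
    filter_upwards [ae_restrict_mem (MeasurableSet.univ_pi fun _ => measurableSet_Icc)] with α hα i
    exact hα i (Set.mem_univ i)
  filter_upwards [h, hbox] with θ hθ hθ2
  rw [← const_cone k (by omega) (by omega : s ≠ 0)]
  refine to_N k hk hs _ C hC (numP k s θ) ?_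
  filter_upwards [hθ] with J hJ
  intro Z hZ
  apply hJ Z
  intro m hm
  obtain ⟨h1, h2, ν, hν, ε, hε1, hε2, h3⟩ := hZ m hm
  refine ⟨h1, h2, ν, hν, ε, hε1, hε2, ?_⟩
  rwa [numP_eq k J θ hθ2 ν ε] at h3
  have : (0 : ℝ) < (2 ^ J) ^ k / 2 ^ (k + 2) := by positivity
  linarith [hν.2]

open Classical in
/-- integers, almost all numbers -/
theorem almost_int (k s : ℕ) (hk : 2 ≤ k) (hs : k < s) :
    ∀ᵐ θ ∂(box s 0 1), ∀ᶠ N : ℕ in atTop,
      (((range (N + 1)).filter (fun m => Bad k s ((2 * Real.Gamma (1 / k + 1)) ^ s / Real.Gamma ((s : ℝ) / k)) (numZ k s θ) m)).card : ℝ) ≤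
        (N : ℝ) ^ (1 - 1 / (17 * k) : ℝ) := by
  obtain ⟨C, hC, h⟩ := main_J2 (s := s) k hk hs (fun J => 2 ^ J) (fun J => 2 * 2 ^ J) (fun J => by omega)
    (fun J => le_rfl) Set.univ MeasurableSet.univ (by simp) (fun J => univ_sub k J) (fun J => Set.subset_univ _)
    (fun J θ R hR hθ => U2_int k hk J θ R hR hθ)
  have hbox : ∀ᵐ α ∂(box s 0 1), ∀ i, α i ∈ Set.Icc (0 : ℝ) 1 := by
    rw [box_eq]
    filter_upwards [ae_restrict_mem (MeasurableSet.univ_pi fun _ => measurableSet_Icc)] with α hα i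
    exact hα i (Set.mem_univ i)
  filter_upwards [h, hbox] with θ hθ hθ2
  rw [← const_univ k (by omega) (by omega : s ≠ 0)]
  refine to_N k hk hs _ C hC (numZ k s θ) ?_
  filter_upwards [hθ] with J hJ
  intro Z hZ
  apply hJ Z
  intro m hm
  obtain ⟨h1, h2, ν, hν, ε, hε1, hε2, h3⟩ := hZ m hm
  refine ⟨h1, h2, ν, hν, ε, hε1, hε2, ?_⟩
  rwa [numZ_eq k J θ hθ2 ν ε] at h3
  have : (0 : ℝ) < (2 ^ J) ^ k / 2 ^ (k + 2) := by positivity
  linarith [hν.2]

open Classical in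
/-- integers, almost all numbers, all centres -/
theorem almost_centres (k s : ℕ) (hk : 2 ≤ k) (hs : k < s) :
    ∀ᵐ θ : Fin s → ℝ, ∀ᶠ N : ℕ in atTop,
      (((range (N + 1)).filter (fun m => Bad k s ((2 * Real.Gamma (1 / k + 1)) ^ s / Real.Gamma ((s : ℝ) / k)) (numZ k s θ) m)).card : ℝ) ≤
        (N : ℝ) ^ (1 - 1 / (17 * k) : ℝ) := by
  refine all_centres _ ?_ (almost_int k s hk hs)
  intro θ a h
  have h1 : numZ k s (fun i => θ i - a i) = numZ k s θ := by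
    funext ν ε
    exact numZ_add k θ a ν ε
  rw [h1] at h
  exact h

end

end Pool.Agent.Run7.h927.WS
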