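import Pool.Agent.Run7.h927.WS.K

set_option autoImplicit false

/-! Almost all shifts: the number of the exceptional integers up to `N`; forms in `k` variables. -/

namespace Pool.Agent.Run7.h927.WS
open MeasureTheory Finset Filter
open Pool.Agent.Run7.h927.WG (log_small find_scale box box_eq)

noncomputable section

lemma exc_main (m k : ℕ) (hk : 2 ≤ k) (h1 : k < 4 + m) (h2 : 4 + m ≤ 2 * k) (δ : ℝ) (hδ : 0 < δ) (hδ1 : δ ≤ 1 / 4) :
    ∀ᵐ θ ∂(box (4 + m) 0 1), ∀ᶠ N : ℕ in atTop,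
      ((open Classical in ((range (N + 1)).filter (fun n => Exc (4 + m) k θ n)).card : ℕ) : ℝ) ≤
        (N : ℝ) ^ (2 - ((4 + m : ℕ) : ℝ) / k + 4 * δ) := by
  classical
  have hk0 : (0 : ℝ) < k := by exact_mod_cast (by omega : 0 < k)
  have hk1 : (1 : ℝ) ≤ k := by exact_mod_cast (by omega : 1 ≤ k)
  have h2' : (4 + m : ℝ) ≤ 2 * k := by exact_mod_cast h2
  obtain ⟨A₀, hA₀⟩ : ∃ A₀ : ℝ, A₀ = (5 + m) * 2 ^ k := ⟨_, rfl⟩
  have hA1 : 1 ≤ A₀ := by
    rw [hA₀]
    have h3 : (1 : ℝ) ≤ 2 ^ k := one_le_pow₀ (by norm_num)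
    have h4 : (0 : ℝ) ≤ m := Nat.cast_nonneg m
    nlinarith
  have hA0 : 0 < A₀ := by linarith
  obtain ⟨E, hE⟩ : ∃ E, E = 2 ^ k * A₀ + 2 := ⟨_, rfl⟩
  have hE0 : 0 < E := by rw [hE]; positivity
  obtain ⟨C', hC'⟩ := exists_nat_gt E
  obtain ⟨C, hC⟩ : ∃ C, C = C' + 2 := ⟨_, rfl⟩
  have hC2 : 2 ≤ C := by omega
  have hCE : E < ((C : ℝ) - 1) ^ k := by
    have h1 : (C : ℝ) - 1 = C' + 1 := by
      rw [hC]
      push_cast
      ring
    have h2 : (C' : ℝ) + 1 ≤ ((C' : ℝ) + 1) ^ k := by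
      refine le_self_pow₀ ?_ (by omega)
      have : (0 : ℝ) ≤ C' := Nat.cast_nonneg _
      linarith
    rw [h1]
    linarith
  obtain ⟨K, hK, hae⟩ := ae_exc m k hk (by omega) E hE0 C hC2 hCE δ hδ hδ1
  filter_upwards [hae] with θ hθ
  obtain ⟨j₀, hj₀⟩ := eventually_atTop.1 hθ
  obtain ⟨n₀, hn₀⟩ := exists_nat_gt (A₀ * ((2 ^ j₀ : ℕ) : ℝ) ^ k + 1)
  obtain ⟨κ, hκ⟩ : ∃ κ : ℝ, κ = (2 * (k : ℝ) - (4 + m) + 3 * δ) / k := ⟨_, rfl⟩
  have hκ0 : 0 < κ := by
    rw [hκ]
    apply div_pos _ hk0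
    linarith
  have hsmall := tendsto_natCast_atTop_atTop.eventually (log_small (2 * K + n₀) 1 δ one_pos hδ)
  filter_upwards [hsmall, eventually_ge_atTop 1] with N hN hN1
  have hNr : (1 : ℝ) ≤ N := by exact_mod_cast hN1
  have hN0 : (0 : ℝ) < N := by linarith
  obtain ⟨S, hS⟩ : ∃ S, S = (range (N + 1)).filter (fun n => Exc (4 + m) k θ n) := ⟨_, rfl⟩
  obtain ⟨Zj, hZj⟩ : ∃ Zj : ℕ → Finset ℕ, Zj = fun j => S.filter (fun n : ℕ => j₀ ≤ j ∧
    A₀ * ((2 ^ j : ℕ) : ℝ) ^ k + 1 ≤ (n : ℝ) ∧ (n : ℝ) ≤ (2 ^ k * A₀ + 2) * ((2 ^ j : ℕ) : ℝ) ^ k - 1) := ⟨_, rfl⟩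
  have hcover : S ⊆ range n₀ ∪ (range (Nat.log 2 N + 1)).biUnion Zj := by
    intro n hn
    rw [mem_union, mem_range]
    by_cases hlt : n < n₀
    · exact Or.inl hlt
    · right
      have hnge : (n₀ : ℝ) ≤ n := by exact_mod_cast not_lt.1 hlt
      obtain ⟨j, hj1, hj2, hj3⟩ := find_scale k (by omega) A₀ hA0 j₀ n (by linarith)
      rw [mem_biUnion]
      refine ⟨j, ?_, ?_⟩
      · rw [mem_range]
        have hnN : n ≤ N := by
          rw [hS, mem_filter, mem_range] at hn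
          omega
        have h5 : (2 : ℕ) ^ j ≤ N := by
          have h6 : ((2 ^ j : ℕ) : ℝ) ≤ N := by
            have h7 : ((2 ^ j : ℕ) : ℝ) ≤ ((2 ^ j : ℕ) : ℝ) ^ k := by
              refine le_self_pow₀ ?_ (by omega)
              exact_mod_cast Nat.one_le_two_pow
            have h8 : (0 : ℝ) ≤ ((2 ^ j : ℕ) : ℝ) ^ k := by positivity
            have h9 : (n : ℝ) ≤ N := by exact_mod_cast hnN
            nlinarith
          exact_mod_cast h6
        have := Nat.le_log_of_pow_le (by norm_num : 1 < 2) h5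
        omega
      · rw [hZj, mem_filter]
        exact ⟨hn, hj1, hj2, hj3⟩
  have hper : ∀ j, ((Zj j).card : ℝ) ≤ K * (N : ℝ) ^ κ := by
    intro j
    rcases (Zj j).eq_empty_or_nonempty with hemp | ⟨n, hn⟩
    · rw [hemp, card_empty]
      push_cast
      positivity
    · have hn' := hn
      rw [hZj, mem_filter] at hn'
      obtain ⟨hnS, hjj, hn1, hn2⟩ := hn'
      have hp1 : (1 : ℝ) ≤ ((2 ^ j : ℕ) : ℝ) := by exact_mod_cast Nat.one_le_two_pow
      have hp0 : (0 : ℝ) < ((2 ^ j : ℕ) : ℝ) := by linarith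
      have hpN : ((2 ^ j : ℕ) : ℝ) ^ k ≤ N := by
        have hnN : (n : ℝ) ≤ N := by
          rw [hS, mem_filter, mem_range] at hnS
          exact_mod_cast (by omega : n ≤ N)
        have h8 : (0 : ℝ) ≤ ((2 ^ j : ℕ) : ℝ) ^ k := by positivity
        nlinarith
      have h10 := hj₀ j hjj (Zj j) (by
        intro n' hn'
        rw [hZj, mem_filter, hS, mem_filter] at hn'
        obtain ⟨⟨_, g1⟩, _, g2, g3⟩ := hn'
        refine ⟨?_, ?_, g1⟩
        · rw [← hA₀]
          linarith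
        · rw [hE]
          linarith)
      refine h10.trans (mul_le_mul_of_nonneg_left ?_ hK.le)
      calc ((2 ^ j : ℕ) : ℝ) ^ (2 * (k : ℝ) - (4 + m) + 3 * δ) = (((2 ^ j : ℕ) : ℝ) ^ k) ^ κ := by
            rw [← Real.rpow_natCast, ← Real.rpow_mul hp0.le]
            congr 1
            rw [hκ]
            field_simp
        _ ≤ (N : ℝ) ^ κ := Real.rpow_le_rpow (by positivity) hpN hκ0.le
  have hcard : (S.card : ℝ) ≤ n₀ + (Nat.log 2 N + 1) * (K * (N : ℝ) ^ κ) := by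
    have h11 : S.card ≤ n₀ + ∑ j ∈ range (Nat.log 2 N + 1), (Zj j).card := by
      refine (card_le_card hcover).trans ((card_union_le _ _).trans ?_)
      rw [card_range]
      exact Nat.add_le_add_left card_biUnion_le _
    have h12 : (S.card : ℝ) ≤ n₀ + ∑ j ∈ range (Nat.log 2 N + 1), ((Zj j).card : ℝ) := by exact_mod_cast h11
    refine h12.trans ?_
    have h13 : ∑ j ∈ range (Nat.log 2 N + 1), ((Zj j).card : ℝ) ≤ ∑ _j ∈ range (Nat.log 2 N + 1), (K * (N : ℝ) ^ κ) :=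
      sum_le_sum fun j _ => hper j
    rw [sum_const, card_range, nsmul_eq_mul] at h13
    push_cast at h13
    linarith
  rw [← hS]
  refine hcard.trans ?_
  have hlog2 : (Nat.log 2 N : ℝ) ≤ 2 * Real.log N := by
    have h14 : (2 : ℕ) ^ Nat.log 2 N ≤ N := Nat.pow_log_le_self 2 (by omega)
    have h15 : ((2 : ℝ)) ^ Nat.log 2 N ≤ N := by exact_mod_cast h14
    have h16 := Real.log_le_log (by positivity) h15
    rw [Real.log_pow] at h16
    have h17 := Real.log_two_gt_d9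
    have h18 : (0 : ℝ) ≤ Nat.log 2 N := Nat.cast_nonneg _
    nlinarith
  have hNκ : 1 ≤ (N : ℝ) ^ κ := Real.one_le_rpow hNr hκ0.le
  have hl0 : 0 ≤ Real.log N := Real.log_nonneg hNr
  have hNn : 0 ≤ (n₀ : ℝ) := Nat.cast_nonneg _
  rw [one_mul] at hN
  calc (n₀ : ℝ) + (Nat.log 2 N + 1) * (K * (N : ℝ) ^ κ)
      ≤ n₀ * (N : ℝ) ^ κ + (2 * Real.log N + 1) * (K * (N : ℝ) ^ κ) := by
        refine add_le_add (le_mul_of_one_le_right hNn hNκ) ?_
        exact mul_le_mul_of_nonneg_right (by linarith) (by positivity)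
    _ = (n₀ + K + 2 * K * Real.log N) * (N : ℝ) ^ κ := by ring
    _ ≤ ((2 * K + n₀) * (1 + Real.log N)) * (N : ℝ) ^ κ := by
        refine mul_le_mul_of_nonneg_right ?_ (by positivity)
        nlinarith [mul_nonneg hNn hl0]
    _ ≤ (N : ℝ) ^ δ * (N : ℝ) ^ κ := mul_le_mul_of_nonneg_right hN (by positivity)
    _ = (N : ℝ) ^ (δ + κ) := by rw [Real.rpow_add hN0]
    _ ≤ (N : ℝ) ^ (2 - ((4 + m : ℕ) : ℝ) / k + 4 * δ) := by
        apply Real.rpow_le_rpow_of_exponent_le hNr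
        rw [hκ]
        push_cast
        have h19 : (2 * (k : ℝ) - (4 + m) + 3 * δ) / k = 2 - (4 + m) / k + 3 * δ / k := by
          field_simp
        rw [h19]
        have h20 : 3 * δ / k ≤ 3 * δ := div_le_self (by positivity) hk1
        linarith

/-- almost all shifts: the exceptional integers -/
theorem main_exc (m k : ℕ) (hk : 2 ≤ k) (h1 : k < 4 + m) (h2 : 4 + m ≤ 2 * k) :
    ∀ᵐ θ ∂(box (4 + m) 0 1), ∀ ε : ℝ, 0 < ε → ∀ᶠ N : ℕ in atTop,
      ((open Classical in ((range (N + 1)).filter (fun n => Exc (4 + m) k θ n)).card : ℕ) : ℝ) ≤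
        (N : ℝ) ^ (2 - ((4 + m : ℕ) : ℝ) / k + ε) := by
  have h : ∀ n : ℕ, ∀ᵐ θ ∂(box (4 + m) 0 1), ∀ᶠ N : ℕ in atTop,
      ((open Classical in ((range (N + 1)).filter (fun n => Exc (4 + m) k θ n)).card : ℕ) : ℝ) ≤
        (N : ℝ) ^ (2 - ((4 + m : ℕ) : ℝ) / k + 4 * (1 / ((n : ℝ) + 4))) := by
    intro n
    refine exc_main m k hk h1 h2 _ (by positivity) ?_
    apply one_div_le_one_div_of_le (by norm_num)
    have : (0 : ℝ) ≤ n := Nat.cast_nonneg n
    linarith
  filter_upwards [ae_all_iff.2 h] with θ hθ ε hε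
  obtain ⟨n, hn⟩ := exists_nat_gt (4 / ε)
  filter_upwards [hθ n, eventually_ge_atTop 1] with N hN hN1
  refine hN.trans ?_
  apply Real.rpow_le_rpow_of_exponent_le (by exact_mod_cast hN1)
  have h3 : 4 * (1 / ((n : ℝ) + 4)) ≤ ε := by
    rw [div_lt_iff₀ hε] at hn
    rw [mul_one_div, div_le_iff₀ (by positivity)]
    nlinarith
  linarith

/-- `k` variables never suffice -/
theorem few_vars (k : ℕ) (hk : 2 ≤ k) (θ : Fin k → ℝ) (hθ : ∀ i, θ i ∈ Set.Icc (0 : ℝ) 1) :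
    ∃ c : ℝ, 0 < c ∧ ∀ᶠ N : ℕ in atTop,
      c * N ≤ ((open Classical in ((range (N + 1)).filter (fun n => Exc k k θ n)).card : ℕ) : ℝ) := by
  classical
  have hk0 : (0 : ℝ) < k := by exact_mod_cast (by omega : 0 < k)
  have hk1 : (1 : ℝ) < k := by exact_mod_cast (by omega : 1 < k)
  obtain ⟨ρ, hρ⟩ : ∃ ρ : ℝ, ρ = 1 - (1 / k : ℝ) ^ (1 / k : ℝ) := ⟨_, rfl⟩
  have hρ0 : 0 < ρ := by
    rw [hρ, sub_pos]
    apply Real.rpow_lt_one (by positivity)
    · rw [div_lt_one hk0]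
      exact hk1
    · positivity
  -- the limit
  have hlim : Tendsto (fun t : ℝ => (1 + t⁻¹) ^ k - (ρ - t⁻¹) ^ k) atTop (nhds (1 - ρ ^ k)) := by
    have e1 : Tendsto (fun t : ℝ => t⁻¹) atTop (nhds 0) := tendsto_inv_atTop_zero
    have e2 := (e1.const_add 1).pow k
    have e3 := (e1.const_sub ρ).pow k
    have e4 := e2.sub e3
    simpa using e4
  have hpos : 0 < ρ ^ k := by positivity
  have hroot : Tendsto (fun N : ℕ => (N : ℝ) ^ (1 / k : ℝ)) atTop atTop :=
    (tendsto_rpow_atTop (by positivity)).comp tendsto_natCast_atTop_atTop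
  have hev := hroot.eventually (hlim.eventually (gt_mem_nhds (by linarith : 1 - ρ ^ k < 1 - ρ ^ k / 2)))
  refine ⟨ρ ^ k / 2, by positivity, ?_⟩
  filter_upwards [hev, hroot.eventually (eventually_ge_atTop (1 / ρ)), eventually_ge_atTop 1] with N hN hNt hN1
  obtain ⟨t, ht⟩ : ∃ t, t = (N : ℝ) ^ (1 / k : ℝ) := ⟨_, rfl⟩
  rw [← ht] at hN hNt
  have hNr : (1 : ℝ) ≤ N := by exact_mod_cast hN1
  have hN0 : (0 : ℝ) < N := by linarith
  have ht0 : 0 < t := by rw [ht]; positivity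
  have htk : t ^ k = N := by
    rw [ht, ← Real.rpow_natCast, ← Real.rpow_mul hN0.le]
    rw [one_div_mul_cancel hk0.ne', Real.rpow_one]
  obtain ⟨M, hM⟩ : ∃ M, M = ⌊t⌋₊ + 1 := ⟨_, rfl⟩
  obtain ⟨L, hL⟩ : ∃ L, L = ⌊t * (1 / k : ℝ) ^ (1 / k : ℝ)⌋₊ + 1 := ⟨_, rfl⟩
  -- the points
  obtain ⟨Yb, hYb⟩ : ∃ Yb : Finset (Fin k → ℕ), Yb = (Fintype.piFinset (fun _ : Fin k => range M)) \
    (Fintype.piFinset (fun _ : Fin k => Ico L M)) := ⟨_, rfl⟩
  have hcardY : (Yb.card : ℝ) ≤ (M : ℝ) ^ k - ((M - L : ℕ) : ℝ) ^ k := by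
    have hsub : (Fintype.piFinset (fun _ : Fin k => Ico L M)) ⊆ (Fintype.piFinset (fun _ : Fin k => range M)) := by
      refine Fintype.piFinset_subset _ _ fun i => ?_
      intro x hx
      rw [mem_Ico] at hx
      rw [mem_range]
      exact hx.2
    rw [hYb, cast_card_sdiff hsub, Fintype.card_piFinset, Fintype.card_piFinset]
    simp
  -- every represented integer comes from a point
  have himg : (range (N + 1)).filter (fun n => ¬ Exc k k θ n) ⊆
      Yb.image (fun y => ⌊∑ i, (((y i + 1 : ℕ) : ℝ) - θ i) ^ k⌋₊) := by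
    intro n hn
    rw [mem_filter, mem_range] at hn
    obtain ⟨hnN, hn2⟩ := hn
    unfold Exc at hn2
    push Not at hn2
    obtain ⟨x, hx1, hx2⟩ := hn2
    rw [mem_image]
    refine ⟨fun i => x i - 1, ?_, ?_⟩
    · have hxi : ∀ i, 0 ≤ (x i : ℝ) - θ i ∧ ((x i - 1 : ℕ) : ℝ) ≤ (x i : ℝ) - θ i := by
        intro i
        have h3 : (1 : ℝ) ≤ x i := by exact_mod_cast hx1 i
        have h4 := (hθ i).2
        rw [Nat.cast_sub (hx1 i)]
        push_cast
        constructor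
        · linarith
        · linarith
      have hsum0 : 0 ≤ ∑ i, ((x i : ℝ) - θ i) ^ k := sum_nonneg fun i _ => pow_nonneg (hxi i).1 k
      have hlt : ∑ i, ((x i : ℝ) - θ i) ^ k < (N : ℝ) + 1 := by
        have h5 := Nat.lt_floor_add_one (∑ i, ((x i : ℝ) - θ i) ^ k)
        rw [hx2] at h5
        have h6 : (n : ℝ) ≤ N := by exact_mod_cast (by omega : n ≤ N)
        linarith
      have hyk : ∑ i, (x i - 1) ^ k ≤ N := by
        have h7 : ((∑ i, (x i - 1) ^ k : ℕ) : ℝ) < (N : ℝ) + 1 := by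
          refine lt_of_le_of_lt ?_ hlt
          push_cast
          exact sum_le_sum fun i _ => pow_le_pow_left₀ (Nat.cast_nonneg _) (hxi i).2 k
        have h8 : (∑ i, (x i - 1) ^ k) < N + 1 := by exact_mod_cast h7
        omega
      rw [hYb, Finset.mem_sdiff, Fintype.mem_piFinset, Fintype.mem_piFinset]
      constructor
      · intro i
        rw [mem_range, hM]
        have h9 : (x i - 1) ^ k ≤ N := (single_le_sum (f := fun i => (x i - 1) ^ k) (fun i _ => Nat.zero_le _) (mem_univ i)).trans hyk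
        have h10 : ((x i - 1 : ℕ) : ℝ) ≤ t := by
          have h11 : (((x i - 1 : ℕ) : ℝ)) ^ k ≤ t ^ k := by
            rw [htk]
            exact_mod_cast h9
          exact le_of_pow_le_pow_left₀ (by omega) ht0.le h11
        have h12 := Nat.le_floor h10
        omega
      · intro hcon
        have h13 : ∀ i, (N : ℝ) / k < (((x i - 1 : ℕ) : ℝ)) ^ k := by
          intro i
          have h14 := hcon i
          rw [mem_Ico, hL] at h14
          have h15 : t * (1 / k : ℝ) ^ (1 / k : ℝ) < ((x i - 1 : ℕ) : ℝ) := by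
            have h16 := Nat.lt_floor_add_one (t * (1 / k : ℝ) ^ (1 / k : ℝ))
            refine lt_of_lt_of_le h16 ?_
            exact_mod_cast h14.1
          have h17 := pow_lt_pow_left₀ h15 (by positivity) (by omega : k ≠ 0)
          refine lt_of_eq_of_lt ?_ h17
          rw [mul_pow, htk, ← Real.rpow_natCast, ← Real.rpow_mul (by positivity), one_div_mul_cancel hk0.ne',
            Real.rpow_one, mul_one_div]
        have h18 : (N : ℝ) < ∑ i, (((x i - 1 : ℕ) : ℝ)) ^ k := by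
          calc (N : ℝ) = ∑ _i : Fin k, (N : ℝ) / k := by
                rw [sum_const, card_univ, Fintype.card_fin, nsmul_eq_mul]
                field_simp
            _ < ∑ i, (((x i - 1 : ℕ) : ℝ)) ^ k := by
                apply sum_lt_sum_of_nonempty
                · exact ⟨⟨0, by omega⟩, mem_univ _⟩
                · intro i _
                  exact h13 i
        have h19 : ((∑ i, (x i - 1) ^ k : ℕ) : ℝ) ≤ N := by exact_mod_cast hyk
        push_cast at h19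
        linarith
    · simp only
      rw [← hx2]
      congr 1
      refine sum_congr rfl fun i _ => ?_
      congr 2
      have := hx1 i
      exact_mod_cast (by omega : x i - 1 + 1 = x i)
  have h20 : (((range (N + 1)).filter (fun n => ¬ Exc k k θ n)).card : ℝ) ≤ (M : ℝ) ^ k - ((M - L : ℕ) : ℝ) ^ k := by
    refine le_trans ?_ hcardY
    exact_mod_cast (card_le_card himg).trans card_image_le
  have h21 : (((range (N + 1)).filter (fun n => Exc k k θ n)).card : ℝ) +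
      (((range (N + 1)).filter (fun n => ¬ Exc k k θ n)).card : ℝ) = N + 1 := by
    have := card_filter_add_card_filter_not (s := range (N + 1)) (fun n => Exc k k θ n)
    rw [card_range] at this
    exact_mod_cast this
  have h22 : (M : ℝ) ≤ t + 1 := by
    rw [hM]
    push_cast
    linarith [Nat.floor_le ht0.le]
  have h23 : ρ * t - 1 ≤ ((M - L : ℕ) : ℝ) := by
    have h24 : (M : ℝ) - L ≤ ((M - L : ℕ) : ℝ) := by
      rw [sub_le_iff_le_add]
      exact_mod_cast (by omega : M ≤ M - L + L)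
    have h25 : t ≤ M := by
      rw [hM]
      push_cast
      exact (Nat.lt_floor_add_one t).le
    have h26 : (L : ℝ) ≤ t * (1 / k : ℝ) ^ (1 / k : ℝ) + 1 := by
      rw [hL]
      push_cast
      linarith [Nat.floor_le (by positivity : 0 ≤ t * (1 / k : ℝ) ^ (1 / k : ℝ))]
    have h27 : ρ * t = t - t * (1 / k : ℝ) ^ (1 / k : ℝ) := by
      rw [hρ]
      ring
    linarith
  have h28 : 0 ≤ ρ * t - 1 := by
    rw [div_le_iff₀ hρ0] at hNt
    linarith
  have h29 : (M : ℝ) ^ k - ((M - L : ℕ) : ℝ) ^ k ≤ (t + 1) ^ k - (ρ * t - 1) ^ k := by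
    have g1 : (M : ℝ) ^ k ≤ (t + 1) ^ k := pow_le_pow_left₀ (Nat.cast_nonneg _) h22 k
    have g2 : (ρ * t - 1) ^ k ≤ ((M - L : ℕ) : ℝ) ^ k := pow_le_pow_left₀ h28 h23 k
    linarith
  have h30 : (t + 1) ^ k - (ρ * t - 1) ^ k = ((1 + t⁻¹) ^ k - (ρ - t⁻¹) ^ k) * t ^ k := by
    rw [sub_mul, ← mul_pow, ← mul_pow]
    congr 2
    · field_simp
    · field_simp
  have h31 : ((1 + t⁻¹) ^ k - (ρ - t⁻¹) ^ k) * t ^ k ≤ (1 - ρ ^ k / 2) * t ^ k :=
    mul_le_mul_of_nonneg_right hN.le (by positivity)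
  rw [h30] at h29
  rw [htk] at h29 h31
  have h32 : (1 - ρ ^ k / 2) * (N : ℝ) = N - ρ ^ k / 2 * N := by ring
  linarith

end

end Pool.Agent.Run7.h927.WS
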