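import Pool.Agent.Run7.h927.WS.D
set_option autoImplicit false

/-! The full range of the variables: means over the shifts. -/

namespace Pool.Agent.Run7.h927.WS

open MeasureTheory Finset Filter
open Pool.Agent.Run7.h927.WG (e norm_e e_add e_zero e_conj cont_e w w_le w_le' w_nonneg cont_w int_gauss val_gauss int_w)

noncomputable section

lemma U_union (X X' : Finset ℕ) (hd : Disjoint X X') (φ : ℕ → C(ℝ, ℝ)) {a b : ℝ} (hab : a < b) (θ : ℝ) :
    U (X ∪ X') φ a b θ ≤ U X φ a b θ + U X' φ a b θ := by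
  unfold U
  rw [← intervalIntegral.integral_add]
  · apply intervalIntegral.integral_mono_on hab.le
    · exact (cont_S_right _ φ θ).norm.intervalIntegrable _ _
    · exact ((cont_S_right _ φ θ).norm.add (cont_S_right _ φ θ).norm).intervalIntegrable _ _
    · intro t _
      unfold S
      rw [sum_union hd]
      exact norm_add_le _ _
  · exact (cont_S_right _ φ θ).norm.intervalIntegrable _ _
  · exact (cont_S_right _ φ θ).norm.intervalIntegrable _ _

/-- one dyadic piece -/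
lemma U_piece (k P : ℕ) (hk : 2 ≤ k) (hP : 1 ≤ P) (θ R : ℝ) (hR : 0 < R) (hθ : |θ| = 1 / R ^ k) :
    U (Ioc P (2 * P)) (sh k) 0 1 θ ≤ √(3 + 2 * Real.log (2 * P : ℕ)) * (√P + R) := by
  have hP0 : (0 : ℝ) < P := by exact_mod_cast hP
  have hL : 0 ≤ Real.log (2 * P : ℕ) := Real.log_natCast_nonneg _
  obtain ⟨K, hK⟩ : ∃ K, K = 3 + 2 * Real.log (2 * P : ℕ) := ⟨_, rfl⟩
  have hK1 : 1 ≤ K := by rw [hK]; linarith
  have hsK : 1 ≤ √K := Real.one_le_sqrt.2 hK1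
  have hcard : (Ioc P (2 * P)).card = P := by
    rw [Nat.card_Ioc]
    omega
  rw [← hK]
  have hsP := Real.sqrt_nonneg (P : ℝ)
  rcases le_or_gt (P : ℝ) R with h | h
  · have h1 := U_triv (Ioc P (2 * P)) (sh k) (zero_lt_one (α := ℝ)) θ
    rw [hcard, sub_zero, one_mul] at h1
    refine h1.trans ?_
    nlinarith
  · have hθ0 : θ ≠ 0 := by
      intro h0
      rw [h0, abs_zero] at hθ
      have : 0 < 1 / R ^ k := by positivity
      linarith
    have h1 := U_sq (Ioc P (2 * P)) (sh k) (ms_shift k P (2 * P) hk hP le_rfl) θ hθ0 zero_lt_one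
    rw [hcard, sub_zero, one_mul, ← hK, hθ] at h1
    have h2 : (P : ℝ) * (1 / (1 / R ^ k * (P : ℝ) ^ (k - 1))) ≤ R ^ 2 := by
      obtain ⟨l, rfl⟩ : ∃ l, k = l + 2 := ⟨k - 2, by omega⟩
      have h3 : (P : ℝ) * (1 / (1 / R ^ (l + 2) * (P : ℝ) ^ (l + 2 - 1))) = R ^ 2 * (R ^ l / (P : ℝ) ^ l) := by
        have : l + 2 - 1 = l + 1 := by omega
        rw [this]
        field_simp
        ring
      rw [h3]
      have h4 : R ^ l / (P : ℝ) ^ l ≤ 1 := by
        rw [div_le_one (by positivity)]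
        exact pow_le_pow_left₀ hR.le h.le l
      nlinarith [sq_nonneg R]
    have h5 : (P : ℝ) * (K * (1 + 1 / (1 / R ^ k * (P : ℝ) ^ (k - 1)))) ≤ K * (P + R ^ 2) := by
      have : (P : ℝ) * (K * (1 + 1 / (1 / R ^ k * (P : ℝ) ^ (k - 1)))) =
          K * (P + P * (1 / (1 / R ^ k * (P : ℝ) ^ (k - 1)))) := by ring
      rw [this]
      gcongr
    have h6 : K * (P + R ^ 2) ≤ (√K * (√P + R)) ^ 2 := by
      rw [mul_pow, Real.sq_sqrt (by linarith), add_sq, Real.sq_sqrt hP0.le]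
      have : 0 ≤ 2 * √(P : ℝ) * R := by positivity
      nlinarith
    exact le_of_sq_le_sq₀' (h1.trans (h5.trans h6)) (by positivity)
where
  le_of_sq_le_sq₀' {a b : ℝ} (h : a ^ 2 ≤ b ^ 2) (hb : 0 ≤ b) : a ≤ b := abs_le_of_sq_le_sq' h hb |>.2

/-- the factor -/
def fac (J : ℕ) : ℝ := (J + 1) * √(3 + 2 * Real.log (2 ^ J : ℕ))

lemma fac_pos (J : ℕ) : 1 ≤ fac J := by
  unfold fac
  have hL : 0 ≤ Real.log (2 ^ J : ℕ) := Real.log_natCast_nonneg _
  have h1 : 1 ≤ √(3 + 2 * Real.log (2 ^ J : ℕ)) := Real.one_le_sqrt.2 (by linarith)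
  have h2 : (0 : ℝ) ≤ J := Nat.cast_nonneg J
  nlinarith

/-- the full range -/
theorem U_full (k : ℕ) (hk : 2 ≤ k) (θ R : ℝ) (hR : 0 < R) (hθ : |θ| = 1 / R ^ k) (J : ℕ) :
    U (Ioc 0 (2 ^ J)) (sh k) 0 1 θ ≤ fac J * (√(2 ^ J) + R) := by
  induction J with
  | zero =>
    have h1 := U_triv (Ioc 0 (2 ^ 0)) (sh k) (zero_lt_one (α := ℝ)) θ
    have h2 := fac_pos 0
    simp only [pow_zero, Nat.card_Ioc, Real.sqrt_one] at h1 ⊢
    norm_num at h1
    nlinarith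
  | succ J ih =>
    have h1 : Ioc 0 (2 ^ (J + 1)) = Ioc 0 (2 ^ J) ∪ Ioc (2 ^ J) (2 * 2 ^ J) := by
      rw [Ioc_union_Ioc_eq_Ioc (Nat.zero_le _) (by omega), pow_succ, mul_comm]
    have hd : Disjoint (Ioc 0 (2 ^ J)) (Ioc (2 ^ J) (2 * 2 ^ J)) := Ioc_disjoint_Ioc_of_le le_rfl
    rw [h1]
    refine (U_union _ _ hd _ zero_lt_one θ).trans ?_
    have h2 := U_piece k (2 ^ J) hk Nat.one_le_two_pow θ R hR hθ
    have hlog : Real.log (2 ^ J : ℕ) ≤ Real.log (2 ^ (J + 1) : ℕ) := by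
      apply Real.log_le_log
      · positivity
      · exact_mod_cast Nat.pow_le_pow_right (by norm_num) (by omega)
    have hL : 0 ≤ Real.log (2 ^ J : ℕ) := Real.log_natCast_nonneg _
    have h3 : √(3 + 2 * Real.log (2 ^ J : ℕ)) ≤ √(3 + 2 * Real.log (2 ^ (J + 1) : ℕ)) :=
      Real.sqrt_le_sqrt (by linarith)
    have h4 : √((2 : ℝ) ^ J) ≤ √((2 : ℝ) ^ (J + 1)) :=
      Real.sqrt_le_sqrt (pow_le_pow_right₀ (by norm_num) (by omega))
    have h5 : (2 * 2 ^ J : ℕ) = 2 ^ (J + 1) := by rw [pow_succ, mul_comm]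
    have h6 : ((2 ^ J : ℕ) : ℝ) = (2 : ℝ) ^ J := by push_cast; rfl
    rw [h5, h6] at h2
    rw [h5]
    obtain ⟨a, ha⟩ : ∃ a, a = √(3 + 2 * Real.log (2 ^ J : ℕ)) := ⟨_, rfl⟩
    obtain ⟨a', ha'⟩ : ∃ a', a' = √(3 + 2 * Real.log (2 ^ (J + 1) : ℕ)) := ⟨_, rfl⟩
    unfold fac at ih ⊢
    rw [← ha, ← ha'] at h3
    rw [← ha] at ih
    rw [← ha'] at h2 ⊢
    have ha0 : 0 ≤ a := by rw [ha]; exact Real.sqrt_nonneg _
    have hs0 := Real.sqrt_nonneg ((2 : ℝ) ^ J)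
    have ha0' : 0 ≤ a' := ha0.trans h3
    have hJ0 : (0 : ℝ) ≤ J := Nat.cast_nonneg J
    calc _ ≤ (J + 1) * a * (√(2 ^ J) + R) + a' * (√(2 ^ J) + R) := add_le_add ih h2
      _ ≤ (J + 1) * a' * (√(2 ^ (J + 1)) + R) + a' * (√(2 ^ (J + 1)) + R) := by gcongr
      _ = _ := by push_cast; ring

/-- the mean of the integral over the frequencies -/
theorem mean_full (k s : ℕ) (hs : 2 * k ≤ s) (X : Fin s → Finset ℕ) (φ : Fin s → ℕ → C(ℝ, ℝ)) (M A : ℝ)
    (hM : 0 < M) (hA : 0 < A)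
    (hU : ∀ i, ∀ θ R : ℝ, 0 < R → |θ| = 1 / R ^ k → U (X i) (φ i) 0 1 θ ≤ A * (√M + min M R)) (hk : 1 ≤ k)
    {η Y : ℝ} (hη : 0 < η) (hY : η ≤ Y) :
    ∫ α, Q X φ η Y α ∂(box s 0 1) ≤ (2 * A) ^ s * (√M ^ s / η + 4 * Real.pi ^ 2 * M ^ s * Y / M ^ (2 * k)) := by
  have hpi := Real.pi_pos
  have hY0 : 0 < Y := hη.trans_le hY
  obtain ⟨h1, h2⟩ := mean_Q X φ hη hY (zero_lt_one (α := ℝ))
  rw [h1]
  have hi1 : Integrable (fun θ : ℝ => Real.exp (-(Real.pi * η ^ 2) * θ ^ 2) * √M ^ s) := (int_gauss hη).mul_const _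
  have hcau : Integrable (fun θ : ℝ => (1 + (Y * θ) ^ 2)⁻¹) := by
    exact integrable_inv_one_add_sq.comp_mul_left' hY0.ne'
  have hcv : ∫ θ : ℝ, (1 + (Y * θ) ^ 2)⁻¹ = Real.pi / Y := by
    have := Measure.integral_comp_mul_left (fun u : ℝ => (1 + u ^ 2)⁻¹) Y
    rw [this, integral_univ_inv_one_add_sq, smul_eq_mul, abs_of_pos (inv_pos.2 hY0)]
    field_simp
  have hi2 : Integrable (fun θ : ℝ => 4 * Real.pi * (M ^ s * Y ^ 2 / M ^ (2 * k)) * (1 + (Y * θ) ^ 2)⁻¹) :=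
    hcau.const_mul _
  have h3 : ∀ θ : ℝ, θ ≠ 0 → w η Y θ * ∏ i, U (X i) (φ i) 0 1 θ ≤ (2 * A) ^ s *
      (Real.exp (-(Real.pi * η ^ 2) * θ ^ 2) * √M ^ s + 4 * Real.pi * (M ^ s * Y ^ 2 / M ^ (2 * k)) * (1 + (Y * θ) ^ 2)⁻¹) := by
    intro θ hθ
    have hθp : 0 < |θ| := abs_pos.2 hθ
    have hk0 : (0 : ℝ) < k := by exact_mod_cast hk
    obtain ⟨R, hR⟩ : ∃ R : ℝ, R = (1 / |θ|) ^ ((1 : ℝ) / k) := ⟨_, rfl⟩
    have hR0 : 0 < R := by rw [hR]; positivity
    have hRk : R ^ k = 1 / |θ| := by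
      rw [hR, ← Real.rpow_natCast, ← Real.rpow_mul (by positivity), one_div_mul_cancel hk0.ne', Real.rpow_one]
    have hθR : |θ| = 1 / R ^ k := by rw [hRk]; field_simp
    have hm0 : 0 < min M R := lt_min hM hR0
    have hsM := Real.sqrt_nonneg M
    have hw0 := w_nonneg hη hY θ
    have hprod : ∏ i, U (X i) (φ i) 0 1 θ ≤ (2 * A) ^ s * (√M ^ s + (min M R) ^ s) := by
      calc ∏ i, U (X i) (φ i) 0 1 θ ≤ ∏ _i : Fin s, (A * (√M + min M R)) :=
            prod_le_prod (fun i _ => U_nonneg _ _ zero_lt_one _) fun i _ => hU i θ R hR0 hθR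
        _ = A ^ s * (√M + min M R) ^ s := by rw [prod_const, card_univ, Fintype.card_fin, mul_pow]
        _ ≤ A ^ s * (2 ^ (s - 1) * (√M ^ s + (min M R) ^ s)) := by
            gcongr
            exact add_pow_le hsM hm0.le s
        _ ≤ A ^ s * (2 ^ s * (√M ^ s + (min M R) ^ s)) := by
            have : (2 : ℝ) ^ (s - 1) ≤ 2 ^ s := pow_le_pow_right₀ (by norm_num) (by omega)
            gcongr
        _ = _ := by rw [mul_pow]; ring
    have hmin : (min M R) ^ s ≤ 2 * M ^ s / (1 + (θ * M ^ k) ^ 2) := by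
      rw [le_div_iff₀ (by positivity)]
      have habs : (θ * M ^ k) ^ 2 = (|θ| * M ^ k) ^ 2 := by rw [mul_pow, mul_pow, sq_abs]
      rcases le_or_gt M R with h | h
      · rw [min_eq_left h]
        have : |θ| * M ^ k ≤ 1 := by
          rw [hθR, one_div_mul_eq_div, div_le_one (by positivity)]
          exact pow_le_pow_left₀ hM.le h k
        have h4 : (θ * M ^ k) ^ 2 ≤ 1 := by
          rw [habs]
          exact pow_le_one₀ (by positivity) this
        have : 0 < M ^ s := by positivity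
        nlinarith
      · rw [min_eq_right h.le]
        have h5 : 1 ≤ |θ| * M ^ k := by
          rw [hθR, one_div_mul_eq_div, one_le_div (by positivity)]
          exact pow_le_pow_left₀ hR0.le h.le k
        have h6 : 1 ≤ (θ * M ^ k) ^ 2 := by
          rw [habs]
          exact one_le_pow₀ h5
        have h7 : R ^ s * (|θ| * M ^ k) ^ 2 ≤ M ^ s := by
          obtain ⟨m, rfl⟩ : ∃ m, s = 2 * k + m := ⟨s - 2 * k, by omega⟩
          have h8 : R ^ (2 * k + m) * (|θ| * M ^ k) ^ 2 = R ^ m * (M ^ k) ^ 2 := by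
            rw [hθR, pow_add, pow_mul']
            field_simp
          rw [h8, pow_add, pow_mul', mul_comm]
          gcongr
        rw [← habs] at h7
        have : 0 < R ^ s := by positivity
        nlinarith
    have hw : w η Y θ ≤ 2 * Real.pi * (Y * θ) ^ 2 * (1 + (Y * θ) ^ 2)⁻¹ := by
      rw [← div_eq_mul_inv, le_div_iff₀ (by positivity)]
      rcases le_or_gt ((Y * θ) ^ 2) 1 with h | h
      · have h9 := w_le' hη hY θ
        have h10 : Real.pi * Y ^ 2 * θ ^ 2 = Real.pi * (Y * θ) ^ 2 := by ring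
        rw [h10] at h9
        have : 0 ≤ Real.pi * (Y * θ) ^ 2 := by positivity
        nlinarith
      · have h11 : w η Y θ ≤ 1 := by
          refine (w_le η Y θ).trans ?_
          rw [← Real.exp_zero, Real.exp_le_exp]
          have : 0 ≤ Real.pi * η ^ 2 * θ ^ 2 := by positivity
          linarith
        have h12 : (1 : ℝ) ≤ Real.pi := by linarith [Real.pi_gt_three]
        nlinarith
    have hb : w η Y θ * (min M R) ^ s ≤ 4 * Real.pi * (M ^ s * Y ^ 2 / M ^ (2 * k)) * (1 + (Y * θ) ^ 2)⁻¹ := by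
      calc w η Y θ * (min M R) ^ s ≤ (2 * Real.pi * (Y * θ) ^ 2 * (1 + (Y * θ) ^ 2)⁻¹) *
            (2 * M ^ s / (1 + (θ * M ^ k) ^ 2)) := by gcongr
        _ = (4 * Real.pi * (M ^ s * Y ^ 2 / M ^ (2 * k)) * (1 + (Y * θ) ^ 2)⁻¹) *
            ((θ * M ^ k) ^ 2 / (1 + (θ * M ^ k) ^ 2)) := by
            rw [pow_mul' M 2 k]
            field_simp
            ring
        _ ≤ (4 * Real.pi * (M ^ s * Y ^ 2 / M ^ (2 * k)) * (1 + (Y * θ) ^ 2)⁻¹) * 1 := by
            gcongr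
            rw [div_le_one (by positivity)]
            linarith
        _ = _ := by ring
    calc w η Y θ * ∏ i, U (X i) (φ i) 0 1 θ ≤ w η Y θ * ((2 * A) ^ s * (√M ^ s + (min M R) ^ s)) := by gcongr
      _ = (2 * A) ^ s * (w η Y θ * √M ^ s + w η Y θ * (min M R) ^ s) := by ring
      _ ≤ _ := by
          gcongr
          exact w_le η Y θ
  have h4 : ∫ θ, w η Y θ * ∏ i, U (X i) (φ i) 0 1 θ ≤ ∫ θ : ℝ, (2 * A) ^ s *
      (Real.exp (-(Real.pi * η ^ 2) * θ ^ 2) * √M ^ s + 4 * Real.pi * (M ^ s * Y ^ 2 / M ^ (2 * k)) * (1 + (Y * θ) ^ 2)⁻¹) := by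
    apply integral_mono_ae h2 ((hi1.add hi2).const_mul _)
    have : ∀ᵐ θ : ℝ, θ ≠ 0 := by
      rw [ae_iff]
      simp
    filter_upwards [this] with θ hθ
    exact h3 θ hθ
  refine h4.trans (le_of_eq ?_)
  rw [integral_const_mul, integral_add hi1 hi2, integral_mul_const, val_gauss hη, integral_const_mul, hcv]
  congr 1
  field_simp

end

end Pool.Agent.Run7.h927.WS
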