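import Mathlib
set_option autoImplicit false

/-! The distribution of the sum of the powers on a cone. -/

namespace Pool.Agent.Run7.h927.WS

open MeasureTheory Set
open scoped Pointwise

noncomputable section

variable {s : ℕ}

/-- the sum of the powers of the absolute values -/
def Ph (k : ℕ) (v : Fin s → ℝ) : ℝ := ∑ i, |v i| ^ k

lemma cont_Ph (k : ℕ) : Continuous (Ph k : (Fin s → ℝ) → ℝ) := by
  unfold Ph
  fun_prop

lemma Ph_nonneg (k : ℕ) (v : Fin s → ℝ) : 0 ≤ Ph k v := Finset.sum_nonneg fun i _ => by positivity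

lemma Ph_smul (k : ℕ) (r : ℝ) (v : Fin s → ℝ) : Ph k (r • v) = |r| ^ k * Ph k v := by
  unfold Ph
  rw [Finset.mul_sum]
  refine Finset.sum_congr rfl fun i _ => ?_
  rw [Pi.smul_apply, smul_eq_mul, abs_mul, mul_pow]

/-- the volume of the unit ball in the cone -/
def c1 (k : ℕ) (E : Set (Fin s → ℝ)) : ℝ := (volume (E ∩ {v | Ph k v < 1})).toReal

lemma c1_nonneg (k : ℕ) (E : Set (Fin s → ℝ)) : 0 ≤ c1 k E := ENNReal.toReal_nonneg

lemma vol_fin (k : ℕ) (E : Set (Fin s → ℝ)) : volume (E ∩ {v : Fin s → ℝ | Ph k v < 1}) ≠ ⊤ := by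
  have h1 : E ∩ {v : Fin s → ℝ | Ph k v < 1} ⊆ Metric.ball 0 1 := by
    rintro v ⟨_, hv⟩
    rw [mem_ball_zero_iff, pi_norm_lt_iff one_pos]
    intro i
    have h2 : |v i| ^ k ≤ Ph k v := Finset.single_le_sum (f := fun i => |v i| ^ k) (fun i _ => by positivity) (Finset.mem_univ i)
    have h3 : |v i| ^ k < 1 := lt_of_le_of_lt h2 hv
    rw [Real.norm_eq_abs]
    by_contra h
    push Not at h
    exact absurd (one_le_pow₀ h (n := k)) (by linarith)
  exact ((measure_mono h1).trans_lt measure_ball_lt_top).ne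

/-- the volume of the balls in the cone -/
lemma vol_scale (k : ℕ) (hk : k ≠ 0) (E : Set (Fin s → ℝ)) (hE : ∀ r : ℝ, 0 < r → ∀ v, v ∈ E ↔ r • v ∈ E) {t : ℝ}
    (ht : 0 < t) : volume (E ∩ {v : Fin s → ℝ | Ph k v < t}) = ENNReal.ofReal (c1 k E * t ^ ((s : ℝ) / k)) := by
  have hk0 : (0 : ℝ) < k := by exact_mod_cast Nat.pos_of_ne_zero hk
  obtain ⟨r, hr⟩ : ∃ r : ℝ, r = t ^ ((1 : ℝ) / k) := ⟨_, rfl⟩
  have hr0 : 0 < r := by rw [hr]; positivity
  have hrk : r ^ k = t := by
    rw [hr, ← Real.rpow_natCast, ← Real.rpow_mul ht.le, one_div_mul_cancel hk0.ne', Real.rpow_one]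
  have h1 : E ∩ {v : Fin s → ℝ | Ph k v < t} = r • (E ∩ {v : Fin s → ℝ | Ph k v < 1}) := by
    ext v
    rw [mem_smul_set_iff_inv_smul_mem₀ hr0.ne']
    simp only [mem_inter_iff, mem_ofPred_eq]
    rw [Ph_smul, abs_of_pos (inv_pos.2 hr0), inv_pow, hrk, inv_mul_lt_iff₀ ht, mul_one]
    have h2 : r⁻¹ • v ∈ E ↔ v ∈ E := by
      rw [hE r hr0, smul_smul, mul_inv_cancel₀ hr0.ne', one_smul]
    rw [h2]
  rw [h1, Measure.addHaar_smul_of_nonneg _ hr0.le, Module.finrank_fin_fun, ← ENNReal.ofReal_toReal (vol_fin k E),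
    ← ENNReal.ofReal_mul (by positivity)]
  congr 1
  rw [mul_comm]
  congr 1
  rw [hr, ← Real.rpow_natCast, ← Real.rpow_mul ht.le]
  congr 1
  ring

lemma vol_all (k : ℕ) (hk : k ≠ 0) (hs : s ≠ 0) (E : Set (Fin s → ℝ)) (hE : ∀ r : ℝ, 0 < r → ∀ v, v ∈ E ↔ r • v ∈ E) (t : ℝ) :
    volume (E ∩ {v : Fin s → ℝ | Ph k v < t}) = ENNReal.ofReal (c1 k E * (max t 0) ^ ((s : ℝ) / k)) := by
  have hk0 : (0 : ℝ) < k := by exact_mod_cast Nat.pos_of_ne_zero hk
  have hs0 : (0 : ℝ) < s := by exact_mod_cast Nat.pos_of_ne_zero hs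
  rcases le_or_gt t 0 with h | h
  · have h1 : E ∩ {v : Fin s → ℝ | Ph k v < t} = ∅ := by
      ext v
      simp only [mem_inter_iff, mem_ofPred_eq, mem_empty_iff_false, iff_false, not_and, not_lt]
      intro _
      exact h.trans (Ph_nonneg k v)
    rw [h1, max_eq_right h, Real.zero_rpow (by positivity)]
    simp
  · rw [max_eq_left h.le]
    exact vol_scale k hk E hE h

/-- the distribution -/
lemma map_eq (k : ℕ) (hk : k ≠ 0) (hs : s ≠ 0) (E : Set (Fin s → ℝ)) (hEm : MeasurableSet E)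
    (hE : ∀ r : ℝ, 0 < r → ∀ v, v ∈ E ↔ r • v ∈ E) :
    Measure.map (Ph k) ((volume : Measure (Fin s → ℝ)).restrict E) = (volume.restrict (Ioi (0 : ℝ))).withDensity
      (fun t => ENNReal.ofReal (c1 k E * ((s : ℝ) / k * t ^ ((s : ℝ) / k - 1)))) := by
  have hk0 : (0 : ℝ) < k := by exact_mod_cast Nat.pos_of_ne_zero hk
  have hs0 : (0 : ℝ) < s := by exact_mod_cast Nat.pos_of_ne_zero hs
  obtain ⟨a, ha⟩ : ∃ a : ℝ, a = s / k := ⟨_, rfl⟩
  have ha0 : 0 < a := by rw [ha]; positivity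
  have hPm : Measurable (Ph k : (Fin s → ℝ) → ℝ) := (cont_Ph k).measurable
  have hc := c1_nonneg k E
  rw [← ha]
  have hL : ∀ x y : ℝ, x < y → Measure.map (Ph k) ((volume : Measure (Fin s → ℝ)).restrict E) (Ico x y) =
      ENNReal.ofReal (c1 k E * (max y 0) ^ a - c1 k E * (max x 0) ^ a) := by
    intro x y hxy
    rw [Measure.map_apply hPm measurableSet_Ico, Measure.restrict_apply (hPm measurableSet_Ico)]
    have h1 : (Ph k) ⁻¹' (Ico x y) ∩ E = (E ∩ {v : Fin s → ℝ | Ph k v < y}) \ (E ∩ {v : Fin s → ℝ | Ph k v < x}) := by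
      ext v
      simp only [mem_inter_iff, mem_preimage, mem_Ico, mem_sdiff, mem_ofPred_eq, not_and, not_lt]
      tauto
    rw [h1, measure_sdiff, vol_all k hk hs E hE, vol_all k hk hs E hE, ← ha, ENNReal.ofReal_sub _ (by positivity)]
    · intro v hv
      exact ⟨hv.1, lt_trans hv.2 hxy⟩
    · exact (hEm.inter (hPm measurableSet_Iio)).nullMeasurableSet
    · rw [vol_all k hk hs E hE]
      exact ENNReal.ofReal_ne_top
  apply Measure.ext_of_Ico'
  · intro x y hxy
    rw [hL x y hxy]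
    exact ENNReal.ofReal_ne_top
  · intro x y hxy
    rw [hL x y hxy, withDensity_apply _ measurableSet_Ico, Measure.restrict_restrict measurableSet_Ico]
    have h2 : (Ico x y ∩ Ioi 0 : Set ℝ) =ᵐ[volume] Ioo (max x 0) y := by
      rw [← Ioo_inter_Ioi]
      exact Filter.EventuallyEq.inter Ioo_ae_eq_Ico.symm (Filter.EventuallyEq.refl _ _)
    rw [Measure.restrict_congr_set h2]
    rcases le_or_gt y 0 with hy | hy
    · have h3 : Ioo (max x 0) y = ∅ := by
        rw [Ioo_eq_empty]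
        intro h
        exact absurd (lt_of_le_of_lt (le_max_right x 0) h) (not_lt.2 hy)
      rw [h3, max_eq_right hy, max_eq_right (hxy.le.trans hy)]
      simp
    · have hm : max x 0 ≤ y := max_le hxy.le hy.le
      have hint : IntervalIntegrable (fun t : ℝ => c1 k E * (a * t ^ (a - 1))) volume (max x 0) y :=
        ((intervalIntegral.intervalIntegrable_rpow' (by linarith)).const_mul a).const_mul _
      rw [Measure.restrict_congr_set Ioo_ae_eq_Ioc, ← ofReal_integral_eq_lintegral_ofReal]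
      · congr 1
        rw [← intervalIntegral.integral_of_le hm, intervalIntegral.integral_const_mul, intervalIntegral.integral_const_mul,
          integral_rpow (Or.inl (by linarith)), max_eq_left hy.le]
        have : a - 1 + 1 = a := by ring
        rw [this]
        field_simp
      · exact (intervalIntegrable_iff_integrableOn_Ioc_of_le hm).1 hint
      · rw [Filter.EventuallyLE, ae_restrict_iff' measurableSet_Ioc]
        refine Filter.Eventually.of_forall fun t ht => ?_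
        have : 0 ≤ t := (le_max_right x 0).trans ht.1.le
        positivity

/-- integrals of radial functions -/
theorem radial (k : ℕ) (hk : k ≠ 0) (hs : s ≠ 0) (E : Set (Fin s → ℝ)) (hEm : MeasurableSet E)
    (hE : ∀ r : ℝ, 0 < r → ∀ v, v ∈ E ↔ r • v ∈ E) (G : ℝ → ℝ) (hG : Continuous G) (T : ℝ) :
    ∫ v in E ∩ {v : Fin s → ℝ | Ph k v < T}, G (Ph k v) =
      ∫ t in Ioo (0 : ℝ) T, c1 k E * ((s : ℝ) / k * t ^ ((s : ℝ) / k - 1)) * G t := by
  have hPm : Measurable (Ph k : (Fin s → ℝ) → ℝ) := (cont_Ph k).measurable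
  have hc := c1_nonneg k E
  have h1 : E ∩ {v : Fin s → ℝ | Ph k v < T} = (Ph k) ⁻¹' (Iio T) ∩ E := by
    ext v
    simp only [mem_inter_iff, mem_preimage, mem_Iio, mem_ofPred_eq]
    tauto
  rw [h1, ← Measure.restrict_restrict (hPm measurableSet_Iio), ← setIntegral_map measurableSet_Iio hG.aestronglyMeasurable hPm.aemeasurable,
    map_eq k hk hs E hEm hE, setIntegral_withDensity_eq_setIntegral_toReal_smul]
  · rw [Measure.restrict_restrict measurableSet_Iio]
    have h2 : Iio T ∩ Ioi (0 : ℝ) = Ioo 0 T := by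
      ext t
      simp [and_comm]
    rw [h2]
    refine setIntegral_congr_fun measurableSet_Ioo fun t ht => ?_
    rw [ENNReal.toReal_ofReal, smul_eq_mul]
    have := ht.1
    positivity
  · fun_prop
  · exact Filter.Eventually.of_forall fun t => ENNReal.ofReal_lt_top
  · exact measurableSet_Iio

end

end Pool.Agent.Run7.h927.WS
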