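import Pool.Agent.Run7.h927.WS.V
import Pool.Agent.Run7.h927.WS.P
set_option autoImplicit false

/-! The number of the solutions at the wide scale. -/

namespace Pool.Agent.Run7.h927.WS

open MeasureTheory Finset
open Pool.Agent.Run7.h927.WG (gauss_shift)

noncomputable section

/-- the Gaussian weight -/
def gau (u : ℝ) : ℝ := Real.exp (-Real.pi * u ^ 2)

lemma gau_pos (u : ℝ) : 0 < gau u := Real.exp_pos _

lemma gau_le_one (u : ℝ) : gau u ≤ 1 := by
  unfold gau
  rw [← Real.exp_zero, Real.exp_le_exp]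
  have := mul_nonneg Real.pi_pos.le (sq_nonneg u)
  linarith

lemma cont_gau : Continuous gau := by
  unfold gau
  fun_prop

lemma gau_inv (u : ℝ) : gau u * (1 + Real.pi * u ^ 2 + (Real.pi * u ^ 2) ^ 2 / 2) ≤ 1 := by
  have h1 := Real.quadratic_le_exp_of_nonneg (mul_nonneg Real.pi_pos.le (sq_nonneg u))
  calc gau u * (1 + Real.pi * u ^ 2 + (Real.pi * u ^ 2) ^ 2 / 2) ≤ gau u * Real.exp (Real.pi * u ^ 2) :=
        mul_le_mul_of_nonneg_left h1 (gau_pos u).le
    _ = 1 := by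
        unfold gau
        rw [← Real.exp_add]
        rw [show -Real.pi * u ^ 2 + Real.pi * u ^ 2 = 0 by ring, Real.exp_zero]

lemma gau_dec (u : ℝ) : |u| * gau u ≤ (1 + u ^ 2)⁻¹ := by
  rw [← one_div, le_div_iff₀ (by positivity)]
  refine le_trans ?_ (gau_inv u)
  have h0 := (gau_pos u).le
  have hpi := Real.pi_gt_three
  have hu : |u| ^ 2 = u ^ 2 := sq_abs u
  have h1 : |u| * (1 + u ^ 2) ≤ 1 + Real.pi * u ^ 2 + (Real.pi * u ^ 2) ^ 2 / 2 := by
    have h2 : |u| ≤ 1 + u ^ 2 := by nlinarith [sq_nonneg (|u| - 1), abs_nonneg u]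
    have h3 : |u| * (1 + u ^ 2) ≤ (1 + u ^ 2) * (1 + u ^ 2) := mul_le_mul_of_nonneg_right h2 (by positivity)
    have h4 : 3 * u ^ 2 ≤ Real.pi * u ^ 2 := mul_le_mul_of_nonneg_right hpi.le (sq_nonneg u)
    have h5 : (3 * u ^ 2) ^ 2 ≤ (Real.pi * u ^ 2) ^ 2 := pow_le_pow_left₀ (by positivity) h4 2
    nlinarith [sq_nonneg u, sq_nonneg (u ^ 2)]
  calc |u| * gau u * (1 + u ^ 2) = gau u * (|u| * (1 + u ^ 2)) := by ring
    _ ≤ _ := mul_le_mul_of_nonneg_left h1 h0

lemma gau_sq (u : ℝ) : gau u * u ^ 2 ≤ 1 := by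
  refine le_trans ?_ (gau_inv u)
  have h0 := (gau_pos u).le
  have hpi := Real.pi_gt_three
  apply mul_le_mul_of_nonneg_left _ h0
  have h4 : 1 * u ^ 2 ≤ Real.pi * u ^ 2 := mul_le_mul_of_nonneg_right (by linarith) (sq_nonneg u)
  nlinarith [sq_nonneg (Real.pi * u ^ 2)]

lemma gau_total {Y : ℝ} (hY : 0 < Y) (ν : ℝ) : Integrable (fun t : ℝ => gau ((t - ν) / Y)) ∧
    ∫ t : ℝ, gau ((t - ν) / Y) = Y := by
  have h := gauss_shift hY ν
  have h1 : (fun t : ℝ => gau ((t - ν) / Y)) = fun t : ℝ => Real.exp (-Real.pi * ((ν - t) / Y) ^ 2) := by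
    funext t
    unfold gau
    congr 1
    rw [show (t - ν) / Y = -((ν - t) / Y) by ring, neg_sq]
  rw [h1]
  exact h

lemma first_moment {Y : ℝ} (hY : 0 < Y) (ν : ℝ) : Integrable (fun t : ℝ => |t - ν| * gau ((t - ν) / Y)) ∧
    ∫ t : ℝ, |t - ν| * gau ((t - ν) / Y) ≤ Real.pi * Y ^ 2 := by
  have hb : ∀ t : ℝ, |t - ν| * gau ((t - ν) / Y) ≤ Y * (1 + ((t - ν) / Y) ^ 2)⁻¹ := by
    intro t
    have h1 := gau_dec ((t - ν) / Y)
    have h2 : |t - ν| = Y * |(t - ν) / Y| := by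
      rw [abs_div, abs_of_pos hY]
      field_simp
    rw [h2, mul_assoc]
    exact mul_le_mul_of_nonneg_left h1 hY.le
  have hi : Integrable (fun t : ℝ => Y * (1 + ((t - ν) / Y) ^ 2)⁻¹) := by
    apply Integrable.const_mul
    have h3 : Integrable (fun t : ℝ => (1 + (t / Y) ^ 2)⁻¹) := integrable_inv_one_add_sq.comp_div hY.ne'
    exact h3.comp_sub_right ν
  have hv : ∫ t : ℝ, Y * (1 + ((t - ν) / Y) ^ 2)⁻¹ = Real.pi * Y ^ 2 := by
    rw [integral_const_mul, integral_sub_right_eq_self (fun t : ℝ => (1 + (t / Y) ^ 2)⁻¹) ν,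
      Measure.integral_comp_div (fun u : ℝ => (1 + u ^ 2)⁻¹) Y, integral_univ_inv_one_add_sq, smul_eq_mul, abs_of_pos hY]
    ring
  have hi2 : Integrable (fun t : ℝ => |t - ν| * gau ((t - ν) / Y)) := by
    refine hi.mono' ?_ (Filter.Eventually.of_forall fun t => ?_)
    · apply Continuous.aestronglyMeasurable
      exact (by fun_prop : Continuous fun t : ℝ => |t - ν|).mul (cont_gau.comp (by fun_prop))
    · rw [Real.norm_eq_abs, abs_of_nonneg (mul_nonneg (abs_nonneg _) (gau_pos _).le)]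
      exact hb t
  exact ⟨hi2, (integral_mono hi2 hi hb).trans hv.le⟩

lemma approx {Y : ℝ} (hY : 0 < Y) (ν : ℝ) (H : ℝ → ℝ) (hH : Measurable H) (H0 Λ : ℝ) (hΛ : ∀ t, |H t - H0| ≤ Λ * |t - ν|) :
    |(∫ t : ℝ, H t * gau ((t - ν) / Y)) - H0 * Y| ≤ Real.pi * Λ * Y ^ 2 := by
  obtain ⟨g1, g2⟩ := gau_total hY ν
  obtain ⟨m1, m2⟩ := first_moment hY ν
  have hΛ0 : 0 ≤ Λ := by
    have := hΛ (ν + 1)
    rw [show ν + 1 - ν = 1 by ring, abs_one, mul_one] at this
    exact (abs_nonneg _).trans this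
  have hid : Integrable (fun t : ℝ => (H t - H0) * gau ((t - ν) / Y)) := by
    refine (m1.const_mul Λ).mono' ?_ (Filter.Eventually.of_forall fun t => ?_)
    · exact ((hH.sub_const H0).mul (cont_gau.measurable.comp (by fun_prop))).aestronglyMeasurable
    · rw [Real.norm_eq_abs, abs_mul, abs_of_pos (gau_pos _), ← mul_assoc]
      exact mul_le_mul_of_nonneg_right (hΛ t) (gau_pos _).le
  have h1 : (∫ t : ℝ, H t * gau ((t - ν) / Y)) - H0 * Y = ∫ t : ℝ, (H t - H0) * gau ((t - ν) / Y) := by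
    have h2 : ∀ t : ℝ, H t * gau ((t - ν) / Y) = (H t - H0) * gau ((t - ν) / Y) + H0 * gau ((t - ν) / Y) := fun t => by ring
    simp only [h2]
    rw [integral_add hid (g1.const_mul H0), integral_const_mul, g2]
    ring
  rw [h1, ← Real.norm_eq_abs]
  refine (norm_integral_le_integral_norm _).trans ?_
  calc ∫ t : ℝ, ‖(H t - H0) * gau ((t - ν) / Y)‖ ≤ ∫ t : ℝ, Λ * (|t - ν| * gau ((t - ν) / Y)) := by
        apply integral_mono hid.norm (m1.const_mul Λ)
        intro t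
        simp only
        rw [Real.norm_eq_abs, abs_mul, abs_of_pos (gau_pos _), ← mul_assoc]
        exact mul_le_mul_of_nonneg_right (hΛ t) (gau_pos _).le
    _ = Λ * ∫ t : ℝ, |t - ν| * gau ((t - ν) / Y) := integral_const_mul _ _
    _ ≤ Λ * (Real.pi * Y ^ 2) := mul_le_mul_of_nonneg_left m2 hΛ0
    _ = _ := by ring

lemma rpow_lip' {b T x y : ℝ} (hb : 1 ≤ b) (hx : 0 ≤ x) (hxy : x ≤ y) (hy : y ≤ T) :
    y ^ b - x ^ b ≤ b * T ^ (b - 1) * (y - x) := by
  rcases eq_or_lt_of_le (hx.trans hxy) with h | h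
  · have hy0 : y = 0 := h.symm
    have hx0 : x = 0 := le_antisymm (hxy.trans hy0.le) hx
    rw [hy0, hx0]
    simp
  · have h1 := one_add_mul_self_le_rpow_one_add (s := x / y - 1) (by
      have : 0 ≤ x / y := by positivity
      linarith) hb
    rw [show 1 + (x / y - 1) = x / y by ring, Real.div_rpow hx h.le] at h1
    have h2 : 0 < y ^ b := by positivity
    rw [le_div_iff₀ h2] at h1
    have h3 : y ^ b = y ^ (b - 1) * y := by
      rw [← Real.rpow_add_one h.ne']
      congr 1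
      ring
    have h4 : (1 + b * (x / y - 1)) * y ^ b = y ^ b + b * y ^ (b - 1) * (x - y) := by
      rw [h3]
      field_simp
    rw [h4] at h1
    have h5 : y ^ (b - 1) ≤ T ^ (b - 1) := Real.rpow_le_rpow h.le hy (by linarith)
    have h6 : b * y ^ (b - 1) * (y - x) ≤ b * T ^ (b - 1) * (y - x) := by
      have : 0 ≤ y - x := by linarith
      gcongr
    linarith

lemma rpow_lip {b T x y : ℝ} (hb : 1 ≤ b) (hx : 0 ≤ x) (hxT : x ≤ T) (hy : 0 ≤ y) (hyT : y ≤ T) :
    |x ^ b - y ^ b| ≤ b * T ^ (b - 1) * |x - y| := by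
  rcases le_total x y with h | h
  · rw [abs_sub_comm, abs_sub_comm x y, abs_of_nonneg (by linarith : 0 ≤ y - x), abs_of_nonneg]
    · exact rpow_lip' hb hx h hyT
    · linarith [Real.rpow_le_rpow hx h (by linarith : 0 ≤ b)]
  · rw [abs_of_nonneg (by linarith : 0 ≤ x - y), abs_of_nonneg]
    · exact rpow_lip' hb hy h hxT
    · linarith [Real.rpow_le_rpow hy h (by linarith : 0 ≤ b)]

variable {s : ℕ}

/-- the integral of the weight over the cone -/
lemma main_volume (k : ℕ) (hk : k ≠ 0) (hs : 2 * k ≤ s) (E : Set (Fin s → ℝ)) (hEm : MeasurableSet E)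
    (hE : ∀ r : ℝ, 0 < r → ∀ v, v ∈ E ↔ r • v ∈ E) {T ν d Y : ℝ} (hd : 0 < d) (hd1 : d ≤ ν) (hd2 : d ≤ T - ν)
    (hY : 0 < Y) :
    |(∫ v in E ∩ {v : Fin s → ℝ | Ph k v < T}, gau ((Ph k v - ν) / Y)) -
      c1 k E * ((s : ℝ) / k) * ν ^ ((s : ℝ) / k - 1) * Y| ≤
      c1 k E * ((s : ℝ) / k) * (Real.pi * (((s : ℝ) / k - 1) * T ^ ((s : ℝ) / k - 1 - 1) + T ^ ((s : ℝ) / k - 1) / d) * Y ^ 2) := by
  have hk0 : (0 : ℝ) < k := by exact_mod_cast Nat.pos_of_ne_zero hk
  have hs' : s ≠ 0 := by omega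
  have hs0 : (0 : ℝ) < s := by exact_mod_cast Nat.pos_of_ne_zero hs'
  have hc := c1_nonneg k E
  rw [radial k hk hs' E hEm hE (fun t => gau ((t - ν) / Y)) (cont_gau.comp (by fun_prop)) T]
  obtain ⟨b, hb⟩ : ∃ b : ℝ, b = (s : ℝ) / k - 1 := ⟨_, rfl⟩
  have hb1 : 1 ≤ b := by
    rw [hb, le_sub_iff_add_le, le_div_iff₀ hk0]
    have : ((2 * k : ℕ) : ℝ) ≤ s := by exact_mod_cast hs
    push_cast at this
    linarith
  rw [← hb]
  have hT0 : 0 < T := by linarith
  have hν0 : 0 < ν := by linarith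
  obtain ⟨H, hH⟩ : ∃ H : ℝ → ℝ, H = (Set.Ioo (0 : ℝ) T).indicator (fun t => t ^ b) := ⟨_, rfl⟩
  have hHm : Measurable H := by
    rw [hH]
    exact (Measurable.pow_const measurable_id b).indicator measurableSet_Ioo
  have h1 := approx hY ν H hHm (ν ^ b) (b * T ^ (b - 1) + T ^ b / d) (by
    intro t
    have g1 : 0 ≤ b * T ^ (b - 1) := by positivity
    have g2 : 0 ≤ T ^ b / d := by positivity
    rw [hH]
    by_cases ht : t ∈ Set.Ioo (0 : ℝ) T
    · rw [Set.indicator_of_mem ht]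
      have := rpow_lip hb1 ht.1.le ht.2.le hν0.le (by linarith : ν ≤ T)
      have g3 := mul_nonneg g2 (abs_nonneg (t - ν))
      linarith
    · rw [Set.indicator_of_notMem ht, zero_sub, abs_neg, abs_of_nonneg (by positivity)]
      have g4 : d ≤ |t - ν| := by
        rw [Set.mem_Ioo, not_and_or, not_lt, not_lt] at ht
        rcases ht with h | h
        · rw [abs_of_nonpos (by linarith)]
          linarith
        · rw [abs_of_nonneg (by linarith)]
          linarith
      have g5 : ν ^ b ≤ T ^ b := Real.rpow_le_rpow hν0.le (by linarith) (by linarith)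
      calc ν ^ b ≤ T ^ b := g5
        _ = T ^ b / d * d := by field_simp
        _ ≤ T ^ b / d * |t - ν| := by gcongr
        _ ≤ _ := by nlinarith [mul_nonneg g1 (abs_nonneg (t - ν))])
  have h2 : ∫ t in Set.Ioo (0 : ℝ) T, c1 k E * ((s : ℝ) / k * t ^ b) * gau ((t - ν) / Y) =
      c1 k E * ((s : ℝ) / k) * ∫ t : ℝ, H t * gau ((t - ν) / Y) := by
    rw [← integral_indicator measurableSet_Ioo, ← integral_const_mul]
    refine integral_congr_ae (Filter.Eventually.of_forall fun t => ?_)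
    simp only
    rw [hH]
    by_cases ht : t ∈ Set.Ioo (0 : ℝ) T
    · rw [Set.indicator_of_mem ht, Set.indicator_of_mem ht]
      ring
    · rw [Set.indicator_of_notMem ht, Set.indicator_of_notMem ht]
      ring
  rw [h2]
  have h3 : c1 k E * ((s : ℝ) / k) * (∫ t : ℝ, H t * gau ((t - ν) / Y)) - c1 k E * ((s : ℝ) / k) * ν ^ b * Y =
      c1 k E * ((s : ℝ) / k) * ((∫ t : ℝ, H t * gau ((t - ν) / Y)) - ν ^ b * Y) := by ring
  rw [h3, abs_mul, abs_of_nonneg (by positivity)]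
  exact mul_le_mul_of_nonneg_left h1 (by positivity)

/-- a cube -/
def cube (c : ℕ) (x : Fin s → ℕ) : Set (Fin s → ℝ) := Set.pi Set.univ (fun i => Set.Ioc ((x i : ℝ) - 1 - c) (x i - c))

/-- the union of the cubes -/
def dom (c n : ℕ) : Set (Fin s → ℝ) := Set.pi Set.univ (fun _ => Set.Ioc (-(c : ℝ)) (n - c))

lemma meas_cube (c : ℕ) (x : Fin s → ℕ) : MeasurableSet (cube c x) := MeasurableSet.univ_pi fun _ => measurableSet_Ioc

lemma vol_cube (c : ℕ) (x : Fin s → ℕ) : volume (cube c x) = 1 := by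
  unfold cube
  rw [Real.volume_pi_Ioc]
  refine prod_eq_one fun i _ => ?_
  rw [show (x i : ℝ) - c - ((x i : ℝ) - 1 - c) = 1 by ring, ENNReal.ofReal_one]

lemma vol_dom (c n : ℕ) : volume (dom c n : Set (Fin s → ℝ)) = ENNReal.ofReal ((n : ℝ) ^ s) := by
  unfold dom
  rw [Real.volume_pi_Ioc, ENNReal.ofReal_pow (Nat.cast_nonneg n)]
  simp

lemma union_cubes (c n : ℕ) : (⋃ x ∈ Fintype.piFinset (fun _ : Fin s => Ioc 0 n), cube c x) = dom c n := by
  ext v
  simp only [Set.mem_iUnion, exists_prop, Fintype.mem_piFinset]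
  unfold cube dom
  constructor
  · rintro ⟨x, hx, hv⟩ i _
    have h1 := hv i (Set.mem_univ i)
    have h2 := mem_Ioc.1 (hx i)
    have h3 : (1 : ℝ) ≤ x i := by exact_mod_cast h2.1
    have h4 : (x i : ℝ) ≤ n := by exact_mod_cast h2.2
    exact ⟨by linarith [h1.1], by linarith [h1.2]⟩
  · intro hv
    refine ⟨fun i => ⌈v i + c⌉₊, fun i => ?_, fun i _ => ?_⟩
    · have h1 := hv i (Set.mem_univ i)
      rw [mem_Ioc]
      constructor
      · rw [Nat.ceil_pos]
        linarith [h1.1]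
      · rw [Nat.ceil_le]
        linarith [h1.2]
    · have h1 := hv i (Set.mem_univ i)
      have h2 := Nat.le_ceil (v i + c)
      have h3 := Nat.ceil_lt_add_one (by linarith [h1.1] : 0 ≤ v i + c)
      exact ⟨by linarith, by linarith⟩

lemma disj_cubes (c n : ℕ) : Set.Pairwise (↑(Fintype.piFinset (fun _ : Fin s => Ioc 0 n)))
    (Function.onFun Disjoint (cube c : (Fin s → ℕ) → Set (Fin s → ℝ))) := by
  intro x _ y _ hxy
  rw [Function.onFun, Set.disjoint_left]
  intro v hx hy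
  apply hxy
  funext i
  have h1 := hx i (Set.mem_univ i)
  have h2 := hy i (Set.mem_univ i)
  have h3 : (x i : ℝ) < y i + 1 := by linarith [h1.1, h2.2]
  have h4 : (y i : ℝ) < x i + 1 := by linarith [h2.1, h1.2]
  have h5 : x i < y i + 1 := by exact_mod_cast h3
  have h6 : y i < x i + 1 := by exact_mod_cast h4
  omega

lemma int_dom (c n : ℕ) (F : (Fin s → ℝ) → ℝ) (hF : Continuous F) (hF1 : ∀ v, |F v| ≤ 1) :
    IntegrableOn F (dom c n) := by
  refine Measure.integrableOn_of_bounded (M := 1) ?_ hF.aestronglyMeasurable (Filter.Eventually.of_forall hF1)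
  rw [vol_dom]
  exact ENNReal.ofReal_ne_top

/-- from sums to integrals -/
lemma sum_int (c n : ℕ) (F : (Fin s → ℝ) → ℝ) (hF : Continuous F) (hF1 : ∀ v, |F v| ≤ 1) (g : (Fin s → ℕ) → ℝ) (δ : ℝ)
    (hδ : ∀ x ∈ Fintype.piFinset (fun _ : Fin s => Ioc 0 n), ∀ v ∈ cube c x, |F v - g x| ≤ δ) :
    |(∑ x ∈ Fintype.piFinset (fun _ : Fin s => Ioc 0 n), g x) - ∫ v in dom c n, F v| ≤ (n : ℝ) ^ s * δ := by
  have hsub : ∀ x ∈ Fintype.piFinset (fun _ : Fin s => Ioc 0 n), cube c x ⊆ dom c n := by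
    intro x hx
    rw [← union_cubes c n]
    exact Set.subset_biUnion_of_mem (u := fun x => cube c x) hx
  have hi := int_dom c n F hF hF1
  rw [← union_cubes c n, integral_biUnion_finset _ (fun x _ => meas_cube c x) (disj_cubes c n)
    (fun x hx => hi.mono_set (hsub x hx)), ← sum_sub_distrib]
  calc |∑ x ∈ Fintype.piFinset (fun _ : Fin s => Ioc 0 n), (g x - ∫ v in cube c x, F v)|
      ≤ ∑ x ∈ Fintype.piFinset (fun _ : Fin s => Ioc 0 n), |g x - ∫ v in cube c x, F v| := abs_sum_le_sum_abs _ _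
    _ ≤ ∑ _x ∈ Fintype.piFinset (fun _ : Fin s => Ioc 0 n), δ := by
        refine sum_le_sum fun x hx => ?_
        have h1 : (∫ v in cube c x, F v) - g x = ∫ v in cube c x, (F v - g x) := by
          rw [integral_sub (hi.mono_set (hsub x hx)) (integrableOn_const (by rw [vol_cube]; simp) (by simp)), setIntegral_const,
            measureReal_def, vol_cube]
          simp
        rw [abs_sub_comm, h1, ← Real.norm_eq_abs]
        have h2 := norm_setIntegral_le_of_norm_le_const (μ := volume) (s := cube c x) (f := fun v => F v - g x) (C := δ)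
          (by rw [vol_cube]; simp) (hδ x hx)
        rwa [measureReal_def, vol_cube, ENNReal.toReal_one, mul_one] at h2
    _ = _ := by
        rw [sum_const, nsmul_eq_mul, Fintype.card_piFinset]
        simp

/-- the phases -/
def ph (k c x : ℕ) : C(ℝ, ℝ) := ⟨fun t => |(x : ℝ) - c - t| ^ k, by fun_prop⟩

lemma ph_apply (k c x : ℕ) (t : ℝ) : ph k c x t = |(x : ℝ) - c - t| ^ k := rfl

lemma gau_lip (u v : ℝ) : |gau u - gau v| ≤ 7 * |u - v| := by
  have h1 : ∀ x : ℝ, HasDerivAt gau (gau x * (-Real.pi * (2 * x))) x := by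
    intro x
    unfold gau
    have h2 : HasDerivAt (fun x : ℝ => -Real.pi * x ^ 2) (-Real.pi * (2 * x)) x := by
      have := (hasDerivAt_pow 2 x).const_mul (-Real.pi)
      simpa using this
    exact h2.exp
  have h3 : ∀ x ∈ (Set.univ : Set ℝ), ‖gau x * (-Real.pi * (2 * x))‖ ≤ 7 := by
    intro x _
    have h4 := gau_dec x
    have h5 : (1 + x ^ 2)⁻¹ ≤ 1 := inv_le_one_of_one_le₀ (by nlinarith [sq_nonneg x])
    rw [Real.norm_eq_abs, abs_mul, abs_of_pos (gau_pos x), abs_mul, abs_mul, abs_neg, abs_of_pos Real.pi_pos, abs_two]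
    have h6 := Real.pi_lt_d2
    have h7 := Real.pi_pos
    have h8 : 0 ≤ |x| * gau x := mul_nonneg (abs_nonneg x) (gau_pos x).le
    nlinarith
  have h4 := convex_univ.norm_image_sub_le_of_norm_hasDerivWithin_le (fun x _ => (h1 x).hasDerivWithinAt) h3
    (Set.mem_univ v) (Set.mem_univ u)
  simpa [Real.norm_eq_abs] using h4

/-- the number at the wide scale -/
theorem wide (k : ℕ) (hk : k ≠ 0) (hs : 2 * k ≤ s) (c n : ℕ) (hcn : c ≤ n) (E : Set (Fin s → ℝ)) (hEm : MeasurableSet E)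
    (hE : ∀ r : ℝ, 0 < r → ∀ v, v ∈ E ↔ r • v ∈ E) {T ν d Y : ℝ} (hd : 0 < d) (hd1 : d ≤ ν) (hd2 : d ≤ T - ν)
    (hY : 0 < Y) (hE1 : E ∩ {v : Fin s → ℝ | Ph k v < T} ⊆ dom c n) (hE2 : (dom c n : Set (Fin s → ℝ)) ⊆ E)
    (α : Fin s → ℝ) (hα : ∀ i, α i ∈ Set.Icc (0 : ℝ) 1) :
    |N (fun _ => Ioc 0 n) (fun _ => ph k c) Y α ν - c1 k E * ((s : ℝ) / k) * ν ^ ((s : ℝ) / k - 1) * Y| ≤
      c1 k E * ((s : ℝ) / k) * (Real.pi * (((s : ℝ) / k - 1) * T ^ ((s : ℝ) / k - 1 - 1) + T ^ ((s : ℝ) / k - 1) / d) * Y ^ 2) +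
      (n : ℝ) ^ s * (Y / d) ^ 2 + (n : ℝ) ^ s * (7 * (s * (k * (n + 1 : ℝ) ^ (k - 1)) / Y)) := by
  have hmv := main_volume k hk hs E hEm hE hd hd1 hd2 hY
  obtain ⟨F, hF⟩ : ∃ F : (Fin s → ℝ) → ℝ, F = fun v => gau ((Ph k v - ν) / Y) := ⟨_, rfl⟩
  have hFc : Continuous F := by
    rw [hF]
    exact cont_gau.comp (((cont_Ph k).sub continuous_const).div_const Y)
  have hF0 : ∀ v, 0 ≤ F v := fun v => by rw [hF]; exact (gau_pos _).le
  have hF1 : ∀ v, |F v| ≤ 1 := by
    intro v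
    rw [abs_of_nonneg (hF0 v), hF]
    exact gau_le_one _
  -- the part outside the ball
  have h1 : |(∫ v in dom c n, F v) - ∫ v in E ∩ {v : Fin s → ℝ | Ph k v < T}, F v| ≤ (n : ℝ) ^ s * (Y / d) ^ 2 := by
    have hBm : MeasurableSet (E ∩ {v : Fin s → ℝ | Ph k v < T}) := hEm.inter ((cont_Ph k).measurable measurableSet_Iio)
    have hi := int_dom c n F hFc hF1
    have h2 : (∫ v in dom c n, F v) - ∫ v in E ∩ {v : Fin s → ℝ | Ph k v < T}, F v =
        ∫ v in dom c n \ (E ∩ {v : Fin s → ℝ | Ph k v < T}), F v := by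
      rw [setIntegral_sdiff hBm hi hE1]
    rw [h2, ← Real.norm_eq_abs]
    have hvol : volume (dom c n \ (E ∩ {v : Fin s → ℝ | Ph k v < T})) ≤ ENNReal.ofReal ((n : ℝ) ^ s) := by
      rw [← vol_dom c n]
      exact measure_mono Set.sdiff_subset
    have h3 := norm_setIntegral_le_of_norm_le_const (μ := volume) (s := dom c n \ (E ∩ {v : Fin s → ℝ | Ph k v < T}))
      (f := F) (C := (Y / d) ^ 2) (hvol.trans_lt ENNReal.ofReal_lt_top) (by
        rintro v ⟨hv1, hv2⟩
        have h4 : T ≤ Ph k v := by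
          by_contra h
          push Not at h
          exact hv2 ⟨hE2 hv1, h⟩
        rw [Real.norm_eq_abs, abs_of_nonneg (hF0 v), hF]
        simp only
        have h5 : (d / Y) ^ 2 ≤ ((Ph k v - ν) / Y) ^ 2 := by
          apply pow_le_pow_left₀ (by positivity)
          gcongr
          linarith
        have h6 := gau_sq ((Ph k v - ν) / Y)
        have h7 : gau ((Ph k v - ν) / Y) * (d / Y) ^ 2 ≤ 1 :=
          (mul_le_mul_of_nonneg_left h5 (gau_pos _).le).trans h6
        have h8 : (Y / d) ^ 2 = 1 / (d / Y) ^ 2 := by field_simp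
        rw [h8, le_div_iff₀ (by positivity)]
        exact h7)
    refine h3.trans ?_
    rw [mul_comm]
    refine mul_le_mul_of_nonneg_right ?_ (by positivity)
    rw [measureReal_def]
    have h9 := ENNReal.toReal_mono ENNReal.ofReal_ne_top hvol
    rwa [ENNReal.toReal_ofReal (by positivity)] at h9
  -- from the sum to the integral
  have h2 := sum_int c n F hFc hF1 (fun x => gau ((L (fun _ => ph k c) α x - ν) / Y))
    (7 * (s * (k * (n + 1 : ℝ) ^ (k - 1)) / Y)) (by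
      intro x hx v hv
      rw [hF]
      refine (gau_lip _ _).trans ?_
      have h3 : (Ph k v - ν) / Y - (L (fun _ => ph k c) α x - ν) / Y = (Ph k v - L (fun _ => ph k c) α x) / Y := by ring
      rw [h3, abs_div, abs_of_pos hY]
      gcongr
      unfold Ph L
      rw [← sum_sub_distrib]
      refine (abs_sum_le_sum_abs _ _).trans ?_
      calc ∑ i, |(|v i| ^ k - ph k c (x i) (α i))| ≤ ∑ _i : Fin s, (k * (n + 1 : ℝ) ^ (k - 1)) := by
            refine sum_le_sum fun i _ => ?_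
            rw [ph_apply]
            have g1 := hv i (Set.mem_univ i)
            have g2 := hα i
            have g3 := mem_Ioc.1 (Fintype.mem_piFinset.1 hx i)
            have g4 : (1 : ℝ) ≤ x i := by exact_mod_cast g3.1
            have g5 : (x i : ℝ) ≤ n := by exact_mod_cast g3.2
            have g6 : (c : ℝ) ≤ n := by exact_mod_cast hcn
            have g7 : (0 : ℝ) ≤ c := Nat.cast_nonneg c
            refine (abs_pow_sub_pow_le (α := ℝ) _ _ _).trans ?_
            have g8 : |(|v i| - |(x i : ℝ) - c - α i|)| ≤ 1 := by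
              refine (abs_abs_sub_abs_le _ _).trans ?_
              rw [abs_le]
              exact ⟨by linarith [g1.1, g2.1, g2.2], by linarith [g1.2, g2.1, g2.2]⟩
            have g9 : max |(|v i|)| |(|(x i : ℝ) - c - α i|)| ≤ n + 1 := by
              rw [abs_abs, abs_abs]
              refine max_le ?_ ?_
              · rw [abs_le]
                exact ⟨by linarith [g1.1], by linarith [g1.2]⟩
              · rw [abs_le]
                exact ⟨by linarith [g2.2], by linarith [g2.1]⟩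
            calc |(|v i| - |(x i : ℝ) - c - α i|)| * (k : ℝ) * max |(|v i|)| |(|(x i : ℝ) - c - α i|)| ^ (k - 1)
                ≤ 1 * (k : ℝ) * (n + 1 : ℝ) ^ (k - 1) := by gcongr
              _ = _ := by ring
        _ = _ := by
            rw [sum_const, card_univ, Fintype.card_fin, nsmul_eq_mul])
  have h3 : N (fun _ => Ioc 0 n) (fun _ => ph k c) Y α ν =
      ∑ x ∈ Fintype.piFinset (fun _ : Fin s => Ioc 0 n), gau ((L (fun _ => ph k c) α x - ν) / Y) := rfl
  rw [h3]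
  rw [← hF] at hmv
  have h4 := abs_sub_le ((∑ x ∈ Fintype.piFinset (fun _ : Fin s => Ioc 0 n), gau ((L (fun _ => ph k c) α x - ν) / Y)))
    (∫ v in dom c n, F v) (c1 k E * ((s : ℝ) / k) * ν ^ ((s : ℝ) / k - 1) * Y)
  have h5 := abs_sub_le (∫ v in dom c n, F v) (∫ v in E ∩ {v : Fin s → ℝ | Ph k v < T}, F v)
    (c1 k E * ((s : ℝ) / k) * ν ^ ((s : ℝ) / k - 1) * Y)
  linarith

end

end Pool.Agent.Run7.h927.WS
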