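import Pool.Agent.Run7.h927.WS.W
set_option autoImplicit false

/-! From the weighted number to the number: two sided. -/

namespace Pool.Agent.Run7.h927.WS

open MeasureTheory Finset

noncomputable section

variable {s : ℕ}

lemma N_gau (X : Fin s → Finset ℕ) (φ : Fin s → ℕ → C(ℝ, ℝ)) (η : ℝ) (α : Fin s → ℝ) (ν : ℝ) :
    N X φ η α ν = ∑ x ∈ Fintype.piFinset X, gau ((ν - L φ α x) / η) := by
  unfold N gau
  refine sum_congr rfl fun x _ => ?_
  congr 2
  rw [show (ν - L φ α x) / η = -((L φ α x - ν) / η) by ring, neg_sq]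

lemma cont_shift (η y : ℝ) : Continuous (fun t : ℝ => gau ((t - y) / η)) := cont_gau.comp (by fun_prop)

/-- the integral of the weighted number -/
lemma int_N (X : Fin s → Finset ℕ) (φ : Fin s → ℕ → C(ℝ, ℝ)) (η : ℝ) (α : Fin s → ℝ) (u v : ℝ) :
    ∫ t in u..v, N X φ η α t = ∑ x ∈ Fintype.piFinset X, ∫ t in u..v, gau ((t - L φ α x) / η) := by
  have h1 : (fun t => N X φ η α t) = fun t => ∑ x ∈ Fintype.piFinset X, gau ((t - L φ α x) / η) := by
    funext t
    exact N_gau X φ η α t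
  rw [h1]
  exact intervalIntegral.integral_finsetSum fun x _ => (cont_shift η _).intervalIntegrable _ _

lemma cont_N (X : Fin s → Finset ℕ) (φ : Fin s → ℕ → C(ℝ, ℝ)) (η : ℝ) (α : Fin s → ℝ) : Continuous (fun t => N X φ η α t) := by
  have h1 : (fun t => N X φ η α t) = fun t => ∑ x ∈ Fintype.piFinset X, gau ((t - L φ α x) / η) := by
    funext t
    exact N_gau X φ η α t
  rw [h1]
  exact continuous_finsetSum _ fun x _ => cont_shift η _

lemma gau_anti {a b : ℝ} (h : |a| ≤ |b|) : gau b ≤ gau a := by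
  unfold gau
  rw [Real.exp_le_exp]
  have h1 : a ^ 2 ≤ b ^ 2 := sq_le_sq.2 h
  have := Real.pi_pos
  nlinarith

/-- lower bound for the number -/
lemma sharp_lower (X : Fin s → Finset ℕ) (φ : Fin s → ℕ → C(ℝ, ℝ)) {η ρ ε V : ℝ} (hη : 0 < η) (hρ : 0 < ρ) (hε : ρ ≤ ε)
    (α : Fin s → ℝ) (ν : ℝ) (h : ∀ t ∈ Set.Icc (ν - (ε - ρ)) (ν + (ε - ρ)), η * V ≤ N X φ η α t) :
    2 * (ε - ρ) * V ≤ (((Fintype.piFinset X).filter (fun x => |L φ α x - ν| ≤ ε)).card : ℝ) +
      ((Fintype.piFinset X).card : ℝ) * (2 * ε / η * gau (ρ / η)) := by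
  have hlt : ν - (ε - ρ) ≤ ν + (ε - ρ) := by linarith
  have h1 : 2 * (ε - ρ) * (η * V) ≤ ∫ t in (ν - (ε - ρ))..(ν + (ε - ρ)), N X φ η α t := by
    calc 2 * (ε - ρ) * (η * V) = ∫ _t in (ν - (ε - ρ))..(ν + (ε - ρ)), η * V := by
          rw [intervalIntegral.integral_const, smul_eq_mul]
          ring
      _ ≤ _ := intervalIntegral.integral_mono_on hlt intervalIntegrable_const ((cont_N X φ η α).intervalIntegrable _ _) h
  rw [int_N] at h1
  have h3 : ∀ x ∈ Fintype.piFinset X, ∫ t in (ν - (ε - ρ))..(ν + (ε - ρ)), gau ((t - L φ α x) / η) ≤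
      (if |L φ α x - ν| ≤ ε then η else 0) + 2 * ε * gau (ρ / η) := by
    intro x _
    obtain ⟨g1, g2⟩ := gau_total hη (L φ α x)
    have hε0 : 0 < ε := hρ.trans_le hε
    have hg := (gau_pos (ρ / η)).le
    split_ifs with hx
    · have h4 : ∫ t in (ν - (ε - ρ))..(ν + (ε - ρ)), gau ((t - L φ α x) / η) ≤ η := by
        rw [intervalIntegral.integral_of_le hlt]
        refine le_trans ?_ (le_of_eq g2)
        exact setIntegral_le_integral g1 (Filter.Eventually.of_forall fun t => (gau_pos _).le)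
      have h5 : 0 ≤ 2 * ε * gau (ρ / η) := by positivity
      linarith
    · rw [zero_add]
      calc ∫ t in (ν - (ε - ρ))..(ν + (ε - ρ)), gau ((t - L φ α x) / η)
          ≤ ∫ _t in (ν - (ε - ρ))..(ν + (ε - ρ)), gau (ρ / η) := by
            apply intervalIntegral.integral_mono_on hlt
            · exact (cont_shift η _).intervalIntegrable _ _
            · exact intervalIntegrable_const
            · intro t ht
              apply gau_anti
              rw [abs_div, abs_div, abs_of_pos hη, abs_of_pos hρ]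
              gcongr
              have h6 : ε < |L φ α x - ν| := not_le.1 hx
              have h8 : |L φ α x - ν| ≤ |t - L φ α x| + |t - ν| := by
                have : L φ α x - ν = -(t - L φ α x) + (t - ν) := by ring
                rw [this]
                refine (abs_add_le _ _).trans ?_
                rw [abs_neg]
              have h9 : |t - ν| ≤ ε - ρ := by
                rw [abs_le]
                exact ⟨by linarith [ht.1], by linarith [ht.2]⟩
              linarith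
        _ = 2 * (ε - ρ) * gau (ρ / η) := by
            rw [intervalIntegral.integral_const, smul_eq_mul]
            ring
        _ ≤ 2 * ε * gau (ρ / η) := by
            apply mul_le_mul_of_nonneg_right _ hg
            linarith
  have h4 : 2 * (ε - ρ) * (η * V) ≤ η * (((Fintype.piFinset X).filter (fun x => |L φ α x - ν| ≤ ε)).card : ℝ) +
      ((Fintype.piFinset X).card : ℝ) * (2 * ε * gau (ρ / η)) := by
    refine (h1.trans (sum_le_sum h3)).trans (le_of_eq ?_)
    rw [sum_add_distrib, sum_const, nsmul_eq_mul, ← sum_filter, sum_const, nsmul_eq_mul]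
    ring
  refine le_of_mul_le_mul_left ?_ hη
  calc η * (2 * (ε - ρ) * V) = 2 * (ε - ρ) * (η * V) := by ring
    _ ≤ _ := h4
    _ = _ := by field_simp

/-- upper bound for the number -/
lemma sharp_upper (X : Fin s → Finset ℕ) (φ : Fin s → ℕ → C(ℝ, ℝ)) {η ρ ε V : ℝ} (hη : 0 < η) (hρ : 0 < ρ) (hε : 0 < ε)
    (α : Fin s → ℝ) (ν : ℝ) (h : ∀ t ∈ Set.Icc (ν - (ε + ρ)) (ν + (ε + ρ)), N X φ η α t ≤ η * V) :
    (((Fintype.piFinset X).filter (fun x => |L φ α x - ν| ≤ ε)).card : ℝ) * (1 - Real.pi * (η / ρ)) ≤ 2 * (ε + ρ) * V := by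
  have hlt : ν - (ε + ρ) ≤ ν + (ε + ρ) := by linarith
  have h1 : ∫ t in (ν - (ε + ρ))..(ν + (ε + ρ)), N X φ η α t ≤ 2 * (ε + ρ) * (η * V) := by
    calc _ ≤ ∫ _t in (ν - (ε + ρ))..(ν + (ε + ρ)), η * V :=
          intervalIntegral.integral_mono_on hlt ((cont_N X φ η α).intervalIntegrable _ _) intervalIntegrable_const h
      _ = _ := by
          rw [intervalIntegral.integral_const, smul_eq_mul]
          ring
  rw [int_N] at h1
  have h3 : ∀ x ∈ (Fintype.piFinset X).filter (fun x => |L φ α x - ν| ≤ ε),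
      η - Real.pi * η ^ 2 / ρ ≤ ∫ t in (ν - (ε + ρ))..(ν + (ε + ρ)), gau ((t - L φ α x) / η) := by
    intro x hx
    have hx2 := (mem_filter.1 hx).2
    obtain ⟨y, hy⟩ : ∃ y, y = L φ α x := ⟨_, rfl⟩
    rw [← hy] at hx2 ⊢
    obtain ⟨g1, g2⟩ := gau_total hη y
    obtain ⟨m1, m2⟩ := first_moment hη y
    rw [intervalIntegral.integral_of_le hlt]
    obtain ⟨A, hA⟩ : ∃ A, A = Set.Ioc (ν - (ε + ρ)) (ν + (ε + ρ)) := ⟨_, rfl⟩
    rw [← hA]
    have hAm : MeasurableSet A := by rw [hA]; exact measurableSet_Ioc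
    have h4 : (∫ t in A, gau ((t - y) / η)) + ∫ t in Aᶜ, gau ((t - y) / η) = η := by
      rw [integral_add_compl hAm g1, g2]
    have h5 : ∫ t in Aᶜ, gau ((t - y) / η) ≤ Real.pi * η ^ 2 / ρ := by
      calc ∫ t in Aᶜ, gau ((t - y) / η) ≤ ∫ t in Aᶜ, 1 / ρ * (|t - y| * gau ((t - y) / η)) := by
            apply setIntegral_mono_on g1.integrableOn (m1.const_mul _).integrableOn hAm.compl
            intro t ht
            have h6 : ρ ≤ |t - y| := by
              by_contra hcon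
              push Not at hcon
              apply ht
              rw [hA]
              rw [abs_lt] at hcon
              rw [abs_le] at hx2
              exact ⟨by linarith [hx2.1, hcon.1], by linarith [hx2.2, hcon.2]⟩
            have h7 := (gau_pos ((t - y) / η)).le
            rw [← mul_assoc, one_div_mul_eq_div]
            have h8 : 1 ≤ |t - y| / ρ := (one_le_div hρ).2 h6
            nlinarith
        _ ≤ ∫ t : ℝ, 1 / ρ * (|t - y| * gau ((t - y) / η)) := by
            apply setIntegral_le_integral (m1.const_mul _)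
            refine Filter.Eventually.of_forall fun t => ?_
            have h7 := (gau_pos ((t - y) / η)).le
            simp only [Pi.zero_apply]
            positivity
        _ = 1 / ρ * ∫ t : ℝ, |t - y| * gau ((t - y) / η) := integral_const_mul _ _
        _ ≤ 1 / ρ * (Real.pi * η ^ 2) := by gcongr
        _ = _ := by ring
    linarith
  have h4 : (((Fintype.piFinset X).filter (fun x => |L φ α x - ν| ≤ ε)).card : ℝ) * (η - Real.pi * η ^ 2 / ρ) ≤
      ∑ x ∈ Fintype.piFinset X, ∫ t in (ν - (ε + ρ))..(ν + (ε + ρ)), gau ((t - L φ α x) / η) := by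
    rw [← nsmul_eq_mul, ← sum_const]
    refine (sum_le_sum h3).trans ?_
    refine sum_le_sum_of_subset_of_nonneg (filter_subset _ _) fun x _ _ => ?_
    exact intervalIntegral.integral_nonneg hlt fun t _ => (gau_pos _).le
  refine le_of_mul_le_mul_left ?_ hη
  calc η * ((((Fintype.piFinset X).filter (fun x => |L φ α x - ν| ≤ ε)).card : ℝ) * (1 - Real.pi * (η / ρ)))
      = (((Fintype.piFinset X).filter (fun x => |L φ α x - ν| ≤ ε)).card : ℝ) * (η - Real.pi * η ^ 2 / ρ) := by ring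
    _ ≤ _ := h4
    _ ≤ _ := h1
    _ = _ := by ring

/-- both bounds, in terms of one error -/
theorem sharp (X : Fin s → Finset ℕ) (φ : Fin s → ℕ → C(ℝ, ℝ)) {η ρ ε V D : ℝ} (hη : 0 < η) (hρ : 0 < ρ) (hε : ρ ≤ ε)
    (hηρ : 2 * Real.pi * (η / ρ) ≤ 1) (hV : 0 ≤ V) (hD : 0 ≤ D)
    (α : Fin s → ℝ) (ν : ℝ) (h : ∀ t ∈ Set.Icc (ν - (ε + ρ)) (ν + (ε + ρ)), |N X φ η α t - η * V| ≤ η * D) :
    |(((Fintype.piFinset X).filter (fun x => |L φ α x - ν| ≤ ε)).card : ℝ) - 2 * ε * V| ≤
      2 * ρ * V + 8 * ε * D + 8 * Real.pi * (η / ρ) * ε * V + ((Fintype.piFinset X).card : ℝ) * (2 * ε / η * gau (ρ / η)) +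
        2 * Real.pi * (η / ρ) * ρ * V * 4 := by
  have hε0 : 0 < ε := hρ.trans_le hε
  have h1 := sharp_lower X φ (V := V - D) hη hρ hε α ν (by
    intro t ht
    have := abs_le.1 (h t ⟨by linarith [ht.1], by linarith [ht.2]⟩)
    linarith [this.1])
  have h2 := sharp_upper X φ (V := V + D) hη hρ hε0 α ν (by
    intro t ht
    have := abs_le.1 (h t ht)
    linarith [this.2])
  obtain ⟨R, hR⟩ : ∃ R : ℝ, R = (((Fintype.piFinset X).filter (fun x => |L φ α x - ν| ≤ ε)).card : ℝ) := ⟨_, rfl⟩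
  obtain ⟨Z, hZ⟩ : ∃ Z : ℝ, Z = ((Fintype.piFinset X).card : ℝ) * (2 * ε / η * gau (ρ / η)) := ⟨_, rfl⟩
  obtain ⟨τ, hτ⟩ : ∃ τ : ℝ, τ = Real.pi * (η / ρ) := ⟨_, rfl⟩
  have hτ0 : 0 < τ := by
    rw [hτ]
    have := Real.pi_pos
    positivity
  have hτ1 : 2 * τ ≤ 1 := by rw [hτ]; linarith
  have hR0 : 0 ≤ R := by rw [hR]; positivity
  have hZ0 : 0 ≤ Z := by
    rw [hZ]
    have := (gau_pos (ρ / η)).le
    positivity
  rw [← hR, ← hZ] at h1
  rw [← hR, ← hτ] at h2
  rw [← hR, ← hZ]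
  have hgoal : 2 * ρ * V + 8 * ε * D + 8 * Real.pi * (η / ρ) * ε * V + Z + 2 * Real.pi * (η / ρ) * ρ * V * 4 =
      2 * ρ * V + 8 * ε * D + 8 * τ * ε * V + Z + 8 * τ * ρ * V := by rw [hτ]; ring
  rw [hgoal]
  have hRup : R ≤ 2 * (ε + ρ) * (V + D) * (1 + 2 * τ) := by
    have h3 : 0 < 1 - τ := by linarith
    have h4 : 1 ≤ (1 - τ) * (1 + 2 * τ) := by nlinarith
    have h5 : 0 ≤ 2 * (ε + ρ) * (V + D) := by positivity
    calc R ≤ R * ((1 - τ) * (1 + 2 * τ)) := by nlinarith
      _ = R * (1 - τ) * (1 + 2 * τ) := by ring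
      _ ≤ _ := mul_le_mul_of_nonneg_right h2 (by linarith)
  have p1 : 0 ≤ ρ * V := by positivity
  have p2 : 0 ≤ ε * D := by positivity
  have p3 : 0 ≤ τ * ε * V := by positivity
  have p4 : 0 ≤ τ * ρ * V := by positivity
  have p5 : ρ * D ≤ ε * D := mul_le_mul_of_nonneg_right hε hD
  have p6 : τ * (ε * D) ≤ 1 / 2 * (ε * D) := mul_le_mul_of_nonneg_right (by linarith) p2
  have p7 : τ * (ρ * D) ≤ 1 / 2 * (ρ * D) := mul_le_mul_of_nonneg_right (by linarith) (by positivity)
  have p8 : 0 ≤ ρ * D := by positivity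
  rw [abs_le]
  constructor
  · have : 2 * (ε - ρ) * (V - D) = 2 * ε * V - 2 * (ρ * V) - 2 * (ε * D) + 2 * (ρ * D) := by ring
    nlinarith
  · have : 2 * (ε + ρ) * (V + D) * (1 + 2 * τ) = 2 * ε * V + 2 * (ρ * V) + 2 * (ε * D) + 2 * (ρ * D) +
        4 * (τ * ε * V) + 4 * (τ * ρ * V) + 4 * (τ * (ε * D)) + 4 * (τ * (ρ * D)) := by ring
    nlinarith

end

end Pool.Agent.Run7.h927.WS
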