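import Pool.Agent.Run7.h927.WS.X
set_option autoImplicit false

/-! The asymptotic formula for almost all parameters. -/

namespace Pool.Agent.Run7.h927.WS

open MeasureTheory Finset Filter
open Pool.Agent.Run7.h927.WG (bc)

noncomputable section

/-- real powers of the power of two -/
def pw (J : ℕ) (x : ℝ) : ℝ := (2 : ℝ) ^ ((J : ℝ) * x)

lemma pw_pos (J : ℕ) (x : ℝ) : 0 < pw J x := by unfold pw; positivity

lemma pw_add (J : ℕ) (x y : ℝ) : pw J (x + y) = pw J x * pw J y := by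
  unfold pw
  rw [← Real.rpow_add (by norm_num)]
  congr 1
  ring

lemma pw_nat (J m : ℕ) : pw J m = ((2 : ℝ) ^ J) ^ m := by
  unfold pw
  rw [Real.rpow_mul (by norm_num), Real.rpow_natCast, Real.rpow_natCast]

lemma pw_one (J : ℕ) : pw J 1 = (2 : ℝ) ^ J := by
  have := pw_nat J 1
  simpa using this

lemma pw_zero (J : ℕ) : pw J 0 = 1 := by
  unfold pw
  simp

lemma pw_sub (J : ℕ) (x y : ℝ) : pw J (x - y) = pw J x / pw J y := by
  rw [eq_div_iff (pw_pos J y).ne', ← pw_add]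
  congr 1
  ring

lemma pw_mono (J : ℕ) {x y : ℝ} (h : x ≤ y) : pw J x ≤ pw J y := by
  unfold pw
  apply Real.rpow_le_rpow_of_exponent_le (by norm_num)
  exact mul_le_mul_of_nonneg_left h (Nat.cast_nonneg J)

lemma pw_pow (J : ℕ) (x : ℝ) (m : ℕ) : pw J x ^ m = pw J (m * x) := by
  unfold pw
  rw [← Real.rpow_natCast, ← Real.rpow_mul (by norm_num)]
  congr 1
  ring

lemma pw_rpow (J : ℕ) (x y : ℝ) : pw J x ^ y = pw J (x * y) := by
  unfold pw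
  rw [← Real.rpow_mul (by norm_num)]
  congr 1
  ring

lemma pw_sqrt (J : ℕ) : √((2 : ℝ) ^ J) = pw J (1 / 2) := by
  rw [← pw_one, Real.sqrt_eq_iff_mul_self_eq (pw_pos J 1).le (pw_pos J _).le, ← pw_add]
  norm_num

lemma pw_geom (J : ℕ) (x : ℝ) : pw J x = ((2 : ℝ) ^ x) ^ J := by
  unfold pw
  rw [mul_comm, Real.rpow_mul (by norm_num), Real.rpow_natCast]

lemma pw_tendsto {x : ℝ} (h : 0 < x) : Tendsto (fun J => pw J x) atTop atTop := by
  simp only [pw_geom]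
  exact tendsto_pow_atTop_atTop_of_one_lt (Real.one_lt_rpow (by norm_num) h)

/-- constants are absorbed -/
lemma pw_absorb (C : ℝ) {x y : ℝ} (h : x < y) : ∀ᶠ J in atTop, C * pw J x ≤ pw J y := by
  filter_upwards [(pw_tendsto (sub_pos.2 h)).eventually (eventually_ge_atTop C)] with J hJ
  calc C * pw J x ≤ pw J (y - x) * pw J x := mul_le_mul_of_nonneg_right hJ (pw_pos J x).le
    _ = pw J y := by
        rw [← pw_add]
        congr 1
        ring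

lemma fac_absorb (s : ℕ) {x : ℝ} (hx : 0 < x) : ∀ᶠ J in atTop, (2 * (2 * fac J)) ^ s ≤ pw J x := by
  have hr : 1 < (2 : ℝ) ^ x := Real.one_lt_rpow (by norm_num) hx
  have h1 := tendsto_pow_const_div_const_pow_of_one_lt (3 * s) hr
  have h2 := h1.eventually (eventually_le_nhds (zero_lt_one (α := ℝ)))
  filter_upwards [h2, eventually_ge_atTop 36] with J hJ hJ36
  have hJr : (36 : ℝ) ≤ J := by exact_mod_cast hJ36
  rw [div_le_one (by positivity)] at hJ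
  rw [pw_geom]
  refine le_trans ?_ hJ
  rw [pow_mul]
  apply pow_le_pow_left₀
  · have := fac_pos J
    linarith
  · unfold fac
    have h3 : Real.log ((2 ^ J : ℕ) : ℝ) = J * Real.log 2 := by
      push_cast
      rw [Real.log_pow]
    rw [h3]
    have h4 : Real.log 2 ≤ 1 := by linarith [Real.log_two_lt_d9]
    have h5 : √(3 + 2 * (J * Real.log 2)) ≤ J := by
      rw [Real.sqrt_le_left (by linarith)]
      have : (J : ℝ) * Real.log 2 ≤ J * 1 := mul_le_mul_of_nonneg_left h4 (by linarith)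
      nlinarith
    have h6 : 0 ≤ √(3 + 2 * (J * Real.log 2)) := Real.sqrt_nonneg _
    calc 2 * (2 * ((J + 1) * √(3 + 2 * (J * Real.log 2)))) ≤ 2 * (2 * ((J + 1) * J)) := by gcongr
      _ = (4 * (J + 1)) * J := by ring
      _ ≤ (J * J) * (J : ℝ) := by
          apply mul_le_mul_of_nonneg_right _ (by linarith)
          nlinarith
      _ = (J : ℝ) ^ 3 := by ring

variable {s : ℕ}

/-- the scale -/
def eta (J : ℕ) : ℝ := pw J (-(1 / 8))
/-- the wide scale -/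
def wid (k J : ℕ) : ℝ := pw J (k - 1 / 4)

lemma eta_le (k J : ℕ) (hk : 1 ≤ k) : eta J ≤ wid k J := by
  unfold eta wid
  apply pw_mono
  have : (1 : ℝ) ≤ k := by exact_mod_cast hk
  linarith

/-- the bound for the frequencies -/
theorem ae_Q (k : ℕ) (hk : 2 ≤ k) (hs : 2 * k + 1 ≤ s) (c n : ℕ → ℕ)
    (hU : ∀ J, ∀ θ R : ℝ, 0 < R → |θ| = 1 / R ^ k →
      U (Ioc 0 (n J)) (ph k (c J)) 0 1 θ ≤ 2 * fac J * (√(2 ^ J) + min (2 ^ J) R)) :
    ∀ᵐ α ∂(box s 0 1), ∀ᶠ J in atTop,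
      Q (fun _ => Ioc 0 (n J)) (fun _ => ph k (c J)) (eta J) (wid k J) α < pw J ((s : ℝ) - k - 1 / 8) := by
  have hpi := Real.pi_pos
  have hq : (2 : ℝ) ^ (-(1 / 16) : ℝ) < 1 := Real.rpow_lt_one_of_one_lt_of_neg (by norm_num) (by norm_num)
  refine bc (box s 0 1) (fun J α => Q (fun _ => Ioc 0 (n J)) (fun _ => ph k (c J)) (eta J) (wid k J) α) (fun J => pw J ((s : ℝ) - k - 1 / 8))
    (1 + 4 * Real.pi ^ 2) ((2 : ℝ) ^ (-(1 / 16) : ℝ)) (by positivity) hq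
    (fun J α => Q_nonneg _ _ (pw_pos J _) (eta_le k J (by omega)) α) ?_
  filter_upwards [fac_absorb s (x := 1 / 16) (by norm_num)] with J hJ
  refine ⟨pw_pos _ _, int_Q _ _ (pw_pos J _) (eta_le k J (by omega)) 0 1, ?_⟩
  have hfac := fac_pos J
  have h1 := mean_full k s (by omega) (fun _ => Ioc 0 (n J)) (fun _ => ph k (c J)) (2 ^ J) (2 * fac J) (by positivity)
    (by linarith) (fun _ => hU J) (by omega) (pw_pos J (-(1 / 8))) (eta_le k J (by omega))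
  refine h1.trans ?_
  have hsr : ((2 * k + 1 : ℕ) : ℝ) ≤ s := by exact_mod_cast hs
  push_cast at hsr
  have h2 : √((2 : ℝ) ^ J) ^ s / pw J (-(1 / 8)) ≤ pw J ((s : ℝ) - k - 1 / 8 - 1 / 8) := by
    rw [pw_sqrt, pw_pow, ← pw_sub]
    apply pw_mono
    linarith
  have h3 : ((2 : ℝ) ^ J) ^ s * wid k J / ((2 : ℝ) ^ J) ^ (2 * k) = pw J ((s : ℝ) - k - 1 / 8 - 1 / 8) := by
    unfold wid
    rw [← pw_nat, ← pw_nat, ← pw_add, ← pw_sub]
    congr 1
    push_cast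
    ring
  have h4 : 4 * Real.pi ^ 2 * ((2 : ℝ) ^ J) ^ s * wid k J / ((2 : ℝ) ^ J) ^ (2 * k) =
      4 * Real.pi ^ 2 * pw J ((s : ℝ) - k - 1 / 8 - 1 / 8) := by
    rw [← h3]
    ring
  rw [h4]
  have h5 : pw J ((s : ℝ) - k - 1 / 8 - 1 / 8) = pw J (-(1 / 16)) * pw J (-(1 / 16)) * pw J ((s : ℝ) - k - 1 / 8) := by
    rw [← pw_add, ← pw_add]
    congr 1
    ring
  have h6 : pw J (1 / 16) * pw J (-(1 / 16)) = 1 := by
    rw [← pw_add, ← pw_zero J]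
    congr 1
    ring
  calc (2 * (2 * fac J)) ^ s * (√((2 : ℝ) ^ J) ^ s / pw J (-(1 / 8)) + 4 * Real.pi ^ 2 * pw J ((s : ℝ) - k - 1 / 8 - 1 / 8))
      ≤ pw J (1 / 16) * (pw J ((s : ℝ) - k - 1 / 8 - 1 / 8) + 4 * Real.pi ^ 2 * pw J ((s : ℝ) - k - 1 / 8 - 1 / 8)) := by
        have := (pw_pos J ((s : ℝ) - k - 1 / 8 - 1 / 8)).le
        have g1 : 0 ≤ √((2 : ℝ) ^ J) ^ s / pw J (-(1 / 8)) := by
          have := pw_pos J (-(1 / 8))
          positivity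
        gcongr
        exact (pw_pos J _).le
    _ = (1 + 4 * Real.pi ^ 2) * (pw J (1 / 16) * pw J (-(1 / 16))) * pw J (-(1 / 16)) * pw J ((s : ℝ) - k - 1 / 8) := by
        rw [h5]
        ring
    _ = _ := by rw [h6, mul_one, pw_geom J (-(1 / 16))]

/-- the wide scale, eventually -/
lemma wide_ev (k : ℕ) (hk : 2 ≤ k) (hs : 2 * k + 1 ≤ s) (c n : ℕ → ℕ) (hcn : ∀ J, c J ≤ n J) (hn : ∀ J, n J ≤ 2 * 2 ^ J)
    (E : Set (Fin s → ℝ)) (hEm : MeasurableSet E)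
    (hE : ∀ r : ℝ, 0 < r → ∀ v, v ∈ E ↔ r • v ∈ E)
    (hE1 : ∀ J, E ∩ {v : Fin s → ℝ | Ph k v < (2 ^ J) ^ k} ⊆ dom (c J) (n J)) (hE2 : ∀ J, (dom (c J) (n J) : Set (Fin s → ℝ)) ⊆ E) :
    ∀ᶠ J in atTop, ∀ α : Fin s → ℝ, (∀ i, α i ∈ Set.Icc (0 : ℝ) 1) → ∀ t : ℝ, (2 ^ J) ^ k / 2 ^ (k + 2) ≤ t →
      t ≤ (2 ^ J) ^ k - (2 ^ J) ^ k / 2 ^ (k + 2) →
      |N (fun _ => Ioc 0 (n J)) (fun _ => ph k (c J)) (wid k J) α t - c1 k E * ((s : ℝ) / k) * t ^ ((s : ℝ) / k - 1) * wid k J| ≤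
        wid k J * pw J ((s : ℝ) - k - 1 / 8) := by
  have hpi := Real.pi_pos
  have hk0 : (0 : ℝ) < k := by exact_mod_cast (by omega : 0 < k)
  have hsr : ((2 * k + 1 : ℕ) : ℝ) ≤ s := by exact_mod_cast hs
  push_cast at hsr
  have hs0 : (0 : ℝ) < s := by linarith
  obtain ⟨C0, hC0⟩ : ∃ C0 : ℝ, C0 = c1 k E * ((s : ℝ) / k) := ⟨_, rfl⟩
  have hC00 : 0 ≤ C0 := by
    rw [hC0]
    have := c1_nonneg k E
    positivity
  obtain ⟨b, hb⟩ : ∃ b : ℝ, b = (s : ℝ) / k - 1 := ⟨_, rfl⟩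
  have hb1 : 1 ≤ b := by
    rw [hb, le_sub_iff_add_le, le_div_iff₀ hk0]
    linarith
  have hkb : (k : ℝ) * b = s - k := by rw [hb]; field_simp
  obtain ⟨C, hC⟩ : ∃ C : ℝ, C = C0 * (Real.pi * (b + 2 ^ (k + 2))) + 2 ^ s * (2 ^ (k + 2)) ^ 2 + 2 ^ s * (7 * (s * (k * 3 ^ (k - 1)))) := ⟨_, rfl⟩
  filter_upwards [pw_absorb C (show (s : ℝ) - k - 1 / 4 < (s : ℝ) - k - 1 / 8 by linarith)] with J hJ
  intro α hα t ht1 ht2
  obtain ⟨M, hM⟩ : ∃ M : ℝ, M = 2 ^ J := ⟨_, rfl⟩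
  have hM1 : 1 ≤ M := by rw [hM]; exact one_le_pow₀ (by norm_num)
  have hM0 : 0 < M := by linarith
  have hd0 : 0 < M ^ k / 2 ^ (k + 2) := by positivity
  rw [← hM] at ht1 ht2
  have hw := wide k (by omega) (by omega) (c J) (n J) (hcn J) E hEm hE (T := M ^ k) (ν := t) (d := M ^ k / 2 ^ (k + 2))
    (Y := wid k J) hd0 ht1 (by linarith) (pw_pos _ _) (by rw [hM]; exact hE1 J) (hE2 J) α hα
  rw [← hC0, ← hb] at hw
  rw [← hC0, ← hb]
  refine hw.trans ?_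
  have hY : wid k J = pw J (k - 1 / 4) := rfl
  have hY0 : 0 < wid k J := pw_pos _ _
  have hMk : M ^ k = pw J k := by rw [pw_nat, hM]
  have e1 : (M ^ k) ^ (b - 1) = pw J ((s : ℝ) - 2 * k) := by
    rw [hMk, pw_rpow]
    congr 1
    linarith
  have e2 : (M ^ k) ^ b = pw J ((s : ℝ) - k) := by
    rw [hMk, pw_rpow, hkb]
  have e3 : (M ^ k) ^ b / (M ^ k / 2 ^ (k + 2)) = 2 ^ (k + 2) * pw J ((s : ℝ) - 2 * k) := by
    rw [e2, hMk, show (s : ℝ) - 2 * k = ((s : ℝ) - k) - k by ring, pw_sub J ((s : ℝ) - k)]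
    have := pw_pos J k
    field_simp
  have hnr : (n J : ℝ) ≤ 2 * M := by
    rw [hM]
    exact_mod_cast hn J
  have hn0 : (0 : ℝ) ≤ n J := Nat.cast_nonneg _
  have e4 : (n J : ℝ) ^ s ≤ 2 ^ s * pw J s := by
    rw [pw_nat, ← hM, ← mul_pow]
    exact pow_le_pow_left₀ hn0 hnr s
  have e5 : ((n J : ℝ) + 1) ^ (k - 1) ≤ 3 ^ (k - 1) * pw J ((k : ℝ) - 1) := by
    have : (k : ℝ) - 1 = ((k - 1 : ℕ) : ℝ) := by
      rw [Nat.cast_sub (by omega)]
      simp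
    rw [this, pw_nat, ← hM, ← mul_pow]
    exact pow_le_pow_left₀ (by linarith) (by linarith) _
  have t1 : C0 * (Real.pi * (b * (M ^ k) ^ (b - 1) + (M ^ k) ^ b / (M ^ k / 2 ^ (k + 2))) * wid k J ^ 2) =
      C0 * (Real.pi * (b + 2 ^ (k + 2))) * (wid k J * pw J ((s : ℝ) - k - 1 / 4)) := by
    rw [e1, e3]
    have : wid k J ^ 2 * pw J ((s : ℝ) - 2 * k) = wid k J * pw J ((s : ℝ) - k - 1 / 4) := by
      rw [sq, mul_assoc]
      congr 1
      rw [hY, ← pw_add]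
      congr 1
      ring
    rw [← this]
    ring
  have t2 : (n J : ℝ) ^ s * (wid k J / (M ^ k / 2 ^ (k + 2))) ^ 2 ≤
      2 ^ s * (2 ^ (k + 2)) ^ 2 * (wid k J * pw J ((s : ℝ) - k - 1 / 4)) := by
    have h1 : (wid k J / (M ^ k / 2 ^ (k + 2))) ^ 2 = (2 ^ (k + 2)) ^ 2 * pw J (-(1 / 4)) ^ 2 := by
      have : pw J (-(1 / 4)) = wid k J / M ^ k := by
        rw [hY, hMk, ← pw_sub]
        congr 1
        ring
      rw [this]
      field_simp
    rw [h1]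
    calc (n J : ℝ) ^ s * ((2 ^ (k + 2)) ^ 2 * pw J (-(1 / 4)) ^ 2) ≤
          (2 ^ s * pw J s) * ((2 ^ (k + 2)) ^ 2 * pw J (-(1 / 4)) ^ 2) :=
          mul_le_mul_of_nonneg_right e4 (by positivity)
      _ = 2 ^ s * (2 ^ (k + 2)) ^ 2 * (wid k J * pw J ((s : ℝ) - k - 1 / 4)) := by
          have : pw J s * pw J (-(1 / 4)) ^ 2 = wid k J * pw J ((s : ℝ) - k - 1 / 4) := by
            rw [pw_pow, hY, ← pw_add, ← pw_add]
            congr 1
            push_cast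
            ring
          rw [← this]
          ring
  have t3 : (n J : ℝ) ^ s * (7 * (s * (k * ((n J : ℝ) + 1) ^ (k - 1)) / wid k J)) ≤
      2 ^ s * (7 * (s * (k * 3 ^ (k - 1)))) * (wid k J * pw J ((s : ℝ) - k - 1 / 4)) := by
    calc (n J : ℝ) ^ s * (7 * (s * (k * ((n J : ℝ) + 1) ^ (k - 1)) / wid k J)) ≤
          (2 ^ s * pw J s) * (7 * (s * (k * (3 ^ (k - 1) * pw J ((k : ℝ) - 1))) / wid k J)) := by
          have := (pw_pos J s).le
          gcongr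
      _ = 2 ^ s * (7 * (s * (k * 3 ^ (k - 1)))) * (pw J s * pw J ((k : ℝ) - 1) / wid k J) := by ring
      _ ≤ _ := by
          apply mul_le_mul_of_nonneg_left _ (by positivity)
          rw [hY, ← pw_add, ← pw_sub, ← pw_add]
          apply pw_mono
          linarith
  calc _ ≤ C0 * (Real.pi * (b + 2 ^ (k + 2))) * (wid k J * pw J ((s : ℝ) - k - 1 / 4)) +
        2 ^ s * (2 ^ (k + 2)) ^ 2 * (wid k J * pw J ((s : ℝ) - k - 1 / 4)) +
        2 ^ s * (7 * (s * (k * 3 ^ (k - 1)))) * (wid k J * pw J ((s : ℝ) - k - 1 / 4)) :=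
        add_le_add (add_le_add t1.le t2) t3
    _ = wid k J * (C * pw J ((s : ℝ) - k - 1 / 4)) := by rw [hC]; ring
    _ ≤ _ := mul_le_mul_of_nonneg_left hJ hY0.le

end

end Pool.Agent.Run7.h927.WS
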