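import Pool.Agent.Run7.h927.WS.Y
set_option autoImplicit false

/-! The asymptotic formula for almost all parameters: the number of the solutions. -/

namespace Pool.Agent.Run7.h927.WS

open MeasureTheory Finset Filter

noncomputable section

variable {s : ℕ}

lemma gau_absorb (x : ℝ) {y : ℝ} (hy : 0 < y) : ∀ᶠ J in atTop, pw J x * gau (pw J y) ≤ 1 := by
  obtain ⟨m, hm⟩ := exists_nat_ge (x / y)
  have h1 := (Real.tendsto_pow_mul_exp_neg_atTop_nhds_zero m).comp (pw_tendsto hy)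
  have h2 := h1.eventually (eventually_le_nhds (zero_lt_one (α := ℝ)))
  filter_upwards [h2, (pw_tendsto hy).eventually (eventually_ge_atTop 1)] with J hJ hJ1
  simp only [Function.comp_apply] at hJ
  refine le_trans ?_ hJ
  have h3 : pw J x ≤ pw J y ^ m := by
    rw [pw_pow]
    apply pw_mono
    rw [div_le_iff₀ hy] at hm
    exact hm
  have h4 : gau (pw J y) ≤ Real.exp (-pw J y) := by
    unfold gau
    rw [Real.exp_le_exp]
    have hpi := Real.pi_gt_three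
    nlinarith
  exact mul_le_mul h3 h4 (gau_pos _).le (by positivity)

/-- the asymptotic formula at the scale `2^J` -/
theorem main_J (k : ℕ) (hk : 2 ≤ k) (hs : 2 * k + 1 ≤ s) (c n : ℕ → ℕ) (hcn : ∀ J, c J ≤ n J) (hn : ∀ J, n J ≤ 2 * 2 ^ J)
    (E : Set (Fin s → ℝ)) (hEm : MeasurableSet E)
    (hE : ∀ r : ℝ, 0 < r → ∀ v, v ∈ E ↔ r • v ∈ E)
    (hE1 : ∀ J, E ∩ {v : Fin s → ℝ | Ph k v < (2 ^ J) ^ k} ⊆ dom (c J) (n J)) (hE2 : ∀ J, (dom (c J) (n J) : Set (Fin s → ℝ)) ⊆ E)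
    (hU : ∀ J, ∀ θ R : ℝ, 0 < R → |θ| = 1 / R ^ k →
      U (Ioc 0 (n J)) (ph k (c J)) 0 1 θ ≤ 2 * fac J * (√(2 ^ J) + min (2 ^ J) R)) :
    ∃ C : ℝ, 0 < C ∧ ∀ᵐ α ∂(box s 0 1), ∀ᶠ J in atTop, ∀ ν ε : ℝ, (2 ^ J) ^ k / 2 ^ (k + 2) ≤ ν - 2 →
      ν + 2 ≤ (2 ^ J) ^ k - (2 ^ J) ^ k / 2 ^ (k + 2) → pw J (-(1 / 24)) ≤ ε → ε ≤ 1 →
      |(((Fintype.piFinset (fun _ : Fin s => Ioc 0 (n J))).filter (fun x => |L (fun _ => ph k (c J)) α x - ν| ≤ ε)).card : ℝ) -
        2 * ε * (c1 k E * ((s : ℝ) / k) * ν ^ ((s : ℝ) / k - 1))| ≤ ε * (C * pw J ((s : ℝ) - k - 1 / 24)) := by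
  have hpi := Real.pi_pos
  have hk0 : (0 : ℝ) < k := by exact_mod_cast (by omega : 0 < k)
  have hk2 : (2 : ℝ) ≤ k := by exact_mod_cast hk
  have hsr : ((2 * k + 1 : ℕ) : ℝ) ≤ s := by exact_mod_cast hs
  push_cast at hsr
  have hs0 : (0 : ℝ) < s := by linarith
  obtain ⟨C0, hC0⟩ : ∃ C0 : ℝ, C0 = c1 k E * ((s : ℝ) / k) := ⟨_, rfl⟩
  have hC00 : 0 ≤ C0 := by
    rw [hC0]
    have := c1_nonneg k E
    positivity
  obtain ⟨b, hb⟩ : ∃ b : ℝ, b = (s : ℝ) / k - 1 := ⟨_, rfl⟩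
  have hb1 : 1 ≤ b := by
    rw [hb, le_sub_iff_add_le, le_div_iff₀ hk0]
    linarith
  have hkb : (k : ℝ) * b = s - k := by rw [hb]; field_simp
  refine ⟨2 * C0 + 24 + 16 * Real.pi * C0 + 2 * 2 ^ s, by positivity, ?_⟩
  have hbox : ∀ᵐ α ∂(box s 0 1), ∀ i, α i ∈ Set.Icc (0 : ℝ) 1 := by
    rw [box_eq]
    filter_upwards [ae_restrict_mem (MeasurableSet.univ_pi fun _ => measurableSet_Icc)] with α hα i
    exact hα i (Set.mem_univ i)
  filter_upwards [hbox, ae_Q k hk hs c n hU] with α hα hQ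
  filter_upwards [hQ, wide_ev k hk hs c n hcn hn E hEm hE hE1 hE2,
    pw_absorb (2 * C0 * b) (show (s : ℝ) - 2 * k < (s : ℝ) - k - 1 / 8 by linarith),
    pw_absorb (2 * Real.pi) (show (-(1 / 24) : ℝ) < 0 by norm_num),
    gau_absorb (k + 1 / 8 + 1 / 24) (y := 1 / 24) (by norm_num)] with J hJQ hJw hJ1 hJ2 hJ3
  intro ν ε hν1 hν2 hε1 hε2
  obtain ⟨M, hM⟩ : ∃ M : ℝ, M = 2 ^ J := ⟨_, rfl⟩
  have hM1 : 1 ≤ M := by rw [hM]; exact one_le_pow₀ (by norm_num)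
  have hM0 : 0 < M := by linarith
  rw [← hC0, ← hb] at *
  rw [← hM] at hJw hν1 hν2
  obtain ⟨d, hd⟩ : ∃ d : ℝ, d = M ^ k / 2 ^ (k + 2) := ⟨_, rfl⟩
  rw [← hd] at hJw hν1 hν2
  have hd0 : 0 < d := by rw [hd]; positivity
  have hMk : M ^ k = pw J k := by rw [pw_nat, hM]
  have hν0 : 0 < ν := by linarith
  have hνT : ν ≤ M ^ k := by linarith
  have e1 : (M ^ k) ^ (b - 1) = pw J ((s : ℝ) - 2 * k) := by
    rw [hMk, pw_rpow]
    congr 1
    linarith
  have e2 : (M ^ k) ^ b = pw J ((s : ℝ) - k) := by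
    rw [hMk, pw_rpow, hkb]
  obtain ⟨V, hV⟩ : ∃ V : ℝ, V = C0 * ν ^ b := ⟨_, rfl⟩
  have hV0 : 0 ≤ V := by rw [hV]; positivity
  have hVle : V ≤ C0 * pw J ((s : ℝ) - k) := by
    rw [hV, ← e2]
    apply mul_le_mul_of_nonneg_left _ hC00
    exact Real.rpow_le_rpow hν0.le hνT (by linarith)
  obtain ⟨τ, hτ⟩ : ∃ τ : ℝ, τ = pw J ((s : ℝ) - k - 1 / 8) := ⟨_, rfl⟩
  have hτ0 : 0 < τ := by rw [hτ]; exact pw_pos _ _
  have hη0 : 0 < eta J := pw_pos _ _
  have hY0 : 0 < wid k J := pw_pos _ _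
  have hρ0 : 0 < pw J (-(1 / 12)) := pw_pos _ _
  have hε0 : 0 < ε := (pw_pos _ _).trans_le hε1
  have hρε : pw J (-(1 / 12)) ≤ ε * pw J (-(1 / 24)) := by
    calc pw J (-(1 / 12)) = pw J (-(1 / 24)) * pw J (-(1 / 24)) := by
          rw [← pw_add]
          congr 1
          norm_num
      _ ≤ _ := mul_le_mul_of_nonneg_right hε1 (pw_pos _ _).le
  have h24 : pw J (-(1 / 24)) ≤ 1 := (pw_mono J (by norm_num : (-(1 / 24) : ℝ) ≤ 0)).trans (pw_zero J).le
  have hρle : pw J (-(1 / 12)) ≤ ε := hρε.trans (by nlinarith)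
  have hηρ : eta J / pw J (-(1 / 12)) = pw J (-(1 / 24)) := by
    unfold eta
    rw [← pw_sub]
    congr 1
    norm_num
  have hρη : pw J (-(1 / 12)) / eta J = pw J (1 / 24) := by
    unfold eta
    rw [← pw_sub]
    congr 1
    norm_num
  have key : ∀ t ∈ Set.Icc (ν - (ε + pw J (-(1 / 12)))) (ν + (ε + pw J (-(1 / 12)))),
      |N (fun _ => Ioc 0 (n J)) (fun _ => ph k (c J)) (eta J) α t - eta J * V| ≤ eta J * (3 * τ) := by
    intro t ht
    have hsum : ε + pw J (-(1 / 12)) ≤ 2 := by linarith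
    have ht1 : ν - 2 ≤ t := by linarith [ht.1]
    have ht2 : t ≤ ν + 2 := by linarith [ht.2]
    have g1 := compare (fun _ : Fin s => Ioc 0 (n J)) (fun _ => ph k (c J)) hη0 (eta_le k J (by omega)) α t
    have g2 := hJw α hα t (by linarith) (by linarith)
    rw [← hτ] at g2
    have g3 : |t ^ b - ν ^ b| ≤ b * (M ^ k) ^ (b - 1) * |t - ν| :=
      rpow_lip hb1 (by linarith) (by linarith) hν0.le hνT
    have g4 : |t - ν| ≤ 2 := by
      rw [abs_le]
      exact ⟨by linarith, by linarith⟩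
    have g5 : |C0 * t ^ b - V| ≤ τ := by
      rw [hV, ← mul_sub, abs_mul, abs_of_nonneg hC00]
      calc C0 * |t ^ b - ν ^ b| ≤ C0 * (b * (M ^ k) ^ (b - 1) * 2) := by
            apply mul_le_mul_of_nonneg_left _ hC00
            exact g3.trans (mul_le_mul_of_nonneg_left g4 (by positivity))
        _ = 2 * C0 * b * pw J ((s : ℝ) - 2 * k) := by rw [e1]; ring
        _ ≤ τ := by rw [hτ]; exact hJ1
    have g6 : N (fun _ => Ioc 0 (n J)) (fun _ => ph k (c J)) (eta J) α t - eta J * V =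
        (N (fun _ => Ioc 0 (n J)) (fun _ => ph k (c J)) (eta J) α t -
          eta J / wid k J * N (fun _ => Ioc 0 (n J)) (fun _ => ph k (c J)) (wid k J) α t) +
        eta J / wid k J * (N (fun _ => Ioc 0 (n J)) (fun _ => ph k (c J)) (wid k J) α t - C0 * t ^ b * wid k J) +
        eta J * (C0 * t ^ b - V) := by
      field_simp
      ring
    rw [g6]
    refine (abs_add_le _ _).trans ?_
    refine (add_le_add (abs_add_le _ _) le_rfl).trans ?_
    rw [abs_mul (eta J / wid k J), abs_mul (eta J) (C0 * t ^ b - V), abs_of_pos (div_pos hη0 hY0), abs_of_pos hη0]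
    have g7 : eta J / wid k J * |N (fun _ => Ioc 0 (n J)) (fun _ => ph k (c J)) (wid k J) α t - C0 * t ^ b * wid k J| ≤
        eta J * τ := by
      calc _ ≤ eta J / wid k J * (wid k J * τ) := mul_le_mul_of_nonneg_left g2 (by positivity)
        _ = _ := by field_simp
    have g8 : eta J * Q (fun _ => Ioc 0 (n J)) (fun _ => ph k (c J)) (eta J) (wid k J) α ≤ eta J * τ := by
      rw [hτ]
      exact mul_le_mul_of_nonneg_left hJQ.le hη0.le
    have g9 : eta J * |C0 * t ^ b - V| ≤ eta J * τ := mul_le_mul_of_nonneg_left g5 hη0.le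
    linarith
  have hfin := sharp (fun _ : Fin s => Ioc 0 (n J)) (fun _ => ph k (c J)) hη0 hρ0 hρle
    (by rw [hηρ]; rw [pw_zero] at hJ2; exact hJ2) hV0 (by positivity : 0 ≤ 3 * τ) α ν key
  rw [hηρ, hρη] at hfin
  have hgoal : 2 * ε * (C0 * ν ^ b) = 2 * ε * V := by rw [hV]
  rw [hgoal]
  refine hfin.trans ?_
  obtain ⟨Z, hZ⟩ : ∃ Z : ℝ, Z = pw J ((s : ℝ) - k - 1 / 24) := ⟨_, rfl⟩
  have hZ0 : 0 < Z := by rw [hZ]; exact pw_pos _ _
  have hVZ : pw J (-(1 / 24)) * V ≤ C0 * Z := by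
    calc pw J (-(1 / 24)) * V ≤ pw J (-(1 / 24)) * (C0 * pw J ((s : ℝ) - k)) :=
          mul_le_mul_of_nonneg_left hVle (pw_pos _ _).le
      _ = C0 * (pw J (-(1 / 24)) * pw J ((s : ℝ) - k)) := by ring
      _ = C0 * Z := by
          rw [hZ, ← pw_add]
          congr 2
          ring
  have hτZ : τ ≤ Z := by
    rw [hτ, hZ]
    apply pw_mono
    linarith
  have hcard : ((Fintype.piFinset (fun _ : Fin s => Ioc 0 (n J))).card : ℝ) ≤ 2 ^ s * pw J s := by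
    rw [Fintype.card_piFinset]
    simp only [Nat.card_Ioc, prod_const, card_univ, Fintype.card_fin]
    push_cast
    rw [pw_nat, ← mul_pow]
    apply pow_le_pow_left₀ (Nat.cast_nonneg _)
    rw [Nat.sub_zero]
    exact_mod_cast hn J
  have a1 : 2 * pw J (-(1 / 12)) * V ≤ ε * (2 * C0 * Z) := by
    calc 2 * pw J (-(1 / 12)) * V ≤ 2 * (ε * pw J (-(1 / 24))) * V := by gcongr
      _ = 2 * ε * (pw J (-(1 / 24)) * V) := by ring
      _ ≤ 2 * ε * (C0 * Z) := by gcongr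
      _ = _ := by ring
  have a2 : 8 * ε * (3 * τ) ≤ ε * (24 * Z) := by
    calc 8 * ε * (3 * τ) = ε * (24 * τ) := by ring
      _ ≤ _ := by gcongr
  have a3 : 8 * Real.pi * pw J (-(1 / 24)) * ε * V ≤ ε * (8 * Real.pi * C0 * Z) := by
    calc 8 * Real.pi * pw J (-(1 / 24)) * ε * V = 8 * Real.pi * ε * (pw J (-(1 / 24)) * V) := by ring
      _ ≤ 8 * Real.pi * ε * (C0 * Z) := by gcongr
      _ = _ := by ring
  have a4 : ((Fintype.piFinset (fun _ : Fin s => Ioc 0 (n J))).card : ℝ) * (2 * ε / eta J * gau (pw J (1 / 24))) ≤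
      ε * (2 * 2 ^ s * Z) := by
    have hg := (gau_pos (pw J (1 / 24))).le
    calc _ ≤ (2 ^ s * pw J s) * (2 * ε / eta J * gau (pw J (1 / 24))) := by gcongr
      _ = ε * (2 * 2 ^ s * (pw J s / eta J * gau (pw J (1 / 24)))) := by ring
      _ = ε * (2 * 2 ^ s * (Z * (pw J (k + 1 / 8 + 1 / 24) * gau (pw J (1 / 24))))) := by
          have : pw J s / eta J = Z * pw J (k + 1 / 8 + 1 / 24) := by
            unfold eta
            rw [hZ, ← pw_sub, ← pw_add]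
            congr 1
            ring
          rw [this]
          ring
      _ ≤ ε * (2 * 2 ^ s * (Z * 1)) := by gcongr
      _ = _ := by ring
  have a5 : 2 * Real.pi * pw J (-(1 / 24)) * pw J (-(1 / 12)) * V * 4 ≤ ε * (8 * Real.pi * C0 * Z) := by
    calc 2 * Real.pi * pw J (-(1 / 24)) * pw J (-(1 / 12)) * V * 4 =
          8 * Real.pi * pw J (-(1 / 12)) * (pw J (-(1 / 24)) * V) := by ring
      _ ≤ 8 * Real.pi * ε * (C0 * Z) := by
          have := pw_pos J (-(1 / 24))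
          gcongr
      _ = _ := by ring
  have hfinal : ε * ((2 * C0 + 24 + 16 * Real.pi * C0 + 2 * 2 ^ s) * Z) = ε * (2 * C0 * Z) + ε * (24 * Z) +
      ε * (8 * Real.pi * C0 * Z) + ε * (2 * 2 ^ s * Z) + ε * (8 * Real.pi * C0 * Z) := by ring
  rw [← hZ, hfinal]
  linarith

end

end Pool.Agent.Run7.h927.WS
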